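import Pool.Agent.Work.MP_223b32_FF.Interface

/-!
Auxiliary facts on finite fields for the block FROB.
-/

namespace Pool.Agent.Work.FF.FROBAux

open Polynomial Finset

section Fin

variable {K : Type} [Field K] {ℓ : ℕ} [Fact ℓ.Prime] [CharP K ℓ] (ι : ZMod ℓ →+* K)

theorem card_adjoin {f : (ZMod ℓ)[X]} (hf : Irreducible f) :
    haveI : Fact (Irreducible f) := ⟨hf⟩
    Finite (AdjoinRoot f) ∧ Nat.card (AdjoinRoot f) = ℓ ^ f.natDegree := by
  have : Fact (Irreducible f) := ⟨hf⟩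
  have hfd : Module.Finite (ZMod ℓ) (AdjoinRoot f) :=
    (AdjoinRoot.powerBasis hf.ne_zero).finite
  have hfin : Finite (AdjoinRoot f) := Module.finite_of_finite (ZMod ℓ)
  refine ⟨hfin, ?_⟩
  rw [Module.natCard_eq_pow_finrank (K := ZMod ℓ), Nat.card_zmod,
    PowerBasis.finrank (AdjoinRoot.powerBasis hf.ne_zero), AdjoinRoot.powerBasis_dim]

theorem adjoin_pow {f : (ZMod ℓ)[X]} (hf : Irreducible f) (w : AdjoinRoot f) :
    w ^ (ℓ ^ f.natDegree) = w := by
  have : Fact (Irreducible f) := ⟨hf⟩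
  obtain ⟨hfin, hcard⟩ := card_adjoin hf
  have := Fintype.ofFinite (AdjoinRoot f)
  rw [← hcard, Nat.card_eq_fintype_card]
  exact FiniteField.pow_card w

theorem root_pow {f : (ZMod ℓ)[X]} (hf : Irreducible f) {α : K} (hα : f.eval₂ ι α = 0) :
    α ^ (ℓ ^ f.natDegree) = α := by
  have : Fact (Irreducible f) := ⟨hf⟩
  have h1 := congrArg (AdjoinRoot.lift ι α hα) (adjoin_pow hf (AdjoinRoot.root f))
  rwa [map_pow, AdjoinRoot.lift_root] at h1

theorem fixed_mem {f : (ZMod ℓ)[X]} (hf : Irreducible f) {α : K} (hα : f.eval₂ ι α = 0) {u : K}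
    (hu : u ^ (ℓ ^ f.natDegree) = u) : ∃ w : AdjoinRoot f, AdjoinRoot.lift ι α hα w = u := by
  classical
  have : Fact (Irreducible f) := ⟨hf⟩
  obtain ⟨hfin, hcard⟩ := card_adjoin hf
  have := Fintype.ofFinite (AdjoinRoot f)
  have hℓ : 1 < ℓ := (Fact.out : ℓ.Prime).one_lt
  have hd : f.natDegree ≠ 0 := (hf.natDegree_pos).ne'
  have h1 : 1 < ℓ ^ f.natDegree := Nat.one_lt_pow hd hℓ
  set n := ℓ ^ f.natDegree with hn
  have hne : (X ^ n - X : K[X]) ≠ 0 := FiniteField.X_pow_card_sub_X_ne_zero K h1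
  have hdeg : (X ^ n - X : K[X]).natDegree = n := FiniteField.X_pow_card_sub_X_natDegree_eq K h1
  have hinj : Function.Injective (AdjoinRoot.lift ι α hα) := RingHom.injective _
  have hsub : (univ.image (AdjoinRoot.lift ι α hα)) ⊆ (X ^ n - X : K[X]).roots.toFinset := by
    intro z hz
    obtain ⟨w, -, rfl⟩ := mem_image.1 hz
    rw [Multiset.mem_toFinset, mem_roots hne, IsRoot.def, eval_sub, eval_pow, eval_X, ← map_pow,
      adjoin_pow hf, sub_self]
  have hle : (X ^ n - X : K[X]).roots.toFinset.card ≤ (univ.image (AdjoinRoot.lift ι α hα)).card := by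
    rw [card_image_of_injective _ hinj, card_univ, ← Nat.card_eq_fintype_card, hcard]
    calc _ ≤ Multiset.card (X ^ n - X : K[X]).roots := Multiset.toFinset_card_le _
      _ ≤ (X ^ n - X : K[X]).natDegree := card_roots' _
      _ = _ := hdeg
  have heq := eq_of_subset_of_card_le hsub hle
  have hmem : u ∈ (X ^ n - X : K[X]).roots.toFinset := by
    rw [Multiset.mem_toFinset, mem_roots hne, IsRoot.def, eval_sub, eval_pow, eval_X, hu, sub_self]
  rw [← heq] at hmem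
  obtain ⟨w, -, hw⟩ := mem_image.1 hmem
  exact ⟨w, hw⟩

/-- the roots of an irreducible polynomial are conjugate under the Frobenius map. -/
theorem conj {f : (ZMod ℓ)[X]} (hf : Irreducible f) {α β : K} (hα : f.eval₂ ι α = 0)
    (hβ : f.eval₂ ι β = 0) : ∃ n : ℕ, α ^ (ℓ ^ n) = β := by
  set d := f.natDegree with hd
  have hpow : α ^ (ℓ ^ d) = α := root_pow ι hf hα
  set P : K[X] := ∏ n ∈ range d, (X - C (α ^ (ℓ ^ n))) with hP
  have hmap : P.map (frobenius K ℓ) = P := by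
    have h1 : P.map (frobenius K ℓ) = ∏ n ∈ range d, (X - C (α ^ (ℓ ^ (n + 1)))) := by
      rw [hP, Polynomial.map_prod]
      refine prod_congr rfl fun n _ => ?_
      rw [Polynomial.map_sub, map_X, map_C, frobenius_def, ← pow_mul, pow_succ]
    have h2 : (X - C (α ^ (ℓ ^ 0))) * P.map (frobenius K ℓ) = (X - C (α ^ (ℓ ^ 0))) * P := by
      rw [h1, mul_comm, ← prod_range_succ' (fun n => (X - C (α ^ (ℓ ^ n)))) d, prod_range_succ,
        hpow, pow_zero, pow_one, mul_comm]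
    exact mul_left_cancel₀ (X_sub_C_ne_zero _) h2
  have hlift : P ∈ Polynomial.lifts ι := by
    rw [Polynomial.lifts_iff_coeff_lifts]
    intro n
    have h1 : (P.coeff n) ^ ℓ = P.coeff n := by
      have := congrArg (fun p => p.coeff n) hmap
      simpa [coeff_map, frobenius_def] using this
    have h8 : P.coeff n ∈ (⊥ : Subfield K) := (Subfield.mem_bot_iff_pow_eq_self K ℓ).2 h1
    obtain ⟨m, hm⟩ := (mem_bot_iff_intCast ℓ K).1 h8
    exact ⟨m, by rw [← hm, map_intCast]⟩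
  obtain ⟨P0, hP0⟩ := (Polynomial.mem_lifts _).1 hlift
  have hd0 : 0 < d := hf.natDegree_pos
  have hP0α : P0.eval₂ ι α = 0 := by
    rw [← eval_map, hP0, hP, eval_prod]
    exact prod_eq_zero (mem_range.2 hd0) (by simp)
  have hdvd : f ∣ P0 := by
    by_contra hnd
    have hcop : IsCoprime f P0 := (hf.coprime_iff_not_dvd).2 hnd
    obtain ⟨a, b, hab⟩ := hcop
    have := congrArg (fun p => p.eval₂ ι α) hab
    simp [eval₂_add, eval₂_mul, hα, hP0α] at this
  obtain ⟨r, hr⟩ := hdvd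
  have hP0β : P0.eval₂ ι β = 0 := by rw [hr, eval₂_mul, hβ, zero_mul]
  rw [← eval_map, hP0, hP, eval_prod, prod_eq_zero_iff] at hP0β
  obtain ⟨n, -, hn⟩ := hP0β
  refine ⟨n, ?_⟩
  rw [eval_sub, eval_X, eval_C] at hn
  exact (sub_eq_zero.1 hn).symm

theorem eval_frob (f : (ZMod ℓ)[X]) (α : K) : f.eval₂ ι (α ^ ℓ) = (f.eval₂ ι α) ^ ℓ := by
  have h1 := Polynomial.hom_eval₂ f ι (frobenius K ℓ) α
  rw [frobenius_def] at h1
  rw [h1]
  congr 1
  exact Subsingleton.elim _ _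

/-- A root of an irreducible polynomial of degree at least three is no square root. -/
theorem disc_ne {f : (ZMod ℓ)[X]} (hf : Irreducible f) (h3 : 3 ≤ f.natDegree) {α : K}
    (hα : f.eval₂ ι α = 0) (c : ZMod ℓ) : α ^ 2 - ι c ≠ 0 := by
  intro h0
  have hP : (X ^ 2 - C c : (ZMod ℓ)[X]).eval₂ ι α = 0 := by
    simpa [eval₂_sub, eval₂_pow] using h0
  have hdeg : (X ^ 2 - C c : (ZMod ℓ)[X]).natDegree = 2 := natDegree_X_pow_sub_C
  have hne : (X ^ 2 - C c : (ZMod ℓ)[X]) ≠ 0 := by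
    intro h; rw [h] at hdeg; simp at hdeg
  have hdvd : f ∣ (X ^ 2 - C c) := by
    by_contra hnd
    have hcop : IsCoprime f (X ^ 2 - C c) := (hf.coprime_iff_not_dvd).2 hnd
    obtain ⟨a, b, hab⟩ := hcop
    have := congrArg (fun p => p.eval₂ ι α) hab
    simp only [eval₂_add, eval₂_mul, hα, hP, mul_zero, add_zero, eval₂_one] at this
    exact zero_ne_one this
  have := natDegree_le_of_dvd hdvd hne
  omega

end Fin

/-- the exponent `N`. -/
theorem exists_N {d₁ d₂ d₃ e : ℕ} (h1 : 0 < d₁) (h3 : 0 < d₃) (he : 2 ^ e ∣ d₂)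
    (he1 : ¬ 2 ^ e ∣ d₁) (he3 : ¬ 2 ^ e ∣ d₃) :
    ∃ N M : ℕ, N = d₂ * M ∧ Odd M ∧ 2 * d₁ ∣ N ∧ 2 * d₃ ∣ N := by
  have key : ∀ d : ℕ, 0 < d → ¬ 2 ^ e ∣ d → ∃ m, Odd m ∧ 2 * d ∣ d₂ * m := by
    intro d hd hnd
    obtain ⟨v, m, hm, hdm⟩ := Nat.exists_eq_two_pow_mul_odd hd.ne'
    refine ⟨m, hm, ?_⟩
    have hve : v < e := by
      by_contra hle
      push Not at hle
      exact hnd (hdm ▸ (pow_dvd_pow 2 hle).trans (dvd_mul_right _ _))
    have h4 : 2 ^ (v + 1) ∣ d₂ := (pow_dvd_pow 2 hve).trans he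
    rw [hdm, ← mul_assoc, ← pow_succ']
    exact mul_dvd_mul h4 dvd_rfl
  obtain ⟨m1, hm1, hd1⟩ := key d₁ h1 he1
  obtain ⟨m3, hm3, hd3⟩ := key d₃ h3 he3
  refine ⟨d₂ * (m1 * m3), m1 * m3, rfl, hm1.mul hm3, ?_, ?_⟩
  · rw [← mul_assoc]
    exact dvd_mul_of_dvd_left hd1 _
  · rw [mul_comm m1, ← mul_assoc]
    exact dvd_mul_of_dvd_left hd3 _

end Pool.Agent.Work.FF.FROBAux
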