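import Pool.Agent.Work.MP_223b32_FF.Interface

/-!
Block FINAL, part A: the sieve in a cube.
-/

namespace Pool.Agent.Work.FF

open Polynomial Finset Pool.Agent.Work.MP_223b32_ag_56

/-- Exceptions are reducible or have no good prime. -/
theorem exceptional_sub (hG : Stmt_GAL) {p a g k d₁ d₂ d₃ A Z : ℕ} (hp : p.Prime) (ha : 0 < a)
    (hadm : Adm g k d₁ d₂ d₃) (hA : 3 ≤ A) :
    exceptional (p ^ a) g ⊆ {h ∈ realWeil (p ^ a) g | ¬ Irreducible (h.map (Int.castRingHom ℚ))} ∪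
      (realWeil (p ^ a) g ∩ {h : ℤ[X] | ∀ ℓ ∈ (range (Z + 1)).filter
        (fun ℓ => ℓ.Prime ∧ A ≤ ℓ ∧ ℓ ≠ p), ¬ Pattern (p ^ a) ℓ d₁ d₂ d₃
          (h.map (Int.castRingHom (ZMod ℓ)))}) := by
  rintro h ⟨hh, hnt⟩
  by_cases hirr : Irreducible (h.map (Int.castRingHom ℚ))
  swap
  · exact Or.inl ⟨hh, hirr⟩
  refine Or.inr ⟨hh, fun ℓ hℓ hpat => hnt ?_⟩
  obtain ⟨-, h1, h2, h3⟩ := mem_filter.1 hℓ
  have : Fact ℓ.Prime := ⟨h1⟩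
  refine hG (p ^ a) ℓ g k d₁ d₂ d₃ h (Nat.one_lt_pow ha.ne' hp.one_lt) (by omega) ?_ hadm hh.1
    hh.2.1 hirr hpat
  rw [Ne, ZMod.natCast_eq_zero_iff]
  intro h5
  exact h3 ((Nat.prime_dvd_prime_iff_eq h1 hp).1 (h1.dvd_of_dvd_pow h5))

theorem glue_map {R S : Type*} (φ : R → S) {g k : ℕ} (c : Fin (g - k) → R) (t : Fin g → R)
    (i : Fin g) : φ (glue c t i) = glue (fun i => φ (c i)) (fun i => φ (t i)) i := by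
  unfold glue
  split_ifs
  · rfl
  · rfl

open Classical in
/-- The residue classes with the pattern. -/
noncomputable def patC (q g k d₁ d₂ d₃ : ℕ) (t : Fin g → ℤ) (ℓ : ℕ) :
    Finset (Fin (g - k) → ZMod ℓ) :=
  if h : ℓ = 0 then ∅ else
    haveI : NeZero ℓ := ⟨h⟩
    univ.filter fun c => Pattern q ℓ d₁ d₂ d₃ (mk (glue c fun i => (t i : ZMod ℓ)))

theorem mem_patC {q g k d₁ d₂ d₃ ℓ : ℕ} {t : Fin g → ℤ} (hℓ : ℓ ≠ 0)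
    {c : Fin (g - k) → ZMod ℓ} : c ∈ patC q g k d₁ d₂ d₃ t ℓ ↔
      Pattern q ℓ d₁ d₂ d₃ (mk (glue c fun i => (t i : ZMod ℓ))) := by
  classical
  simp [patC, dif_neg hℓ]

theorem card_patC (hPa : Stmt_PATT) {q g k d₁ d₂ d₃ ℓ : ℕ} (hℓ : ℓ.Prime) (t : Fin g → ℤ)
    (hadm : Adm g k d₁ d₂ d₃) (hbig : 100 * g < ℓ) (hq : (q : ZMod ℓ) ≠ 0) :
    1 / (16 * (g : ℝ) ^ 3) * (ℓ : ℝ) ^ (g - k) ≤ ((patC q g k d₁ d₂ d₃ t ℓ).card : ℝ) := by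
  classical
  have : Fact ℓ.Prime := ⟨hℓ⟩
  have h1 := hPa ℓ q g k d₁ d₂ d₃ hadm hbig hq (fun i => (t i : ZMod ℓ))
  have h2 : ({c : Fin (g - k) → ZMod ℓ | Pattern q ℓ d₁ d₂ d₃
      (mk (glue c fun i => (t i : ZMod ℓ)))}) =
      ((patC q g k d₁ d₂ d₃ t ℓ : Finset (Fin (g - k) → ZMod ℓ)) : Set (Fin (g - k) → ZMod ℓ)) := by
    ext c
    rw [Set.mem_ofPred_eq, mem_coe, mem_patC hℓ.ne_zero]
  rw [h2, Set.ncard_coe_finset] at h1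
  refine le_trans (le_of_eq ?_) h1
  ring

/-- The sieve in one cube. -/
theorem cube_sieve (hS : Stmt_CSIEVE) (hPa : Stmt_PATT) {p a g k d₁ d₂ d₃ A Z R : ℕ}
    (hp : p.Prime) (hadm : Adm g k d₁ d₂ d₃) (hA : 100 * g < A) (hg : 1 ≤ g)
    {ρ : ℝ} (hρ0 : 0 ≤ ρ) (hρ1 : ρ ≤ 1) (hZ : (Z : ℝ) ^ 2 ≤ ρ * R)
    (hN : 0 < ((range (Z + 1)).filter fun ℓ => ℓ.Prime ∧ A ≤ ℓ ∧ ℓ ≠ p).card)
    (t : Fin g → ℤ) (u : Fin (g - k) → ℤ) :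
    ({c : Fin (g - k) → ℤ | (∀ i, u i ≤ c i ∧ c i < u i + R) ∧ mk (glue c t) ∈
      {h : ℤ[X] | ∀ ℓ ∈ (range (Z + 1)).filter
        (fun ℓ => ℓ.Prime ∧ A ≤ ℓ ∧ ℓ ≠ p), ¬ Pattern (p ^ a) ℓ d₁ d₂ d₃
          (h.map (Int.castRingHom (ZMod ℓ)))}}.ncard : ℝ) ≤
      (256 * (g : ℝ) ^ 6 / (((range (Z + 1)).filter fun ℓ => ℓ.Prime ∧ A ≤ ℓ ∧ ℓ ≠ p).card : ℝ) +
        3 * (2 ^ (g - k) * ρ)) * (R : ℝ) ^ (g - k) := by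
  classical
  set P := (range (Z + 1)).filter fun ℓ => ℓ.Prime ∧ A ≤ ℓ ∧ ℓ ≠ p with hP
  have hNpos : (0 : ℝ) < P.card := by exact_mod_cast hN
  have hgpos : (0 : ℝ) < g := by exact_mod_cast hg
  have hPmem : ∀ ℓ ∈ P, ℓ.Prime ∧ A ≤ ℓ ∧ ℓ ≤ Z ∧ ((p ^ a : ℕ) : ZMod ℓ) ≠ 0 := by
    intro ℓ hℓ
    obtain ⟨h1, h2, h3, h4⟩ := mem_filter.1 hℓ
    refine ⟨h2, h3, Nat.lt_succ_iff.1 (mem_range.1 h1), ?_⟩
    rw [Ne, ZMod.natCast_eq_zero_iff]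
    intro h5
    exact h4 ((Nat.prime_dvd_prime_iff_eq h2 hp).1 (h2.dvd_of_dvd_pow h5))
  have key := hS (g - k) R u P (patC (p ^ a) g k d₁ d₂ d₃ t) (1 / (16 * (g : ℝ) ^ 3)) ρ Z
    (fun ℓ hℓ => (hPmem ℓ hℓ).1) (by positivity)
    (fun ℓ hℓ => card_patC hPa (hPmem ℓ hℓ).1 t hadm (by have := (hPmem ℓ hℓ).2.1; omega)
      (hPmem ℓ hℓ).2.2.2) hρ0 hρ1
    (fun ℓ hℓ => by exact_mod_cast (hPmem ℓ hℓ).2.2.1) hZ
  have hset : {c : Fin (g - k) → ℤ | (∀ i, u i ≤ c i ∧ c i < u i + R) ∧ mk (glue c t) ∈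
      {h : ℤ[X] | ∀ ℓ ∈ P, ¬ Pattern (p ^ a) ℓ d₁ d₂ d₃ (h.map (Int.castRingHom (ZMod ℓ)))}} =
      (((Fintype.piFinset fun i => Ico (u i) (u i + R)).filter
        fun b => ∀ ℓ ∈ P, red ℓ b ∉ patC (p ^ a) g k d₁ d₂ d₃ t ℓ : Finset (Fin (g - k) → ℤ)) :
        Set (Fin (g - k) → ℤ)) := by
    ext c
    rw [mem_coe, mem_filter, Fintype.mem_piFinset, Set.mem_ofPred_eq]
    refine and_congr (forall_congr' fun i => (mem_Ico).symm) ?_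
    rw [Set.mem_ofPred_eq]
    refine forall₂_congr fun ℓ hℓ => ?_
    rw [mem_patC (hPmem ℓ hℓ).1.ne_zero]
    have h1 : (mk (glue c t)).map (Int.castRingHom (ZMod ℓ)) =
        mk (glue (red ℓ c) fun i => (t i : ZMod ℓ)) := by
      rw [mk_map]
      congr 1
      funext i
      exact glue_map (Int.castRingHom (ZMod ℓ)) c t i
    rw [h1]
  rw [hset, Set.ncard_coe_finset]
  have h2 : (1 : ℝ) / (1 / (16 * (g : ℝ) ^ 3)) ^ 2 = 256 * (g : ℝ) ^ 6 := by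
    field_simp
    ring
  rw [h2] at key
  have h3 : (256 * (g : ℝ) ^ 6 / (P.card : ℝ) + 3 * (2 ^ (g - k) * ρ)) * (R : ℝ) ^ (g - k) =
      (R : ℝ) ^ (g - k) * (256 * (g : ℝ) ^ 6 + 3 * (2 ^ (g - k) * ρ) * P.card) / P.card := by
    field_simp
  rw [h3, le_div_iff₀ hNpos, mul_comm]
  exact key


end Pool.Agent.Work.FF
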