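import Pool.Agent.Work.MP_223b32_FF.Interface

/-!
Block FINAL, part B: inequalities.
-/

namespace Pool.Agent.Work.FF

theorem pow_le_pow_aux {C z : ℝ} {g k : ℕ} (hC : 1 ≤ C) (hz : C ^ 10 ≤ z) (hgk : g ≤ 1000 * k) :
    C ^ g ≤ z ^ (100 * k) := by
  calc C ^ g ≤ C ^ (1000 * k) := pow_le_pow_right₀ hC hgk
    _ = (C ^ 10) ^ (100 * k) := by rw [← pow_mul]; congr 1; ring
    _ ≤ z ^ (100 * k) := pow_le_pow_left₀ (by positivity) hz _

theorem nat_le_two_pow (g : ℕ) : (g : ℝ) ≤ 2 ^ g := by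
  exact_mod_cast Nat.lt_two_pow_self.le

/-- Choice of the parameters. -/
theorem params {g k Z₀ : ℕ} {y : ℝ} (hg : 1 ≤ g)
    (hCg : ∀ C : ℝ, 1 ≤ C → C ≤ 10 ^ 13 → C ^ g ≤ y) (hy2 : 2 * (Z₀ : ℝ) ≤ y) (hy6 : 6 ≤ y) :
    ∃ (Z R : ℕ) (ρ : ℝ), 1 ≤ R ∧ (R : ℝ) * 300 ^ g ≤ y ^ 8 ∧ 0 ≤ ρ ∧ ρ ≤ 1 ∧
      (Z : ℝ) ^ 2 ≤ ρ * R ∧ 2 ^ (g - k) * ρ ≤ 1 / Z ∧ y / 2 ≤ Z ∧ (100 * g + 1) ^ 2 ≤ Z ∧
      Z₀ ≤ Z ∧ 3 ≤ Z := by
  have hy1 : 1 ≤ y := by linarith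
  have hg1 : (1 : ℝ) ≤ g := by exact_mod_cast hg
  have h2pow : (2 : ℝ) ≤ 2 ^ g := le_self_pow₀ (by norm_num) (by omega)
  set Z : ℕ := ⌊y⌋₊ with hZ
  have hZy : (Z : ℝ) ≤ y := Nat.floor_le (by linarith)
  have hZy2 : y / 2 ≤ Z := by
    have := Nat.lt_floor_add_one y
    rw [← hZ] at this
    linarith
  have hZpos : (0 : ℝ) < Z := by linarith
  have hw : (1200 : ℝ) ^ g ≤ y := hCg 1200 (by norm_num) (by norm_num)
  set R : ℕ := ⌊y ^ 8 / 300 ^ g⌋₊ with hRdef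
  have hR1 : (R : ℝ) * 300 ^ g ≤ y ^ 8 := by
    rw [← le_div_iff₀ (by positivity)]
    exact Nat.floor_le (by positivity)
  have hyy : y ≤ y ^ 8 := le_self_pow₀ hy1 (by norm_num)
  have hbig : 2 * 300 ^ g ≤ y ^ 8 := by
    calc (2 : ℝ) * 300 ^ g ≤ 4 ^ g * 300 ^ g := by
          gcongr
          calc (2 : ℝ) ≤ 2 ^ g := h2pow
            _ ≤ 4 ^ g := by gcongr; norm_num
      _ = 1200 ^ g := by rw [← mul_pow]; norm_num
      _ ≤ y := hw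
      _ ≤ y ^ 8 := hyy
  have hR2 : y ^ 8 / (2 * 300 ^ g) ≤ R := by
    have h1 := Nat.lt_floor_add_one (y ^ 8 / 300 ^ g)
    rw [← hRdef] at h1
    have h2 : 2 ≤ y ^ 8 / 300 ^ g := by
      rw [le_div_iff₀ (by positivity)]
      exact hbig
    have h3 : y ^ 8 / (2 * 300 ^ g) = y ^ 8 / 300 ^ g / 2 := by
      rw [mul_comm, div_div]
    rw [h3]
    linarith
  have hypos : 0 < y := by linarith
  have hRpos : (0 : ℝ) < R := lt_of_lt_of_le (by positivity) hR2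
  have hRnat : 1 ≤ R := by
    have : 0 < R := by exact_mod_cast hRpos
    omega
  have hZ3R : 2 ^ g * (Z : ℝ) ^ 3 ≤ R := by
    refine le_trans ?_ hR2
    rw [le_div_iff₀ (by positivity)]
    calc 2 ^ g * (Z : ℝ) ^ 3 * (2 * 300 ^ g) ≤ 2 ^ g * y ^ 3 * (2 ^ g * 300 ^ g) := by gcongr
      _ = 1200 ^ g * y ^ 3 := by
          rw [show (1200 : ℝ) = 2 * 2 * 300 by norm_num, mul_pow, mul_pow]; ring
      _ ≤ y * y ^ 3 := by gcongr
      _ ≤ y ^ 4 * y ^ 4 := by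
          rw [show y * y ^ 3 = y ^ 4 by ring]
          exact le_mul_of_one_le_right (by positivity) (one_le_pow₀ hy1)
      _ = y ^ 8 := by ring
  have hZ3 : 3 ≤ Z := by
    have : (3 : ℝ) ≤ Z := by linarith
    exact_mod_cast this
  have hZ1 : (1 : ℝ) ≤ Z := by linarith
  have h2ρ : 2 ^ (g - k) * ((Z : ℝ) ^ 2 / R) ≤ 1 / Z := by
    rw [le_div_iff₀ hZpos]
    rw [← mul_div_assoc, div_mul_eq_mul_div, div_le_one hRpos]
    calc 2 ^ (g - k) * (Z : ℝ) ^ 2 * Z = 2 ^ (g - k) * (Z : ℝ) ^ 3 := by ring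
      _ ≤ 2 ^ g * (Z : ℝ) ^ 3 := by
          gcongr
          · norm_num
          · omega
      _ ≤ R := hZ3R
  have hρ0 : 0 ≤ (Z : ℝ) ^ 2 / R := by positivity
  refine ⟨Z, R, (Z : ℝ) ^ 2 / R, hRnat, hR1, hρ0, ?_, ?_, h2ρ, hZy2, ?_, ?_, hZ3⟩
  · have h1 : (Z : ℝ) ^ 2 / R ≤ 2 ^ (g - k) * ((Z : ℝ) ^ 2 / R) :=
      le_mul_of_one_le_left hρ0 (one_le_pow₀ (by norm_num))
    have h2 : 1 / (Z : ℝ) ≤ 1 := by rw [div_le_one hZpos]; exact hZ1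
    linarith
  · rw [div_mul_cancel₀ _ hRpos.ne']
  · have h1 : (((100 * g + 1) ^ 2 : ℕ) : ℝ) ≤ Z := by
      refine le_trans ?_ hZy2
      rw [le_div_iff₀ (by norm_num)]
      push_cast
      calc (100 * (g : ℝ) + 1) ^ 2 * 2 ≤ (101 * (g : ℝ)) ^ 2 * 2 := by
            gcongr
            linarith
        _ = 20402 * (g : ℝ) ^ 2 := by ring
        _ ≤ 20402 ^ g * (2 ^ g) ^ 2 := by
            gcongr
            · exact le_self_pow₀ (by norm_num) (by omega)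
            · exact nat_le_two_pow g
        _ = 81608 ^ g := by
            rw [← pow_mul, mul_comm g 2, pow_mul, ← mul_pow]; norm_num
        _ ≤ y := hCg _ (by norm_num) (by norm_num)
    exact_mod_cast h1
  · have h1 : (Z₀ : ℝ) ≤ Z := by linarith
    exact_mod_cast h1

/-- The saving. -/
theorem saving {g k Z : ℕ} {x y ρ N : ℝ} (hxy : x ^ 2 = y) (hx1 : 1 ≤ x) (hg1 : (1 : ℝ) ≤ g)
    (h2ρ : 2 ^ (g - k) * ρ ≤ 1 / Z) (hZy : y / 2 ≤ Z) (hZ3 : (3 : ℝ) ≤ Z)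
    (hN : (Z : ℝ) / (4 * Real.log Z) ≤ N) :
    0 < N ∧ 256 * (g : ℝ) ^ 6 / N + 3 * (2 ^ (g - k) * ρ) ≤ 4102 * (g : ℝ) ^ 6 / x := by
  have hy1 : 1 ≤ y := by rw [← hxy]; exact one_le_pow₀ hx1
  have hZpos : (0 : ℝ) < Z := by linarith
  have hlogpos : 0 < Real.log Z := Real.log_pos (by linarith)
  have hNpos : 0 < N := lt_of_lt_of_le (by positivity) hN
  refine ⟨hNpos, ?_⟩
  have hsqrtZ : x / 2 ≤ √(Z : ℝ) := by
    refine Real.le_sqrt_of_sq_le ?_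
    have : (x / 2) ^ 2 = y / 4 := by rw [div_pow, hxy]; norm_num
    rw [this]
    linarith
  have hNx : 1 / N ≤ 16 / x := by
    have h1 : Real.log Z ≤ 2 * √(Z : ℝ) := by
      have h2 : Real.log (√(Z : ℝ)) ≤ √(Z : ℝ) - 1 :=
        Real.log_le_sub_one_of_pos (Real.sqrt_pos.2 hZpos)
      rw [Real.log_sqrt hZpos.le] at h2
      linarith
    have h3 : √(Z : ℝ) * √(Z : ℝ) = Z := Real.mul_self_sqrt hZpos.le
    have h4 : √(Z : ℝ) / 8 ≤ N := by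
      refine le_trans ?_ hN
      rw [div_le_div_iff₀ (by norm_num) (by positivity)]
      nlinarith [Real.sqrt_nonneg (Z : ℝ)]
    rw [div_le_div_iff₀ hNpos (by positivity)]
    linarith
  have hg6 : (1 : ℝ) ≤ (g : ℝ) ^ 6 := one_le_pow₀ hg1
  have h1 : 256 * (g : ℝ) ^ 6 / N ≤ 256 * (g : ℝ) ^ 6 * (16 / x) := by
    rw [div_eq_mul_one_div]
    gcongr
  have h2 : 3 * (2 ^ (g - k) * ρ) ≤ 6 / x := by
    have h3 : 1 / (Z : ℝ) ≤ 2 / y := by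
      rw [div_le_div_iff₀ hZpos (by positivity)]
      linarith
    have h4 : 2 / y ≤ 2 / x := by
      gcongr
      rw [← hxy]
      nlinarith
    have h5 : 6 / x = 3 * (2 / x) := by ring
    rw [h5]
    linarith
  have h6 : 6 / x ≤ 6 * (g : ℝ) ^ 6 / x := by
    gcongr
    linarith
  calc 256 * (g : ℝ) ^ 6 / N + 3 * (2 ^ (g - k) * ρ) ≤
        256 * (g : ℝ) ^ 6 * (16 / x) + 6 * (g : ℝ) ^ 6 / x := by linarith
    _ = 4102 * (g : ℝ) ^ 6 / x := by ring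

/-- The first term. -/
theorem term1 {g k M : ℕ} {z O U : ℝ} (hz1 : 1 ≤ z) (hO : 0 ≤ O)
    (hC : (1200000 : ℝ) ^ g ≤ z ^ (100 * k)) (hM : 100 * k + 2 * M + 300 * k ≤ M * (g - 1))
    (hU0 : 0 ≤ U) (hU : U ≤ z ^ (2 * M) * 2000 ^ g * O) :
    (g : ℝ) * 300 ^ g / (z ^ M) ^ (g - 1) * U ≤ 1 / z ^ (300 * k) * O := by
  have hzpos : 0 < z := by linarith
  rw [← pow_mul]
  have e2 : (g : ℝ) * 300 ^ g / z ^ (M * (g - 1)) * U ≤
      (2 ^ g * 300 ^ g) / z ^ (M * (g - 1)) * (z ^ (2 * M) * 2000 ^ g * O) := by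
    gcongr
    exact nat_le_two_pow g
  refine e2.trans ?_
  have e3 : (2 ^ g * 300 ^ g) / z ^ (M * (g - 1)) * (z ^ (2 * M) * 2000 ^ g * O) =
      (1200000 ^ g * z ^ (2 * M) / z ^ (M * (g - 1))) * O := by
    rw [show (1200000 : ℝ) = 2 * 300 * 2000 by norm_num, mul_pow, mul_pow]
    ring
  rw [e3]
  refine mul_le_mul_of_nonneg_right ?_ hO
  rw [div_le_div_iff₀ (by positivity) (by positivity), one_mul]
  calc 1200000 ^ g * z ^ (2 * M) * z ^ (300 * k) ≤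
        z ^ (100 * k) * z ^ (2 * M) * z ^ (300 * k) := by gcongr
    _ = z ^ (100 * k + 2 * M + 300 * k) := by rw [← pow_add, ← pow_add]
    _ ≤ z ^ (M * (g - 1)) := pow_le_pow_right₀ hz1 hM

/-- The second term. -/
theorem term2 {g k M : ℕ} {z O U : ℝ} (hz1 : 1 ≤ z) (hg : 1 ≤ g) (hO : 0 ≤ O)
    (hC : (105011200000 : ℝ) ^ g ≤ z ^ (100 * k)) (hM : 2 * M ≤ 100 * k)
    (hU0 : 0 ≤ U) (hU : U ≤ z ^ (2 * M) * 2000 ^ g * O) :
    (4102 * (g : ℝ) ^ 6 / z ^ (500 * k)) * (200 ^ g * U) ≤ 1 / z ^ (300 * k) * O := by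
  have hzpos : 0 < z := by linarith
  calc (4102 * (g : ℝ) ^ 6 / z ^ (500 * k)) * (200 ^ g * U) ≤
        (4102 ^ g * (2 ^ g) ^ 6 / z ^ (500 * k)) *
          (200 ^ g * (z ^ (2 * M) * 2000 ^ g * O)) := by
        gcongr
        · exact le_self_pow₀ (by norm_num) (by omega)
        · exact nat_le_two_pow g
    _ = (105011200000 ^ g * z ^ (2 * M) / z ^ (500 * k)) * O := by
        have : ((2 : ℝ) ^ g) ^ 6 = 64 ^ g := by
          rw [← pow_mul, mul_comm g 6, pow_mul]; norm_num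
        rw [this, show (105011200000 : ℝ) = 4102 * 64 * 200 * 2000 by norm_num, mul_pow, mul_pow,
          mul_pow]
        ring
    _ ≤ 1 / z ^ (300 * k) * O := by
        refine mul_le_mul_of_nonneg_right ?_ hO
        rw [div_le_div_iff₀ (by positivity) (by positivity), one_mul]
        calc 105011200000 ^ g * z ^ (2 * M) * z ^ (300 * k) ≤
              z ^ (100 * k) * z ^ (100 * k) * z ^ (300 * k) := by
                gcongr
          _ = z ^ (500 * k) := by rw [← pow_add, ← pow_add]; congr 1; ring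

end Pool.Agent.Work.FF
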