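import Pool.Agent.Work.MP_223b32_FF.Interface

/-!
Block ARITH of the project fixed finite field, dimension to infinity (MP_223b32_ag):
admissible degrees exist.
-/

namespace Pool.Agent.Work.FF

/-- ARITH -/
theorem stmt_ARITH : Stmt_ARITH := by
  refine ⟨3000, fun g hg => ?_⟩
  have hg100 : g / 100 ≠ 0 := by omega
  set a := Nat.log 3 (g / 100) with ha
  have h1 : 3 ^ a ≤ g / 100 := Nat.pow_log_le_self 3 hg100
  have h2 : g / 100 < 3 ^ (a + 1) := Nat.lt_pow_succ_log_self (by norm_num) _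
  rw [pow_succ] at h2
  have ha1 : a ≠ 0 := by
    intro h0
    rw [h0] at h2
    omega
  have hodd : 3 ^ a % 2 = 1 := by
    have : Odd (3 ^ a) := Odd.pow (by decide)
    exact Nat.odd_iff.1 this
  have h3 : 3 ^ a % 3 = 0 := Nat.mod_eq_zero_of_dvd (dvd_pow_self 3 ha1)
  have hcop : ∀ d : ℕ, d % 3 ≠ 0 → Nat.Coprime d (3 ^ a) := by
    intro d hd
    apply Nat.Coprime.pow_right
    rw [Nat.coprime_comm]
    exact (Nat.Prime.coprime_iff_not_dvd (by norm_num)).2 fun h0 => hd (Nat.mod_eq_zero_of_dvd h0)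
  set u := 3 ^ a with hu
  clear_value u
  rcases Nat.mod_two_eq_zero_or_one g with hg2 | hg2
  · by_cases h4 : g % 3 = 1
    · refine ⟨u, g - (u - 1) - u, u - 1, u, ⟨?_, ?_, ?_, ?_, ?_, ?_, ?_, ?_, ?_, 1, ?_, ?_, ?_⟩, ?_⟩
      all_goals first
        | omega
        | exact hcop _ (by omega)
    · refine ⟨u + 1, g - (u + 1) - u, u + 1, u, ⟨?_, ?_, ?_, ?_, ?_, ?_, ?_, ?_, ?_, 1, ?_, ?_, ?_⟩, ?_⟩
      all_goals first
        | omega
        | exact hcop _ (by omega)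
  · have hcop2 : ∀ d : ℕ, d % 3 ≠ 0 → d % 2 = 1 → Nat.Coprime d (2 * u) := by
      intro d hd hd2
      apply Nat.Coprime.mul_right
      · rw [Nat.coprime_comm]
        exact (Nat.Prime.coprime_iff_not_dvd (by norm_num)).2 (by omega)
      · exact hcop d hd
    by_cases h4 : g % 3 = 2
    · refine ⟨2 * u, g - (2 * u - 2) - 2 * u, 2 * u - 2, 2 * u,
        ⟨?_, ?_, ?_, ?_, ?_, ?_, ?_, ?_, ?_, 2, ?_, ?_, ?_⟩, ?_⟩
      all_goals first
        | omega
        | exact hcop2 _ (by omega) (by omega)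
    · refine ⟨2 * u + 2, g - (2 * u + 2) - 2 * u, 2 * u + 2, 2 * u,
        ⟨?_, ?_, ?_, ?_, ?_, ?_, ?_, ?_, ?_, 2, ?_, ?_, ?_⟩, ?_⟩
      all_goals first
        | omega
        | exact hcop2 _ (by omega) (by omega)

end Pool.Agent.Work.FF
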