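import Pool.Agent.Work.MP_223b32_FF.DIAG

/-!
COUNT3: number of triples with prescribed sums of traces of powers (helper76).
-/

namespace Pool.Agent.Work.FF

namespace COUNT3Aux

open Polynomial Finset MORDAux DIAGAux

section

variable {ℓ : ℕ} [Fact ℓ.Prime] {L : Type} [Field L] [Fintype L] [Algebra (ZMod ℓ) L]

/-- The polynomial with coefficients `v`. -/
noncomputable def pol (L : Type) [Field L] [Algebra (ZMod ℓ) L] {k : ℕ} (v : Fin k → ZMod ℓ) : L[X] :=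
  ∑ j : Fin k, C (algebraMap (ZMod ℓ) L (v j)) * X ^ ((j : ℕ) + 1)

omit [Fintype L] in
theorem pol_eval {k : ℕ} (v : Fin k → ZMod ℓ) (x : L) :
    (pol L v).eval x = ∑ j : Fin k, algebraMap (ZMod ℓ) L (v j) * x ^ ((j : ℕ) + 1) := by
  simp [pol, Polynomial.eval_finsetSum]

omit [Fintype L] in
theorem pol_coeff {k : ℕ} (v : Fin k → ZMod ℓ) (i : Fin k) :
    (pol L v).coeff ((i : ℕ) + 1) = algebraMap (ZMod ℓ) L (v i) := by
  rw [pol, Polynomial.finsetSum_coeff, Finset.sum_eq_single i]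
  · simp
  · intro j _ hj
    rw [Polynomial.coeff_C_mul_X_pow, if_neg]
    intro h
    exact hj (Fin.ext (by omega))
  · intro h
    exact absurd (Finset.mem_univ _) h

omit [Fintype L] in
theorem pol_coeff_zero {k : ℕ} (v : Fin k → ZMod ℓ) : (pol L v).coeff 0 = 0 := by
  rw [pol, Polynomial.finsetSum_coeff]
  refine Finset.sum_eq_zero fun j _ => ?_
  rw [Polynomial.coeff_C_mul_X_pow, if_neg (by omega)]

omit [Fintype L] in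
theorem pol_deg_le {k : ℕ} (v : Fin k → ZMod ℓ) : (pol L v).natDegree ≤ k := by
  refine Polynomial.natDegree_sum_le_of_forall_le _ _ fun j _ => ?_
  refine (Polynomial.natDegree_C_mul_X_pow_le _ _).trans ?_
  have := j.2
  omega

omit [Fintype L] in
theorem pol_deg_pos {k : ℕ} (v : Fin k → ZMod ℓ) (hv : v ≠ 0) : 1 ≤ (pol L v).natDegree := by
  by_contra h
  have h0 : (pol L v).natDegree = 0 := by omega
  have h1 := Polynomial.eq_C_of_natDegree_eq_zero h0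
  rw [pol_coeff_zero, map_zero] at h1
  apply hv
  funext i
  have h2 := pol_coeff (L := L) v i
  rw [h1, Polynomial.coeff_zero] at h2
  exact (map_eq_zero (algebraMap (ZMod ℓ) L)).1 h2.symm

/-- The additive character `ψ ∘ Tr`. -/
noncomputable def trc (L : Type) [Field L] [Algebra (ZMod ℓ) L] (ψ : AddChar (ZMod ℓ) ℂ) :
    AddChar L ℂ :=
  ψ.compAddMonoidHom (Algebra.trace (ZMod ℓ) L).toAddMonoidHom

omit [Fintype L] in
theorem trc_apply (ψ : AddChar (ZMod ℓ) ℂ) (x : L) :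
    trc L ψ x = ψ (Algebra.trace (ZMod ℓ) L x) := rfl

theorem trc_ne_one (ψ : AddChar (ZMod ℓ) ℂ) (hψ : ψ ≠ 1) : trc L ψ ≠ 1 := by
  have : FiniteDimensional (ZMod ℓ) L := Module.Finite.of_finite
  intro h
  apply hψ
  ext a
  obtain ⟨x, hx⟩ := Algebra.trace_surjective (ZMod ℓ) L a
  have h1 : trc L ψ x = 1 := by rw [h]; rfl
  rw [trc_apply, hx] at h1
  simpa using h1

theorem long_sum (ψ : AddChar (ZMod ℓ) ℂ) (hψ : ψ ≠ 1) {k : ℕ} (hk : 1 ≤ k) (hkl : k < ℓ)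
    (h4 : 4 * k ≤ Module.finrank (ZMod ℓ) L) (v : Fin k → ZMod ℓ) (hv : v ≠ 0) :
    ‖∑ x : L, ψ (Algebra.trace (ZMod ℓ) L
        (∑ j : Fin k, algebraMap (ZMod ℓ) L (v j) * x ^ ((j : ℕ) + 1)))‖ ≤
      2 * k * (ℓ : ℝ) ^ (Module.finrank (ZMod ℓ) L - 4) := by
  have : CharP L ℓ := charP_of_injective_algebraMap (algebraMap (ZMod ℓ) L).injective ℓ
  have : FiniteDimensional (ZMod ℓ) L := Module.Finite.of_finite
  set d := Module.finrank (ZMod ℓ) L with hd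
  have hcard : (Fintype.card L : ℝ) = (ℓ : ℝ) ^ d := by
    rw [Module.card_eq_pow_finrank (K := ZMod ℓ) (V := L), ZMod.card]
    push_cast
    rfl
  have hM := stmt_MORD L ℓ (trc L ψ) (trc_ne_one ψ hψ) (pol L v) (pol_deg_pos v hv)
    (lt_of_le_of_lt (pol_deg_le v) hkl)
  simp only [trc_apply, pol_eval] at hM
  set S : ℝ := ‖∑ x : L, ψ (Algebra.trace (ZMod ℓ) L
        (∑ j : Fin k, algebraMap (ZMod ℓ) L (v j) * x ^ ((j : ℕ) + 1)))‖ with hS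
  set e := (pol L v).natDegree with he
  have he1 : 1 ≤ e := pol_deg_pos v hv
  have hek : e ≤ k := pol_deg_le v
  have hS0 : 0 ≤ S := norm_nonneg _
  have hl1 : (1 : ℝ) ≤ ℓ := by exact_mod_cast (Fact.out : ℓ.Prime).one_lt.le
  rw [hcard] at hM
  have h5 : (S * (ℓ : ℝ) ^ 4) ^ (2 * e) ≤ (2 * e * (ℓ : ℝ) ^ d) ^ (2 * e) := by
    refine le_trans ?_ hM
    rw [mul_pow, ← pow_mul, ← pow_mul]
    refine mul_le_mul_of_nonneg_left ?_ (by positivity)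
    exact pow_le_pow_right₀ hl1 (by omega)
  have h6 : S * (ℓ : ℝ) ^ 4 ≤ 2 * e * (ℓ : ℝ) ^ d :=
    le_of_pow_le_pow_left₀ (by omega) (by positivity) h5
  have h7 : (ℓ : ℝ) ^ d = (ℓ : ℝ) ^ (d - 4) * (ℓ : ℝ) ^ 4 := by
    rw [← pow_add]
    congr 1
    omega
  rw [h7] at h6
  have h8 : (0 : ℝ) < (ℓ : ℝ) ^ 4 := by positivity
  have h9 : S ≤ 2 * e * (ℓ : ℝ) ^ (d - 4) := by
    have : S * (ℓ : ℝ) ^ 4 ≤ (2 * e * (ℓ : ℝ) ^ (d - 4)) * (ℓ : ℝ) ^ 4 := by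
      calc S * (ℓ : ℝ) ^ 4 ≤ _ := h6
        _ = _ := by ring
    exact le_of_mul_le_mul_right this h8
  refine h9.trans (mul_le_mul_of_nonneg_right ?_ (by positivity))
  have : (e : ℝ) ≤ k := by exact_mod_cast hek
  linarith

end

end COUNT3Aux

open COUNT3Aux DIAGAux MORDAux Finset in
theorem stmt_COUNT3 : Stmt_COUNT3 := by
  intro ℓ _ L₁ L₂ L₃ _ _ _ _ _ _ _ _ _ k hk hkl h4 hd2 hd3 Ω₂ Ω₃ c
  classical
  -- a nontrivial additive character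
  obtain ⟨ψ, hψ⟩ : ∃ ψ : AddChar (ZMod ℓ) ℂ, ψ ≠ 1 := by
    have hne : (1 : ZMod ℓ) ≠ 0 := one_ne_zero
    obtain ⟨ψ, hψ⟩ := AddChar.exists_apply_ne_zero.2 hne
    refine ⟨ψ, ?_⟩
    rintro rfl
    exact hψ rfl
  have hc1 : (Fintype.card L₁ : ℂ) = (ℓ : ℂ) ^ (Module.finrank (ZMod ℓ) L₁) := by
    rw [Module.card_eq_pow_finrank (K := ZMod ℓ) (V := L₁), ZMod.card]
    push_cast
    rfl
  set d₁ := Module.finrank (ZMod ℓ) L₁ with hd1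
  have hl0 : (0 : ℝ) < ℓ := by exact_mod_cast (Fact.out : ℓ.Prime).pos
  -- the short sums
  let S₁ : (Fin k → ZMod ℓ) → ℂ := fun v => ∑ x : L₁, ψ (Algebra.trace (ZMod ℓ) L₁
        (∑ j : Fin k, algebraMap (ZMod ℓ) L₁ (v j) * x ^ ((j : ℕ) + 1)))
  let S₂ : (Fin k → ZMod ℓ) → ℂ := fun v => ∑ x ∈ Ω₂, ψ (Algebra.trace (ZMod ℓ) L₂
        (∑ j : Fin k, algebraMap (ZMod ℓ) L₂ (v j) * x ^ ((j : ℕ) + 1)))
  let S₃ : (Fin k → ZMod ℓ) → ℂ := fun v => ∑ x ∈ Ω₃, ψ (Algebra.trace (ZMod ℓ) L₃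
        (∑ j : Fin k, algebraMap (ZMod ℓ) L₃ (v j) * x ^ ((j : ℕ) + 1)))
  -- the set as a finset
  let Z : Finset (L₁ × L₂ × L₃) := (univ ×ˢ (Ω₂ ×ˢ Ω₃)).filter fun z => ∀ j : Fin k,
        Algebra.trace (ZMod ℓ) L₁ (z.1 ^ ((j : ℕ) + 1)) +
        Algebra.trace (ZMod ℓ) L₂ (z.2.1 ^ ((j : ℕ) + 1)) +
        Algebra.trace (ZMod ℓ) L₃ (z.2.2 ^ ((j : ℕ) + 1)) = c j
  have hZ : {z : L₁ × L₂ × L₃ | z.2.1 ∈ Ω₂ ∧ z.2.2 ∈ Ω₃ ∧ ∀ j : Fin k,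
        Algebra.trace (ZMod ℓ) L₁ (z.1 ^ ((j : ℕ) + 1)) +
        Algebra.trace (ZMod ℓ) L₂ (z.2.1 ^ ((j : ℕ) + 1)) +
        Algebra.trace (ZMod ℓ) L₃ (z.2.2 ^ ((j : ℕ) + 1)) = c j} = ↑Z := by
    ext z
    simp only [Z, Set.mem_ofPred_eq, Finset.coe_filter, Finset.mem_product, Finset.mem_univ,
      true_and, and_assoc]
  rw [hZ, Set.ncard_coe_finset]
  -- the counting formula
  have key : (ℓ : ℂ) ^ k * (Z.card : ℂ) =
      ∑ v : Fin k → ZMod ℓ, ψ (-∑ j, v j * c j) * (S₁ v * (S₂ v * S₃ v)) := by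
    have h1 : (ℓ : ℂ) ^ k * (Z.card : ℂ) = ∑ z ∈ (univ ×ˢ (Ω₂ ×ˢ Ω₃) : Finset (L₁ × L₂ × L₃)),
        ∑ v : Fin k → ZMod ℓ, ψ (∑ j, v j * (Algebra.trace (ZMod ℓ) L₁ (z.1 ^ ((j : ℕ) + 1)) +
        Algebra.trace (ZMod ℓ) L₂ (z.2.1 ^ ((j : ℕ) + 1)) +
        Algebra.trace (ZMod ℓ) L₃ (z.2.2 ^ ((j : ℕ) + 1)) - c j)) := by
      have h2 : ∀ z : L₁ × L₂ × L₃, ∑ v : Fin k → ZMod ℓ,
          ψ (∑ j, v j * (Algebra.trace (ZMod ℓ) L₁ (z.1 ^ ((j : ℕ) + 1)) +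
          Algebra.trace (ZMod ℓ) L₂ (z.2.1 ^ ((j : ℕ) + 1)) +
          Algebra.trace (ZMod ℓ) L₃ (z.2.2 ^ ((j : ℕ) + 1)) - c j)) =
          if (∀ j : Fin k, Algebra.trace (ZMod ℓ) L₁ (z.1 ^ ((j : ℕ) + 1)) +
            Algebra.trace (ZMod ℓ) L₂ (z.2.1 ^ ((j : ℕ) + 1)) +
            Algebra.trace (ZMod ℓ) L₃ (z.2.2 ^ ((j : ℕ) + 1)) = c j) then (ℓ : ℂ) ^ k else 0 := by
        intro z
        rw [orth ψ hψ (fun j : Fin k => Algebra.trace (ZMod ℓ) L₁ (z.1 ^ ((j : ℕ) + 1)) +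
          Algebra.trace (ZMod ℓ) L₂ (z.2.1 ^ ((j : ℕ) + 1)) +
          Algebra.trace (ZMod ℓ) L₃ (z.2.2 ^ ((j : ℕ) + 1)) - c j), ZMod.card]
        refine if_congr ?_ rfl rfl
        constructor
        · intro h j
          exact sub_eq_zero.1 (congrFun h j)
        · intro h
          funext j
          exact sub_eq_zero.2 (h j)
      simp_rw [h2]
      rw [← Finset.sum_filter, Finset.sum_const, nsmul_eq_mul, mul_comm]
    rw [h1, Finset.sum_comm]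
    refine Finset.sum_congr rfl fun v _ => ?_
    simp only [S₁, S₂, S₃]
    rw [Finset.sum_mul_sum, ← Finset.sum_product', Finset.sum_mul_sum, ← Finset.sum_product',
      Finset.mul_sum]
    refine Finset.sum_congr rfl fun z _ => ?_
    rw [← AddChar.map_add_eq_mul, ← AddChar.map_add_eq_mul, ← AddChar.map_add_eq_mul, trace_sum,
      trace_sum, trace_sum]
    congr 1
    simp only [mul_sub, mul_add, Finset.sum_sub_distrib, Finset.sum_add_distrib]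
    ring
  -- the main term
  have h0 : ψ (-∑ j, (0 : Fin k → ZMod ℓ) j * c j) * (S₁ 0 * (S₂ 0 * S₃ 0)) =
      (ℓ : ℂ) ^ d₁ * ((Ω₂.card : ℂ) * (Ω₃.card : ℂ)) := by
    simp [S₁, S₂, S₃, hc1]
  -- the error term
  set B : ℝ := 2 * k * (ℓ : ℝ) ^ (d₁ - 4) with hB
  have hB0 : 0 ≤ B := by positivity
  have hS1 : ∀ v : Fin k → ZMod ℓ, v ≠ 0 → ‖S₁ v‖ ≤ B := fun v hv =>
    long_sum ψ hψ hk hkl h4 v hv
  have hS2 := stmt_DIAG ℓ L₂ k hd2 hkl Ω₂ ψ hψ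
  have hS3 := stmt_DIAG ℓ L₃ k hd3 hkl Ω₃ ψ hψ
  have hCS : ∑ v : Fin k → ZMod ℓ, ‖S₂ v‖ * ‖S₃ v‖ ≤
      (ℓ : ℝ) ^ k * √(Module.finrank (ZMod ℓ) L₂ * Module.finrank (ZMod ℓ) L₃ *
        (Ω₂.card * Ω₃.card)) := by
    refine (Real.sum_mul_le_sqrt_mul_sqrt _ _ _).trans ?_
    rw [← Real.sqrt_mul (by positivity)]
    refine Real.sqrt_le_iff.2 ⟨by positivity, ?_⟩
    rw [mul_pow, Real.sq_sqrt (by positivity)]
    calc (∑ v : Fin k → ZMod ℓ, ‖S₂ v‖ ^ 2) * ∑ v : Fin k → ZMod ℓ, ‖S₃ v‖ ^ 2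
        ≤ ((ℓ : ℝ) ^ k * (Module.finrank (ZMod ℓ) L₂ * Ω₂.card)) *
          ((ℓ : ℝ) ^ k * (Module.finrank (ZMod ℓ) L₃ * Ω₃.card)) :=
          mul_le_mul hS2 hS3 (by positivity) (by positivity)
      _ = _ := by ring
  have hsplit : (ℓ : ℂ) ^ k * (Z.card : ℂ) - (ℓ : ℂ) ^ d₁ * ((Ω₂.card : ℂ) * (Ω₃.card : ℂ)) =
      ∑ v ∈ (univ : Finset (Fin k → ZMod ℓ)).erase 0,
        ψ (-∑ j, v j * c j) * (S₁ v * (S₂ v * S₃ v)) := by
    rw [key, ← h0, ← Finset.add_sum_erase _ _ (Finset.mem_univ (0 : Fin k → ZMod ℓ))]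
    ring
  have herr : ‖(ℓ : ℂ) ^ k * (Z.card : ℂ) - (ℓ : ℂ) ^ d₁ * ((Ω₂.card : ℂ) * (Ω₃.card : ℂ))‖ ≤
      B * ((ℓ : ℝ) ^ k * √(Module.finrank (ZMod ℓ) L₂ * Module.finrank (ZMod ℓ) L₃ *
        (Ω₂.card * Ω₃.card))) := by
    rw [hsplit]
    calc ‖∑ v ∈ (univ : Finset (Fin k → ZMod ℓ)).erase 0,
          ψ (-∑ j, v j * c j) * (S₁ v * (S₂ v * S₃ v))‖
        ≤ ∑ v ∈ (univ : Finset (Fin k → ZMod ℓ)).erase 0,
          ‖ψ (-∑ j, v j * c j) * (S₁ v * (S₂ v * S₃ v))‖ := norm_sum_le _ _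
      _ ≤ ∑ v ∈ (univ : Finset (Fin k → ZMod ℓ)).erase 0, B * (‖S₂ v‖ * ‖S₃ v‖) := by
          refine Finset.sum_le_sum fun v hv => ?_
          rw [norm_mul, AddChar.norm_apply, one_mul, norm_mul, norm_mul]
          exact mul_le_mul_of_nonneg_right (hS1 v (Finset.mem_erase.1 hv).1) (by positivity)
      _ ≤ ∑ v : Fin k → ZMod ℓ, B * (‖S₂ v‖ * ‖S₃ v‖) := by
          refine Finset.sum_le_sum_of_subset_of_nonneg (Finset.erase_subset _ _) ?_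
          intro v _ _
          positivity
      _ ≤ _ := by
          rw [← Finset.mul_sum]
          exact mul_le_mul_of_nonneg_left hCS hB0
  have hreal : |(ℓ : ℝ) ^ k * (Z.card : ℝ) - (ℓ : ℝ) ^ d₁ * ((Ω₂.card : ℝ) * (Ω₃.card : ℝ))| ≤
      B * ((ℓ : ℝ) ^ k * √(Module.finrank (ZMod ℓ) L₂ * Module.finrank (ZMod ℓ) L₃ *
        (Ω₂.card * Ω₃.card))) := by
    refine le_trans (le_of_eq ?_) herr
    have h12 : (ℓ : ℂ) ^ k * (Z.card : ℂ) - (ℓ : ℂ) ^ d₁ * ((Ω₂.card : ℂ) * (Ω₃.card : ℂ)) =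
        (((ℓ : ℝ) ^ k * (Z.card : ℝ) - (ℓ : ℝ) ^ d₁ * ((Ω₂.card : ℝ) * (Ω₃.card : ℝ)) : ℝ) : ℂ) := by
      push_cast
      rfl
    rw [h12, Complex.norm_real, Real.norm_eq_abs]
  have h9 := (abs_le.1 hreal).1
  have h10 : (ℓ : ℝ) ^ d₁ = (ℓ : ℝ) ^ k * (ℓ : ℝ) ^ (d₁ - k) := by
    rw [← pow_add]
    congr 1
    omega
  rw [h10] at h9
  have hlk : (0 : ℝ) < (ℓ : ℝ) ^ k := by positivity
  have h11 : (ℓ : ℝ) ^ k * ((ℓ : ℝ) ^ (d₁ - k) * (Ω₂.card * Ω₃.card) -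
        2 * k * (ℓ : ℝ) ^ (d₁ - 4) *
          √(Module.finrank (ZMod ℓ) L₂ * Module.finrank (ZMod ℓ) L₃ * (Ω₂.card * Ω₃.card))) ≤
      (ℓ : ℝ) ^ k * (Z.card : ℝ) := by
    rw [hB] at h9
    nlinarith [h9]
  exact le_of_mul_le_mul_left h11 hlk

end Pool.Agent.Work.FF
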