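import Pool.Agent.Work.MP_223b32_FF.Interface

/-!
Block COVER: a set which is sparse in all cubes contains few real Weil polynomials.
-/

namespace Pool.Agent.Work.FF.COVER_

open Polynomial Finset Pool.Agent.Work.MP_223b32_ag_56

variable {g : ℕ}

/-- The class of a vector: the coordinates below `m` divided by `R`. -/
def cl (m R : ℕ) (b : Fin g → ℤ) : Fin g → ℤ := fun i => if (i : ℕ) < m then b i / R else b i

/-- The vectors of a class. -/
noncomputable def fib (m R : ℕ) (z : Fin g → ℤ) : Finset (Fin g → ℤ) :=
  Fintype.piFinset fun i => if (i : ℕ) < m then Ico (z i * R) (z i * R + R) else {z i}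

theorem mem_fib {m R : ℕ} (hR : 1 ≤ R) (z b : Fin g → ℤ) : b ∈ fib m R z ↔ cl m R b = z := by
  have hR' : (0 : ℤ) < R := by exact_mod_cast hR
  rw [fib, Fintype.mem_piFinset, funext_iff]
  refine forall_congr' fun i => ?_
  unfold cl
  by_cases h : (i : ℕ) < m
  · simp only [h, if_true, mem_Ico]
    rw [Int.ediv_eq_iff_of_pos hR']
  · simp only [h, if_false, mem_singleton]

theorem card_fib (m R : ℕ) (hm : m ≤ g) (z : Fin g → ℤ) : (fib m R z).card = R ^ m := by
  rw [fib, Fintype.card_piFinset]
  have h1 : ∀ i : Fin g, (if (i : ℕ) < m then Ico (z i * R) (z i * R + R) else {z i} : Finset ℤ).card =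
      if (i : ℕ) < m then R else 1 := by
    intro i
    split_ifs
    · simp
    · simp
  rw [prod_congr rfl fun i _ => h1 i, prod_ite, prod_const, prod_const_one, mul_one]
  congr 1
  have h2 : (univ.filter fun i : Fin g => (i : ℕ) < m) =
      (univ : Finset (Fin m)).map (Fin.castLEEmb hm) := by
    ext i
    simp only [mem_filter, mem_univ, true_and, mem_map]
    constructor
    · intro h
      exact ⟨⟨i, h⟩, rfl⟩
    · rintro ⟨j, rfl⟩
      exact j.2
  rw [h2, card_map, card_univ, Fintype.card_fin]

end COVER_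

open Polynomial Finset Pool.Agent.Work.MP_223b32_ag_56 COVER_

theorem stmt_COVER (hU : Stmt_UPPER) (hC : Stmt_CUBE) : Stmt_COVER := by
  classical
  intro q g k R η B hq hg hkg hR hRk hη hB
  have hRpos : (0 : ℝ) < (R : ℝ) ^ (g - k) := pow_pos (by exact_mod_cast hR) _
  have hR' : (0 : ℤ) < R := by exact_mod_cast hR
  have hfin : (realWeil q g ∩ B).Finite := (realWeil_finite q).inter_of_left B
  -- the coefficient vectors
  set V : Finset (Fin g → ℤ) := hfin.toFinset.image (fun P => fun i : Fin g => P.coeff i) with hV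
  have hVmem : ∀ b ∈ V, mk b ∈ realWeil q g ∧ mk b ∈ B := by
    intro b hb
    rw [hV, mem_image] at hb
    obtain ⟨P, hP, rfl⟩ := hb
    rw [Set.Finite.mem_toFinset] at hP
    rw [mk_surj hP.1.1 hP.1.2.1]
    exact hP
  have hVcard : V.card = (realWeil q g ∩ B).ncard := by
    rw [Set.ncard_eq_toFinset_card _ hfin, hV, card_image_of_injOn]
    intro P hP P' hP' h
    rw [mem_coe, Set.Finite.mem_toFinset] at hP hP'
    rw [← mk_surj hP.1.1 hP.1.2.1, ← mk_surj hP'.1.1 hP'.1.2.1]
    exact congrArg mk h
  set K : Finset (Fin g → ℤ) := V.image (cl (g - k) R) with hK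
  -- each class contains few elements of `V`
  have hsmall : ∀ z ∈ K, ((V.filter fun b => cl (g - k) R b = z).card : ℝ) ≤ η * (R : ℝ) ^ (g - k) := by
    intro z _
    refine le_trans ?_ (hB z (fun i => z (Fin.castLE (Nat.sub_le g k) i) * R))
    set S : Set (Fin (g - k) → ℤ) := {c : Fin (g - k) → ℤ |
      (∀ i, z (Fin.castLE (Nat.sub_le g k) i) * R ≤ c i ∧
        c i < z (Fin.castLE (Nat.sub_le g k) i) * R + R) ∧ mk (glue c z) ∈ B} with hS
    have hSfin : S.Finite := by
      refine (Set.Finite.subset (finite_toSet (Fintype.piFinset fun i : Fin (g - k) =>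
        Ico (z (Fin.castLE (Nat.sub_le g k) i) * R) (z (Fin.castLE (Nat.sub_le g k) i) * R + R))) ?_)
      intro c hc
      rw [mem_coe, Fintype.mem_piFinset]
      exact fun i => mem_Ico.2 (hc.1 i)
    have hinj : Set.InjOn (fun (b : Fin g → ℤ) (i : Fin (g - k)) => b (Fin.castLE (Nat.sub_le g k) i))
        ((V.filter fun b => cl (g - k) R b = z : Finset (Fin g → ℤ)) : Set (Fin g → ℤ)) := by
      intro b hb b' hb' h
      rw [mem_coe, mem_filter] at hb hb'
      funext i
      by_cases hi : (i : ℕ) < g - k
      · exact congrFun h ⟨i, hi⟩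
      · have h1 := congrFun hb.2 i
        have h2 := congrFun hb'.2 i
        unfold cl at h1 h2
        rw [if_neg hi] at h1 h2
        rw [h1, h2]
    have hmaps : Set.MapsTo (fun (b : Fin g → ℤ) (i : Fin (g - k)) => b (Fin.castLE (Nat.sub_le g k) i))
        ((V.filter fun b => cl (g - k) R b = z : Finset (Fin g → ℤ)) : Set (Fin g → ℤ)) S := by
      intro b hb
      rw [mem_coe, mem_filter] at hb
      have hb2 := (mem_fib hR z b).2 hb.2
      rw [fib, Fintype.mem_piFinset] at hb2
      refine ⟨fun i => ?_, ?_⟩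
      · have h1 := hb2 (Fin.castLE (Nat.sub_le g k) i)
        rw [if_pos (by simp), mem_Ico] at h1
        exact h1
      · have h1 : glue (fun i : Fin (g - k) => b (Fin.castLE (Nat.sub_le g k) i)) z = b := by
          funext i
          unfold glue
          split_ifs with hi
          · rfl
          · have h2 := hb2 i
            rw [if_neg hi, mem_singleton] at h2
            exact h2.symm
        rw [h1]
        exact (hVmem b hb.1).2
    have h1 := Set.ncard_le_ncard_of_injOn _ hmaps hinj hSfin
    rw [Set.ncard_coe_finset] at h1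
    exact_mod_cast h1
  -- the union of the classes
  set A : Finset (Fin g → ℤ) := K.biUnion (fib (g - k) R) with hA
  have hAcard : A.card = K.card * R ^ (g - k) := by
    rw [hA, card_biUnion]
    · rw [sum_congr rfl fun z _ => card_fib (g - k) R (Nat.sub_le g k) z, sum_const, smul_eq_mul]
    · intro z _ z' _ hne
      show Disjoint (fib (g - k) R z) (fib (g - k) R z')
      rw [Finset.disjoint_left]
      intro b hb hb'
      rw [mem_fib hR] at hb hb'
      exact hne (hb.symm.trans hb')
  have hAbd : (A.card : ℝ) ≤ 200 ^ g * √(q : ℝ) ^ (g * (g + 1) / 2) / √(g.factorial : ℝ) := by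
    rw [← card_image_of_injective A mk_injective]
    refine hU q g hq hg _ fun P' hP' => ?_
    rw [mem_image] at hP'
    obtain ⟨b', hb', rfl⟩ := hP'
    refine ⟨mk_monic b', mk_natDegree b', ?_⟩
    rw [hA, mem_biUnion] at hb'
    obtain ⟨z, hz, hbz⟩ := hb'
    rw [hK, mem_image] at hz
    obtain ⟨b, hb, hz⟩ := hz
    rw [mem_fib hR] at hbz
    have hcl : cl (g - k) R b' = cl (g - k) R b := hbz.trans hz.symm
    have hcl' : ∀ i : Fin g, if (i : ℕ) < g - k then b' i / (R : ℤ) = b i / R else b' i = b i := by
      intro i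
      have := congrFun hcl i
      unfold cl at this
      split_ifs with h
      · rwa [if_pos h, if_pos h] at this
      · rwa [if_neg h, if_neg h] at this
    have hclose : ∀ i : Fin g, |b' i - b i| ≤ R := by
      intro i
      have h1 := hcl' i
      split_ifs at h1 with h
      · have e1 := Int.mul_ediv_add_emod (b' i) R
        have e2 := Int.mul_ediv_add_emod (b i) R
        have e3 := Int.emod_nonneg (b' i) hR'.ne'
        have e4 := Int.emod_nonneg (b i) hR'.ne'
        have e5 := Int.emod_lt_of_pos (b' i) hR'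
        have e6 := Int.emod_lt_of_pos (b i) hR'
        rw [h1] at e1
        rw [abs_le]
        constructor <;> linarith
      · rw [h1, sub_self, abs_zero]
        exact hR'.le
    have hcoef : ∀ (c : Fin g → ℤ) (i : ℕ), g ≤ i → (mk c).coeff i = if i = g then 1 else 0 := by
      intro c i hi
      rcases hi.eq_or_lt with h | h
      · subst h
        rw [if_pos rfl]
        have := mk_monic c
        rw [Monic, leadingCoeff, mk_natDegree] at this
        exact this
      · rw [if_neg h.ne']
        exact coeff_eq_zero_of_natDegree_lt (by rw [mk_natDegree]; exact h)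
    refine hC q g k R (mk b) (mk b') hq hg hkg (hVmem b hb).1 (mk_monic b') (mk_natDegree b') ?_ ?_ hRk
    · intro i hi
      rcases Nat.lt_or_ge i g with h | h
      · have h1 := mk_coeff b ⟨i, h⟩
        have h2 := mk_coeff b' ⟨i, h⟩
        simp only at h1 h2
        rw [h1, h2]
        have h3 := hcl' ⟨i, h⟩
        rwa [if_neg (by simp only; omega)] at h3
      · rw [hcoef b i h, hcoef b' i h]
    · intro i
      rcases Nat.lt_or_ge i g with h | h
      · have h1 := mk_coeff b ⟨i, h⟩
        have h2 := mk_coeff b' ⟨i, h⟩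
        simp only at h1 h2
        rw [h1, h2]
        exact_mod_cast hclose ⟨i, h⟩
      · rw [hcoef b i h, hcoef b' i h, sub_self, abs_zero]
        exact_mod_cast hR'.le
  -- conclusion
  have h1 : (V.card : ℝ) ≤ K.card * (η * (R : ℝ) ^ (g - k)) := by
    have h2 : V.card = ∑ z ∈ K, (V.filter fun b => cl (g - k) R b = z).card :=
      card_eq_sum_card_image (cl (g - k) R) V
    rw [h2]
    push_cast
    calc ∑ z ∈ K, ((V.filter fun b => cl (g - k) R b = z).card : ℝ)
        ≤ ∑ z ∈ K, η * (R : ℝ) ^ (g - k) := sum_le_sum hsmall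
      _ = _ := by rw [sum_const, nsmul_eq_mul]
  rw [← hVcard]
  calc (V.card : ℝ) ≤ K.card * (η * (R : ℝ) ^ (g - k)) := h1
    _ = η * ((K.card * R ^ (g - k) : ℕ) : ℝ) := by push_cast; ring
    _ = η * (A.card : ℝ) := by rw [hAcard]
    _ ≤ _ := by gcongr

end Pool.Agent.Work.FF
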