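import Pool.Agent.Work.MP_223b32_FF.Interface

/-!
Block CSIEVE: Turán's sieve in a cube.
-/

namespace Pool.Agent.Work.FF.CSIEVE_

open Finset Pool.Agent.Work.MP_223b32_ag_56

theorem count_res' (u : ℤ) (R m : ℕ) (hm : 0 < m) (c : ZMod m) :
    |(((Ico u (u + R)).filter fun b : ℤ => (b : ZMod m) = c).card : ℝ) - (R : ℝ) / m| ≤ 1 := by
  obtain ⟨v, rfl⟩ := ZMod.intCast_surjective c
  have h1 : (Ico u (u + R)).filter (fun b : ℤ => (b : ZMod m) = (v : ZMod m)) =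
      (Ico u (u + R)).filter (fun b => b ≡ v [ZMOD m]) := by
    ext b
    simp only [mem_filter, mem_Ico]
    rw [ZMod.intCast_eq_intCast_iff]
  rw [h1]
  have h2 := Int.Ico_filter_modEq_card u (u + R) (r := (m : ℤ)) (by exact_mod_cast hm) v
  have hm' : (0 : ℝ) < m := by exact_mod_cast hm
  have h3 : (((#{x ∈ Ico u (u + R) | x ≡ v [ZMOD m]} : ℕ) : ℤ) : ℝ) =
      ((max (⌈(((u + R : ℤ) - v : ℤ) : ℚ) / (m : ℤ)⌉ - ⌈((u - v : ℤ) : ℚ) / (m : ℤ)⌉) 0 : ℤ) : ℝ) := by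
    rw [h2]
    push_cast
    rfl
  rw [Int.cast_natCast] at h3
  rw [h3]
  have a1 := Int.ceil_lt_add_one ((((u + R : ℤ) - v : ℤ) : ℚ) / (m : ℤ))
  have a2 := Int.le_ceil ((((u + R : ℤ) - v : ℤ) : ℚ) / (m : ℤ))
  have a3 := Int.ceil_lt_add_one (((u - v : ℤ) : ℚ) / (m : ℤ))
  have a4 := Int.le_ceil (((u - v : ℤ) : ℚ) / (m : ℤ))
  set A := ⌈(((u + R : ℤ) - v : ℤ) : ℚ) / (m : ℤ)⌉
  set B := ⌈((u - v : ℤ) : ℚ) / (m : ℤ)⌉
  have b1 : (A : ℝ) < ((u : ℝ) + R - v) / m + 1 := by exact_mod_cast a1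
  have b2 : ((u : ℝ) + R - v) / m ≤ A := by exact_mod_cast a2
  have b3 : (B : ℝ) < ((u : ℝ) - v) / m + 1 := by exact_mod_cast a3
  have b4 : ((u : ℝ) - v) / m ≤ B := by exact_mod_cast a4
  have e1 : ((u : ℝ) + R - v) / m - ((u : ℝ) - v) / m = (R : ℝ) / m := by
    rw [← sub_div]; congr 1; ring
  have hpos : 0 ≤ (R : ℝ) / m := by positivity
  rw [abs_le, Int.cast_max, Int.cast_sub, Int.cast_zero]
  constructor
  · have : (A : ℝ) - B ≤ max ((A : ℝ) - B) 0 := le_max_left _ _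
    linarith
  · rcases le_total ((A : ℝ) - B) 0 with h | h
    · rw [max_eq_right h]; linarith
    · rw [max_eq_left h]; linarith

variable {g : ℕ}

/-- The cube. -/
noncomputable def cube (R : ℕ) (u : Fin g → ℤ) : Finset (Fin g → ℤ) :=
  Fintype.piFinset fun i => Ico (u i) (u i + R)

theorem card_cube (R : ℕ) (u : Fin g → ℤ) : (cube R u).card = R ^ g := by
  rw [cube, Fintype.card_piFinset]
  simp

theorem cube_count {m : ℕ} (hm : 0 < m) (R : ℕ) (u : Fin g → ℤ) (C : Finset (Fin g → ZMod m)) {ρ : ℝ}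
    (hρ1 : ρ ≤ 1) (hρ : (m : ℝ) ≤ ρ * R) (hρ0 : 0 ≤ ρ) :
    |(((cube R u).filter fun b => red m b ∈ C).card : ℝ) - C.card / (m : ℝ) ^ g * (cube R u).card| ≤
      2 ^ g * ρ * (C.card / (m : ℝ) ^ g * (cube R u).card) := by
  have hm' : (0 : ℝ) < m := by exact_mod_cast hm
  have h1 : ((cube R u).filter fun b => red m b ∈ C).card =
      ∑ c ∈ C, ∏ i, ((Ico (u i) (u i + R)).filter fun b : ℤ => (b : ZMod m) = c i).card := by
    rw [card_eq_sum_card_fiberwise (f := red m) (t := C)]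
    · refine sum_congr rfl fun c hc => ?_
      rw [← Fintype.card_piFinset]
      congr 1
      ext b
      simp only [mem_filter, cube, Fintype.mem_piFinset]
      constructor
      · rintro ⟨⟨h1, _⟩, h2⟩ i
        exact ⟨h1 i, congrFun h2 i⟩
      · intro h1
        have h2 : red m b = c := funext fun i => (h1 i).2
        exact ⟨⟨fun i => (h1 i).1, by rw [h2]; exact hc⟩, h2⟩
    · intro b hb
      have := (mem_filter.1 (mem_coe.1 hb)).2
      exact this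
  set A : Fin g → ℝ := fun _ => (R : ℝ) / m with hA
  have hA0 : ∀ i, 0 ≤ A i := fun i => by positivity
  have h2 : ∀ c : Fin g → ZMod m,
      |(∏ i, (((Ico (u i) (u i + R)).filter fun b : ℤ => (b : ZMod m) = c i).card : ℝ)) -
        ∏ i, A i| ≤ 2 ^ g * ρ * ∏ i, A i := by
    intro c
    have h3 := prod_close univ
      (fun i => (((Ico (u i) (u i + R)).filter fun b : ℤ => (b : ZMod m) = c i).card : ℝ)) A hρ1
      (fun i _ => hA0 i) (fun i _ => (count_res' (u i) R m hm (c i)).trans ?_)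
    · refine h3.trans ?_
      rw [card_univ, Fintype.card_fin]
      have : 0 ≤ ∏ i, A i := prod_nonneg fun i _ => hA0 i
      nlinarith [mul_nonneg hρ0 this]
    · rw [hA]
      show 1 ≤ ρ * ((R : ℝ) / m)
      rw [← mul_div_assoc, le_div_iff₀ hm', one_mul]
      exact hρ
  have h3 : (C.card : ℝ) / (m : ℝ) ^ g * (cube R u).card = ∑ c ∈ C, ∏ i, A i := by
    rw [sum_const, nsmul_eq_mul, card_cube, hA]
    push_cast
    rw [prod_const, card_univ, Fintype.card_fin, div_pow]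
    ring
  rw [h3, h1]
  push_cast
  rw [← sum_sub_distrib, mul_sum]
  exact (abs_sum_le_sum_abs _ _).trans (sum_le_sum fun c _ => h2 c)

end CSIEVE_

open Finset Pool.Agent.Work.MP_223b32_ag_56 CSIEVE_

theorem stmt_CSIEVE : Stmt_CSIEVE := by
  classical
  intro g R u P C δ₀ ρ Z hP hδ₀ hC hρ0 hρ1 hZ hR
  let T : ℕ → Finset (Fin g → ℤ) := fun ℓ => (cube R u).filter fun b => red ℓ b ∈ C ℓ
  have hpos : ∀ ℓ ∈ P, (0 : ℝ) < (ℓ : ℝ) ^ g := fun ℓ hℓ =>
    pow_pos (by exact_mod_cast (hP ℓ hℓ).pos) _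
  have hfilter : ((cube R u).filter fun b => ∀ ℓ ∈ P, red ℓ b ∉ C ℓ) =
      (cube R u).filter fun b => ∀ ℓ ∈ P, b ∉ T ℓ := by
    refine filter_congr fun b hb => ?_
    refine forall₂_congr fun ℓ _ => ?_
    simp only [T, mem_filter, not_and]
    exact ⟨fun h _ => h, fun h => h hb⟩
  have hle : ∀ ℓ ∈ P, (ℓ : ℝ) ≤ Z ^ 2 := by
    intro ℓ hℓ
    have h1 : (1 : ℝ) ≤ ℓ := by exact_mod_cast (hP ℓ hℓ).one_le
    have h2 := hZ ℓ hℓ
    nlinarith
  have key : (P.card : ℝ) * (((cube R u).filter fun b => ∀ ℓ ∈ P, red ℓ b ∉ C ℓ).card : ℝ) ≤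
      (cube R u).card * (1 / δ₀ ^ 2 + 3 * (2 ^ g * ρ) * P.card) := by
    rw [hfilter]
    refine turan (cube R u) P T (fun ℓ => (C ℓ).card / (ℓ : ℝ) ^ g) hδ₀ (by positivity) ?_ ?_ ?_
    · intro ℓ hℓ
      refine ⟨?_, ?_⟩
      · rw [le_div_iff₀ (hpos ℓ hℓ)]
        exact hC ℓ hℓ
      · rw [div_le_one (hpos ℓ hℓ)]
        have : NeZero ℓ := ⟨(hP ℓ hℓ).ne_zero⟩
        have h1 : (C ℓ).card ≤ Fintype.card (Fin g → ZMod ℓ) := card_le_univ _
        rw [Fintype.card_fun, ZMod.card, Fintype.card_fin] at h1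
        exact_mod_cast h1
    · intro ℓ hℓ
      have h1 := cube_count (hP ℓ hℓ).pos R u (C ℓ) hρ1 ((hle ℓ hℓ).trans hR) hρ0
      have h2 : cube R u ∩ T ℓ = (cube R u).filter fun b => red ℓ b ∈ C ℓ :=
        inter_eq_right.2 (filter_subset _ _)
      rw [h2]
      exact h1
    · intro ℓ hℓ ℓ' hℓ' hne
      have hcop : ℓ.Coprime ℓ' := (Nat.coprime_primes (hP ℓ hℓ) (hP ℓ' hℓ')).2 hne
      obtain ⟨D, hD, hD'⟩ := exists_crt hcop (hP ℓ hℓ).pos (hP ℓ' hℓ').pos (C ℓ) (C ℓ')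
      have hm : ((ℓ * ℓ' : ℕ) : ℝ) ≤ Z ^ 2 := by
        push_cast
        rw [sq]
        exact mul_le_mul (hZ ℓ hℓ) (hZ ℓ' hℓ') (by positivity)
          ((Nat.cast_nonneg ℓ).trans (hZ ℓ hℓ))
      have h1 := cube_count (Nat.mul_pos (hP ℓ hℓ).pos (hP ℓ' hℓ').pos) R u D hρ1
        (hm.trans hR) hρ0
      have h2 : cube R u ∩ (T ℓ ∩ T ℓ') = (cube R u).filter fun b => red (ℓ * ℓ') b ∈ D := by
        ext b
        simp only [T, mem_inter, mem_filter, hD']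
        tauto
      have h3 : (C ℓ).card / (ℓ : ℝ) ^ g * ((C ℓ').card / (ℓ' : ℝ) ^ g) =
          D.card / ((ℓ * ℓ' : ℕ) : ℝ) ^ g := by
        rw [hD]
        push_cast
        rw [mul_pow, div_mul_div_comm]
      rw [h2, h3]
      exact h1
  rw [card_cube] at key
  unfold cube at key
  push_cast at key
  exact key

end Pool.Agent.Work.FF
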