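import Pool.Agent.Work.MP_223b32_FF.CUBEAux

/-!
Block CUBE: integral polynomials close to a real Weil polynomial have positive definite moments.
-/

namespace Pool.Agent.Work.FF

open Finset PowerSeries Pool.Agent.Work.MP_223b32_ag_56

/-- `wser` for real polynomials. -/
noncomputable def wr (q : ℝ) (g : ℕ) (p : Polynomial ℝ) : ℝ⟦X⟧ :=
  ∑ j ∈ range (g + 1), C (p.coeff (g - j)) * X ^ j * (1 + C q * X ^ 2) ^ (g - j)

theorem wser_eq (q g : ℕ) (P : Polynomial ℤ) :
    wser q g P = wr q g (P.map (Int.castRingHom ℝ)) := by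
  rw [wser, wr]
  refine sum_congr rfl fun j _ => ?_
  rw [Polynomial.coeff_map]
  rfl

theorem wr_mul (q : ℝ) (n : ℕ) (x : ℝ) (p : Polynomial ℝ) (hp : p.natDegree ≤ n) :
    wr q (n + 1) ((Polynomial.X - Polynomial.C x) * p) = quad q x * wr q n p := by
  have hz : p.coeff (n + 1) = 0 := Polynomial.coeff_eq_zero_of_natDegree_lt (by omega)
  set u : ℝ⟦X⟧ := 1 + C q * X ^ 2 with hu
  have hquad : quad q x = u - C x * X := by
    rw [quad, hu]; ring
  have h1 : wr q (n + 1) ((Polynomial.X - Polynomial.C x) * p) =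
      ∑ j ∈ range (n + 2), C ((Polynomial.X * p).coeff (n + 1 - j)) * X ^ j * u ^ (n + 1 - j) -
      C x * ∑ j ∈ range (n + 2), C (p.coeff (n + 1 - j)) * X ^ j * u ^ (n + 1 - j) := by
    rw [wr, mul_sum, ← sum_sub_distrib]
    refine sum_congr rfl fun j _ => ?_
    rw [sub_mul, Polynomial.coeff_sub, Polynomial.coeff_C_mul, map_sub, map_mul]
    ring
  have h2 : ∑ j ∈ range (n + 2), C ((Polynomial.X * p).coeff (n + 1 - j)) * X ^ j *
      u ^ (n + 1 - j) = u * wr q n p := by
    rw [sum_range_succ, wr, mul_sum]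
    have e1 : C ((Polynomial.X * p).coeff (n + 1 - (n + 1))) * X ^ (n + 1) *
        u ^ (n + 1 - (n + 1)) = 0 := by
      rw [Nat.sub_self, Polynomial.coeff_X_mul_zero, map_zero, zero_mul, zero_mul]
    rw [e1, add_zero]
    refine sum_congr rfl fun j hj => ?_
    have hj' := mem_range.1 hj
    rw [show n + 1 - j = (n - j) + 1 by omega, Polynomial.coeff_X_mul, pow_succ]
    ring
  have h3 : ∑ j ∈ range (n + 2), C (p.coeff (n + 1 - j)) * X ^ j * u ^ (n + 1 - j) =
      X * wr q n p := by
    rw [sum_range_succ', wr, mul_sum]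
    have e1 : C (p.coeff (n + 1 - 0)) * X ^ 0 * u ^ (n + 1 - 0) = 0 := by
      rw [Nat.sub_zero, hz, map_zero, zero_mul, zero_mul]
    rw [e1, add_zero]
    refine sum_congr rfl fun j _ => ?_
    rw [show n + 1 - (j + 1) = n - j by omega, pow_succ]
    ring
  rw [h1, h2, h3, hquad]
  ring

theorem wr_prod (q : ℝ) (s : Multiset ℝ) :
    wr q (Multiset.card s) (s.map fun x => Polynomial.X - Polynomial.C x).prod =
      (s.map (quad q)).prod := by
  induction s using Multiset.induction_on with
  | empty => simp [wr]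
  | cons x s ih =>
    rw [Multiset.map_cons, Multiset.prod_cons, Multiset.card_cons, Multiset.map_cons,
      Multiset.prod_cons, ← ih]
    refine wr_mul q _ x _ (le_of_eq ?_)
    rw [Polynomial.natDegree_multiset_prod_X_sub_C_eq_card]

/-- The real roots. -/
theorem exists_real_roots {q g : ℕ} {P : Polynomial ℤ} (hP : P ∈ realWeil q g) :
    ∃ x : Fin g → ℝ, (∀ i, x i ^ 2 ≤ 4 * q) ∧
      P.map (Int.castRingHom ℝ) = ∏ i, (Polynomial.X - Polynomial.C (x i)) := by
  obtain ⟨hm, hd, hroots⟩ := hP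
  set PC : Polynomial ℂ := P.map (Int.castRingHom ℂ) with hPC
  have hsplit : PC.Splits := IsAlgClosed.splits PC
  have hmC : PC.Monic := hm.map _
  have hcard : Multiset.card PC.roots = g := by
    rw [← hsplit.natDegree_eq_card_roots, hPC, hm.natDegree_map, hd]
  have hre : ∀ z ∈ PC.roots, z.im = 0 ∧ z.re ^ 2 ≤ 4 * q := by
    intro z hz
    rw [Polynomial.mem_roots hmC.ne_zero, Polynomial.IsRoot.def, hPC, Polynomial.eval_map] at hz
    exact hroots z (by rw [Polynomial.aeval_def, algebraMap_int_eq]; exact hz)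
  obtain ⟨l, hl⟩ : ∃ l : List ℝ, (l : Multiset ℝ) = PC.roots.map Complex.re :=
    ⟨(PC.roots.map Complex.re).toList, Multiset.coe_toList _⟩
  have hlen : l.length = g := by
    have := congrArg Multiset.card hl
    rw [Multiset.coe_card, Multiset.card_map, hcard] at this
    exact this
  subst hlen
  refine ⟨fun i => l.get i, fun i => ?_, ?_⟩
  · have h1 : l.get i ∈ (l : Multiset ℝ) := by
      rw [Multiset.mem_coe]
      exact List.get_mem _ _
    rw [hl, Multiset.mem_map] at h1
    obtain ⟨z, hz, hz'⟩ := h1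
    show l.get i ^ 2 ≤ 4 * (q : ℝ)
    rw [← hz']
    exact (hre z hz).2
  · have h1 : ∏ i, (Polynomial.X - Polynomial.C (l.get i)) =
        ((l : Multiset ℝ).map fun x => Polynomial.X - Polynomial.C x).prod := by
      rw [Multiset.map_coe, Multiset.prod_coe]
      rw [← List.prod_ofFn]
      congr 1
      conv_rhs => rw [← List.ofFn_get l, List.map_ofFn]
      rfl
    rw [h1, hl]
    apply Polynomial.map_injective Complex.ofRealHom Complex.ofRealHom.injective
    rw [Polynomial.map_map, Polynomial.map_multiset_prod, Multiset.map_map, Multiset.map_map]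
    have h2 : Complex.ofRealHom.comp (Int.castRingHom ℝ) = Int.castRingHom ℂ :=
      Subsingleton.elim _ _
    rw [h2, ← hPC]
    nth_rewrite 1 [hsplit.eq_prod_roots_of_monic hmC]
    congr 1
    refine Multiset.map_congr rfl fun z hz => ?_
    simp only [Function.comp_apply, Polynomial.map_sub, Polynomial.map_X, Polynomial.map_C]
    congr 2
    exact Complex.ext rfl (hre z hz).1

theorem wser_realWeil {q g : ℕ} {P : Polynomial ℤ} {x : Fin g → ℝ}
    (h : P.map (Int.castRingHom ℝ) = ∏ i, (Polynomial.X - Polynomial.C (x i))) :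
    wser q g P = ∏ i, quad q (x i) := by
  rw [wser_eq, h]
  have h1 := wr_prod (q : ℝ) ((univ : Finset (Fin g)).val.map x)
  rw [Multiset.card_map, card_val, card_univ, Fintype.card_fin, Multiset.map_map,
    Multiset.map_map] at h1
  exact h1

theorem constantCoeff_prod_quad {ι : Type*} (s : Finset ι) (q : ℝ) (x : ι → ℝ) :
    constantCoeff (∏ i ∈ s, quad q (x i)) = 1 := by
  rw [map_prod]
  exact prod_eq_one fun i _ => constantCoeff_quad _ _

theorem lder_prod_quad {ι : Type*} (s : Finset ι) (q : ℝ) (x : ι → ℝ) :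
    lder (∏ i ∈ s, quad q (x i)) = ∑ i ∈ s, lder (quad q (x i)) := by
  classical
  induction s using Finset.induction_on with
  | empty => rw [prod_empty, sum_empty, lder_one]
  | insert a s ha ih =>
    rw [prod_insert ha, sum_insert ha, lder_mul, ih]
    · rw [constantCoeff_quad]; exact one_ne_zero
    · rw [constantCoeff_prod_quad]; exact one_ne_zero

theorem inv_prod_quad {ι : Type*} (s : Finset ι) (q : ℝ) (x : ι → ℝ) :
    (∏ i ∈ s, quad q (x i))⁻¹ = ∏ i ∈ s, (quad q (x i))⁻¹ := by
  classical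
  induction s using Finset.induction_on with
  | empty =>
    rw [prod_empty, prod_empty]
    rw [PowerSeries.inv_eq_iff_mul_eq_one (by simp)]
    simp
  | insert a s ha ih =>
    rw [prod_insert ha, prod_insert ha, PowerSeries.mul_inv_rev, ih, mul_comm]

/-- The moments of a real Weil polynomial. -/
theorem mom_realWeil {q g : ℕ} (hq : 1 ≤ q) {P : Polynomial ℤ} {x : Fin g → ℝ}
    (hx : ∀ i, x i ^ 2 ≤ 4 * q)
    (h : P.map (Int.castRingHom ℝ) = ∏ i, (Polynomial.X - Polynomial.C (x i))) :
    ∃ θ : Fin g → ℝ, ∀ j, mom q g P j = ∑ i, 2 * Real.cos (j * θ i) + if j = 0 then 1 else 0 := by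
  have hqpos : (0 : ℝ) < q := by exact_mod_cast hq
  set r : ℝ := √(q : ℝ) with hr
  have hrpos : 0 < r := Real.sqrt_pos.2 hqpos
  have hr2 : r ^ 2 = q := Real.sq_sqrt hqpos.le
  refine ⟨fun i => Real.arccos (x i / (2 * r)), fun j => ?_⟩
  have hcos : ∀ i, x i = 2 * r * Real.cos (Real.arccos (x i / (2 * r))) := by
    intro i
    have h1 : |x i| ≤ 2 * r := by
      have := hx i
      rw [← hr2] at this
      exact abs_le_of_sq_le_sq (by nlinarith) (by positivity)
    have h2 := abs_le.1 h1
    rw [Real.cos_arccos]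
    · field_simp
    · rw [le_div_iff₀ (by positivity)]; linarith
    · rw [div_le_one (by positivity)]; exact h2.2
  rw [mom]
  rcases Nat.eq_zero_or_pos j with rfl | hj
  · simp
    ring
  · rw [if_neg hj.ne', if_neg hj.ne', add_zero]
    have h1 : sser q g P = ∑ i, cser r (Real.arccos (x i / (2 * r))) := by
      show lder (wser q g P) = _
      rw [wser_realWeil h, lder_prod_quad]
      refine sum_congr rfl fun i _ => ?_
      rw [← lder_quad]
      congr 2
      · rw [hr2]
      · exact hcos i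
    rw [h1, map_sum, sum_div]
    refine sum_congr rfl fun i _ => ?_
    simp only [cser, coeff_mk]
    rw [if_neg hj.ne', div_eq_iff (pow_ne_zero _ (Real.sqrt_pos.2 hqpos).ne'), ← hr]
    ring

/-- Strong positivity of the moments of a real Weil polynomial. -/
theorem form_ge {g : ℕ} {c : ℕ → ℝ} {θ : Fin g → ℝ}
    (hc : ∀ j, c j = ∑ i, 2 * Real.cos (j * θ i) + if j = 0 then 1 else 0) (v : ℕ → ℝ) (n : ℕ) :
    ∑ i ∈ range (n + 1), v i ^ 2 ≤
      ∑ i ∈ range (n + 1), ∑ l ∈ range (n + 1), v i * v l * c ((i - l) + (l - i)) := by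
  have h1 : ∀ i ∈ range (n + 1), ∀ l ∈ range (n + 1), v i * v l * c ((i - l) + (l - i)) =
      ∑ a, 2 * ((v i * Real.cos (i * θ a)) * (v l * Real.cos (l * θ a)) +
        (v i * Real.sin (i * θ a)) * (v l * Real.sin (l * θ a))) +
        if i = l then v i * v l else 0 := by
    intro i _ l _
    rw [hc, mul_add, mul_sum]
    congr 1
    · refine sum_congr rfl fun a _ => ?_
      have h2 : Real.cos (((i - l + (l - i) : ℕ) : ℝ) * θ a) =
          Real.cos (i * θ a) * Real.cos (l * θ a) + Real.sin (i * θ a) * Real.sin (l * θ a) := by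
        rw [← Real.cos_sub]
        rcases le_total l i with h | h
        · rw [show i - l + (l - i) = i - l by omega, Nat.cast_sub h, sub_mul]
        · rw [show i - l + (l - i) = l - i by omega, Nat.cast_sub h, sub_mul,
            ← Real.cos_neg]
          congr 1
          ring
      rw [h2]
      ring
    · by_cases h : i = l
      · rw [if_pos (by omega), if_pos h, mul_one]
      · rw [if_neg (by omega), if_neg h, mul_zero]
  rw [sum_congr rfl fun i hi => sum_congr rfl fun l hl => h1 i hi l hl]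
  simp only [sum_add_distrib]
  have h2 : ∑ i ∈ range (n + 1), ∑ l ∈ range (n + 1), (if i = l then v i * v l else 0) =
      ∑ i ∈ range (n + 1), v i ^ 2 := by
    refine sum_congr rfl fun i hi => ?_
    rw [sum_ite_eq, if_pos hi, sq]
  rw [h2]
  have h3 : 0 ≤ ∑ i ∈ range (n + 1), ∑ l ∈ range (n + 1),
      ∑ a, 2 * ((v i * Real.cos (i * θ a)) * (v l * Real.cos (l * θ a)) +
        (v i * Real.sin (i * θ a)) * (v l * Real.sin (l * θ a))) := by
    have h4 : ∑ i ∈ range (n + 1), ∑ l ∈ range (n + 1),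
      ∑ a, 2 * ((v i * Real.cos (i * θ a)) * (v l * Real.cos (l * θ a)) +
        (v i * Real.sin (i * θ a)) * (v l * Real.sin (l * θ a))) =
        ∑ a, 2 * ((∑ i ∈ range (n + 1), v i * Real.cos (i * θ a)) ^ 2 +
          (∑ i ∈ range (n + 1), v i * Real.sin (i * θ a)) ^ 2) := by
      rw [sum_congr rfl fun i _ => sum_comm]
      rw [sum_comm]
      refine sum_congr rfl fun a _ => ?_
      simp only [sq, sum_mul_sum, ← mul_sum, sum_add_distrib]
    rw [h4]
    exact sum_nonneg fun a _ => by positivity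
  linarith

theorem coeff_X_mul_derivative (E : ℝ⟦X⟧) (n : ℕ) :
    coeff n (X * PowerSeries.derivative ℝ E) = n * coeff n E := by
  cases n with
  | zero => simp
  | succ n =>
    rw [coeff_succ_X_mul, coeff_derivative]
    push_cast
    ring

/-- The logarithmic derivative of a series close to `1`. -/
theorem lder_small {E : ℝ⟦X⟧} {g : ℕ} {r ε : ℝ} (hr : 0 < r) (hε : 0 ≤ ε)
    (hgε : 2 * ((g : ℝ) + 1) * ε ≤ 1) (h0 : coeff 0 E = 0)
    (hE : ∀ n ≤ g, |coeff n E| ≤ ε * r ^ n) : ∀ n ≤ g, |coeff n (lder (1 + E))| ≤ 2 * g * ε * r ^ n := by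
  have h1 : constantCoeff (1 + E) = 1 := by
    rw [map_add, ← coeff_zero_eq_constantCoeff_apply E, h0]
    simp
  set e : ℝ⟦X⟧ := lder (1 + E) with he
  have h2 : e + e * E = -(X * PowerSeries.derivative ℝ E) := by
    have h3 := PowerSeries.inv_mul_cancel (1 + E) (by rw [h1]; exact one_ne_zero)
    have h4 : e = -(X * PowerSeries.derivative ℝ E) * (1 + E)⁻¹ := by
      rw [he, lder, map_add, derivative_one, zero_add]
    have h5 : e * (1 + E) = -(X * PowerSeries.derivative ℝ E) := by
      rw [h4, mul_assoc, h3, mul_one]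
    rw [← h5]; ring
  have h3 : ∀ n, coeff n e = -(n * coeff n E) - coeff n (e * E) := by
    intro n
    have := congrArg (coeff n) h2
    rw [map_add, map_neg, coeff_X_mul_derivative] at this
    linarith
  have hg0 : (0 : ℝ) ≤ g := Nat.cast_nonneg g
  intro n
  induction n using Nat.strong_induction_on with
  | _ n ih =>
    intro hn
    rcases Nat.eq_zero_or_pos n with rfl | hnpos
    · rw [h3, Nat.cast_zero, zero_mul, neg_zero, zero_sub, abs_neg, coeff_mul,
        HasAntidiagonal.antidiagonal_zero, sum_singleton, h0, mul_zero, abs_zero]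
      positivity
    have hn' : (n : ℝ) ≤ g := by exact_mod_cast hn
    have h4 : |coeff n (e * E)| ≤ (n + 1) * (2 * g * ε * ε * r ^ n) := by
      rw [coeff_mul]
      refine (abs_sum_le_sum_abs _ _).trans ?_
      have h5 : ∀ p ∈ antidiagonal n, |coeff p.1 e * coeff p.2 E| ≤ 2 * g * ε * ε * r ^ n := by
        intro p hp
        have hp' := HasAntidiagonal.mem_antidiagonal.1 hp
        rcases Nat.eq_zero_or_pos p.2 with h6 | h6
        · rw [h6, h0, mul_zero, abs_zero]
          positivity
        · have a1 := ih p.1 (by omega) (by omega)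
          have a2 := hE p.2 (by omega)
          rw [abs_mul, ← hp', pow_add]
          calc |coeff p.1 e| * |coeff p.2 E| ≤ (2 * g * ε * r ^ p.1) * (ε * r ^ p.2) :=
                mul_le_mul a1 a2 (abs_nonneg _) (by positivity)
            _ = _ := by ring
      refine (sum_le_sum h5).trans (le_of_eq ?_)
      rw [sum_const, nsmul_eq_mul, Finset.Nat.card_antidiagonal]
      push_cast
      ring
    rw [h3]
    have h5 : |-(n * coeff n E) - coeff n (e * E)| ≤ n * (ε * r ^ n) +
        (n + 1) * (2 * g * ε * ε * r ^ n) := by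
      refine (abs_sub _ _).trans (add_le_add ?_ h4)
      rw [abs_neg, abs_mul, abs_of_nonneg (by positivity : (0 : ℝ) ≤ n)]
      exact mul_le_mul_of_nonneg_left (hE n hn) (by positivity)
    refine h5.trans ?_
    have hrn : 0 ≤ r ^ n := by positivity
    have h6 : (n : ℝ) * (ε * r ^ n) ≤ g * (ε * r ^ n) := by gcongr
    have h7 : ((n : ℝ) + 1) * (2 * g * ε * ε * r ^ n) ≤ g * ε * r ^ n := by
      have h8 : ((n : ℝ) + 1) * (2 * g * ε * ε * r ^ n) ≤
          ((g : ℝ) + 1) * (2 * g * ε * ε * r ^ n) := by gcongr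
      refine h8.trans ?_
      have h9 : ((g : ℝ) + 1) * (2 * g * ε * ε * r ^ n) =
          (2 * ((g : ℝ) + 1) * ε) * (g * ε * r ^ n) := by ring
      rw [h9]
      exact mul_le_of_le_one_left (by positivity) hgε
    linarith

theorem four_mul_lt (g : ℕ) (hg : 1 ≤ g) : 4 * ((g : ℝ) * (g + 1)) < 30 ^ g := by
  induction g, hg using Nat.le_induction with
  | base => norm_num
  | succ n hn ih =>
    have hn' : (1 : ℝ) ≤ n := by exact_mod_cast hn
    rw [pow_succ]
    push_cast
    nlinarith

theorem stmt_CUBE : Stmt_CUBE := by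
  intro q g k R P P' hq hg hk hP hm' hd' htop hR hRk
  obtain ⟨x, hx, hxP⟩ := exists_real_roots hP
  obtain ⟨θ, hθ⟩ := mom_realWeil (by omega : 1 ≤ q) hx hxP
  have hqpos : (0 : ℝ) < q := by exact_mod_cast (by omega : 0 < q)
  have hq1 : (1 : ℝ) ≤ q := by exact_mod_cast (by omega : 1 ≤ q)
  set r : ℝ := √(q : ℝ) with hr
  have hrpos : 0 < r := Real.sqrt_pos.2 hqpos
  have hr1 : 1 ≤ r := Real.one_le_sqrt.2 hq1
  have hr2 : r ^ 2 = q := Real.sq_sqrt hqpos.le
  have hR0 : (0 : ℝ) ≤ R := Nat.cast_nonneg R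
  set ρ : ℝ := 1 / (4 * r) with hρdef
  have hρ : 0 < ρ := by positivity
  have hρr : ρ * r = 1 / 4 := by
    rw [hρdef]; field_simp
  set h := wser q g P with hh
  have hprod : h = ∏ i, quad q (x i) := wser_realWeil hxP
  have hcc : constantCoeff h = 1 := by rw [hprod, constantCoeff_prod_quad]
  -- the difference
  set δ : ℝ⟦X⟧ := wser q g P' - h with hδ
  have hδeq : δ = ∑ j ∈ range (g + 1), C (((P'.coeff (g - j) - P.coeff (g - j) : ℤ)) : ℝ) * X ^ j *
      (1 + C (q : ℝ) * X ^ 2) ^ (g - j) := by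
    rw [hδ, hh, wser, wser, ← sum_sub_distrib]
    refine sum_congr rfl fun j _ => ?_
    rw [Int.cast_sub, map_sub]
    ring
  have hu : nrm g ρ (1 + C (q : ℝ) * X ^ 2) ≤ 17 / 16 := by
    refine (nrm_add_le hρ.le _ _).trans ?_
    rw [nrm_one]
    have : nrm g ρ (C (q : ℝ) * X ^ 2) ≤ 1 / 16 := by
      refine (nrm_mul_le hρ.le _ _).trans ?_
      rw [nrm_C, abs_of_pos hqpos, ← hr2]
      calc r ^ 2 * nrm g ρ (X ^ 2 : ℝ⟦X⟧) ≤ r ^ 2 * ρ ^ 2 :=
            mul_le_mul_of_nonneg_left (nrm_X_pow_le hρ.le 2) (sq_nonneg r)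
        _ = (ρ * r) ^ 2 := by ring
        _ = 1 / 16 := by rw [hρr]; norm_num
    linarith
  have hδn : nrm g ρ δ ≤ 2 * (R / r ^ k) * (17 / 16) ^ g := by
    rw [hδeq]
    refine (nrm_sum_le hρ.le _ _).trans ?_
    have hterm : ∀ j ∈ range (g + 1), nrm g ρ (C (((P'.coeff (g - j) - P.coeff (g - j) : ℤ)) : ℝ) *
        X ^ j * (1 + C (q : ℝ) * X ^ 2) ^ (g - j)) ≤
        (R / r ^ k) * (17 / 16) ^ g * (1 / 4) ^ j := by
      intro j hj
      have hj' := mem_range.1 hj
      by_cases hjk : j ≤ k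
      · have e1 : P'.coeff (g - j) - P.coeff (g - j) = 0 := by
          rw [htop (g - j) (by omega), sub_self]
        rw [e1, Int.cast_zero, map_zero, zero_mul, zero_mul]
        have : nrm g ρ (0 : ℝ⟦X⟧) = 0 := by simp [nrm]
        rw [this]
        positivity
      · push Not at hjk
        refine (nrm_mul_le hρ.le _ _).trans ?_
        have b1 : nrm g ρ (C (((P'.coeff (g - j) - P.coeff (g - j) : ℤ)) : ℝ) * X ^ j) ≤
            (R / r ^ k) * (1 / 4) ^ j := by
          refine (nrm_mul_le hρ.le _ _).trans ?_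
          rw [nrm_C]
          have c1 : |(((P'.coeff (g - j) - P.coeff (g - j) : ℤ)) : ℝ)| ≤ R := by
            rw [← Int.cast_abs]
            exact_mod_cast hR (g - j)
          calc |(((P'.coeff (g - j) - P.coeff (g - j) : ℤ)) : ℝ)| * nrm g ρ (X ^ j : ℝ⟦X⟧) ≤
                R * ρ ^ j :=
                mul_le_mul c1 (nrm_X_pow_le hρ.le j) (nrm_nonneg hρ.le _) hR0
            _ = (R / r ^ j) * (1 / 4) ^ j := by
                rw [← hρr, mul_pow]
                field_simp
            _ ≤ (R / r ^ k) * (1 / 4) ^ j := by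
                gcongr
        have b2 : nrm g ρ ((1 + C (q : ℝ) * X ^ 2) ^ (g - j)) ≤ (17 / 16) ^ g := by
          refine (nrm_pow_le hρ.le _ _).trans ?_
          calc nrm g ρ (1 + C (q : ℝ) * X ^ 2) ^ (g - j) ≤ (17 / 16 : ℝ) ^ (g - j) :=
                pow_le_pow_left₀ (nrm_nonneg hρ.le _) hu _
            _ ≤ (17 / 16) ^ g := pow_le_pow_right₀ (by norm_num) (by omega)
        calc _ ≤ (R / r ^ k) * (1 / 4) ^ j * (17 / 16) ^ g :=
              mul_le_mul b1 b2 (nrm_nonneg hρ.le _) (by positivity)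
          _ = _ := by ring
    refine (sum_le_sum hterm).trans ?_
    rw [← mul_sum]
    have hgeo : ∑ j ∈ range (g + 1), ((1 : ℝ) / 4) ^ j ≤ 2 := by
      rw [geom_sum_eq (by norm_num)]
      have h1 : (0 : ℝ) < (1 / 4) ^ (g + 1) := by positivity
      rw [div_le_iff_of_neg (by norm_num)]
      linarith
    calc (R / r ^ k) * (17 / 16) ^ g * ∑ j ∈ range (g + 1), ((1 : ℝ) / 4) ^ j ≤
          (R / r ^ k) * (17 / 16) ^ g * 2 := by gcongr
      _ = _ := by ring
  have hinv : nrm g ρ h⁻¹ ≤ (16 / 7) ^ g := by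
    rw [hprod, inv_prod_quad]
    have : ∀ s : Finset (Fin g), nrm g ρ (∏ i ∈ s, (quad q (x i))⁻¹) ≤ (16 / 7) ^ s.card := by
      intro s
      classical
      induction s using Finset.induction_on with
      | empty => rw [prod_empty, nrm_one, card_empty, pow_zero]
      | insert a s ha ih =>
        rw [prod_insert ha, card_insert_of_notMem ha, pow_succ, mul_comm ((16 / 7 : ℝ) ^ s.card)]
        exact (nrm_mul_le hρ.le _ _).trans (mul_le_mul (nrm_quad_inv hrpos hr2 (hx a)) ih
          (nrm_nonneg hρ.le _) (by norm_num))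
    have h1 := this univ
    rwa [card_univ, Fintype.card_fin] at h1
  set E : ℝ⟦X⟧ := δ * h⁻¹ with hE
  have hhE : wser q g P' = h * (1 + E) := by
    have h1 := PowerSeries.mul_inv_cancel h (by rw [hcc]; exact one_ne_zero)
    rw [hE]
    linear_combination (-δ) * h1 + hδ.symm
  have hEn : nrm g ρ E ≤ 2 * (R / r ^ k) * (17 / 7) ^ g := by
    refine (nrm_mul_le hρ.le _ _).trans ?_
    calc nrm g ρ δ * nrm g ρ h⁻¹ ≤ (2 * (R / r ^ k) * (17 / 16) ^ g) * (16 / 7) ^ g :=
          mul_le_mul hδn hinv (nrm_nonneg hρ.le _) (by positivity)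
      _ = 2 * (R / r ^ k) * ((17 / 16) ^ g * (16 / 7) ^ g) := by ring
      _ = _ := by rw [← mul_pow]; norm_num
  set ε : ℝ := 2 * (1 / 30) ^ g with hε
  have hε0 : 0 ≤ ε := by positivity
  have hRr : R / r ^ k ≤ (1 / 300) ^ g := by
    rw [div_le_iff₀ (by positivity)]
    have : (R : ℝ) ≤ r ^ k / 300 ^ g := by
      rw [le_div_iff₀ (by positivity)]
      exact hRk
    calc (R : ℝ) ≤ r ^ k / 300 ^ g := this
      _ = _ := by rw [one_div_pow]; ring
  have hEc : ∀ n ≤ g, |coeff n E| ≤ ε * r ^ n := by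
    intro n hn
    have h1 := (coeff_le_nrm hρ E hn).trans hEn
    have h2 : |coeff n E| = |coeff n E| * ρ ^ n * (4 * r) ^ n := by
      rw [mul_assoc, ← mul_pow]
      have : ρ * (4 * r) = 1 := by
        rw [hρdef]; field_simp
      rw [this, one_pow, mul_one]
    rw [h2]
    calc |coeff n E| * ρ ^ n * (4 * r) ^ n ≤ (2 * (R / r ^ k) * (17 / 7) ^ g) * (4 * r) ^ n := by
          gcongr
      _ = 2 * (R / r ^ k) * (17 / 7) ^ g * 4 ^ n * r ^ n := by rw [mul_pow]; ring
      _ ≤ 2 * (1 / 300) ^ g * (17 / 7) ^ g * 4 ^ g * r ^ n := by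
          gcongr
          norm_num
      _ = 2 * ((1 / 300) * (17 / 7) * 4) ^ g * r ^ n := by rw [mul_pow, mul_pow]; ring
      _ ≤ 2 * (1 / 30) ^ g * r ^ n := by
          gcongr
          norm_num
  have hgε : 4 * ((g : ℝ) * (g + 1)) * (1 / 30) ^ g < 1 := by
    rw [one_div_pow, mul_one_div, div_lt_one (by positivity)]
    exact four_mul_lt g hg
  have hg1 : (1 : ℝ) ≤ g := by exact_mod_cast hg
  have hE0 : coeff 0 E = 0 := by
    have h1 : coeff 0 δ = 0 := by
      rw [hδeq, map_sum]
      refine sum_eq_zero fun j hj => ?_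
      by_cases hj0 : j = 0
      · subst hj0
        rw [Nat.sub_zero, htop g (by omega), sub_self, Int.cast_zero, map_zero, zero_mul,
          zero_mul, map_zero]
      · rw [coeff_zero_eq_constantCoeff_apply, map_mul, map_mul, map_pow, constantCoeff_X,
          zero_pow hj0, mul_zero, zero_mul]
    rw [hE, coeff_zero_eq_constantCoeff_apply, map_mul, ← coeff_zero_eq_constantCoeff_apply, h1,
      zero_mul]
  have hlder := lder_small hrpos hε0 (by
    rw [hε]
    have : (0 : ℝ) < (1 / 30) ^ g := by positivity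
    nlinarith) hE0 hEc
  have hsum : sser q g P' = sser q g P + lder (1 + E) := by
    show lder (wser q g P') = lder (wser q g P) + _
    rw [hhE, lder_mul (by rw [hcc]; exact one_ne_zero)]
    rw [map_add, ← coeff_zero_eq_constantCoeff_apply E, hE0]
    simp
  have hdiff : ∀ j ≤ g, |mom q g P' j - mom q g P j| ≤ 2 * g * ε := by
    intro j hj
    rw [mom, mom]
    split_ifs with hj0
    · rw [sub_self, abs_zero]
      positivity
    · rw [hsum, map_add, ← sub_div, add_sub_cancel_left, abs_div, abs_of_pos (pow_pos hrpos j),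
        div_le_iff₀ (pow_pos hrpos j)]
      exact hlder j hj
  -- positivity
  intro v ⟨i₀, hi₀, hv⟩
  have hform := form_ge (c := mom q g P) hθ v g
  set V : ℝ := ∑ i ∈ range (g + 1), v i ^ 2 with hV
  have hVpos : 0 < V := by
    rw [hV]
    refine sum_pos' (fun i _ => sq_nonneg _) ⟨i₀, mem_range.2 (by omega), by positivity⟩
  have hcmp : ∑ i ∈ range (g + 1), ∑ l ∈ range (g + 1),
      v i * v l * mom q g P ((i - l) + (l - i)) -
      ∑ i ∈ range (g + 1), ∑ l ∈ range (g + 1), v i * v l * mom q g P' ((i - l) + (l - i)) ≤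
      2 * g * ε * ((g + 1) * V) := by
    rw [← sum_sub_distrib]
    simp only [← sum_sub_distrib]
    have h1 : ∀ i ∈ range (g + 1), ∀ l ∈ range (g + 1),
        v i * v l * mom q g P ((i - l) + (l - i)) - v i * v l * mom q g P' ((i - l) + (l - i)) ≤
        2 * g * ε * (|v i| * |v l|) := by
      intro i hi l hl
      have hi' := mem_range.1 hi
      have hl' := mem_range.1 hl
      rw [← mul_sub, mul_comm (2 * (g : ℝ) * ε), ← abs_mul]
      refine (le_abs_self _).trans ?_
      rw [abs_mul, abs_sub_comm]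
      exact mul_le_mul_of_nonneg_left (hdiff _ (by omega)) (abs_nonneg _)
    refine (sum_le_sum fun i hi => sum_le_sum fun l hl => h1 i hi l hl).trans ?_
    simp only [← mul_sum]
    rw [← sum_mul]
    refine mul_le_mul_of_nonneg_left ?_ (by positivity)
    have h3 := sum_mul_sq_le_sq_mul_sq (range (g + 1)) (fun i => |v i|) (fun _ => (1 : ℝ))
    simp only [mul_one, sq_abs, one_pow, sum_const, card_range, nsmul_eq_mul] at h3
    rw [← sq, ← hV] at *
    push_cast at h3
    linarith
  have hε2 : 2 * (g : ℝ) * ε * ((g + 1) * V) < V := by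
    have e1 : 2 * (g : ℝ) * ε * ((g + 1) * V) = (4 * ((g : ℝ) * (g + 1)) * (1 / 30) ^ g) * V := by
      rw [hε]; ring
    rw [e1]
    exact mul_lt_of_lt_one_left hVpos hgε
  linarith

end Pool.Agent.Work.FF
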