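import Pool.Agent.Work.MP_223b32_FF.FROBAux

/-!
Block FROB: a Frobenius element for the factorisation pattern.
-/

namespace Pool.Agent.Work.FF

open Polynomial Finset NumberField Pool.Agent.Work.MP_223b32_ag_56

theorem stmt_FROB : Stmt_FROB := by
  intro L _ _ _ q ℓ g k d₁ d₂ d₃ _ h h2 hqℓ hadm hm hdeg hs hpat
  classical
  obtain ⟨f₁, f₂, f₃, hfac, hm₁, hm₂, hm₃, hi₁, hi₂, hi₃, hd₁, hd₂, hd₃, hnsq⟩ := hpat
  obtain ⟨hsum, h3₂, h3₃, h23, hk₂, hk₃, -, h4k, -, e, he₂, he₁, he₃⟩ := hadm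
  have h3₁ : 3 ≤ d₁ := by omega
  have h12 : d₁ ≠ d₂ := by omega
  have h13 : d₁ ≠ d₃ := by omega
  obtain ⟨K, _, _, π, σ, hσ⟩ := exists_frob' L ℓ
  have hℓ : ℓ.Prime := Fact.out
  let ι : ZMod ℓ →+* K := ZMod.castHom dvd_rfl K
  have hιmap : (h.map (Int.castRingHom (ZMod ℓ))).map ι = h.map (Int.castRingHom K) := by
    rw [Polynomial.map_map]
    congr 1
    exact Subsingleton.elim _ _
  have hπmap : (h.map (Int.castRingHom (𝓞 L))).map π = h.map (Int.castRingHom K) := by
    rw [Polynomial.map_map]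
    congr 1
    exact Subsingleton.elim _ _
  -- the factors are coprime
  have hcop : ∀ f f' : (ZMod ℓ)[X], Irreducible f → Irreducible f' →
      f.natDegree ≠ f'.natDegree → IsCoprime f f' := by
    intro f f' hf hf' hne
    refine (hf.coprime_iff_not_dvd).2 fun hdvd => hne ?_
    have hass : Associated f f' := (hf.dvd_irreducible_iff_associated hf').1 hdvd
    exact natDegree_eq_of_degree_eq (degree_eq_degree_of_associated hass)
  have hc12 : IsCoprime f₁ f₂ := hcop _ _ hi₁ hi₂ (by rw [hd₁, hd₂]; exact h12)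
  have hc13 : IsCoprime f₁ f₃ := hcop _ _ hi₁ hi₃ (by rw [hd₁, hd₃]; exact h13)
  have hc23 : IsCoprime f₂ f₃ := hcop _ _ hi₂ hi₃ (by rw [hd₂, hd₃]; exact h23)
  have hsepbar : (h.map (Int.castRingHom (ZMod ℓ))).Separable := by
    rw [hfac]
    refine Separable.mul ?_ (PerfectField.separable_of_irreducible hi₃)
      (IsCoprime.mul_left hc13 hc23)
    exact Separable.mul (PerfectField.separable_of_irreducible hi₁)
      (PerfectField.separable_of_irreducible hi₂) hc12
  have hsep : (h.map (Int.castRingHom K)).Separable := by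
    rw [← hιmap]
    exact hsepbar.map
  -- claim 1
  have claim1 : ∀ a b : 𝓞 L, aeval a h = 0 → aeval b h = 0 → π a = π b → a = b := by
    intro a b ha hb hab
    by_contra hne
    have ha' : (h.map (Int.castRingHom (𝓞 L))).IsRoot a := by
      rw [IsRoot.def, eval_map, ← algebraMap_int_eq, ← aeval_def]
      exact ha
    obtain ⟨k, hk⟩ := dvd_iff_isRoot.2 ha'
    have hb' : (h.map (Int.castRingHom (𝓞 L))).eval b = 0 := by
      rw [eval_map, ← algebraMap_int_eq, ← aeval_def]
      exact hb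
    rw [hk, eval_mul, eval_sub, eval_X, eval_C] at hb'
    have hkb : k.IsRoot b := (mul_eq_zero.1 hb').resolve_left (sub_ne_zero.2 (Ne.symm hne))
    obtain ⟨m, hm'⟩ := dvd_iff_isRoot.2 hkb
    have h5 : h.map (Int.castRingHom K) = (X - C (π a)) * ((X - C (π a)) * m.map π) := by
      rw [← hπmap, hk, hm']
      simp [Polynomial.map_mul, Polynomial.map_sub, hab]
    have h6 := hsep.squarefree
    rw [h5, ← mul_assoc] at h6
    have h7 := h6 (X - C (π a)) (Dvd.intro _ rfl)
    exact not_isUnit_X_sub_C _ h7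
  have hrootK : ∀ a : 𝓞 L, aeval a h = 0 →
      (h.map (Int.castRingHom (ZMod ℓ))).eval₂ ι (π a) = 0 := by
    intro a ha
    rw [← eval_map, hιmap, ← hπmap, eval_map, eval₂_at_apply, eval_map, ← algebraMap_int_eq,
      ← aeval_def, ha, map_zero]
  have hjinj : Function.Injective (algebraMap (𝓞 L) L) := IsFractionRing.injective (𝓞 L) L
  -- lifting roots of `h`
  have lift1 : ∀ τ : L, aeval τ h = 0 → ∃ a : 𝓞 L, algebraMap (𝓞 L) L a = τ ∧ aeval a h = 0 := by
    intro τ hτ
    have hint : IsIntegral ℤ τ := ⟨h, hm, by rwa [← aeval_def]⟩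
    obtain ⟨a, ha⟩ := (IsIntegralClosure.isIntegral_iff (A := 𝓞 L)).1 hint
    refine ⟨a, ha, hjinj ?_⟩
    rw [map_zero, ← aeval_algebraMap_apply, ha, hτ]
  -- lifting elements above
  have lift2 : ∀ x : L, x ≠ 0 → aeval (x + q / x) h = 0 → ∃ x' t' : 𝓞 L,
      algebraMap (𝓞 L) L x' = x ∧
      algebraMap (𝓞 L) L t' = x + q / x ∧ aeval t' h = 0 ∧ x' * (t' - x') = q := by
    intro x hx0 hx
    obtain ⟨t', ht', ht'h⟩ := lift1 _ hx
    have hint : IsIntegral (𝓞 L) x := by
      refine ⟨X ^ 2 - C t' * X + C (q : 𝓞 L), by monicity!, ?_⟩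
      simp only [eval₂_add, eval₂_sub, eval₂_mul, eval₂_pow, eval₂_X, eval₂_C]
      rw [ht', map_natCast]
      field_simp
      ring
    obtain ⟨x', hx'⟩ := IsIntegrallyClosed.isIntegral_iff.1 hint
    refine ⟨x', t', hx', ht', ht'h, hjinj ?_⟩
    rw [map_mul, map_sub, ht', hx', map_natCast]
    field_simp
    ring
  have hq0 : (q : K) ≠ 0 := by
    have : ι (q : ZMod ℓ) ≠ 0 := (map_ne_zero ι).2 hqℓ
    simpa using this
  -- nonvanishing of the discriminant
  have hdisc : ∀ t' : 𝓞 L, aeval t' h = 0 → π t' ^ 2 - 4 * (q : K) ≠ 0 := by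
    intro t' ht'
    have h3 := hrootK t' ht'
    rw [hfac, eval₂_mul, eval₂_mul] at h3
    have h4 : ι (4 * (q : ZMod ℓ)) = 4 * (q : K) := by rw [map_mul, map_natCast, map_ofNat]
    rw [← h4]
    rcases mul_eq_zero.1 h3 with h3 | h3
    · rcases mul_eq_zero.1 h3 with h3 | h3
      · exact FROBAux.disc_ne ι hi₁ (by omega) h3 _
      · exact FROBAux.disc_ne ι hi₂ (by omega) h3 _
    · exact FROBAux.disc_ne ι hi₃ (by omega) h3 _
  -- injectivity of the reduction
  have inj : ∀ x y : L, x ≠ 0 → aeval (x + q / x) h = 0 → y ≠ 0 → aeval (y + q / y) h = 0 →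
      ∀ x' y' : 𝓞 L, algebraMap (𝓞 L) L x' = x → algebraMap (𝓞 L) L y' = y →
      π x' = π y' → x = y := by
    intro x y hx0 hx hy0 hy x' y' hx' hy' hxy
    obtain ⟨x'', t', hx'', ht', htx, hqx⟩ := lift2 x hx0 hx
    obtain ⟨y'', u', hy'', hu', htu, hqy⟩ := lift2 y hy0 hy
    have e1 : x'' = x' := hjinj (hx''.trans hx'.symm)
    have e2 : y'' = y' := hjinj (hy''.trans hy'.symm)
    subst e1 e2
    have hqx' := congrArg π hqx
    have hqy' := congrArg π hqy
    simp only [map_mul, map_sub, map_natCast] at hqx' hqy'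
    have hπ0 : π x'' ≠ 0 := by
      intro h0
      rw [h0, zero_mul] at hqx'
      exact hq0 hqx'.symm
    have htu' : π t' = π u' := by
      rw [← hxy] at hqy'
      have := mul_left_cancel₀ hπ0 (hqx'.trans hqy'.symm)
      exact sub_left_inj.1 this
    have htu2 : t' = u' := claim1 _ _ htx htu htu'
    have hsum : x + q / x = y + q / y := by rw [← ht', ← hu', htu2]
    have hprod : (x - y) * (x - q / y) = 0 := by
      have : q / x = y + q / y - x := by rw [← hsum]; ring
      have h8 : (q : L) = x * (y + q / y - x) := by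
        rw [← this]; field_simp
      have h9 : y * (q / y) = q := by field_simp
      linear_combination h8 + h9
    rcases mul_eq_zero.1 hprod with h8 | h8
    · exact sub_eq_zero.1 h8
    · exfalso
      have h9 : x = algebraMap (𝓞 L) L u' - algebraMap (𝓞 L) L y'' := by
        rw [hu', hy'', sub_eq_zero.1 h8]; ring
      have h10 : x'' = u' - y'' := hjinj (by rw [hx'', map_sub]; exact h9)
      have h11 : π y'' = π u' - π y'' := by rw [← map_sub, ← h10, hxy]
      apply hdisc u' htu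
      have h12 := hqy'
      rw [← hxy] at h11 h12
      linear_combination (-(π u' - 2 * π x'')) * h11 + 4 * h12
  -- iterates of the Frobenius
  have hσn : ∀ (n : ℕ) (a : 𝓞 L), π ((σ ^ n) • a) = π a ^ (ℓ ^ n) := by
    intro n
    induction n with
    | zero => intro a; simp
    | succ n ih => intro a; rw [pow_succ', mul_smul, hσ, ih, ← pow_mul, pow_succ]
  have hcoe : ∀ (n : ℕ) (a : 𝓞 L), algebraMap (𝓞 L) L ((σ ^ n) • a) =
      (σ ^ n) (algebraMap (𝓞 L) L a) := fun n a => rfl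
  have haevalσ : ∀ (τ : Gal(L/ℚ)) (x : L), aeval x h = 0 → aeval (τ x) h = 0 := by
    intro τ x hx
    have h4 : aeval (τ x) h = τ (aeval x h) :=
      aeval_algHom_apply ((τ : L →ₐ[ℚ] L).restrictScalars ℤ) x h
    rw [h4, hx, map_zero]
  have haevalO : ∀ a : 𝓞 L, aeval a h = 0 ↔ aeval (algebraMap (𝓞 L) L a) h = 0 := by
    intro a
    rw [aeval_algebraMap_apply]
    constructor
    · intro h0; rw [h0, map_zero]
    · intro h0; exact hjinj (by rw [h0, map_zero])
  have haevalσO : ∀ (n : ℕ) (a : 𝓞 L), aeval a h = 0 → aeval ((σ ^ n) • a) h = 0 := by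
    intro n a ha
    rw [haevalO, hcoe]
    exact haevalσ _ _ ((haevalO a).1 ha)
  -- all roots of `h`
  have hsO : (h.map (Int.castRingHom (𝓞 L))).Splits := by
    have e1 : (h.map (Int.castRingHom (𝓞 L))).map (algebraMap (𝓞 L) L) =
        h.map (Int.castRingHom L) := by
      rw [Polynomial.map_map]
      congr 1
    refine Splits.of_splits_map_of_injective hjinj (by rw [e1]; exact hs) ?_
    intro a ha
    rw [e1, mem_roots (hm.map _).ne_zero, IsRoot.def, eval_map, ← algebraMap_int_eq,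
      ← aeval_def] at ha
    obtain ⟨b, hb, _⟩ := lift1 a ha
    exact ⟨b, hb⟩
  set RO : Finset (𝓞 L) := (h.map (Int.castRingHom (𝓞 L))).roots.toFinset with hRO
  have hROmem : ∀ a : 𝓞 L, a ∈ RO ↔ aeval a h = 0 := by
    intro a
    rw [hRO, Multiset.mem_toFinset, mem_roots (hm.map _).ne_zero, IsRoot.def, eval_map,
      ← algebraMap_int_eq, ← aeval_def]
  have hKroot : ∀ r : K, (h.map (Int.castRingHom (ZMod ℓ))).eval₂ ι r = 0 →
      ∃ a : 𝓞 L, aeval a h = 0 ∧ π a = r := by
    intro r hr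
    rw [← eval_map, hιmap, ← hπmap, hsO.eq_prod_roots_of_monic (hm.map _),
      Polynomial.map_multiset_prod,
      eval_multiset_prod, Multiset.map_map, Multiset.map_map, Multiset.prod_eq_zero_iff] at hr
    obtain ⟨a, ha, h1⟩ := Multiset.mem_map.1 hr
    refine ⟨a, ?_, ?_⟩
    · rw [mem_roots (hm.map _).ne_zero, IsRoot.def, eval_map, ← algebraMap_int_eq,
        ← aeval_def] at ha
      exact ha
    · simp only [Function.comp_apply, Polynomial.map_sub, map_X, map_C, eval_sub, eval_X,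
        eval_C] at h1
      exact (sub_eq_zero.1 h1).symm
  have hsK : (h.map (Int.castRingHom K)).Splits := by
    rw [← hπmap]
    exact hsO.map π
  -- the sets of roots
  let A : (ZMod ℓ)[X] → Finset (𝓞 L) := fun f => RO.filter fun a => f.eval₂ ι (π a) = 0
  let Cc : (ZMod ℓ)[X] → Finset L := fun f => (A f).image (algebraMap (𝓞 L) L)
  have hA : ∀ f a, a ∈ A f ↔ aeval a h = 0 ∧ f.eval₂ ι (π a) = 0 := by
    intro f a
    rw [mem_filter, hROmem]
  have hC : ∀ f x, x ∈ Cc f ↔ ∃ a : 𝓞 L, aeval a h = 0 ∧ f.eval₂ ι (π a) = 0 ∧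
      algebraMap (𝓞 L) L a = x := by
    intro f x
    rw [mem_image]
    constructor
    · rintro ⟨a, ha, hx⟩
      exact ⟨a, ((hA f a).1 ha).1, ((hA f a).1 ha).2, hx⟩
    · rintro ⟨a, ha, hf, hx⟩
      exact ⟨a, (hA f a).2 ⟨ha, hf⟩, hx⟩
  have hcard : ∀ f, f ∣ h.map (Int.castRingHom (ZMod ℓ)) → Irreducible f →
      (Cc f).card = f.natDegree := by
    intro f hdvd hf
    rw [card_image_of_injective _ hjinj]
    have h1 : (A f).card = ((A f).image π).card := by
      refine (card_image_of_injOn ?_).symm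
      intro a ha b hb hab
      exact claim1 a b ((hA f a).1 ha).1 ((hA f b).1 hb).1 hab
    have hfι : f.map ι ≠ 0 := by
      rw [Ne, Polynomial.map_eq_zero]
      exact hf.ne_zero
    have h2 : (A f).image π = (f.map ι).roots.toFinset := by
      ext r
      rw [mem_image, Multiset.mem_toFinset, mem_roots hfι, IsRoot.def, eval_map]
      constructor
      · rintro ⟨a, ha, rfl⟩
        exact ((hA f a).1 ha).2
      · intro hr
        obtain ⟨m, hm'⟩ := hdvd
        obtain ⟨a, ha, har⟩ := hKroot r (by rw [hm', eval₂_mul, hr, zero_mul])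
        exact ⟨a, (hA f a).2 ⟨ha, by rw [har]; exact hr⟩, har⟩
    have h3 : (f.map ι).Splits := by
      refine Splits.of_dvd hsK (hm.map _).ne_zero ?_
      rw [← hιmap]
      exact Polynomial.map_dvd ι hdvd
    have h4 : (f.map ι).Separable := (PerfectField.separable_of_irreducible hf).map
    rw [h1, h2, Multiset.toFinset_card_of_nodup (nodup_roots h4), ← h3.natDegree_eq_card_roots,
      natDegree_map]
  have hCroot : ∀ f x, x ∈ Cc f → aeval x h = 0 := by
    intro f x hx
    obtain ⟨a, ha, -, hax⟩ := (hC f x).1 hx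
    rw [← hax, ← haevalO]
    exact ha
  have htrans : ∀ f, Irreducible f → ∀ x ∈ Cc f, ∀ y ∈ Cc f, ∃ n : ℕ, (σ ^ n) x = y := by
    intro f hf x hx y hy
    obtain ⟨a, ha, hfa, hax⟩ := (hC f x).1 hx
    obtain ⟨b, hb, hfb, hby⟩ := (hC f y).1 hy
    obtain ⟨n, hn⟩ := FROBAux.conj ι hf hfa hfb
    refine ⟨n, ?_⟩
    rw [← hax, ← hby, ← hcoe]
    congr 1
    exact claim1 _ _ (haevalσO n a ha) hb (by rw [hσn, hn])
  have hstab : ∀ f, ∀ x ∈ Cc f, σ x ∈ Cc f := by
    intro f x hx
    obtain ⟨a, ha, hfa, hax⟩ := (hC f x).1 hx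
    refine (hC f _).2 ⟨(σ ^ 1) • a, haevalσO 1 a ha, ?_, ?_⟩
    · rw [hσn, pow_one, FROBAux.eval_frob ι f, hfa, zero_pow hℓ.ne_zero]
    · rw [hcoe, hax, pow_one]
  have hdisj : ∀ f f', IsCoprime f f' → Disjoint (Cc f) (Cc f') := by
    intro f f' hc
    rw [Finset.disjoint_left]
    intro x hx hx'
    obtain ⟨a, ha, hfa, hax⟩ := (hC f x).1 hx
    obtain ⟨b, hb, hfb, hbx⟩ := (hC f' x).1 hx'
    have hab : a = b := hjinj (hax.trans hbx.symm)
    subst hab
    obtain ⟨u, v, huv⟩ := hc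
    have := congrArg (fun p => p.eval₂ ι (π a)) huv
    simp only [eval₂_add, eval₂_mul, hfa, hfb, mul_zero, add_zero, eval₂_one] at this
    exact zero_ne_one this
  -- the exponent
  obtain ⟨N, M, hN, hM, hN1, hN3⟩ := FROBAux.exists_N (by omega) (by omega) he₂ he₁ he₃
  -- Frobenius powers on the elements above
  have hy : ∀ (f : (ZMod ℓ)[X]), Irreducible f → ∀ y' t' : 𝓞 L, y' * (t' - y') = q →
      f.eval₂ ι (π t') = 0 →
      (π y' ^ (ℓ ^ f.natDegree) = π y' ∨ π y' ^ (ℓ ^ f.natDegree) = π t' - π y') ∧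
      (π t' - π y') ^ (ℓ ^ f.natDegree) = π t' - π y' ^ (ℓ ^ f.natDegree) := by
    intro f hf y' t' hq' ht
    have hα := FROBAux.root_pow ι hf ht
    have hq'' := congrArg π hq'
    simp only [map_mul, map_sub, map_natCast] at hq''
    have h3 := congrArg (iterateFrobenius K ℓ f.natDegree) hq''
    rw [map_mul, map_sub, map_natCast, iterateFrobenius_def, iterateFrobenius_def, hα] at h3
    have h5 : (π y' ^ (ℓ ^ f.natDegree) - π y') *
        (π y' ^ (ℓ ^ f.natDegree) - (π t' - π y')) = 0 := by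
      linear_combination hq'' - h3
    refine ⟨?_, ?_⟩
    · rcases mul_eq_zero.1 h5 with h6 | h6
      · exact Or.inl (sub_eq_zero.1 h6)
      · exact Or.inr (sub_eq_zero.1 h6)
    · have := map_sub (iterateFrobenius K ℓ f.natDegree) (π t') (π y')
      rw [iterateFrobenius_def, iterateFrobenius_def, iterateFrobenius_def, hα] at this
      exact this
  have hstabL : ∀ (n : ℕ) (x : L), x ≠ 0 → aeval (x + q / x) h = 0 →
      (σ ^ n) x ≠ 0 ∧ aeval ((σ ^ n) x + q / (σ ^ n) x) h = 0 := by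
    intro n x hx0 hx
    refine ⟨(map_ne_zero (σ ^ n)).2 hx0, ?_⟩
    have h3 : (σ ^ n) x + q / (σ ^ n) x = (σ ^ n) (x + q / x) := by
      rw [map_add, map_div₀, map_natCast]
    rw [h3]
    exact haevalσ _ _ hx
  have hswap : ∀ x : L, x ≠ 0 → aeval (x + q / x) h = 0 →
      q / x ≠ 0 ∧ aeval (q / x + q / (q / x)) h = 0 := by
    intro x hx0 hx
    have hqL : (q : L) ≠ 0 := by
      intro h0
      have : q = 0 := by exact_mod_cast h0
      exact hqℓ (by rw [this]; simp)
    refine ⟨div_ne_zero hqL hx0, ?_⟩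
    have : q / x + q / (q / x) = x + q / x := by
      rw [div_div_cancel₀ hqL, add_comm]
    rw [this, hx]
  have hfix : ∀ (f : (ZMod ℓ)[X]), Irreducible f → 2 * f.natDegree ∣ N → ∀ y : L, y ≠ 0 →
      y + q / y ∈ Cc f → (σ ^ N) y = y := by
    intro f hf hdN y hy0 hyC
    have hyh := hCroot f _ hyC
    obtain ⟨y', t', hy', ht', hth, hqy⟩ := lift2 y hy0 hyh
    obtain ⟨a, ha, hfa, hax⟩ := (hC f _).1 hyC
    have hat : a = t' := hjinj (hax.trans ht'.symm)
    subst hat
    obtain ⟨hor, hsub⟩ := hy f hf y' a hqy hfa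
    have hp2 : π y' ^ (ℓ ^ (2 * f.natDegree)) = π y' := by
      rw [two_mul, pow_add, pow_mul]
      rcases hor with h6 | h6
      · rw [h6, h6]
      · rw [h6, hsub, h6, sub_sub_cancel]
    have hpN : π y' ^ (ℓ ^ N) = π y' := by
      obtain ⟨m, rfl⟩ := hdN
      have : ∀ m : ℕ, π y' ^ (ℓ ^ (2 * f.natDegree * m)) = π y' := by
        intro m
        induction m with
        | zero => simp
        | succ m ih => rw [mul_add, mul_one, pow_add, pow_mul, ih, hp2]
      exact this m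
    exact inj ((σ ^ N) y) y (hstabL N y hy0 hyh).1 (hstabL N y hy0 hyh).2 hy0 hyh
      ((σ ^ N) • y') y' (by rw [hcoe, hy']) hy' (by rw [hσn, hpN])
  refine ⟨σ, Cc f₁, Cc f₂, Cc f₃, N, ?_, hdisj _ _ hc12, hdisj _ _ hc13, hdisj _ _ hc23,
    ?_, ?_, ?_, htrans _ hi₁, htrans _ hi₂, htrans _ hi₃, hstab _, hstab _, hstab _,
    hfix _ hi₁ (by rw [hd₁]; exact hN1), hfix _ hi₃ (by rw [hd₃]; exact hN3), ?_⟩
  · intro x
    constructor
    · intro hx
      obtain ⟨a, ha, hah⟩ := lift1 x hx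
      have h3 := hrootK a hah
      rw [hfac, eval₂_mul, eval₂_mul] at h3
      rcases mul_eq_zero.1 h3 with h3 | h3
      · rcases mul_eq_zero.1 h3 with h3 | h3
        · exact Or.inl ((hC _ _).2 ⟨a, hah, h3, ha⟩)
        · exact Or.inr (Or.inl ((hC _ _).2 ⟨a, hah, h3, ha⟩))
      · exact Or.inr (Or.inr ((hC _ _).2 ⟨a, hah, h3, ha⟩))
    · rintro (hx | hx | hx)
      · exact hCroot _ _ hx
      · exact hCroot _ _ hx
      · exact hCroot _ _ hx
  · rw [hcard f₁ ⟨f₂ * f₃, by rw [hfac, mul_assoc]⟩ hi₁, hd₁]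
  · rw [hcard f₂ ⟨f₁ * f₃, by rw [hfac]; ring⟩ hi₂, hd₂]
  · rw [hcard f₃ ⟨f₁ * f₂, by rw [hfac]; ring⟩ hi₃, hd₃]
  · intro y hy0 hyC
    have hyh := hCroot f₂ _ hyC
    obtain ⟨y', t', hy', ht', hth, hqy⟩ := lift2 y hy0 hyh
    obtain ⟨a, ha, hfa, hax⟩ := (hC f₂ _).1 hyC
    have hat : a = t' := hjinj (hax.trans ht'.symm)
    subst hat
    obtain ⟨hor, hsub⟩ := hy f₂ hi₂ y' a hqy hfa
    rw [hd₂] at hor hsub
    have hq'' := congrArg π hqy
    simp only [map_mul, map_sub, map_natCast] at hq''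
    have hne : π y' ^ (ℓ ^ d₂) ≠ π y' := by
      intro h6
      have : Fact (Irreducible f₂) := ⟨hi₂⟩
      rw [← hd₂] at h6
      obtain ⟨w, hw⟩ := FROBAux.fixed_mem ι hi₂ hfa h6
      apply hnsq
      refine ⟨2 * w - AdjoinRoot.root f₂, ?_⟩
      have hinj : Function.Injective (AdjoinRoot.lift ι (π a) hfa) := RingHom.injective _
      apply hinj
      simp only [map_mul, map_sub, map_pow, map_ofNat, map_natCast, hw, AdjoinRoot.lift_root]
      linear_combination 4 * hq''
    have hflip : π y' ^ (ℓ ^ d₂) = π a - π y' := hor.resolve_left hne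
    have hodd : ∀ m : ℕ, π y' ^ (ℓ ^ (d₂ * (2 * m + 1))) = π a - π y' := by
      intro m
      induction m with
      | zero => simpa using hflip
      | succ m ih =>
        have e1 : d₂ * (2 * (m + 1) + 1) = d₂ * (2 * m + 1) + d₂ + d₂ := by ring
        rw [e1, pow_add, pow_mul, pow_add, pow_mul, ih, hsub, hflip, sub_sub_cancel, hflip]
    obtain ⟨m, hm'⟩ := hM
    have hpN : π y' ^ (ℓ ^ N) = π a - π y' := by rw [hN, hm', hodd m]
    constructor
    · exact inj ((σ ^ N) y) (q / y) (hstabL N y hy0 hyh).1 (hstabL N y hy0 hyh).2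
        (hswap y hy0 hyh).1 (hswap y hy0 hyh).2 ((σ ^ N) • y') (a - y')
        (by rw [hcoe, hy']) (by rw [map_sub, ht', hy']; ring) (by rw [hσn, hpN, map_sub])
    · intro heq
      apply hdisc a hth
      have h9 : y' = a - y' := hjinj (by
        rw [map_sub, ht', hy']
        rw [← heq]
        ring)
      have h10 : π y' = π a - π y' := by rw [← map_sub, ← h9]
      linear_combination (-(π a - 2 * π y')) * h10 + 4 * hq''

end Pool.Agent.Work.FF
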