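import Pool.Agent.Work.MP_223b32_FF.Interface

/-!
Block GAL of the project fixed finite field, dimension to infinity (MP_223b32_ag):
from the separation of the roots to the Tate property.
-/

namespace Pool.Agent.Work.FF

open Polynomial Finset Pool.Agent.Work.MP_223b32_ag_56

namespace GALAux

section Field

variable {L : Type} [Field L] [NumberField L] [IsGalois ℚ L]

/-- The separation property of the block SEP. -/
def Sep (L : Type) [Field L] [NumberField L] (q : ℕ) (h : ℤ[X]) : Prop :=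
  ∀ x y : L, x ≠ 0 → y ≠ 0 → aeval (x + q / x) h = 0 → aeval (y + q / y) h = 0 →
      x + q / x ≠ y + q / y → ∃ τ : Gal(L/ℚ), (∀ z : L, aeval z h = 0 → τ z = z) ∧
        ((τ x = q / x ∧ x ≠ q / x ∧ τ y = y) ∨ (τ x = x ∧ τ y = q / y ∧ y ≠ q / y))

omit [NumberField L] [IsGalois ℚ L] in
theorem two_sol [CharZero L] {q : ℕ} (y z : L) (hy : y ≠ 0) (hz : z ≠ 0)
    (h : z + q / z = y + q / y) : z = y ∨ z = q / y := by
  have h2 : (z - y) * (z - q / y) = 0 := by
    field_simp at h ⊢
    linear_combination h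
  rcases mul_eq_zero.1 h2 with h3 | h3
  · exact Or.inl (sub_eq_zero.1 h3)
  · exact Or.inr (sub_eq_zero.1 h3)

theorem trans_roots {h : ℤ[X]} (hm : h.Monic) (hirr : Irreducible (h.map (Int.castRingHom ℚ)))
    {u v : L} (hu : aeval u h = 0) (hv : aeval v h = 0) : ∃ τ : Gal(L/ℚ), τ u = v := by
  have hmin : ∀ u : L, aeval u h = 0 → minpoly ℚ u = h.map (Int.castRingHom ℚ) := by
    intro u hu
    refine (minpoly.eq_of_irreducible_of_monic hirr ?_ (hm.map _)).symm
    rw [aeval_def, eval₂_map]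
    have : (algebraMap ℚ L).comp (Int.castRingHom ℚ) = algebraMap ℤ L := Subsingleton.elim _ _
    rw [this]
    exact hu
  have horb : v ∈ MulAction.orbit Gal(L/ℚ) u :=
    (Normal.minpoly_eq_iff_mem_orbit L).1 ((hmin v hv).trans (hmin u hu).symm)
  obtain ⟨τ, hτ⟩ := horb
  exact ⟨τ, hτ⟩

omit [IsGalois ℚ L] in
theorem map_sum' {q : ℕ} (ρ : Gal(L/ℚ)) (x : L) : ρ (x + q / x) = ρ x + q / ρ x := by
  rw [map_add, map_div₀, map_natCast]

omit [IsGalois ℚ L] in
theorem comm_unity (σ τ : Gal(L/ℚ)) {ζ : L} {N : ℕ} (hN : 0 < N) (hζN : ζ ^ N = 1) :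
    σ (τ ζ) = τ (σ ζ) := by
  have : NeZero N := ⟨hN.ne'⟩
  obtain ⟨m, hm1⟩ : ∃ m : ℕ, σ ζ = ζ ^ m := by
    obtain ⟨m, hm⟩ := map_rootsOfUnity_eq_pow_self σ
      (rootsOfUnity.mkOfPowEq ζ hζN : rootsOfUnity N L)
    exact ⟨m, by simpa using hm⟩
  obtain ⟨k, hk1⟩ : ∃ k : ℕ, τ ζ = ζ ^ k := by
    obtain ⟨m, hm⟩ := map_rootsOfUnity_eq_pow_self τ
      (rootsOfUnity.mkOfPowEq ζ hζN : rootsOfUnity N L)
    exact ⟨m, by simpa using hm⟩
  rw [hk1, map_pow, hm1, map_pow, hk1, ← pow_mul, ← pow_mul, mul_comm]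

/-- A flip of one root and a fixed point at another one: no root of unity. -/
theorem not_unity_aux {q : ℕ} (hq : q ≠ 0) {h : ℤ[X]} (hm : h.Monic)
    (hirr : Irreducible (h.map (Int.castRingHom ℚ))) (hdeg : h.natDegree ≠ 1)
    {x y : L} (hx : x ≠ 0) (hy : y ≠ 0) (hxr : aeval (x + q / x) h = 0)
    (hyr : aeval (y + q / y) h = 0) {τ : Gal(L/ℚ)} (h1 : τ x = q / x) (h2 : x ≠ q / x)
    (h3 : τ y = y) {z : L} (hz : z ≠ 0) (hzr : aeval (z + q / z) h = 0) {N : ℕ} (hN : 0 < N) :
    (z ^ 2 / q) ^ N ≠ 1 := by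
  intro hzN
  have hqL : (q : L) ≠ 0 := by exact_mod_cast hq
  -- the root of unity at `x`
  have hxN : (x ^ 2 / (q : L)) ^ N = 1 := by
    obtain ⟨ρ, hρ⟩ := trans_roots hm hirr hzr hxr
    rw [map_sum'] at hρ
    have h4 : (ρ z ^ 2 / (q : L)) ^ N = 1 := by
      have := congrArg ρ hzN
      rwa [map_pow, map_div₀, map_pow, map_natCast, map_one] at this
    rcases two_sol x (ρ z) hx ((_root_.map_ne_zero ρ).2 hz) hρ with h5 | h5
    · rwa [h5] at h4
    · rw [h5] at h4
      have h6 : ((q / x) ^ 2 / (q : L)) = (x ^ 2 / (q : L))⁻¹ := by field_simp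
      rw [h6, inv_pow, inv_eq_one] at h4
      exact h4
  obtain ⟨ρ, hρ⟩ := trans_roots hm hirr hxr hyr
  rw [map_sum'] at hρ
  have h4 : τ (ρ x) = ρ x := by
    rcases two_sol y (ρ x) hy ((_root_.map_ne_zero ρ).2 hx) hρ with h5 | h5
    · rw [h5, h3]
    · rw [h5, map_div₀, map_natCast, h3]
  set ζ : L := x ^ 2 / q with hζ
  have hζ0 : ζ ≠ 0 := div_ne_zero (pow_ne_zero _ hx) hqL
  have e4 : τ ζ = ζ⁻¹ := by
    rw [hζ, map_div₀, map_pow, map_natCast, h1]
    field_simp
  have e5 : τ (ρ ζ) = ρ ζ := by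
    rw [hζ, map_div₀, map_pow, map_natCast, map_div₀, map_pow, map_natCast, h4]
  have e6 : τ (ρ ζ) = ρ (τ ζ) := comm_unity τ ρ hN hxN
  have e7 : ζ = ζ⁻¹ := by
    apply ρ.injective
    rw [← e4, ← e6, e5]
  have e8 : ζ ^ 2 = 1 := by
    rw [pow_two]
    nth_rewrite 2 [e7]
    exact mul_inv_cancel₀ hζ0
  have e9 : (x ^ 2 - q) * (x ^ 2 + q) = 0 := by
    rw [hζ] at e8
    field_simp at e8
    linear_combination e8
  rcases mul_eq_zero.1 e9 with e10 | e10
  · apply h2
    field_simp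
    linear_combination e10
  · have h7 : x + q / x = 0 := by
      field_simp
      linear_combination e10
    rw [h7] at hxr
    have h8 : minpoly ℚ (0 : L) = h.map (Int.castRingHom ℚ) := by
      refine (minpoly.eq_of_irreducible_of_monic hirr ?_ (hm.map _)).symm
      rw [aeval_def, eval₂_map]
      have : (algebraMap ℚ L).comp (Int.castRingHom ℚ) = algebraMap ℤ L := Subsingleton.elim _ _
      rw [this]
      exact hxr
    rw [minpoly.zero] at h8
    have h9 := congrArg natDegree h8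
    rw [natDegree_X, hm.natDegree_map] at h9
    exact hdeg h9.symm

omit [IsGalois ℚ L] in
/-- The relation argument. `y` chooses a solution above each root. -/
theorem relation {q : ℕ} (hq : q ≠ 0) {h : ℤ[X]}
    (R : Finset L) (hR : ∀ r, r ∈ R ↔ aeval r h = 0)
    (y : L → L) (hy0 : ∀ r ∈ R, y r ≠ 0) (hyr : ∀ r ∈ R, y r + q / y r = r)
    (hns : ∀ r ∈ R, ∀ N : ℕ, 0 < N → (y r ^ 2 / (q : L)) ^ N ≠ 1)
    (hsep : Sep L q h) :
    ∀ k : ℕ, ∀ m : L → ℤ, (R.filter (fun r => m r ≠ 0)).card ≤ k → ∀ N : ℕ, 0 < N →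
      (∏ r ∈ R, (y r ^ 2 / (q : L)) ^ m r) ^ N = 1 → ∀ r ∈ R, m r = 0 := by
  classical
  have hqL : (q : L) ≠ 0 := by exact_mod_cast hq
  have hw0 : ∀ r ∈ R, (y r ^ 2 / (q : L)) ≠ 0 := fun r hr =>
    div_ne_zero (pow_ne_zero _ (hy0 r hr)) hqL
  intro k
  induction k with
  | zero =>
    intro m hk N hN hprod r hr
    by_contra hne
    have : r ∈ R.filter (fun r => m r ≠ 0) := mem_filter.2 ⟨hr, hne⟩
    rw [card_eq_zero.1 (Nat.le_zero.1 hk)] at this
    simp at this
  | succ k ih =>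
    intro m hk N hN hprod
    by_contra hcon
    push Not at hcon
    obtain ⟨r₀, hr₀, hm₀⟩ := hcon
    -- restriction to the flipped roots
    have hrestr : ∀ τ : Gal(L/ℚ), (∀ z : L, aeval z h = 0 → τ z = z) →
        ∀ r ∈ R, m r ≠ 0 → τ (y r) = y r →
          ∀ r' ∈ R, m r' ≠ 0 → τ (y r') = y r' := by
      intro τ hτ r hr hmr hfix r' hr' hmr'
      by_contra hne
      let m' : L → ℤ := fun r => if τ (y r) = y r then 0 else 2 * m r
      have hcard : (R.filter (fun r => m' r ≠ 0)).card ≤ k := by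
        have hlt : (R.filter (fun r => m' r ≠ 0)).card < (R.filter (fun r => m r ≠ 0)).card := by
          apply card_lt_card
          rw [ssubset_iff_of_subset]
          · exact ⟨r, mem_filter.2 ⟨hr, hmr⟩, by simp [m', hfix]⟩
          · intro u hu
            rw [mem_filter] at hu ⊢
            refine ⟨hu.1, fun h0 => hu.2 ?_⟩
            simp [m', h0]
        omega
      have hprod' : (∏ r ∈ R, (y r ^ 2 / (q : L)) ^ m' r) ^ N = 1 := by
        have h1 : (∏ r ∈ R, (y r ^ 2 / (q : L)) ^ m' r) =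
            (∏ r ∈ R, (y r ^ 2 / (q : L)) ^ m r) / τ (∏ r ∈ R, (y r ^ 2 / (q : L)) ^ m r) := by
          rw [map_prod, ← prod_div_distrib]
          apply prod_congr rfl
          intro u hu
          have hur : τ u = u := hτ u ((hR u).1 hu)
          have hor : τ (y u) = y u ∨ τ (y u) = q / y u := by
            apply two_sol (y u) (τ (y u)) (hy0 u hu) ((_root_.map_ne_zero τ).2 (hy0 u hu))
            rw [← map_sum', hyr u hu, hur]
          by_cases h2 : τ (y u) = y u
          · have h3 : m' u = 0 := by simp [m', h2]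
            rw [h3, zpow_zero, map_zpow₀, map_div₀, map_pow, map_natCast, h2, div_self]
            exact zpow_ne_zero _ (hw0 u hu)
          · have h4 : τ (y u) = q / y u := hor.resolve_left h2
            have h3 : m' u = m u + m u := by simp [m', h2, two_mul]
            have h5 : τ (y u ^ 2 / (q : L)) = (y u ^ 2 / (q : L))⁻¹ := by
              rw [map_div₀, map_pow, map_natCast, h4]
              have := hy0 u hu
              field_simp
            rw [h3, zpow_add₀ (hw0 u hu), map_zpow₀, h5, inv_zpow, div_inv_eq_mul]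
        rw [h1, div_pow, ← map_pow, hprod, map_one, div_one]
      have h6 := ih m' hcard N hN hprod' r' hr'
      simp only [m', if_neg hne] at h6
      omega
    by_cases hex : ∃ r₁ ∈ R, m r₁ ≠ 0 ∧ r₁ ≠ r₀
    · obtain ⟨r₁, hr₁, hm₁, hne⟩ := hex
      obtain ⟨τ, hτ, hc⟩ := hsep (y r₀) (y r₁) (hy0 _ hr₀) (hy0 _ hr₁)
        (by rw [hyr _ hr₀]; exact (hR _).1 hr₀) (by rw [hyr _ hr₁]; exact (hR _).1 hr₁)
        (by rw [hyr _ hr₀, hyr _ hr₁]; exact hne.symm)
      rcases hc with ⟨h1, h2, h3⟩ | ⟨h1, h2, h3⟩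
      · have := hrestr τ hτ r₁ hr₁ hm₁ h3 r₀ hr₀ hm₀
        exact h2 (this.symm.trans h1)
      · have := hrestr τ hτ r₀ hr₀ hm₀ h1 r₁ hr₁ hm₁
        exact h3 (this.symm.trans h2)
    · push Not at hex
      have h1 : (∏ r ∈ R, (y r ^ 2 / (q : L)) ^ m r) = (y r₀ ^ 2 / (q : L)) ^ m r₀ := by
        apply prod_eq_single_of_mem r₀ hr₀
        intro u hu hne
        have : m u = 0 := by
          by_contra h0
          exact hne (hex u hu h0)
        rw [this, zpow_zero]
      rw [h1, ← zpow_natCast, ← zpow_mul] at hprod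
      have h2 : (m r₀ * (N : ℤ)) ≠ 0 := mul_ne_zero hm₀ (by exact_mod_cast hN.ne')
      have h3 : (y r₀ ^ 2 / (q : L)) ^ (m r₀ * (N : ℤ)).natAbs = 1 := by
        rcases Int.natAbs_eq (m r₀ * (N : ℤ)) with h4 | h4
        · rw [h4, zpow_natCast] at hprod
          exact hprod
        · rw [h4, zpow_neg, zpow_natCast, inv_eq_one] at hprod
          exact hprod
      exact hns r₀ hr₀ _ (Int.natAbs_pos.2 h2) h3

/-- The count in the field `L`. -/
theorem count_field {q : ℕ} (hq : q ≠ 0) {h : ℤ[X]} (hm : h.Monic)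
    (hirr : Irreducible (h.map (Int.castRingHom ℚ))) (hdeg : 2 ≤ h.natDegree)
    (hs : (h.map (Int.castRingHom L)).Splits)
    (hsol : ∀ x : L, aeval x h = 0 → ∃ y : L, y ≠ 0 ∧ y + q / y = x)
    (hsep : Sep L q h) [DecidableEq L]
    {x : L} (hx0 : x ≠ 0) (hx : aeval (x + q / x) h = 0)
    {s : Multiset L} (hsm : ∀ z ∈ s, z ≠ 0 ∧ aeval (z + q / z) h = 0) {n m : ℕ} (hn : 0 < n)
    (hprod : s.prod ^ n = (q : L) ^ m) : s.count (q / x) = s.count x := by
  have hqL : (q : L) ≠ 0 := by exact_mod_cast hq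
  -- the roots
  set R : Finset L := (h.map (Int.castRingHom L)).roots.toFinset with hRdef
  have hmon : (h.map (Int.castRingHom L)).Monic := hm.map _
  have hR : ∀ r, r ∈ R ↔ aeval r h = 0 := by
    intro r
    rw [hRdef, Multiset.mem_toFinset, mem_roots hmon.ne_zero, IsRoot.def, eval_map,
      ← algebraMap_int_eq, ← aeval_def]
  have hcardR : 2 ≤ R.card := by
    have hsepa : (h.map (Int.castRingHom L)).Separable := by
      have h1 : (h.map (Int.castRingHom ℚ)).Separable := hirr.separable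
      have h2 : (h.map (Int.castRingHom ℚ)).map (algebraMap ℚ L) = h.map (Int.castRingHom L) := by
        rw [Polynomial.map_map]
        congr 1
        exact Subsingleton.elim _ _
      rw [← h2]
      exact h1.map
    have h3 : (h.map (Int.castRingHom L)).roots.Nodup := nodup_roots hsepa
    rw [hRdef, Multiset.toFinset_card_of_nodup h3, ← hs.natDegree_eq_card_roots,
      hm.natDegree_map]
    exact hdeg
  -- the choice
  have hex : ∀ r : L, ∃ y : L, r ∈ R → (y ≠ 0 ∧ y + q / y = r) := by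
    intro r
    by_cases hr : r ∈ R
    · obtain ⟨y, hy⟩ := hsol r ((hR r).1 hr)
      exact ⟨y, fun _ => hy⟩
    · exact ⟨0, fun h0 => absurd h0 hr⟩
  choose y hy using hex
  have hy0 : ∀ r ∈ R, y r ≠ 0 := fun r hr => (hy r hr).1
  have hyr : ∀ r ∈ R, y r + q / y r = r := fun r hr => (hy r hr).2
  -- a pair of roots
  obtain ⟨a, ha, b, hb, hab⟩ := one_lt_card.1 hcardR
  have hya : aeval (y a + q / y a) h = 0 := by rw [hyr a ha]; exact (hR a).1 ha
  have hyb : aeval (y b + q / y b) h = 0 := by rw [hyr b hb]; exact (hR b).1 hb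
  obtain ⟨τ₀, hτ₀, hc⟩ := hsep (y a) (y b) (hy0 a ha) (hy0 b hb) hya hyb
    (by rw [hyr a ha, hyr b hb]; exact hab)
  have hpair : ∃ u v : L, u ≠ 0 ∧ v ≠ 0 ∧ aeval (u + q / u) h = 0 ∧ aeval (v + q / v) h = 0 ∧
      τ₀ u = q / u ∧ u ≠ q / u ∧ τ₀ v = v := by
    rcases hc with ⟨h1, h2, h3⟩ | ⟨h1, h2, h3⟩
    · exact ⟨y a, y b, hy0 a ha, hy0 b hb, hya, hyb, h1, h2, h3⟩
    · exact ⟨y b, y a, hy0 b hb, hy0 a ha, hyb, hya, h2, h3, h1⟩
  obtain ⟨u, v, hu0, hv0, hu, hv, hτu, hune, hτv⟩ := hpair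
  have hns : ∀ r ∈ R, ∀ N : ℕ, 0 < N → (y r ^ 2 / (q : L)) ^ N ≠ 1 := by
    intro r hr N hN
    exact not_unity_aux hq hm hirr (by omega) hu0 hv0 hu hv hτu hune hτv (hy0 r hr)
      (by rw [hyr r hr]; exact (hR r).1 hr) hN
  -- a flip at the root `x + q / x`
  obtain ⟨τ, hτ, hτx, hxne⟩ : ∃ τ : Gal(L/ℚ), (∀ z : L, aeval z h = 0 → τ z = z) ∧
      τ x = q / x ∧ x ≠ q / x := by
    obtain ⟨ρ, hρ⟩ := trans_roots hm hirr hu hx
    rw [map_sum'] at hρ
    refine ⟨ρ * τ₀ * ρ⁻¹, ?_, ?_⟩
    · intro z hz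
      show ρ (τ₀ (ρ⁻¹ z)) = z
      rw [hτ₀ (ρ⁻¹ z) (by rw [aeval_equiv, hz, map_zero])]
      exact AlgEquiv.apply_symm_apply ρ _
    · have h1 : (ρ * τ₀ * ρ⁻¹) (ρ u) = q / ρ u := by
        show ρ (τ₀ (ρ⁻¹ (ρ u))) = q / ρ u
        have : ρ⁻¹ (ρ u) = u := AlgEquiv.symm_apply_apply ρ _
        rw [this, hτu, map_div₀, map_natCast]
      have h2 : ρ u ≠ q / ρ u := by
        intro h0
        apply hune
        apply ρ.injective
        rw [map_div₀, map_natCast]
        exact h0
      rcases two_sol x (ρ u) hx0 ((_root_.map_ne_zero ρ).2 hu0) hρ with h5 | h5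
      · rw [h5] at h1 h2
        exact ⟨h1, h2⟩
      · rw [h5, div_div_cancel₀ hqL] at h1 h2
        refine ⟨?_, h2.symm⟩
        have h6 := h1
        rw [map_div₀, map_natCast] at h6
        have h7 : (ρ * τ₀ * ρ⁻¹) x ≠ 0 := (_root_.map_ne_zero _).2 hx0
        field_simp at h6 ⊢
        linear_combination -h6
  -- the exponents
  let e : L → L → ℤ := fun a r => (if a = y r then 1 else 0) - (if a = q / y r then 1 else 0)
  have hor : ∀ r ∈ R, τ (y r) = y r ∨ τ (y r) = q / y r := by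
    intro r hr
    apply two_sol (y r) (τ (y r)) (hy0 r hr) ((_root_.map_ne_zero τ).2 (hy0 r hr))
    rw [← map_sum', hyr r hr, hτ r ((hR r).1 hr)]
  set S : Finset L := R.filter (fun r => τ (y r) ≠ y r) with hS
  have hSmem : ∀ r, r ∈ S ↔ r ∈ R ∧ τ (y r) ≠ y r := fun r => by rw [hS, mem_filter]
  have hone : ∀ a : L, a ≠ 0 → aeval (a + q / a) h = 0 →
      a / τ a = ∏ r ∈ S, (y r ^ 2 / (q : L)) ^ e a r := by
    intro a ha0 har
    have harR : a + q / a ∈ R := (hR _).2 har
    have hcase : a = y (a + q / a) ∨ a = q / y (a + q / a) :=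
      two_sol _ a (hy0 _ harR) ha0 (hyr _ harR).symm
    have hother : ∀ r ∈ R, r ≠ a + q / a → e a r = 0 := by
      intro r hr hne
      have h1 : a ≠ y r := by
        intro h0
        apply hne
        rw [h0, hyr r hr]
      have h2 : a ≠ q / y r := by
        intro h0
        apply hne
        rw [h0, div_div_cancel₀ hqL, add_comm, hyr r hr]
      simp [e, h1, h2]
    by_cases hin : a + q / a ∈ S
    · rw [prod_eq_single_of_mem (a + q / a) hin (fun r hr hne => by
        rw [hother r ((hSmem r).1 hr).1 hne, zpow_zero])]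
      set t := a + q / a with ht
      have hyt := hy0 t harR
      have h4 : τ (y t) = q / y t := (hor t harR).resolve_left ((hSmem t).1 hin).2
      have h5 : y t ≠ q / y t := by
        intro h0
        exact ((hSmem t).1 hin).2 (by rw [h4]; exact h0.symm)
      rcases hcase with h3 | h3
      · have h6 : e a t = 1 := by
          simp only [e]
          rw [if_pos h3, if_neg (by rw [h3]; exact h5)]
          norm_num
        rw [h6, zpow_one, h3, h4]
        field_simp
      · have h6 : e a t = -1 := by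
          simp only [e]
          rw [if_neg (by rw [h3]; exact h5.symm), if_pos h3]
          norm_num
        rw [h6, zpow_neg, zpow_one, h3, map_div₀, map_natCast, h4]
        field_simp
    · have h1 : τ (y (a + q / a)) = y (a + q / a) := by
        by_contra h0
        exact hin ((hSmem _).2 ⟨harR, h0⟩)
      have h2 : τ a = a := by
        rcases hcase with h3 | h3
        · rw [h3, h1]
        · rw [h3, map_div₀, map_natCast, h1]
      rw [h2, div_self ha0]
      symm
      apply prod_eq_one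
      intro r hr
      rw [hother r ((hSmem r).1 hr).1 (by rintro rfl; exact hin hr), zpow_zero]
  have hmulti : ∀ s : Multiset L, (∀ z ∈ s, z ≠ 0 ∧ aeval (z + q / z) h = 0) →
      (s.map fun z => z / τ z).prod =
        ∏ r ∈ S, (y r ^ 2 / (q : L)) ^ ((s.count (y r) : ℤ) - s.count (q / y r)) := by
    intro s
    induction s using Multiset.induction_on with
    | empty => intro _; simp
    | cons a s ih =>
      intro hs'
      rw [Multiset.map_cons, Multiset.prod_cons,
        ih (fun z hz => hs' z (Multiset.mem_cons_of_mem hz)),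
        hone a (hs' a (Multiset.mem_cons_self _ _)).1 (hs' a (Multiset.mem_cons_self _ _)).2,
        ← prod_mul_distrib]
      apply prod_congr rfl
      intro r hr
      have hrR := ((hSmem r).1 hr).1
      rw [← zpow_add₀ (div_ne_zero (pow_ne_zero _ (hy0 r hrR)) hqL)]
      congr 1
      rw [Multiset.count_cons, Multiset.count_cons]
      simp only [e, eq_comm (a := y r), eq_comm (a := (q : L) / y r)]
      split_ifs <;> push_cast <;> ring
  have h1 := hmulti s hsm
  have h2 : (s.map fun z => z / τ z).prod = s.prod / τ s.prod := by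
    rw [Multiset.prod_map_div, Multiset.map_id', map_multiset_prod]
  have h3 : ((s.map fun z => z / τ z).prod) ^ n = 1 := by
    rw [h2, div_pow, ← map_pow, hprod, map_pow, map_natCast]
    exact div_self (pow_ne_zero _ hqL)
  let m' : L → ℤ := fun r => if τ (y r) ≠ y r then (s.count (y r) : ℤ) - s.count (q / y r) else 0
  have h4 : (∏ r ∈ R, (y r ^ 2 / (q : L)) ^ m' r) ^ n = 1 := by
    rw [← h3, h1]
    congr 1
    rw [hS, prod_filter]
    apply prod_congr rfl
    intro r hr
    simp only [m']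
    split_ifs <;> simp
  have hxR : x + q / x ∈ R := (hR _).2 hx
  have h5 := relation hq R hR y hy0 hyr hns hsep _ m' le_rfl n hn h4 (x + q / x) hxR
  set t := x + q / x with ht
  have hcase : x = y t ∨ x = q / y t := two_sol _ x (hy0 _ hxR) hx0 (hyr _ hxR).symm
  have h6 : τ (y t) ≠ y t := by
    intro h0
    rcases hcase with h7 | h7
    · rw [← h7] at h0
      exact hxne (h0.symm.trans hτx)
    · have h8 : y t = q / x := by rw [h7, div_div_cancel₀ hqL]
      rw [h8, map_div₀, map_natCast, hτx, div_div_cancel₀ hqL] at h0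
      exact hxne h0
  simp only [m', if_pos h6] at h5
  rcases hcase with h7 | h7
  · rw [← h7] at h5
    omega
  · have h8 : q / x = y t := by rw [h7, div_div_cancel₀ hqL]
    rw [← h8, div_div_cancel₀ hqL] at h5
    omega

end Field

/-- Multiplicative independence of the complex roots. -/
theorem count_eq {q : ℕ} (hq0 : q ≠ 0) {h : ℤ[X]}
    (hm : h.Monic) (hirr : Irreducible (h.map (Int.castRingHom ℚ))) (hdeg : 2 ≤ h.natDegree)
    (hsepall : ∀ (L : Type) [Field L] [NumberField L] [IsGalois ℚ L],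
      (h.map (Int.castRingHom L)).Splits →
      (∀ x : L, aeval x h = 0 → ∃ y : L, y ≠ 0 ∧ y + q / y = x) → Sep L q h)
    (s : Multiset ℂ) (hs : ∀ z ∈ s, z ≠ 0 ∧ aeval (z + q / z) h = 0) (n j : ℕ) (hn : 0 < n)
    (hprod : s.prod ^ n = (q : ℂ) ^ (n * j)) (z : ℂ) (hz : z ≠ 0 ∧ aeval (z + q / z) h = 0) :
    s.count (q / z) = s.count z := by
  classical
  obtain ⟨L, _, _, hL⟩ : ∃ (L : Type) (_ : Field L) (_ : CharZero L),
      IsSplittingField ℚ L (fpoly q h) := by
    obtain ⟨L, i1, i2, hL⟩ : ∃ (L : Type) (_ : Field L) (_ : Algebra ℚ L),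
        IsSplittingField ℚ L (fpoly q h) :=
      ⟨(fpoly q h).SplittingField, _, _, IsSplittingField.splittingField _⟩
    have i3 : CharZero L := charZero_of_injective_algebraMap (algebraMap ℚ L).injective
    refine ⟨L, i1, i3, ?_⟩
    obtain rfl : i2 = DivisionRing.toRatAlgebra := Subsingleton.elim _ _
    exact hL
  have hfin : FiniteDimensional ℚ L := IsSplittingField.finiteDimensional L (fpoly q h)
  have hnf : NumberField L := ⟨⟩
  have hnorm : Normal ℚ L := Normal.of_isSplittingField (fpoly q h)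
  have hgal : IsGalois ℚ L := ⟨⟩
  let toC : L →ₐ[ℚ] ℂ := IsAlgClosed.lift
  have hinj : Function.Injective toC := RingHom.injective _
  have hfp : fpoly q h ≠ 0 := fpoly_ne_zero hq0 hm
  -- every complex root comes from `L`
  have hmemC : ∀ y : ℂ, y ≠ 0 → aeval (y + q / y) h = 0 →
      ∃ x : L, toC x = y ∧ x ≠ 0 ∧ aeval (x + q / x) h = 0 := by
    intro y hy0 hy
    have h1 : y ∈ (fpoly q h).rootSet ℂ := by
      refine mem_rootSet.2 ⟨hfp, ?_⟩
      rw [aeval_fpoly q h hy0, hy, mul_zero]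
    rw [← (IsSplittingField.splits L (fpoly q h)).image_rootSet toC] at h1
    obtain ⟨x, hx, rfl⟩ := h1
    refine ⟨x, rfl, ?_, hinj ?_⟩
    · rintro rfl
      exact hy0 (map_zero toC)
    · rw [map_zero, ← hy]
      have h3 : toC x + q / toC x = toC (x + q / x) := by
        rw [map_add, map_div₀, map_natCast]
      rw [h3]
      exact (aeval_algHom_apply (toC.restrictScalars ℤ) (x + q / x) h).symm
  -- a complex root is of the form `x + q / x`
  have hsolC : ∀ τ : ℂ, aeval τ h = 0 → ∃ x : L, toC (x + q / x) = τ ∧ x ≠ 0 := by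
    intro τ hτ
    obtain ⟨y, hy⟩ : ∃ y : ℂ, y ^ 2 - τ * y + q = 0 := by
      obtain ⟨d, hd⟩ := IsAlgClosed.exists_pow_nat_eq (τ ^ 2 - 4 * q) (n := 2) (by norm_num)
      refine ⟨(τ + d) / 2, ?_⟩
      linear_combination (1 / 4 : ℂ) * hd
    have hy0 : y ≠ 0 := by
      rintro rfl
      apply hq0
      have : (q : ℂ) = 0 := by linear_combination hy
      exact_mod_cast this
    have hτy : τ = y + q / y := by
      field_simp
      linear_combination (-1 : ℂ) * hy
    obtain ⟨x, hx, hx0, -⟩ := hmemC y hy0 (by rw [← hτy]; exact hτ)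
    refine ⟨x, ?_, hx0⟩
    rw [hτy, ← hx]
    show toC (x + q / x) = _
    rw [map_add, map_div₀, map_natCast]
  -- `h` splits in `L`
  have hsL : (h.map (Int.castRingHom L)).Splits := by
    have e1 : (h.map (Int.castRingHom L)).map (toC : L →+* ℂ) = h.map (Int.castRingHom ℂ) := by
      rw [Polynomial.map_map]
      congr 1
      exact Subsingleton.elim _ _
    refine Splits.of_splits_map_of_injective (i := (toC : L →+* ℂ)) hinj
      (by rw [e1]; exact IsAlgClosed.splits _) ?_
    intro τ hτ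
    rw [e1, mem_roots (hm.map _).ne_zero, IsRoot.def, eval_map, ← algebraMap_int_eq,
      ← aeval_def] at hτ
    obtain ⟨x, hx, -⟩ := hsolC τ hτ
    exact ⟨x + q / x, hx⟩
  have hsolL : ∀ x : L, aeval x h = 0 → ∃ y : L, y ≠ 0 ∧ y + q / y = x := by
    intro t ht
    have h1 : aeval (toC t) h = 0 := by
      have h2 : aeval (toC t) h = toC (aeval t h) :=
        aeval_algHom_apply (toC.restrictScalars ℤ) t h
      rw [h2, ht, map_zero]
    obtain ⟨x, hx, hx0⟩ := hsolC _ h1
    exact ⟨x, hx0, hinj hx⟩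
  obtain ⟨x, hxz, hx0, hx⟩ := hmemC z hz.1 hz.2
  obtain ⟨s', hs'⟩ : ∃ s' : Multiset L, s'.map toC = s ∧
      ∀ x ∈ s', x ≠ 0 ∧ aeval (x + q / x) h = 0 := by
    clear hprod
    induction s using Multiset.induction_on with
    | empty => exact ⟨0, rfl, by simp⟩
    | cons a s ih =>
      obtain ⟨s', h3, h4⟩ := ih (fun y hy => hs y (Multiset.mem_cons_of_mem hy))
      obtain ⟨b, hb, hb1, hb2⟩ := hmemC a (hs a (Multiset.mem_cons_self _ _)).1
        (hs a (Multiset.mem_cons_self _ _)).2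
      refine ⟨b ::ₘ s', by rw [Multiset.map_cons, hb, h3], ?_⟩
      intro y hy
      rcases Multiset.mem_cons.1 hy with rfl | hy
      · exact ⟨hb1, hb2⟩
      · exact h4 y hy
  obtain ⟨hs1, hs2⟩ := hs'
  have hprod' : s'.prod ^ n = (q : L) ^ (n * j) := by
    apply hinj
    rw [map_pow, map_pow, map_natCast, map_multiset_prod, hs1, hprod]
  have key := count_field hq0 hm hirr hdeg hsL hsolL (hsepall L hsL hsolL) hx0 hx hs2 hn hprod'
  have e1 : ((q : ℂ) / z) = toC (q / x) := by rw [map_div₀, map_natCast, hxz]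
  rw [e1, ← hxz, ← hs1, Multiset.count_map_eq_count' _ _ hinj, Multiset.count_map_eq_count' _ _ hinj]
  exact key

end GALAux

open GALAux Pool.Agent.Work.MP_223b32_ag in
/-- GAL -/
theorem stmt_GAL (sep : Stmt_SEP) : Stmt_GAL := by
  intro q ℓ g k d₁ d₂ d₃ _ h hq h2 hqℓ hadm hm hdeg hirr hpat
  have hd : 2 ≤ h.natDegree := by
    rw [hdeg]
    have h1 := hadm.1
    have h3 := hadm.2.1
    omega
  intro V _ _ _ F hF n hn heig j
  have h1 := final (P := fun z : ℂ => z ≠ 0 ∧ aeval (z + q / z) h = 0) hF hq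
    (fun s hs n j hn _ hprod z hz => count_eq (by omega) hm hirr hd
      (fun L _ _ _ hs hsol => sep L q ℓ g k d₁ d₂ d₃ h h2 hqℓ hadm hm hdeg hirr hs hsol hpat)
      s hs n j hn hprod z hz)
    hn heig j
  have h3 : ((q : ℂ) ^ n) = (((q : ℝ) ^ n : ℝ) : ℂ) := by push_cast; rfl
  rw [h3] at h1
  exact h1

end Pool.Agent.Work.FF
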