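import Mathlib

/-!
Auxiliary lemmas for the block LOWER: Dickson polynomials, symmetric boxes, integer vectors of
bounded `l1` norm, real roots from sign changes.
-/

namespace Pool.Agent.Work.FF.Low

open Polynomial Finset

/-! ### Dickson polynomials -/

theorem dick_rec (q : ℤ) (n : ℕ) :
    dickson 1 q (n + 2) = X * dickson 1 q (n + 1) - C q * dickson 1 q n :=
  dickson_add_two 1 q n

theorem dick_monic (q : ℤ) : ∀ n : ℕ, (dickson 1 q (n + 1)).Monic ∧
    (dickson 1 q (n + 1)).natDegree = n + 1 := by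
  intro n
  induction n using Nat.strong_induction_on with
  | _ n ih =>
    rcases n with _ | n
    · simp [dickson_one, monic_X]
    · have h1 := ih n (Nat.lt_succ_self n)
      have hd : (dickson 1 q n).natDegree ≤ n := by
        rcases n with _ | n
        · rw [dickson_zero]
          have : (3 - ((1 : ℕ) : ℤ[X])) = C (2 : ℤ) := by
            simp only [Nat.cast_one]
            rw [show (3 : ℤ[X]) - 1 = 2 by norm_num]
            rfl
          rw [this, natDegree_C]
        · exact (ih n (by omega)).2.le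
      have hX : (X * dickson 1 q (n + 1)).Monic := monic_X.mul h1.1
      have hXd : (X * dickson 1 q (n + 1)).natDegree = n + 2 := by
        rw [monic_X.natDegree_mul h1.1, natDegree_X, h1.2]; ring
      have hlt : (C q * dickson 1 q n).degree < (X * dickson 1 q (n + 1)).degree := by
        rw [degree_eq_natDegree hX.ne_zero, hXd]
        refine (degree_le_natDegree).trans_lt ?_
        have : (C q * dickson 1 q n).natDegree ≤ n := (natDegree_C_mul_le _ _).trans hd
        exact_mod_cast lt_of_le_of_lt this (by omega)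
      rw [dick_rec]
      refine ⟨hX.sub_of_left hlt, ?_⟩
      rw [natDegree_sub_eq_left_of_natDegree_lt, hXd]
      rw [hXd]
      exact lt_of_le_of_lt ((natDegree_C_mul_le _ _).trans hd) (by omega)

theorem dick_coeff_zero (q : ℤ) : ∀ n : ℕ, q ∣ (dickson 1 q (n + 1)).coeff 0 := by
  intro n
  induction n using Nat.strong_induction_on with
  | _ n ih =>
    rcases n with _ | n
    · simp [dickson_one]
    · rw [dick_rec, coeff_sub, coeff_X_mul_zero, coeff_C_mul, zero_sub]
      exact (dvd_mul_right _ _).neg_right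

theorem dick_cos (q : ℤ) (s : ℝ) (hs : s ^ 2 = q) (t : ℝ) : ∀ n : ℕ,
    ((dickson 1 q n).map (Int.castRingHom ℝ)).eval (2 * s * Real.cos t) =
      2 * s ^ n * Real.cos (n * t) := by
  intro n
  induction n using Nat.strong_induction_on with
  | _ n ih =>
    rcases n with _ | n
    · rw [dickson_zero]
      simp
      norm_num
    · rcases n with _ | n
      · simp [dickson_one]
      · have h1 := ih (n + 1) (by omega)
        have h2 := ih n (by omega)
        have h3 : Real.cos (((n + 2 : ℕ) : ℝ) * t) =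
            2 * Real.cos t * Real.cos (((n + 1 : ℕ) : ℝ) * t) - Real.cos ((n : ℝ) * t) := by
          have e1 : ((n + 2 : ℕ) : ℝ) * t = ((n + 1 : ℕ) : ℝ) * t + t := by push_cast; ring
          have e2 : (n : ℝ) * t = ((n + 1 : ℕ) : ℝ) * t - t := by push_cast; ring
          rw [e1, e2, Real.cos_add, Real.cos_sub]
          ring
        rw [dick_rec, Polynomial.map_sub, Polynomial.map_mul, Polynomial.map_mul, map_X, map_C,
          eval_sub, eval_mul, eval_mul, eval_X, eval_C, h1, h2]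
        show _ = 2 * s ^ (n + 2) * Real.cos (((n + 2 : ℕ) : ℝ) * t)
        rw [h3]
        have hq : (Int.castRingHom ℝ) q = s ^ 2 := by rw [hs]; simp
        rw [hq]
        ring

/-! ### Real roots from sign changes -/

theorem real_roots {g : ℕ} (P : ℝ[X]) (hP : P.Monic) (hd : P.natDegree = g) (ν : ℕ → ℝ)
    (hν : ∀ k < g, ν k < ν (k + 1)) (hs : ∀ k < g, P.eval (ν k) * P.eval (ν (k + 1)) < 0) :
    ∀ z : ℂ, (P.map (algebraMap ℝ ℂ)).IsRoot z → z.im = 0 ∧ ν 0 ≤ z.re ∧ z.re ≤ ν g := by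
  classical
  have hmon : ∀ a b : ℕ, a ≤ b → b ≤ g → ν a ≤ ν b := by
    intro a b hab
    induction b, hab using Nat.le_induction with
    | base => intro _; exact le_rfl
    | succ b hab ih =>
      intro hb
      exact (ih (by omega)).trans (hν b (by omega)).le
  have hroot : ∀ k : Fin g, ∃ ρ : ℝ, ν k < ρ ∧ ρ < ν (k + 1) ∧ P.eval ρ = 0 := by
    intro k
    have hlt := hν k k.2
    have hcont : ContinuousOn (fun y => P.eval y) (Set.Icc (ν k) (ν (k + 1))) :=
      P.continuous.continuousOn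
    rcases mul_neg_iff.1 (hs k k.2) with ⟨h1, h2⟩ | ⟨h1, h2⟩
    · obtain ⟨ρ, hρ, hρ0⟩ := intermediate_value_Ioo' hlt.le hcont ⟨h2, h1⟩
      exact ⟨ρ, hρ.1, hρ.2, hρ0⟩
    · obtain ⟨ρ, hρ, hρ0⟩ := intermediate_value_Ioo hlt.le hcont ⟨h1, h2⟩
      exact ⟨ρ, hρ.1, hρ.2, hρ0⟩
  choose ρ hρ1 hρ2 hρ3 using hroot
  have hmono : StrictMono ρ := by
    intro k k' hkk
    have h1 : ν (k + 1) ≤ ν k' := hmon _ _ (by exact_mod_cast hkk) k'.2.le
    exact (hρ2 k).trans_le (h1.trans (hρ1 k').le)
  have hinj : Function.Injective ρ := hmono.injective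
  have hprod : P = ∏ k : Fin g, (X - C (ρ k)) := by
    have h1 : (univ.image ρ).val ≤ P.roots := by
      rw [Multiset.le_iff_subset (univ.image ρ).nodup]
      intro x hx
      obtain ⟨k, _, rfl⟩ := mem_image.1 (show x ∈ univ.image ρ from hx)
      exact (mem_roots hP.ne_zero).2 (hρ3 k)
    have h2 : P.roots = (univ.image ρ).val := by
      refine (Multiset.eq_of_le_of_card_le h1 ?_).symm
      rw [card_val, card_image_of_injective _ hinj, card_univ, Fintype.card_fin]
      exact (card_roots' _).trans hd.le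
    have h3 := prod_multiset_X_sub_C_of_monic_of_roots_card_eq hP (by
      rw [h2, card_val, card_image_of_injective _ hinj, card_univ, Fintype.card_fin, hd])
    rw [← h3, h2]
    show ∏ x ∈ univ.image ρ, (X - C x) = _
    rw [prod_image fun x _ y _ h => hinj h]
  intro z hz
  rw [hprod, Polynomial.map_prod, IsRoot.def, eval_prod, prod_eq_zero_iff] at hz
  obtain ⟨k, _, hk⟩ := hz
  rw [Polynomial.map_sub, map_X, map_C, eval_sub, eval_X, eval_C, sub_eq_zero] at hk
  have hk' : z = ((ρ k : ℝ) : ℂ) := hk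
  rw [hk', Complex.ofReal_im, Complex.ofReal_re]
  exact ⟨rfl, (hmon 0 k (by omega) k.2.le).trans (hρ1 k).le,
    (hρ2 k).le.trans (hmon _ _ k.2 le_rfl)⟩

/-! ### Symmetric boxes -/

/-- The symmetric box. -/
noncomputable def sbox {g : ℕ} (N : Fin g → ℕ) : Finset (Fin g → ℤ) :=
  Fintype.piFinset fun i => Icc (-(N i : ℤ)) (N i)

theorem mem_sbox {g : ℕ} {N : Fin g → ℕ} {r : Fin g → ℤ} :
    r ∈ sbox N ↔ ∀ i, |r i| ≤ N i := by
  simp only [sbox, Fintype.mem_piFinset, mem_Icc, abs_le]

theorem card_sbox {g : ℕ} (N : Fin g → ℕ) : (sbox N).card = ∏ i, (2 * N i + 1) := by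
  rw [sbox, Fintype.card_piFinset]
  refine prod_congr rfl fun i _ => ?_
  rw [Int.card_Icc]
  omega

theorem sbox_cross {g : ℕ} (N : Fin g → ℕ) {j k : Fin g} (hjk : j ≠ k) :
    ∑ r ∈ sbox N, (r j : ℝ) * r k = 0 := by
  classical
  have h : ∑ r ∈ sbox N, (r j : ℝ) * r k = ∑ r ∈ sbox N, -((r j : ℝ) * r k) := by
    refine sum_nbij' (fun r => Function.update r j (-r j)) (fun r => Function.update r j (-r j))
      ?_ ?_ ?_ ?_ ?_
    · intro r hr
      rw [mem_sbox] at hr ⊢
      intro i
      by_cases hi : i = j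
      · subst hi; simpa using hr i
      · simpa [Function.update_of_ne hi] using hr i
    · intro r hr
      rw [mem_sbox] at hr ⊢
      intro i
      by_cases hi : i = j
      · subst hi; simpa using hr i
      · simpa [Function.update_of_ne hi] using hr i
    · intro r _
      simp
    · intro r _
      simp
    · intro r _
      rw [Function.update_self, Function.update_of_ne (Ne.symm hjk)]
      push_cast
      ring
  rw [sum_neg_distrib] at h
  linarith

theorem sbox_second {g : ℕ} (N : Fin g → ℕ) (c : Fin g → ℝ) (ρ : ℝ)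
    (hc : ∀ j, |c j| * N j ≤ ρ) :
    ∑ r ∈ sbox N, (∑ j, c j * r j) ^ 2 ≤ g * ρ ^ 2 * (sbox N).card := by
  classical
  have h1 : ∀ r : Fin g → ℤ, (∑ j, c j * (r j : ℝ)) ^ 2 =
      ∑ j, ∑ k, c j * c k * ((r j : ℝ) * r k) := by
    intro r
    rw [sq, sum_mul_sum]
    refine sum_congr rfl fun j _ => sum_congr rfl fun k _ => ?_
    ring
  simp_rw [h1]
  rw [sum_comm]
  have h2 : ∀ j : Fin g, ∑ r ∈ sbox N, ∑ k, c j * c k * ((r j : ℝ) * r k) ≤
      ρ ^ 2 * (sbox N).card := by
    intro j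
    rw [sum_comm, sum_eq_single j]
    · calc ∑ r ∈ sbox N, c j * c j * ((r j : ℝ) * r j) ≤ ∑ _r ∈ sbox N, ρ ^ 2 := by
            refine sum_le_sum fun r hr => ?_
            rw [mem_sbox] at hr
            have h3 : |(r j : ℝ)| ≤ N j := by
              have := hr j
              rw [← Int.cast_abs]
              exact_mod_cast this
            have h4 : |c j| * |(r j : ℝ)| ≤ ρ := by
              refine le_trans ?_ (hc j)
              gcongr
            have h5 : c j * c j * ((r j : ℝ) * r j) = (|c j| * |(r j : ℝ)|) ^ 2 := by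
              rw [mul_pow, sq_abs, sq_abs]; ring
            rw [h5]
            gcongr
        _ = ρ ^ 2 * (sbox N).card := by rw [sum_const, nsmul_eq_mul]; ring
    · intro k _ hk
      rw [← mul_sum, sbox_cross N (Ne.symm hk), mul_zero]
    · intro h; exact absurd (mem_univ j) h
  calc ∑ j, ∑ r ∈ sbox N, ∑ k, c j * c k * ((r j : ℝ) * r k)
      ≤ ∑ _j : Fin g, ρ ^ 2 * (sbox N).card := sum_le_sum fun j _ => h2 j
    _ = g * ρ ^ 2 * (sbox N).card := by rw [sum_const, card_univ, Fintype.card_fin, nsmul_eq_mul]; ring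

/-! ### Integer vectors of bounded `l1` norm -/

theorem geom_Icc (M : ℕ) : ∑ k ∈ Icc (-(M : ℤ)) M, ((1 : ℝ) / 2) ^ k.natAbs ≤ 3 := by
  have h : ∀ M : ℕ, ∑ k ∈ Icc (-(M : ℤ)) M, ((1 : ℝ) / 2) ^ k.natAbs = 3 - 2 * (1 / 2) ^ M := by
    intro M
    induction M with
    | zero => simp; norm_num
    | succ M ih =>
      have e : Icc (-((M + 1 : ℕ) : ℤ)) ((M + 1 : ℕ) : ℤ) =
          insert (-((M + 1 : ℕ) : ℤ)) (insert ((M + 1 : ℕ) : ℤ) (Icc (-(M : ℤ)) M)) := by
        ext k
        simp only [mem_insert, mem_Icc]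
        push_cast
        omega
      rw [e, sum_insert, sum_insert, ih]
      · have e1 : (-((M + 1 : ℕ) : ℤ)).natAbs = M + 1 := by omega
        have e2 : (((M + 1 : ℕ) : ℤ)).natAbs = M + 1 := by omega
        rw [e1, e2, pow_succ]
        ring
      · simp
      · simp only [mem_insert, mem_Icc]
        push_cast
        omega
  rw [h]
  have : (0 : ℝ) < 2 * (1 / 2) ^ M := by positivity
  linarith

/-- Integer vectors with `l1` norm at most `2 n`. -/
noncomputable def ball (n : ℕ) : Finset (Fin n → ℤ) :=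
  (sbox fun _ : Fin n => 2 * n).filter fun b => ∑ i, (b i).natAbs ≤ 2 * n

theorem mem_ball {n : ℕ} {b : Fin n → ℤ} : b ∈ ball n ↔ ∑ i, (b i).natAbs ≤ 2 * n := by
  rw [ball, mem_filter, and_iff_right_iff_imp, mem_sbox]
  intro h i
  have h1 : (b i).natAbs ≤ ∑ i, (b i).natAbs :=
    single_le_sum (f := fun i => (b i).natAbs) (fun _ _ => Nat.zero_le _) (mem_univ i)
  rw [Int.abs_eq_natAbs]
  exact_mod_cast h1.trans h

theorem card_ball (n : ℕ) : ((ball n).card : ℝ) ≤ 12 ^ n := by
  have h1 : ((ball n).card : ℝ) ≤ ∑ b ∈ ball n, 4 ^ n * ∏ i, ((1 : ℝ) / 2) ^ (b i).natAbs := by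
    rw [card_eq_sum_ones]
    push_cast
    refine sum_le_sum fun b hb => ?_
    rw [mem_ball] at hb
    rw [prod_pow_eq_pow_sum]
    have h2 : ((1 : ℝ) / 2) ^ (2 * n) ≤ (1 / 2) ^ (∑ i, (b i).natAbs) :=
      pow_le_pow_of_le_one (by norm_num) (by norm_num) hb
    calc (1 : ℝ) = 4 ^ n * (1 / 2) ^ (2 * n) := by
          rw [pow_mul, ← mul_pow]; norm_num
      _ ≤ _ := by gcongr
  refine h1.trans ?_
  have h2 : ∑ b ∈ ball n, (4 : ℝ) ^ n * ∏ i, ((1 : ℝ) / 2) ^ (b i).natAbs ≤
      ∑ b ∈ sbox (fun _ : Fin n => 2 * n), (4 : ℝ) ^ n * ∏ i, ((1 : ℝ) / 2) ^ (b i).natAbs := by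
    refine sum_le_sum_of_subset_of_nonneg (filter_subset _ _) fun b _ _ => ?_
    positivity
  refine h2.trans ?_
  rw [← mul_sum, sbox, sum_prod_piFinset (Icc (-((2 * n : ℕ) : ℤ)) ((2 * n : ℕ) : ℤ))
    (fun _ k => ((1 : ℝ) / 2) ^ k.natAbs)]
  rw [prod_const, card_univ, Fintype.card_fin]
  calc (4 : ℝ) ^ n * (∑ k ∈ Icc (-((2 * n : ℕ) : ℤ)) ((2 * n : ℕ) : ℤ), ((1 : ℝ) / 2) ^ k.natAbs) ^ n
      ≤ 4 ^ n * 3 ^ n := by
        gcongr
        exact geom_Icc (2 * n)
    _ = 12 ^ n := by rw [← mul_pow]; norm_num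

theorem round_natAbs (x : ℝ) : ((round x).natAbs : ℝ) ≤ 4 * x ^ 2 := by
  rcases lt_or_ge |x| (1 / 2) with h | h
  · have : round x = 0 := by
      rw [round_eq_zero_iff]
      rw [abs_lt] at h
      exact ⟨h.1.le, h.2⟩
    rw [this]
    simp
    positivity
  · have h1 := abs_sub_round x
    have h2 : |(round x : ℝ)| ≤ |x| + 1 / 2 := by
      have h3 : |(round x : ℝ)| ≤ |(round x : ℝ) - x| + |x| := by
        have := abs_add_le ((round x : ℝ) - x) x
        simpa using this
      rw [abs_sub_comm] at h3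
      linarith
    have h4 : ((round x).natAbs : ℝ) = |(round x : ℝ)| := by
      rw [Nat.cast_natAbs, Int.cast_abs]
    rcases Nat.eq_zero_or_pos (round x).natAbs with h0 | h0
    · rw [h0]; simp; positivity
    · have h5 : (1 : ℝ) ≤ |(round x : ℝ)| := by rw [← h4]; exact_mod_cast h0
      rw [h4]
      have h6 : |(round x : ℝ)| ≤ |(round x : ℝ)| ^ 2 := by nlinarith
      have h7 : |(round x : ℝ)| ≤ 2 * |x| := by linarith
      have h8 : |(round x : ℝ)| ^ 2 ≤ (2 * |x|) ^ 2 := by gcongr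
      have h9 : (2 * |x|) ^ 2 = 4 * x ^ 2 := by rw [mul_pow, sq_abs]; norm_num
      linarith

end Pool.Agent.Work.FF.Low
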