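import Pool.Agent.Work.MP_223b32_FF.Interface
import Pool.Agent.Work.MP_223b32_FF.LA

/-!
Block LOWER: many ordinary real Weil polynomials (Chebyshev alternation and entropy).
-/

namespace Pool.Agent.Work.FF.Low

open Polynomial Finset Pool.Agent.Work.MP_223b32_ag_56

/-- The basis: `p`, then the Dickson polynomials. -/
noncomputable def E (p : ℕ) (q : ℤ) (j : ℕ) : ℤ[X] := if j = 0 then C (p : ℤ) else dickson 1 q j

theorem E_natDegree (p : ℕ) (q : ℤ) (j : ℕ) : (E p q j).natDegree ≤ j := by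
  rw [E]
  split_ifs with h
  · simp
  · obtain ⟨n, rfl⟩ := Nat.exists_eq_succ_of_ne_zero h
    exact (dick_monic q n).2.le

theorem E_coeff_self {p : ℕ} (hp : 0 < p) (q : ℤ) (j : ℕ) : (E p q j).coeff j ≠ 0 := by
  rw [E]
  split_ifs with h
  · rw [h, coeff_C_zero]
    exact_mod_cast hp.ne'
  · obtain ⟨n, rfl⟩ := Nat.exists_eq_succ_of_ne_zero h
    have h1 := dick_monic q n
    have h2 : (dickson 1 q (n + 1)).coeff (n + 1) = 1 := by
      have := h1.1.coeff_natDegree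
      rwa [h1.2] at this
    rw [Nat.succ_eq_add_one, h2]
    exact one_ne_zero

theorem E_coeff_gt (p : ℕ) (q : ℤ) {j n : ℕ} (h : j < n) : (E p q j).coeff n = 0 :=
  coeff_eq_zero_of_natDegree_lt ((E_natDegree p q j).trans_lt h)

theorem E_coeff_zero {p : ℕ} {q : ℤ} (hq : (p : ℤ) ∣ q) (j : ℕ) : (p : ℤ) ∣ (E p q j).coeff 0 := by
  rw [E]
  split_ifs with h
  · rw [coeff_C_zero]
  · obtain ⟨n, rfl⟩ := Nat.exists_eq_succ_of_ne_zero h
    exact hq.trans (dick_coeff_zero q n)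

/-- The combinations. -/
noncomputable def F (p : ℕ) (q : ℤ) {g : ℕ} (r : Fin g → ℤ) : ℤ[X] :=
  ∑ j : Fin g, C (r j) * E p q j

theorem F_coeff (p : ℕ) (q : ℤ) {g : ℕ} (r : Fin g → ℤ) (n : ℕ) :
    (F p q r).coeff n = ∑ j : Fin g, r j * (E p q j).coeff n := by
  rw [F, finsetSum_coeff]
  simp_rw [coeff_C_mul]

theorem F_coeff_ge (p : ℕ) (q : ℤ) {g : ℕ} (r : Fin g → ℤ) {n : ℕ} (hn : g ≤ n) :
    (F p q r).coeff n = 0 := by
  rw [F_coeff]
  refine sum_eq_zero fun j _ => ?_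
  rw [E_coeff_gt p q (j.2.trans_le hn), mul_zero]

theorem F_coeff_zero {p : ℕ} {q : ℤ} (hq : (p : ℤ) ∣ q) {g : ℕ} (r : Fin g → ℤ) :
    (p : ℤ) ∣ (F p q r).coeff 0 := by
  rw [F_coeff]
  exact dvd_sum fun j _ => (E_coeff_zero hq j).mul_left _

theorem F_injective {p : ℕ} (hp : 0 < p) (q : ℤ) (g : ℕ) :
    Function.Injective (F p q : (Fin g → ℤ) → ℤ[X]) := by
  classical
  intro r r' h
  by_contra hne
  set S := (univ : Finset (Fin g)).filter fun j => r j ≠ r' j with hS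
  have hSne : S.Nonempty := by
    obtain ⟨j, hj⟩ := Function.ne_iff.1 hne
    exact ⟨j, by simp [hS, hj]⟩
  set j := S.max' hSne with hj
  have hjS : r j ≠ r' j := by
    have := S.max'_mem hSne
    rw [← hj, hS, mem_filter] at this
    exact this.2
  have hmax : ∀ i : Fin g, j < i → r i = r' i := by
    intro i hi
    by_contra hc
    have : i ≤ j := S.le_max' i (by simp [hS, hc])
    exact absurd hi (not_lt.2 this)
  have h1 : (F p q r).coeff j = (F p q r').coeff j := by rw [h]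
  rw [F_coeff, F_coeff, ← sub_eq_zero, ← sum_sub_distrib, sum_eq_single j] at h1
  · rw [← sub_mul] at h1
    exact mul_ne_zero (sub_ne_zero.2 hjS) (E_coeff_self hp q j) h1
  · intro i _ hij
    rcases lt_or_gt_of_ne hij with h2 | h2
    · rw [E_coeff_gt p q h2, mul_zero, mul_zero, sub_self]
    · rw [hmax i h2, sub_self]
  · intro h2; exact absurd (mem_univ j) h2

/-- The values of the basis. -/
noncomputable def ev (p : ℕ) (s t : ℝ) (j : ℕ) : ℝ :=
  if j = 0 then p else 2 * s ^ j * Real.cos (j * t)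

theorem E_eval (p : ℕ) {q : ℤ} {s : ℝ} (hs : s ^ 2 = q) (t : ℝ) (j : ℕ) :
    ((E p q j).map (Int.castRingHom ℝ)).eval (2 * s * Real.cos t) = ev p s t j := by
  rw [E, ev]
  split_ifs with h
  · simp
  · exact dick_cos q s hs t j

theorem F_eval (p : ℕ) {q : ℤ} {s : ℝ} (hs : s ^ 2 = q) (t : ℝ) {g : ℕ} (r : Fin g → ℤ) :
    ((F p q r).map (Int.castRingHom ℝ)).eval (2 * s * Real.cos t) =
      ∑ j : Fin g, (r j : ℝ) * ev p s t j := by
  rw [F, Polynomial.map_sum, eval_finsetSum]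
  refine sum_congr rfl fun j _ => ?_
  rw [Polynomial.map_mul, map_C, eval_mul, eval_C, E_eval p hs]
  simp

theorem sum_expo (g : ℕ) : ∑ j : Fin g, (g - (j : ℕ)) = g * (g + 1) / 2 := by
  rw [Fin.sum_univ_eq_sum_range (fun j => g - j) g]
  have h1 : ∑ j ∈ range g, (g - j) = ∑ j ∈ range g, (j + 1) := by
    rw [← sum_range_reflect]
    refine sum_congr rfl fun j hj => ?_
    have := mem_range.1 hj
    omega
  rw [h1]
  have h2 := sum_range_succ' (fun i => i) g
  rw [add_zero] at h2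
  rw [← h2, sum_range_id]
  congr 1
  rw [Nat.add_sub_cancel, mul_comm]

theorem two_floor (y : ℝ) : y ≤ 2 * (⌊y⌋₊ : ℝ) + 1 := by
  have h1 := Nat.lt_floor_add_one y
  rcases lt_or_ge y 1 with h | h
  · have : (0 : ℝ) ≤ ⌊y⌋₊ := Nat.cast_nonneg _
    linarith
  · have h2 : (1 : ℝ) ≤ ⌊y⌋₊ := by
      have : 1 ≤ ⌊y⌋₊ := Nat.le_floor (by simpa using h)
      exact_mod_cast this
    linarith

theorem const_bound (g : ℕ) (hg : 1 ≤ g) :
    24 * 12 ^ g * (4 * √(g : ℝ)) ^ g ≤ 2000 ^ g * √(g.factorial : ℝ) := by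
  have h1 : ((g : ℝ)) ^ g ≤ 3 ^ g * g.factorial := by
    have h2 := Real.pow_div_factorial_le_exp (g : ℝ) (Nat.cast_nonneg g) g
    have h3 : (0 : ℝ) < g.factorial := by exact_mod_cast g.factorial_pos
    rw [div_le_iff₀ h3] at h2
    have h4 : Real.exp (g : ℝ) ≤ 3 ^ g := by
      have h5 : Real.exp (g : ℝ) = Real.exp 1 ^ g := by
        rw [← Real.exp_nat_mul, mul_one]
      rw [h5]
      have h6 := Real.exp_one_lt_d9
      have h7 := (Real.exp_pos 1).le
      gcongr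
      linarith
    calc ((g : ℝ)) ^ g ≤ Real.exp (g : ℝ) * g.factorial := h2
      _ ≤ 3 ^ g * g.factorial := by gcongr
  have h2 : √(g : ℝ) ^ g ≤ √3 ^ g * √(g.factorial : ℝ) := by
    have e1 : √(g : ℝ) ^ g = √((g : ℝ) ^ g) := by
      rw [eq_comm, Real.sqrt_eq_iff_mul_self_eq (by positivity) (by positivity), ← mul_pow,
        Real.mul_self_sqrt (Nat.cast_nonneg g)]
    have e2 : √3 ^ g = √((3 : ℝ) ^ g) := by
      rw [eq_comm, Real.sqrt_eq_iff_mul_self_eq (by positivity) (by positivity), ← mul_pow,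
        Real.mul_self_sqrt (by norm_num)]
    rw [e1, e2, ← Real.sqrt_mul (by positivity)]
    exact Real.sqrt_le_sqrt h1
  have h3 : (24 : ℝ) ≤ 24 ^ g := le_self_pow₀ (by norm_num) (by omega)
  have h4 : √3 ≤ (2000 : ℝ) / 1152 := by
    rw [Real.sqrt_le_left (by norm_num)]
    norm_num
  calc 24 * 12 ^ g * (4 * √(g : ℝ)) ^ g = 24 * 48 ^ g * √(g : ℝ) ^ g := by
        rw [mul_pow, show (48 : ℝ) = 12 * 4 by norm_num, mul_pow]; ring
    _ ≤ 24 ^ g * 48 ^ g * (√3 ^ g * √(g.factorial : ℝ)) := by gcongr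
    _ = (24 * 48 * √3) ^ g * √(g.factorial : ℝ) := by rw [mul_pow, mul_pow]; ring
    _ ≤ 2000 ^ g * √(g.factorial : ℝ) := by
        gcongr
        linarith

/-- The angles. -/
noncomputable def ang (g k : ℕ) : ℝ := ((g - k : ℕ) : ℝ) * Real.pi / g

theorem cos_ang {g : ℕ} (hg : 1 ≤ g) (k : ℕ) :
    Real.cos (g * ang g k) = (-1) ^ (g - k) := by
  have : (g : ℝ) ≠ 0 := by positivity
  rw [ang, mul_div_cancel₀ _ this, Real.cos_nat_mul_pi]

theorem ang_mem {g : ℕ} (hg : 1 ≤ g) (k : ℕ) : ang g k ∈ Set.Icc (0 : ℝ) Real.pi := by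
  have hg' : (0 : ℝ) < g := by exact_mod_cast hg
  have h1 : ((g - k : ℕ) : ℝ) ≤ g := by exact_mod_cast Nat.sub_le g k
  have hpi := Real.pi_pos
  refine ⟨by rw [ang]; positivity, ?_⟩
  rw [ang, div_le_iff₀ hg', mul_comm]
  gcongr

theorem ang_lt {g : ℕ} {k : ℕ} (hk : k < g) : ang g (k + 1) < ang g k := by
  have hg' : (0 : ℝ) < g := by exact_mod_cast (by omega : 0 < g)
  have hpi := Real.pi_pos
  rw [ang, ang]
  have : ((g - (k + 1) : ℕ) : ℝ) < ((g - k : ℕ) : ℝ) := by exact_mod_cast (by omega)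
  gcongr

/-- The polynomials found are ordinary real Weil polynomials. -/
theorem good {p a g : ℕ} (hp : p.Prime) (ha : 0 < a) (hg : 1 ≤ g) {s : ℝ} (hs1 : 1 < s)
    (hs : s ^ 2 = ((p ^ a : ℕ) : ℝ)) (r r₀ : Fin g → ℤ)
    (h : ∀ k ≤ g, |∑ j : Fin g, (r j : ℝ) * ev p s (ang g k) j -
      ∑ j : Fin g, (r₀ j : ℝ) * ev p s (ang g k) j| ≤ s ^ g) :
    dickson 1 ((p ^ a : ℕ) : ℤ) g + C 1 + (F p ((p ^ a : ℕ) : ℤ) r - F p ((p ^ a : ℕ) : ℤ) r₀) ∈
      ordinary p (p ^ a) g := by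
  set q : ℤ := ((p ^ a : ℕ) : ℤ) with hq
  have hs' : s ^ 2 = (q : ℝ) := by rw [hs, hq]; simp
  obtain ⟨n, rfl⟩ : ∃ n, g = n + 1 := ⟨g - 1, by omega⟩
  set P := dickson 1 q (n + 1) + C 1 + (F p q r - F p q r₀) with hP
  have hpq : (p : ℤ) ∣ q := by
    rw [hq]; push_cast
    exact dvd_pow_self _ ha.ne'
  have hD := dick_monic q n
  have hdeg : (C 1 + (F p q r - F p q r₀) : ℤ[X]).degree < (dickson 1 q (n + 1)).degree := by
    rw [degree_eq_natDegree hD.1.ne_zero, hD.2]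
    rw [degree_lt_iff_coeff_zero]
    intro m hm
    have hm' : n + 1 ≤ m := by exact_mod_cast hm
    rw [coeff_add, coeff_sub, F_coeff_ge p q r hm', F_coeff_ge p q r₀ hm', coeff_C, if_neg (by omega)]
    simp
  have hP' : P = dickson 1 q (n + 1) + (C 1 + (F p q r - F p q r₀)) := by rw [hP]; ring
  have hmonic : P.Monic := by rw [hP']; exact hD.1.add_of_left hdeg
  have hnd : P.natDegree = n + 1 := by
    rw [hP', natDegree_add_eq_left_of_degree_lt hdeg, hD.2]
  have heval : ∀ k ≤ n + 1, (P.map (Int.castRingHom ℝ)).eval (2 * s * Real.cos (ang (n + 1) k)) =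
      2 * s ^ (n + 1) * (-1) ^ (n + 1 - k) + 1 +
        (∑ j : Fin (n + 1), (r j : ℝ) * ev p s (ang (n + 1) k) j -
          ∑ j : Fin (n + 1), (r₀ j : ℝ) * ev p s (ang (n + 1) k) j) := by
    intro k _
    rw [hP, Polynomial.map_add, Polynomial.map_add, Polynomial.map_sub, eval_add, eval_add,
      eval_sub, F_eval p hs', F_eval p hs', dick_cos q s hs', cos_ang hg]
    simp
  have hsg : 1 < s ^ (n + 1) := one_lt_pow₀ hs1 (by omega)
  have hroots := real_roots (g := n + 1) (P.map (Int.castRingHom ℝ)) (hmonic.map _)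
    (by rw [hmonic.natDegree_map, hnd]) (fun k => 2 * s * Real.cos (ang (n + 1) k)) (by
      intro k hk
      have := Real.strictAntiOn_cos (ang_mem hg (k + 1)) (ang_mem hg k) (ang_lt hk)
      have hs0 : 0 < 2 * s := by linarith
      exact mul_lt_mul_of_pos_left this hs0) (by
      intro k hk
      have h1 := abs_le.1 (h k hk.le)
      have h2 := abs_le.1 (h (k + 1) hk)
      rw [heval k hk.le, heval (k + 1) hk]
      have e1 : (-1 : ℝ) ^ (n + 1 - k) = -(-1) ^ (n + 1 - (k + 1)) := by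
        have : n + 1 - k = (n + 1 - (k + 1)) + 1 := by omega
        rw [this, pow_succ]; ring
      rw [e1]
      rcases neg_one_pow_eq_or ℝ (n + 1 - (k + 1)) with h3 | h3
      · rw [h3]
        refine mul_neg_of_neg_of_pos ?_ ?_ <;> linarith
      · rw [h3]
        refine mul_neg_of_pos_of_neg ?_ ?_ <;> linarith)
  refine ⟨⟨hmonic, hnd, ?_⟩, ?_⟩
  · intro z hz
    have hz' : ((P.map (Int.castRingHom ℝ)).map (algebraMap ℝ ℂ)).IsRoot z := by
      rw [Polynomial.map_map, IsRoot.def, eval_map, ← hz, aeval_def]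
      congr 1
    obtain ⟨h1, h2, h3⟩ := hroots z hz'
    refine ⟨h1, ?_⟩
    have e0 : Real.cos (ang (n + 1) 0) = -1 := by
      rw [ang, Nat.sub_zero, mul_comm, mul_div_assoc, div_self (by positivity), mul_one,
        Real.cos_pi]
    have e1 : Real.cos (ang (n + 1) (n + 1)) = 1 := by
      rw [ang, Nat.sub_self]; simp
    rw [e0] at h2
    rw [e1] at h3
    rw [← hs]
    nlinarith
  · have h1 : P.coeff 0 = (dickson 1 q (n + 1)).coeff 0 + 1 +
        ((F p q r).coeff 0 - (F p q r₀).coeff 0) := by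
      rw [hP, coeff_add, coeff_add, coeff_sub, coeff_C_zero]
    rw [h1]
    intro h2
    have h3 : (p : ℤ) ∣ (dickson 1 q (n + 1)).coeff 0 := hpq.trans (dick_coeff_zero q n)
    have h4 : (p : ℤ) ∣ (F p q r).coeff 0 - (F p q r₀).coeff 0 :=
      dvd_sub (F_coeff_zero hpq r) (F_coeff_zero hpq r₀)
    have h5 : (p : ℤ) ∣ 1 := by
      have := dvd_sub (dvd_sub h2 h4) h3
      simpa using this
    have h6 : (p : ℤ) ≤ 1 := Int.le_of_dvd one_pos h5
    have h7 : (2 : ℤ) ≤ p := by exact_mod_cast hp.two_le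
    omega

end Pool.Agent.Work.FF.Low

namespace Pool.Agent.Work.FF

open Polynomial Finset Pool.Agent.Work.MP_223b32_ag_56 Low

theorem stmt_LOWER : Stmt_LOWER := by
  classical
  intro p a g hp ha hg
  set s : ℝ := √((p : ℝ) ^ a) with hsdef
  have hp2 : (2 : ℝ) ≤ p := by exact_mod_cast hp.two_le
  have hp0 : (0 : ℝ) < p := by linarith
  have hg0 : (0 : ℝ) < g := by exact_mod_cast hg
  have hsq : s ^ 2 = ((p ^ a : ℕ) : ℝ) := by
    rw [hsdef, Real.sq_sqrt (by positivity)]; push_cast; rfl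
  have hs1 : 1 < s := by
    rw [hsdef, Real.lt_sqrt (by norm_num), one_pow]
    exact one_lt_pow₀ (by linarith) ha.ne'
  have hs0 : 0 < s := by linarith
  set ρ : ℝ := 1 / (4 * √(g : ℝ)) with hρ
  have hsg : 0 < √(g : ℝ) := Real.sqrt_pos.2 hg0
  have hρ0 : 0 < ρ := by positivity
  have hρ2 : (g : ℝ) * (2 * ρ) ^ 2 = 1 / 4 := by
    rw [hρ]
    have : √(g : ℝ) ^ 2 = g := Real.sq_sqrt hg0.le
    field_simp
    rw [this]; ring
  let d : Fin g → ℝ := fun j => if (j : ℕ) = 0 then (p : ℝ) else 1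
  have hd : ∀ j, 0 < d j := by
    intro j; simp only [d]; split_ifs
    · exact hp0
    · exact one_pos
  let N : Fin g → ℕ := fun j => ⌊ρ * s ^ (g - (j : ℕ)) / d j⌋₊
  let c : ℕ → Fin g → ℝ := fun k j => ev p s (ang g k) j / s ^ g
  have hcN : ∀ k j, |c k j| * N j ≤ 2 * ρ := by
    intro k j
    have h1 : (N j : ℝ) ≤ ρ * s ^ (g - (j : ℕ)) / d j :=
      Nat.floor_le (div_nonneg (by positivity) (hd j).le)
    have h2 : |c k j| ≤ 2 * d j * s ^ (j : ℕ) / s ^ g := by
      simp only [c]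
      rw [abs_div, abs_of_pos (by positivity : 0 < s ^ g)]
      gcongr
      simp only [ev, d]
      split_ifs with h0
      · rw [h0, pow_zero, mul_one, abs_of_pos hp0]
        linarith
      · rw [abs_mul, abs_of_pos (by positivity : 0 < 2 * s ^ (j : ℕ)), mul_one]
        have := Real.abs_cos_le_one ((j : ℕ) * ang g k)
        nlinarith [pow_pos hs0 (j : ℕ)]
    have hjg : s ^ (j : ℕ) * s ^ (g - (j : ℕ)) = s ^ g := by
      rw [← pow_add]; congr 1; have := j.2; omega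
    calc |c k j| * N j ≤ (2 * d j * s ^ (j : ℕ) / s ^ g) * (ρ * s ^ (g - (j : ℕ)) / d j) := by
          gcongr
      _ = 2 * ρ * (s ^ (j : ℕ) * s ^ (g - (j : ℕ))) / s ^ g := by
          have := (hd j).ne'
          field_simp
      _ = 2 * ρ := by
          rw [hjg]; field_simp
  -- the average of the sum of squares
  let Y : (Fin g → ℤ) → ℕ → ℝ := fun r k => ∑ j, c k j * (r j : ℝ)
  have hY : ∀ k, ∑ r ∈ sbox N, (Y r k) ^ 2 ≤ 1 / 4 * (sbox N).card := by
    intro k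
    have := sbox_second N (c k) (2 * ρ) (hcN k)
    rw [hρ2] at this
    exact this
  set B := sbox N with hB
  have hBpos : 0 < (B.card : ℝ) := by
    rw [hB, card_sbox]
    have : 0 < ∏ i, (2 * N i + 1) := prod_pos fun i _ => by omega
    exact_mod_cast this
  set G := B.filter fun r => ∑ k : Fin (g + 1), (Y r k) ^ 2 ≤ ((g : ℝ) + 1) / 2 with hG
  have hGcard : (B.card : ℝ) / 2 ≤ G.card := by
    set T := B.filter fun r => ¬ ∑ k : Fin (g + 1), (Y r k) ^ 2 ≤ ((g : ℝ) + 1) / 2 with hT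
    have h1 : G.card + T.card = B.card := by
      rw [hG, hT]; exact card_filter_add_card_filter_not _
    have h2 : (((g : ℝ) + 1) / 2) * T.card ≤ ((g : ℝ) + 1) * (1 / 4 * B.card) := by
      calc (((g : ℝ) + 1) / 2) * T.card = ∑ _r ∈ T, ((g : ℝ) + 1) / 2 := by
            rw [sum_const, nsmul_eq_mul]; ring
        _ ≤ ∑ r ∈ T, ∑ k : Fin (g + 1), (Y r k) ^ 2 := by
            refine sum_le_sum fun r hr => ?_
            rw [hT, mem_filter] at hr
            exact (not_le.1 hr.2).le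
        _ ≤ ∑ r ∈ B, ∑ k : Fin (g + 1), (Y r k) ^ 2 :=
            sum_le_sum_of_subset_of_nonneg (filter_subset _ _) fun _ _ _ =>
              sum_nonneg fun _ _ => sq_nonneg _
        _ = ∑ k : Fin (g + 1), ∑ r ∈ B, (Y r k) ^ 2 := sum_comm
        _ ≤ ∑ _k : Fin (g + 1), (1 / 4 * (B.card : ℝ)) := sum_le_sum fun k _ => hY k
        _ = ((g : ℝ) + 1) * (1 / 4 * B.card) := by
            rw [sum_const, card_univ, Fintype.card_fin, nsmul_eq_mul]; push_cast; ring
    have h3 : (G.card : ℝ) + T.card = B.card := by exact_mod_cast h1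
    have h4 : (0 : ℝ) < (g : ℝ) + 1 := by positivity
    have h5 : (T.card : ℝ) ≤ B.card / 2 := by
      have : ((g : ℝ) + 1) * (T.card : ℝ) ≤ ((g : ℝ) + 1) * (B.card / 2) := by nlinarith
      exact le_of_mul_le_mul_left this h4
    linarith
  -- pigeonhole
  let Φ : (Fin g → ℤ) → (Fin (g + 1) → ℤ) := fun r k => round (Y r k)
  have hΦ : ∀ r ∈ G, Φ r ∈ ball (g + 1) := by
    intro r hr
    rw [hG, mem_filter] at hr
    rw [mem_ball]
    have h1 : ((∑ i, (Φ r i).natAbs : ℕ) : ℝ) ≤ ((2 * (g + 1) : ℕ) : ℝ) := by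
      push_cast
      calc ∑ i, ((Φ r i).natAbs : ℝ) ≤ ∑ i : Fin (g + 1), 4 * (Y r i) ^ 2 :=
            sum_le_sum fun i _ => round_natAbs _
        _ = 4 * ∑ i : Fin (g + 1), (Y r i) ^ 2 := by rw [mul_sum]
        _ ≤ 4 * (((g : ℝ) + 1) / 2) := by gcongr; exact hr.2
        _ = 2 * ((g : ℝ) + 1) := by ring
    exact_mod_cast h1
  have hGpos : 0 < (G.card : ℝ) := by linarith
  obtain ⟨b, hb, hfib⟩ : ∃ b ∈ ball (g + 1),
      (G.card : ℝ) ≤ 12 ^ (g + 1) * ((G.filter fun r => Φ r = b).card : ℝ) := by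
    by_contra hcon
    push Not at hcon
    have h1 := card_eq_sum_card_fiberwise (f := Φ) (s := G) (t := ball (g + 1))
      (fun r hr => hΦ r hr)
    have hne : (ball (g + 1)).Nonempty := by
      have : G.Nonempty := by
        rw [← card_pos]; exact_mod_cast hGpos
      obtain ⟨r, hr⟩ := this
      exact ⟨_, hΦ r hr⟩
    have h2 : ∑ b ∈ ball (g + 1), (12 : ℝ) ^ (g + 1) * ((G.filter fun r => Φ r = b).card : ℝ) <
        ∑ _b ∈ ball (g + 1), (G.card : ℝ) := sum_lt_sum_of_nonempty hne hcon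
    rw [← mul_sum, sum_const, nsmul_eq_mul] at h2
    have h3 : ∑ b ∈ ball (g + 1), ((G.filter fun r => Φ r = b).card : ℝ) = G.card := by
      rw [h1]; push_cast; rfl
    rw [h3] at h2
    have h4 := card_ball (g + 1)
    nlinarith
  set W := G.filter fun r => Φ r = b with hW
  have hWpos : 0 < (W.card : ℝ) := by
    by_contra hc
    push Not at hc
    have : (12 : ℝ) ^ (g + 1) * (W.card : ℝ) ≤ 0 := mul_nonpos_of_nonneg_of_nonpos (by positivity) hc
    linarith
  obtain ⟨r₀, hr₀⟩ : W.Nonempty := by rw [← card_pos]; exact_mod_cast hWpos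
  -- the polynomials
  let Q : (Fin g → ℤ) → ℤ[X] := fun r =>
    dickson 1 ((p ^ a : ℕ) : ℤ) g + C 1 + (F p ((p ^ a : ℕ) : ℤ) r - F p ((p ^ a : ℕ) : ℤ) r₀)
  have hQinj : Function.Injective Q := by
    intro r r' h
    have h1 : F p ((p ^ a : ℕ) : ℤ) r = F p ((p ^ a : ℕ) : ℤ) r' := by
      have h2 := add_left_cancel h
      exact sub_left_injective h2
    exact F_injective hp.pos _ g h1
  have hQmem : ∀ r ∈ W, Q r ∈ ordinary p (p ^ a) g := by
    intro r hr
    refine good hp ha hg hs1 hsq r r₀ fun k hk => ?_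
    have e : ∀ r : Fin g → ℤ, ∑ j : Fin g, (r j : ℝ) * ev p s (ang g k) j = s ^ g * Y r k := by
      intro r
      simp only [Y, c]
      rw [mul_sum]
      refine sum_congr rfl fun j _ => ?_
      field_simp
    rw [e, e, ← mul_sub, abs_mul, abs_of_pos (by positivity : 0 < s ^ g)]
    have h1 : round (Y r k) = round (Y r₀ k) := by
      have h2 : Φ r = Φ r₀ := by
        rw [hW, mem_filter] at hr hr₀
        rw [hr.2, hr₀.2]
      have h3 := congrFun h2 ⟨k, by omega⟩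
      exact h3
    have h4 := abs_sub_round (Y r k)
    have h5 := abs_sub_round (Y r₀ k)
    rw [h1] at h4
    have h6 : |Y r k - Y r₀ k| ≤ 1 := by
      rw [abs_le] at h4 h5 ⊢
      constructor <;> linarith [h4.1, h4.2, h5.1, h5.2]
    calc s ^ g * |Y r k - Y r₀ k| ≤ s ^ g * 1 := by gcongr
      _ = s ^ g := mul_one _
  have hcount : (W.card : ℝ) ≤ ((ordinary p (p ^ a) g).ncard : ℝ) := by
    have hsub : (Q '' (W : Set (Fin g → ℤ))) ⊆ ordinary p (p ^ a) g := by
      rintro _ ⟨r, hr, rfl⟩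
      exact hQmem r hr
    have hfin : (ordinary p (p ^ a) g).Finite := (realWeil_finite (p ^ a)).subset fun h hh => hh.1
    have h1 := Set.ncard_le_ncard hsub hfin
    rw [Set.ncard_image_of_injective _ hQinj, Set.ncard_coe_finset] at h1
    exact_mod_cast h1
  -- the number of vectors
  have hBlow : ρ ^ g * s ^ (g * (g + 1) / 2) / p ≤ (B.card : ℝ) := by
    rw [hB, card_sbox]
    push_cast
    calc ρ ^ g * s ^ (g * (g + 1) / 2) / p = ∏ j : Fin g, (ρ * s ^ (g - (j : ℕ)) / d j) := by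
          rw [prod_div_distrib, prod_mul_distrib, prod_const, card_univ, Fintype.card_fin,
            prod_pow_eq_pow_sum, sum_expo]
          congr 1
          simp only [d]
          obtain ⟨n, rfl⟩ : ∃ n, g = n + 1 := ⟨g - 1, by omega⟩
          rw [Fin.prod_univ_succ]
          simp
      _ ≤ ∏ j : Fin g, (2 * (N j : ℝ) + 1) := by
          refine prod_le_prod (fun j _ => div_nonneg (by positivity) (hd j).le) fun j _ => ?_
          exact two_floor _
  have hfac : (0 : ℝ) < √(g.factorial : ℝ) := Real.sqrt_pos.2 (by exact_mod_cast g.factorial_pos)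
  have hfinal : s ^ (g * (g + 1) / 2) / (p * 2000 ^ g * √(g.factorial : ℝ)) * (2 * 12 ^ (g + 1)) ≤
      ρ ^ g * s ^ (g * (g + 1) / 2) / p := by
    have h1 := const_bound g hg
    rw [hρ, div_mul_eq_mul_div, div_le_div_iff₀ (by positivity) hp0, one_div, inv_pow]
    have h2 : (0 : ℝ) < (4 * √(g : ℝ)) ^ g := by positivity
    have h3 : (2 * 12 ^ (g + 1) : ℝ) ≤ ((4 * √(g : ℝ)) ^ g)⁻¹ * (2000 ^ g * √(g.factorial : ℝ)) := by
      rw [inv_mul_eq_div, le_div_iff₀ h2]
      calc (2 * 12 ^ (g + 1) : ℝ) * (4 * √(g : ℝ)) ^ g = 24 * 12 ^ g * (4 * √(g : ℝ)) ^ g := by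
            rw [pow_succ]; ring
        _ ≤ _ := h1
    calc s ^ (g * (g + 1) / 2) * (2 * 12 ^ (g + 1)) * (p : ℝ)
        ≤ s ^ (g * (g + 1) / 2) * (((4 * √(g : ℝ)) ^ g)⁻¹ * (2000 ^ g * √(g.factorial : ℝ))) * p := by
          gcongr
      _ = _ := by ring
  have hlast : s ^ (g * (g + 1) / 2) / (p * 2000 ^ g * √(g.factorial : ℝ)) * (2 * 12 ^ (g + 1)) ≤
      (2 * 12 ^ (g + 1)) * (W.card : ℝ) := by
    calc _ ≤ ρ ^ g * s ^ (g * (g + 1) / 2) / p := hfinal
      _ ≤ B.card := hBlow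
      _ ≤ 2 * G.card := by linarith
      _ ≤ 2 * (12 ^ (g + 1) * (W.card : ℝ)) := by gcongr
      _ = _ := by ring
  refine le_trans ?_ hcount
  have h12 : (0 : ℝ) < 2 * 12 ^ (g + 1) := by positivity
  have := hlast
  rw [mul_comm (2 * 12 ^ (g + 1) : ℝ) (W.card : ℝ)] at this
  exact le_of_mul_le_mul_right this h12

end Pool.Agent.Work.FF
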