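import Pool.Agent.Work.MP_223b32_FF.Interface

/-!
MORD: Mordell's bound for a character sum with a polynomial of degree smaller than the
characteristic (helper76).
-/

namespace Pool.Agent.Work.FF

namespace MORDAux

open Polynomial Finset

section newton

variable {F : Type*} [Field F]

/-- Newton: equal power sums `1, …, e` give equal elementary symmetric functions. -/
theorem esymm_eq {ℓ : ℕ} [Fact ℓ.Prime] [CharP F ℓ] {e : ℕ} (he : e < ℓ) (x y : Fin e → F)
    (h : ∀ j : Fin e, ∑ i, x i ^ ((j : ℕ) + 1) = ∑ i, y i ^ ((j : ℕ) + 1)) :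
    ∀ k ≤ e, MvPolynomial.aeval x (MvPolynomial.esymm (Fin e) F k) =
      MvPolynomial.aeval y (MvPolynomial.esymm (Fin e) F k) := by
  intro k
  induction k using Nat.strong_induction_on with
  | _ k ih =>
    intro hk
    rcases Nat.eq_zero_or_pos k with rfl | hk0
    · simp
    have hk1 : (k : F) ≠ 0 := by
      intro h0
      have := (CharP.cast_eq_zero_iff F ℓ k).1 h0
      exact absurd (Nat.le_of_dvd hk0 this) (by omega)
    have hN := MvPolynomial.mul_esymm_eq_sum (Fin e) F k
    have hx := congrArg (MvPolynomial.aeval x) hN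
    have hy := congrArg (MvPolynomial.aeval y) hN
    simp only [map_mul, map_natCast, map_pow, map_neg, map_one, map_sum] at hx hy
    have : (k : F) * MvPolynomial.aeval x (MvPolynomial.esymm (Fin e) F k) =
        (k : F) * MvPolynomial.aeval y (MvPolynomial.esymm (Fin e) F k) := by
      rw [hx, hy]
      congr 1
      refine Finset.sum_congr rfl ?_
      intro a ha
      rw [Finset.mem_filter, Finset.HasAntidiagonal.mem_antidiagonal] at ha
      rw [ih a.1 ha.2 (by omega)]
      congr 1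
      have h2 := h ⟨a.2 - 1, by omega⟩
      have h3 : a.2 - 1 + 1 = a.2 := by omega
      simp only [h3] at h2
      simpa [MvPolynomial.psum] using h2
    exact mul_left_cancel₀ hk1 this

theorem map_eq {ℓ : ℕ} [Fact ℓ.Prime] [CharP F ℓ] {e : ℕ} (he : e < ℓ) (x y : Fin e → F)
    (h : ∀ j : Fin e, ∑ i, x i ^ ((j : ℕ) + 1) = ∑ i, y i ^ ((j : ℕ) + 1)) :
    (univ : Finset (Fin e)).val.map x = (univ : Finset (Fin e)).val.map y := by
  have hE := esymm_eq he x y h
  have key : (((univ : Finset (Fin e)).val.map x).map fun t => X - C t).prod =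
      (((univ : Finset (Fin e)).val.map y).map fun t => X - C t).prod := by
    rw [Multiset.prod_X_sub_X_eq_sum_esymm, Multiset.prod_X_sub_X_eq_sum_esymm]
    simp only [Multiset.card_map, Finset.card_val, Finset.card_univ, Fintype.card_fin]
    refine Finset.sum_congr rfl ?_
    intro j hj
    rw [Finset.mem_range] at hj
    rw [← MvPolynomial.aeval_esymm_eq_multiset_esymm (Fin e) F,
      ← MvPolynomial.aeval_esymm_eq_multiset_esymm (Fin e) F, hE j (by omega)]
  have := congrArg Polynomial.roots key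
  rwa [Polynomial.roots_multiset_prod_X_sub_C, Polynomial.roots_multiset_prod_X_sub_C] at this

theorem card_le {ℓ : ℕ} [Fact ℓ.Prime] [CharP F ℓ] [Fintype F] [DecidableEq F] {e : ℕ}
    (he : e < ℓ) (y : Fin e → F) :
    (univ.filter fun x : Fin e → F =>
      ∀ j : Fin e, ∑ i, x i ^ ((j : ℕ) + 1) = ∑ i, y i ^ ((j : ℕ) + 1)).card ≤ e.factorial := by
  classical
  have h1 : (univ.filter fun x : Fin e → F =>
      ∀ j : Fin e, ∑ i, x i ^ ((j : ℕ) + 1) = ∑ i, y i ^ ((j : ℕ) + 1)).card ≤
      (List.ofFn y).permutations.toFinset.card := by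
    refine Finset.card_le_card_of_injOn (fun x => List.ofFn x) ?_ ?_
    · intro x hx
      rw [Finset.mem_coe, Finset.mem_filter] at hx
      have := map_eq he x y hx.2
      rw [Fin.univ_val_map, Fin.univ_val_map, Multiset.coe_eq_coe] at this
      simp only [List.coe_toFinset, Set.mem_ofPred_eq, List.mem_permutations]
      exact this
    · intro x _ x' _ hxx
      exact List.ofFn_injective hxx
  refine h1.trans ((List.toFinset_card_le _).trans ?_)
  rw [List.length_permutations, List.length_ofFn]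

end newton

section fibre

variable {F : Type*} [Field F]

/-- The nonconstant coefficients of `f (u X + v)`. -/
noncomputable def cf (f : F[X]) (e : ℕ) (p : F × F) : Fin e → F :=
  fun j => (taylor p.2 f).coeff ((j : ℕ) + 1) * p.1 ^ ((j : ℕ) + 1)

theorem eval_cf (f : F[X]) (p : F × F) (x : F) :
    f.eval (p.1 * x + p.2) = f.eval p.2 + ∑ j : Fin f.natDegree, cf f f.natDegree p j * x ^ ((j : ℕ) + 1) := by
  rw [← taylor_eval, Polynomial.eval_eq_sum_range, natDegree_taylor, Finset.sum_range_succ',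
    add_comm, ← Fin.sum_univ_eq_sum_range
      (fun j => (taylor p.2 f).coeff (j + 1) * (p.1 * x) ^ (j + 1))]
  congr 1
  · simp [taylor_coeff_zero]
  · refine Finset.sum_congr rfl ?_
    intro j _
    rw [cf, mul_pow]
    ring

theorem taylor_top (f : F[X]) (v : F) :
    (taylor v f).coeff f.natDegree = f.leadingCoeff := by
  rw [← natDegree_taylor f v, Polynomial.coeff_natDegree, leadingCoeff_taylor]

theorem taylor_next (f : F[X]) (v : F) (he : 1 ≤ f.natDegree) :
    (taylor v f).coeff (f.natDegree - 1) =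
      f.coeff (f.natDegree - 1) + (f.natDegree : F) * f.leadingCoeff * v := by
  rw [taylor_coeff]
  have hd : (hasseDeriv (f.natDegree - 1) f).natDegree < 2 := by
    have := natDegree_hasseDeriv_le f (f.natDegree - 1)
    omega
  rw [Polynomial.eval_eq_sum_range' hd, Finset.sum_range_succ, Finset.sum_range_one,
    hasseDeriv_coeff, hasseDeriv_coeff]
  have h1 : 1 + (f.natDegree - 1) = f.natDegree := by omega
  rw [h1]
  have h2 : f.natDegree.choose (f.natDegree - 1) = f.natDegree := by
    rw [Nat.choose_symm_of_eq_add (n := f.natDegree) (a := f.natDegree - 1) (b := 1) (by omega),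
      Nat.choose_one_right]
  rw [h2, show f.coeff f.natDegree = f.leadingCoeff from rfl, pow_zero, pow_one,
    Nat.zero_add, Nat.choose_self, Nat.cast_one, one_mul, mul_one]

/-- The fibres of `cf` over `u ≠ 0` have at most `e` elements. -/
theorem fibre_card [Fintype F] [DecidableEq F] {ℓ : ℕ} [Fact ℓ.Prime] [CharP F ℓ] (f : F[X]) (he : 2 ≤ f.natDegree)
    (hl : f.natDegree < ℓ) (a : Fin f.natDegree → F) :
    ((univ.filter fun p : F × F => p.1 ≠ 0 ∧ cf f f.natDegree p = a).card) ≤ f.natDegree := by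
  classical
  have hf0 : f.leadingCoeff ≠ 0 := by
    rw [Ne, Polynomial.leadingCoeff_eq_zero]
    rintro rfl
    simp at he
  have he0 : (f.natDegree : F) ≠ 0 := by
    intro h0
    have := (CharP.cast_eq_zero_iff F ℓ _).1 h0
    exact absurd (Nat.le_of_dvd (by omega) this) (by omega)
  set c : F := a ⟨f.natDegree - 1, by omega⟩ / f.leadingCoeff with hc
  have hpow : ∀ p : F × F, cf f f.natDegree p = a → p.1 ^ f.natDegree = c := by
    intro p hp
    have := congrFun hp ⟨f.natDegree - 1, by omega⟩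
    have h1 : f.natDegree - 1 + 1 = f.natDegree := by omega
    simp only [cf, h1] at this
    rw [taylor_top] at this
    rw [hc, ← this]
    field_simp
  refine (Finset.card_le_card_of_injOn (t := (Polynomial.nthRoots f.natDegree c).toFinset)
    (fun p => p.1) ?_ ?_).trans ((Multiset.toFinset_card_le _).trans
      (Polynomial.card_nthRoots _ _))
  · intro p hp
    rw [Finset.mem_coe, Finset.mem_filter] at hp
    rw [Finset.mem_coe, Multiset.mem_toFinset, Polynomial.mem_nthRoots (by omega)]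
    exact hpow p hp.2.2
  · intro p hp p' hp' hpp
    rw [Finset.mem_coe, Finset.mem_filter] at hp hp'
    have hpp' : p.1 = p'.1 := hpp
    have h1 := congrFun (hp.2.2.trans hp'.2.2.symm) ⟨f.natDegree - 2, by omega⟩
    have h2 : f.natDegree - 2 + 1 = f.natDegree - 1 := by omega
    simp only [cf, h2] at h1
    rw [taylor_next f _ (by omega), taylor_next f _ (by omega), hpp'] at h1
    have h3 : p'.1 ^ (f.natDegree - 1) ≠ 0 := pow_ne_zero _ hp'.2.1
    have h4 := mul_right_cancel₀ h3 h1
    have h5 := add_left_cancel h4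
    have h6 := mul_left_cancel₀ (mul_ne_zero he0 hf0) h5
    exact Prod.ext hpp' h6

end fibre

section moment

variable {F : Type*} [Field F] [Fintype F] [DecidableEq F]

theorem map_sum' {A : Type*} [AddCommMonoid A] {ι : Type*} (ψ : AddChar A ℂ) (s : Finset ι)
    (f : ι → A) : ψ (∑ i ∈ s, f i) = ∏ i ∈ s, ψ (f i) := by
  classical
  induction s using Finset.induction_on with
  | empty => simp
  | insert a s ha ih => rw [Finset.sum_insert ha, Finset.prod_insert ha, AddChar.map_add_eq_mul, ih]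

/-- The character sum with coefficient vector `a`. -/
noncomputable def TT (ψ : AddChar F ℂ) {e : ℕ} (a : Fin e → F) : ℂ :=
  ∑ x : F, ψ (∑ j : Fin e, a j * x ^ ((j : ℕ) + 1))

theorem orth (ψ : AddChar F ℂ) (hψ : ψ ≠ 1) {e : ℕ} (c : Fin e → F) :
    ∑ a : Fin e → F, ψ (∑ j, a j * c j) = if c = 0 then (Fintype.card F : ℂ) ^ e else 0 := by
  classical
  have h1 : ∀ a : Fin e → F, ψ (∑ j, a j * c j) = ∏ j, ψ (a j * c j) := by
    intro a
    rw [map_sum']
  simp_rw [h1]
  rw [← Fintype.piFinset_univ, ← Finset.prod_univ_sum (fun _ => univ) (fun j x => ψ (x * c j))]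
  have hp := AddChar.IsPrimitive.of_ne_one hψ
  have h2 : ∀ j : Fin e, ∑ x : F, ψ (x * c j) = if c j = 0 then (Fintype.card F : ℂ) else 0 := by
    intro j
    rw [AddChar.sum_mulShift (c j) hp]
    split_ifs <;> simp
  simp_rw [h2]
  by_cases hc : c = 0
  · subst hc
    simp
  · rw [if_neg hc]
    obtain ⟨j, hj⟩ := Function.ne_iff.1 hc
    exact Finset.prod_eq_zero (Finset.mem_univ j) (if_neg hj)

omit [DecidableEq F] in
theorem norm_pow (ψ : AddChar F ℂ) {e : ℕ} (a : Fin e → F) :
    ((‖TT ψ a‖ ^ (2 * e) : ℝ) : ℂ) = ∑ x : Fin e → F, ∑ y : Fin e → F,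
      ψ (∑ j : Fin e, a j * (∑ i, x i ^ ((j : ℕ) + 1) - ∑ i, y i ^ ((j : ℕ) + 1))) := by
  have h1 : ((‖TT ψ a‖ ^ (2 * e) : ℝ) : ℂ) = TT ψ a ^ e * (starRingEnd ℂ) (TT ψ a) ^ e := by
    rw [← mul_pow, Complex.mul_conj, Complex.normSq_eq_norm_sq, pow_mul]
    push_cast
    rfl
  have h2 : (starRingEnd ℂ) (TT ψ a) = ∑ x : F, ψ (-(∑ j : Fin e, a j * x ^ ((j : ℕ) + 1))) := by
    rw [TT, map_sum]
    refine Finset.sum_congr rfl ?_
    intro x _
    rw [AddChar.map_neg_eq_conj]
  rw [h1, h2, TT, Finset.sum_pow', Finset.sum_pow', Finset.sum_mul_sum, Fintype.piFinset_univ]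
  refine Finset.sum_congr rfl ?_
  intro x _
  refine Finset.sum_congr rfl ?_
  intro y _
  rw [← map_sum', ← map_sum', ← AddChar.map_add_eq_mul]
  congr 1
  rw [Finset.sum_neg_distrib, ← sub_eq_add_neg, Finset.sum_comm, Finset.sum_comm (s := univ)
    (t := univ) (f := fun i j => a j * y i ^ ((j : ℕ) + 1)), ← Finset.sum_sub_distrib]
  refine Finset.sum_congr rfl ?_
  intro j _
  rw [mul_sub, Finset.mul_sum, Finset.mul_sum]

theorem moment {ℓ : ℕ} [Fact ℓ.Prime] [CharP F ℓ] (ψ : AddChar F ℂ) (hψ : ψ ≠ 1) {e : ℕ}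
    (he : e < ℓ) :
    ∑ a : Fin e → F, ‖TT ψ a‖ ^ (2 * e) ≤
      (Fintype.card F : ℝ) ^ e * (e.factorial * (Fintype.card F : ℝ) ^ e) := by
  have h1 : ((∑ a : Fin e → F, ‖TT ψ a‖ ^ (2 * e) : ℝ) : ℂ) =
      (((Fintype.card F : ℝ) ^ e * ∑ y : Fin e → F,
        ((univ.filter fun x : Fin e → F =>
          ∀ j : Fin e, ∑ i, x i ^ ((j : ℕ) + 1) = ∑ i, y i ^ ((j : ℕ) + 1)).card : ℝ) : ℝ) : ℂ) := by
    rw [Complex.ofReal_sum]
    have h3 : ∀ x y : Fin e → F, ∑ a : Fin e → F,
        ψ (∑ j : Fin e, a j * (∑ i, x i ^ ((j : ℕ) + 1) - ∑ i, y i ^ ((j : ℕ) + 1))) =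
        if (∀ j : Fin e, ∑ i, x i ^ ((j : ℕ) + 1) = ∑ i, y i ^ ((j : ℕ) + 1)) then
          (Fintype.card F : ℂ) ^ e else 0 := by
      intro x y
      rw [orth ψ hψ (fun j : Fin e => ∑ i, x i ^ ((j : ℕ) + 1) - ∑ i, y i ^ ((j : ℕ) + 1))]
      refine if_congr ?_ rfl rfl
      constructor
      · intro h j
        exact sub_eq_zero.1 (congrFun h j)
      · intro h
        funext j
        exact sub_eq_zero.2 (h j)
    calc ∑ a : Fin e → F, ((‖TT ψ a‖ ^ (2 * e) : ℝ) : ℂ)
        = ∑ a : Fin e → F, ∑ x : Fin e → F, ∑ y : Fin e → F,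
            ψ (∑ j : Fin e, a j * (∑ i, x i ^ ((j : ℕ) + 1) - ∑ i, y i ^ ((j : ℕ) + 1))) :=
          Finset.sum_congr rfl fun a _ => norm_pow ψ a
      _ = ∑ a : Fin e → F, ∑ y : Fin e → F, ∑ x : Fin e → F,
            ψ (∑ j : Fin e, a j * (∑ i, x i ^ ((j : ℕ) + 1) - ∑ i, y i ^ ((j : ℕ) + 1))) :=
          Finset.sum_congr rfl fun a _ => Finset.sum_comm
      _ = ∑ y : Fin e → F, ∑ a : Fin e → F, ∑ x : Fin e → F,
            ψ (∑ j : Fin e, a j * (∑ i, x i ^ ((j : ℕ) + 1) - ∑ i, y i ^ ((j : ℕ) + 1))) :=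
          Finset.sum_comm
      _ = ∑ y : Fin e → F, ∑ x : Fin e → F, ∑ a : Fin e → F,
            ψ (∑ j : Fin e, a j * (∑ i, x i ^ ((j : ℕ) + 1) - ∑ i, y i ^ ((j : ℕ) + 1))) :=
          Finset.sum_congr rfl fun a _ => Finset.sum_comm
      _ = ∑ y : Fin e → F, (Fintype.card F : ℂ) ^ e * ((univ.filter fun x : Fin e → F =>
            ∀ j : Fin e, ∑ i, x i ^ ((j : ℕ) + 1) = ∑ i, y i ^ ((j : ℕ) + 1)).card : ℂ) := by
          refine Finset.sum_congr rfl fun y _ => ?_
          simp_rw [h3]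
          rw [← Finset.sum_filter, Finset.sum_const, nsmul_eq_mul, mul_comm]
      _ = _ := by
          rw [← Finset.mul_sum]
          push_cast
          rfl
  have h2 := Complex.ofReal_injective h1
  rw [h2]
  refine mul_le_mul_of_nonneg_left ?_ (by positivity)
  calc ∑ y : Fin e → F, ((univ.filter fun x : Fin e → F =>
          ∀ j : Fin e, ∑ i, x i ^ ((j : ℕ) + 1) = ∑ i, y i ^ ((j : ℕ) + 1)).card : ℝ)
      ≤ ∑ _y : Fin e → F, (e.factorial : ℝ) :=
        Finset.sum_le_sum fun y _ => by exact_mod_cast card_le he y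
    _ = e.factorial * (Fintype.card F : ℝ) ^ e := by
        rw [Finset.sum_const, Finset.card_univ, Fintype.card_fun, Fintype.card_fin, nsmul_eq_mul]
        push_cast
        ring

omit [DecidableEq F] in
theorem TT_cf (ψ : AddChar F ℂ) (f : F[X]) (p : F × F) (hp : p.1 ≠ 0) :
    ‖TT ψ (cf f f.natDegree p)‖ = ‖∑ x : F, ψ (f.eval x)‖ := by
  have h1 : ∑ x : F, ψ (f.eval x) = ∑ x : F, ψ (f.eval (p.1 * x + p.2)) := by
    refine (Fintype.sum_bijective (fun x : F => p.1 * x + p.2) ?_ _ _ fun x => rfl).symm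
    exact (Equiv.mulLeft₀ p.1 hp).bijective.comp (Function.bijective_id) |> fun h =>
      (Equiv.addRight p.2).bijective.comp h
  rw [h1]
  simp_rw [eval_cf, AddChar.map_add_eq_mul]
  rw [← Finset.mul_sum, norm_mul, AddChar.norm_apply, one_mul]
  rfl

theorem lower {ℓ : ℕ} [Fact ℓ.Prime] [CharP F ℓ] (ψ : AddChar F ℂ) (f : F[X])
    (he : 2 ≤ f.natDegree) (hl : f.natDegree < ℓ) :
    ((Fintype.card F : ℝ) * (Fintype.card F - 1)) * ‖∑ x : F, ψ (f.eval x)‖ ^ (2 * f.natDegree) ≤
      f.natDegree * ∑ a : Fin f.natDegree → F, ‖TT ψ a‖ ^ (2 * f.natDegree) := by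
  classical
  set P : Finset (F × F) := univ.filter fun p : F × F => p.1 ≠ 0 with hP
  have hcard : (P.card : ℝ) = (Fintype.card F : ℝ) * (Fintype.card F - 1) := by
    have h1 : P = (univ.filter fun x : F => x ≠ 0) ×ˢ (univ : Finset F) := by
      ext p
      simp [hP]
    have h2 : (univ.filter fun x : F => x ≠ 0).card = Fintype.card F - 1 := by
      rw [Finset.filter_ne' , Finset.card_erase_of_mem (Finset.mem_univ _), Finset.card_univ]
    rw [h1, Finset.card_product, h2, Finset.card_univ, Nat.cast_mul, Nat.cast_sub Fintype.card_pos]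
    push_cast
    ring
  calc ((Fintype.card F : ℝ) * (Fintype.card F - 1)) *
        ‖∑ x : F, ψ (f.eval x)‖ ^ (2 * f.natDegree)
      = ∑ p ∈ P, ‖TT ψ (cf f f.natDegree p)‖ ^ (2 * f.natDegree) := by
        rw [← hcard, ← nsmul_eq_mul, ← Finset.sum_const]
        refine Finset.sum_congr rfl ?_
        intro p hp
        rw [TT_cf ψ f p (Finset.mem_filter.1 hp).2]
    _ = ∑ a : Fin f.natDegree → F, ∑ p ∈ P with cf f f.natDegree p = a,
          ‖TT ψ (cf f f.natDegree p)‖ ^ (2 * f.natDegree) := by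
        rw [Finset.sum_fiberwise]
    _ ≤ ∑ a : Fin f.natDegree → F, (f.natDegree : ℝ) * ‖TT ψ a‖ ^ (2 * f.natDegree) := by
        refine Finset.sum_le_sum ?_
        intro a _
        have h1 : ∑ p ∈ P with cf f f.natDegree p = a,
            ‖TT ψ (cf f f.natDegree p)‖ ^ (2 * f.natDegree) =
            ((P.filter fun p => cf f f.natDegree p = a).card : ℝ) *
              ‖TT ψ a‖ ^ (2 * f.natDegree) := by
          rw [← nsmul_eq_mul, ← Finset.sum_const]
          refine Finset.sum_congr rfl ?_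
          intro p hp
          rw [(Finset.mem_filter.1 hp).2]
        rw [h1]
        refine mul_le_mul_of_nonneg_right ?_ (by positivity)
        have h2 := fibre_card (ℓ := ℓ) f he hl a
        rw [hP, Finset.filter_filter]
        exact_mod_cast h2
    _ = _ := by rw [Finset.mul_sum]

end moment

end MORDAux

open MORDAux Polynomial Finset in
theorem stmt_MORD : Stmt_MORD := by
  intro F _ _ ℓ _ _ ψ hψ f he hl
  classical
  set N : ℝ := (Fintype.card F : ℝ) with hN
  have hN2 : (2 : ℝ) ≤ N := by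
    rw [hN]
    exact_mod_cast Fintype.one_lt_card
  rcases Nat.lt_or_ge f.natDegree 2 with h1 | h2
  · -- degree one: the sum is zero
    have he1 : f.natDegree = 1 := by omega
    have hz : ∑ x : F, ψ (f.eval x) = 0 := by
      have hlc : f.coeff 1 ≠ 0 := by
        have : f ≠ 0 := by
          rintro rfl
          simp at he
        have h3 := Polynomial.leadingCoeff_ne_zero.2 this
        rwa [Polynomial.leadingCoeff, he1] at h3
      have hev : ∀ x : F, f.eval x = f.coeff 0 + x * f.coeff 1 := by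
        intro x
        rw [Polynomial.eval_eq_sum_range, he1, Finset.sum_range_succ, Finset.sum_range_one]
        ring
      simp_rw [hev, AddChar.map_add_eq_mul]
      rw [← Finset.mul_sum, AddChar.sum_mulShift _ (AddChar.IsPrimitive.of_ne_one hψ),
        if_neg hlc]
      simp
    rw [hz, norm_zero, zero_pow (by omega), zero_mul]
    positivity
  · have hm := moment (ℓ := ℓ) ψ hψ hl
    have hlow := lower (ℓ := ℓ) ψ f h2 hl
    rw [← hN] at hm hlow
    set e := f.natDegree with hee
    set S : ℝ := ‖∑ x : F, ψ (f.eval x)‖ ^ (2 * e) with hS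
    have hS0 : 0 ≤ S := by positivity
    have h3 : N * (N - 1) * S ≤ e * (N ^ e * (e.factorial * N ^ e)) :=
      hlow.trans (mul_le_mul_of_nonneg_left hm (by positivity))
    have h4 : S * N ^ 2 ≤ 2 * (N * (N - 1) * S) := by nlinarith [mul_nonneg hS0 (by linarith : (0:ℝ) ≤ N)]
    have h5 : (2 : ℝ) * e * e.factorial ≤ (2 * e) ^ (2 * e) := by
      have h6 : (e.factorial : ℝ) ≤ (e : ℝ) ^ e := by exact_mod_cast Nat.factorial_le_pow e
      have h7 : (1 : ℝ) ≤ 2 * e := by
        have : (2 : ℝ) ≤ e := by exact_mod_cast h2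
        linarith
      calc (2 : ℝ) * e * e.factorial ≤ 2 * e * (2 * e) ^ e := by
            refine mul_le_mul_of_nonneg_left (h6.trans ?_) (by positivity)
            refine pow_le_pow_left₀ (by positivity) ?_ _
            linarith [(Nat.cast_nonneg e : (0:ℝ) ≤ e)]
        _ = (2 * e) ^ (e + 1) := by ring
        _ ≤ (2 * e) ^ (2 * e) := pow_le_pow_right₀ h7 (by omega)
    calc S * N ^ 2 ≤ 2 * (e * (N ^ e * (e.factorial * N ^ e))) := h4.trans (by linarith)
      _ = (2 * e * e.factorial) * N ^ (2 * e) := by ring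
      _ ≤ (2 * e) ^ (2 * e) * N ^ (2 * e) := mul_le_mul_of_nonneg_right h5 (by positivity)
      _ = (2 * e * N) ^ (2 * e) := by rw [mul_pow (2 * (e : ℝ)) N]

end Pool.Agent.Work.FF
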