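import Pool.Agent.Work.MP_223b32_FF.PATTb

/-!
Block PATT: the density of the factorisation pattern in short intervals.
-/

namespace Pool.Agent.Work.FF

open Polynomial Finset Pool.Agent.Work.MP_223b32_ag_56

namespace PA

theorem num_err {l k d1 d2 d3 : ℕ} {Om : ℝ} (hl : 60 ≤ l) (hk4 : 4 ≤ k) (hkl : k ≤ l)
    (hd1 : 4 * k ≤ d1) (hd2 : d2 ≤ k) (hd3 : d3 ≤ k) (h2k : 2 * k ≤ d2 + d3 + 2)
    (hOm : (l : ℝ) ^ (d2 + d3) ≤ 8 * Om) :
    2 * (k : ℝ) * (l : ℝ) ^ (d1 - 4) * √((d2 : ℝ) * d3 * Om) ≤ (l : ℝ) ^ (d1 - k) * Om / 10 := by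
  have hl0 : (0 : ℝ) < l := by exact_mod_cast (by omega : 0 < l)
  have hl1 : (1 : ℝ) ≤ l := by exact_mod_cast (by omega : 1 ≤ l)
  have hl60 : (60 : ℝ) ≤ l := by exact_mod_cast hl
  have hkl' : (k : ℝ) ≤ l := by exact_mod_cast hkl
  have hk0 : (0 : ℝ) ≤ k := Nat.cast_nonneg k
  have hd2' : (d2 : ℝ) ≤ k := by exact_mod_cast hd2
  have hd3' : (d3 : ℝ) ≤ k := by exact_mod_cast hd3
  have hOm0 : 0 ≤ Om := by
    have : (0 : ℝ) < (l : ℝ) ^ (d2 + d3) := pow_pos hl0 _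
    linarith
  obtain ⟨m, rfl⟩ : ∃ m, k = m + 4 := ⟨k - 4, by omega⟩
  have e1 : (l : ℝ) ^ (d1 - 4) = (l : ℝ) ^ (d1 - (m + 4)) * (l : ℝ) ^ m := by
    rw [← pow_add]; congr 1; omega
  set K : ℝ := ((m + 4 : ℕ) : ℝ) with hK
  have h1 : √((d2 : ℝ) * d3 * Om) ≤ K * √Om := by
    calc √((d2 : ℝ) * d3 * Om) ≤ √(K * K * Om) := by
          apply Real.sqrt_le_sqrt
          gcongr
      _ = K * √Om := by rw [Real.sqrt_mul (mul_nonneg hk0 hk0), Real.sqrt_mul_self hk0]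
  have h2 : 20 * K ^ 2 * (l : ℝ) ^ m ≤ √Om := by
    refine Real.le_sqrt_of_sq_le ?_
    have e2 : (l : ℝ) ^ (2 * m + 6) ≤ 8 * Om := by
      refine le_trans (pow_le_pow_right₀ hl1 (by omega)) hOm
    have e3 : (20 * K ^ 2 * (l : ℝ) ^ m) ^ 2 = 400 * K ^ 4 * (l : ℝ) ^ (2 * m) := by ring
    have e4 : (l : ℝ) ^ (2 * m + 6) = (l : ℝ) ^ (2 * m) * (l : ℝ) ^ 6 := by rw [pow_add]
    have e5 : 3200 * K ^ 4 ≤ (l : ℝ) ^ 6 := by
      have e6 : K ^ 4 ≤ (l : ℝ) ^ 4 := pow_le_pow_left₀ hk0 hkl' 4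
      have e7 : (3200 : ℝ) ≤ (l : ℝ) ^ 2 := by nlinarith
      calc 3200 * K ^ 4 ≤ (l : ℝ) ^ 2 * (l : ℝ) ^ 4 := by gcongr
        _ = (l : ℝ) ^ 6 := by ring
    rw [e3]
    rw [e4] at e2
    have e8 : (0 : ℝ) ≤ (l : ℝ) ^ (2 * m) := by positivity
    nlinarith [mul_le_mul_of_nonneg_left e5 e8]
  have h3 : √Om * √Om = Om := Real.mul_self_sqrt hOm0
  have h4 : 0 ≤ √Om := Real.sqrt_nonneg _
  calc 2 * K * (l : ℝ) ^ (d1 - 4) * √((d2 : ℝ) * d3 * Om)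
      ≤ 2 * K * (l : ℝ) ^ (d1 - 4) * (K * √Om) := by gcongr
    _ = (l : ℝ) ^ (d1 - (m + 4)) * ((20 * K ^ 2 * (l : ℝ) ^ m) * √Om) / 10 := by
        rw [e1]; ring
    _ ≤ (l : ℝ) ^ (d1 - (m + 4)) * (√Om * √Om) / 10 := by gcongr
    _ = (l : ℝ) ^ (d1 - (m + 4)) * Om / 10 := by rw [h3]

theorem num_bad {l k d1 : ℕ} {Om : ℝ} (hl : 60 ≤ l) (hk4 : 4 ≤ k) (hd1 : 4 * k ≤ d1)
    (hOm : 0 ≤ Om) :
    2 * (l : ℝ) ^ (d1 / 2) * Om ≤ (l : ℝ) ^ (d1 - k) * Om / 10 := by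
  have hl0 : (0 : ℝ) < l := by exact_mod_cast (by omega : 0 < l)
  have hl1 : (1 : ℝ) ≤ l := by exact_mod_cast (by omega : 1 ≤ l)
  have hl60 : (60 : ℝ) ≤ l := by exact_mod_cast hl
  have h1 : 20 * (l : ℝ) ^ (d1 / 2) ≤ (l : ℝ) ^ (d1 - k) := by
    calc 20 * (l : ℝ) ^ (d1 / 2) ≤ (l : ℝ) * (l : ℝ) ^ (d1 / 2) := by
          gcongr; linarith
      _ = (l : ℝ) ^ (d1 / 2 + 1) := by rw [pow_succ, mul_comm]
      _ ≤ _ := pow_le_pow_right₀ hl1 (by omega)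
  nlinarith

section main

variable {ℓ : ℕ} [hℓ : Fact ℓ.Prime] {L : Type*} [Field L] [Fintype L] [Algebra (ZMod ℓ) L]

theorem monic_mp (x : L) : (minpoly (ZMod ℓ) x).Monic := minpoly.monic (IsIntegral.of_finite _ x)

theorem irr_mp (x : L) : Irreducible (minpoly (ZMod ℓ) x) :=
  minpoly.irreducible (IsIntegral.of_finite _ x)

theorem not_sq (q : ℕ) {x : L} (hx : ¬ IsSquare (x ^ 2 - 4 * (q : L))) :
    ¬ IsSquare ((AdjoinRoot.root (minpoly (ZMod ℓ) x)) ^ 2 -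
      4 * (q : AdjoinRoot (minpoly (ZMod ℓ) x))) := by
  intro h
  apply hx
  have h0 : (minpoly (ZMod ℓ) x).eval₂ (algebraMap (ZMod ℓ) L) x = 0 := minpoly.aeval (ZMod ℓ) x
  have h1 := h.map (AdjoinRoot.lift (algebraMap (ZMod ℓ) L) x h0)
  rw [map_sub, map_pow, map_mul, map_natCast, AdjoinRoot.lift_root, map_ofNat] at h1
  exact h1

open Classical in
/-- An element with a given product of polynomials is a root. -/
theorem card_roots_le (P : (ZMod ℓ)[X]) :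
    (P.aroots L).toFinset.card ≤ P.natDegree := by
  refine (Multiset.toFinset_card_le _).trans ?_
  have := card_roots' (P.map (algebraMap (ZMod ℓ) L))
  rwa [natDegree_map] at this

/-- The polynomial of a triple. -/
noncomputable def PZ (ℓ : ℕ) [Fact ℓ.Prime] {L₁ L₂ L₃ : Type*} [Field L₁] [Algebra (ZMod ℓ) L₁]
    [Field L₂] [Algebra (ZMod ℓ) L₂] [Field L₃] [Algebra (ZMod ℓ) L₃] (z : L₁ × L₂ × L₃) :
    (ZMod ℓ)[X] :=
  minpoly (ZMod ℓ) z.1 * minpoly (ZMod ℓ) z.2.1 * minpoly (ZMod ℓ) z.2.2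

theorem main_patt (hC : Stmt_COUNT3) (L₁ L₂ L₃ : Type) [Field L₁] [Fintype L₁]
    [Algebra (ZMod ℓ) L₁] [Field L₂] [Fintype L₂] [Algebra (ZMod ℓ) L₂] [Field L₃] [Fintype L₃]
    [Algebra (ZMod ℓ) L₃] (q g k : ℕ)
    (hA : Adm g k (Module.finrank (ZMod ℓ) L₁) (Module.finrank (ZMod ℓ) L₂)
      (Module.finrank (ZMod ℓ) L₃)) (hlg : 100 * g < ℓ) (hq : (q : ZMod ℓ) ≠ 0)
    (t : Fin g → ZMod ℓ) :
    (ℓ : ℝ) ^ (g - k) / (16 * (g : ℝ) ^ 3) ≤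
      ({c : Fin (g - k) → ZMod ℓ | Pattern q ℓ (Module.finrank (ZMod ℓ) L₁)
        (Module.finrank (ZMod ℓ) L₂) (Module.finrank (ZMod ℓ) L₃) (mk (glue c t))}.ncard : ℝ) := by
  classical
  obtain ⟨hsum, hd2, hd3, hne, hd2k, hd3k, h2k, h4k, -, -⟩ := hA
  set d₁ := Module.finrank (ZMod ℓ) L₁ with hd₁
  set d₂ := Module.finrank (ZMod ℓ) L₂ with hd₂
  set d₃ := Module.finrank (ZMod ℓ) L₃ with hd₃
  have hk4 : 4 ≤ k := by omega
  have hg : 22 ≤ g := by omega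
  have hkl : k < ℓ := by omega
  have hl60 : 60 ≤ ℓ := by omega
  let E := AlgebraicClosure (ZMod ℓ)
  have hcharE : CharP E ℓ := charP_of_injective_algebraMap (algebraMap (ZMod ℓ) E).injective ℓ
  have hjE : ∀ j : ℕ, 1 ≤ j → j ≤ k → (j : E) ≠ 0 := by
    intro j hj1 hj2 h
    rw [CharP.cast_eq_zero_iff E ℓ] at h
    have := Nat.le_of_dvd hj1 h
    omega
  have hcharL : CharP L₂ ℓ := charP_of_injective_algebraMap (algebraMap (ZMod ℓ) L₂).injective ℓ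
  have h2L : (2 : L₂) ≠ 0 := by
    intro h
    have h' : ((2 : ℕ) : L₂) = 0 := by exact_mod_cast h
    rw [CharP.cast_eq_zero_iff L₂ ℓ] at h'
    have := Nat.le_of_dvd (by norm_num) h'
    omega
  have hqL : (q : L₂) ≠ 0 := by
    intro h
    apply hq
    have h' : algebraMap (ZMod ℓ) L₂ (q : ZMod ℓ) = algebraMap (ZMod ℓ) L₂ 0 := by
      rw [map_natCast, map_zero, h]
    exact (algebraMap (ZMod ℓ) L₂).injective h'
  have ha : (4 * (q : L₂)) ≠ 0 := by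
    have h4 : (4 : L₂) = 2 * 2 := by norm_num
    rw [h4]
    exact mul_ne_zero (mul_ne_zero h2L h2L) hqL
  set a : L₂ := 4 * (q : L₂) with ha_def
  set Ω₂ := Om2 ℓ a with hΩ₂
  set Ω₃ := Om3 ℓ L₃ with hΩ₃
  have b2 : ℓ ^ d₂ ≤ 4 * Ω₂.card := Om2_bound hd2 (by omega) h2L ha
  have b3 : ℓ ^ d₃ ≤ 2 * Ω₃.card := Om3_bound hd3 (by omega)
  set Om : ℝ := (Ω₂.card : ℝ) * (Ω₃.card : ℝ) with hOm
  have hOm0 : 0 ≤ Om := by positivity
  have bOm : (ℓ : ℝ) ^ (d₂ + d₃) ≤ 8 * Om := by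
    have h := Nat.mul_le_mul b2 b3
    have h' : ((ℓ ^ d₂ * ℓ ^ d₃ : ℕ) : ℝ) ≤ ((4 * Ω₂.card * (2 * Ω₃.card) : ℕ) : ℝ) := by
      exact_mod_cast h
    push_cast at h'
    rw [pow_add]
    linarith
  -- the reference polynomial
  set Q : (ZMod ℓ)[X] := mk (glue (0 : Fin (g - k) → ZMod ℓ) t) with hQ
  have hQm : Q.Monic := mk_monic _
  have hQd : Q.natDegree = g := mk_natDegree _
  have hex : ∀ j : Fin k, ∃ c : ZMod ℓ, algebraMap (ZMod ℓ) E c = ps (Q.aroots E) ((j : ℕ) + 1) :=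
    fun j => exists_ps hQm _ (by omega)
  choose c hc using hex
  have hcount := hC ℓ L₁ L₂ L₃ k (by omega) hkl h4k hd2k hd3k Ω₂ Ω₃ c
  set T : Finset (L₁ × L₂ × L₃) := univ.filter fun z => z.2.1 ∈ Ω₂ ∧ z.2.2 ∈ Ω₃ ∧ ∀ j : Fin k,
        Algebra.trace (ZMod ℓ) L₁ (z.1 ^ ((j : ℕ) + 1)) +
        Algebra.trace (ZMod ℓ) L₂ (z.2.1 ^ ((j : ℕ) + 1)) +
        Algebra.trace (ZMod ℓ) L₃ (z.2.2 ^ ((j : ℕ) + 1)) = c j with hT
  have hTcard : ({z : L₁ × L₂ × L₃ | z.2.1 ∈ Ω₂ ∧ z.2.2 ∈ Ω₃ ∧ ∀ j : Fin k,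
        Algebra.trace (ZMod ℓ) L₁ (z.1 ^ ((j : ℕ) + 1)) +
        Algebra.trace (ZMod ℓ) L₂ (z.2.1 ^ ((j : ℕ) + 1)) +
        Algebra.trace (ZMod ℓ) L₃ (z.2.2 ^ ((j : ℕ) + 1)) = c j}.ncard : ℝ) = (T.card : ℝ) := by
    rw [← Set.ncard_coe_finset]
    congr 2
    ext z
    simp [hT]
  rw [hTcard] at hcount
  set G : Finset (L₁ × L₂ × L₃) := T.filter fun z => (minpoly (ZMod ℓ) z.1).natDegree = d₁ with hG
  have hTG : (T.card : ℝ) ≤ G.card + 2 * (ℓ : ℝ) ^ (d₁ / 2) * Om := by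
    have h1 : T.card ≤ G.card + (nonGen ℓ L₁ ×ˢ (Ω₂ ×ˢ Ω₃)).card := by
      refine (card_le_card fun z hz => ?_).trans (card_union_le _ _)
      obtain ⟨-, hz2, hz3, -⟩ := mem_filter.1 hz
      by_cases h : (minpoly (ZMod ℓ) z.1).natDegree = d₁
      · exact mem_union_left _ (mem_filter.2 ⟨hz, h⟩)
      · refine mem_union_right _ (mem_product.2 ⟨mem_filter.2 ⟨mem_univ _, h⟩, ?_⟩)
        exact mem_product.2 ⟨hz2, hz3⟩
    rw [card_product, card_product] at h1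
    have h2 := card_nonGen_le (ℓ := ℓ) (L := L₁)
    have h3 : (T.card : ℝ) ≤ G.card + (nonGen ℓ L₁).card * (Ω₂.card * Ω₃.card) := by
      exact_mod_cast h1
    have h4 : ((nonGen ℓ L₁).card : ℝ) ≤ 2 * (ℓ : ℝ) ^ (d₁ / 2) := by exact_mod_cast h2
    calc (T.card : ℝ) ≤ G.card + (nonGen ℓ L₁).card * (Ω₂.card * Ω₃.card) := h3
      _ ≤ G.card + 2 * (ℓ : ℝ) ^ (d₁ / 2) * Om := by rw [hOm]; gcongr
  have e1 := num_err (l := ℓ) (k := k) (d1 := d₁) (d2 := d₂) (d3 := d₃) (Om := Om) hl60 hk4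
    hkl.le h4k hd2k hd3k h2k bOm
  have e2 := num_bad (l := ℓ) (k := k) (d1 := d₁) (Om := Om) hl60 hk4 h4k hOm0
  have hGbig : (ℓ : ℝ) ^ (g - k) / 10 ≤ G.card := by
    have h1 : (ℓ : ℝ) ^ (g - k) = (ℓ : ℝ) ^ (d₁ - k) * (ℓ : ℝ) ^ (d₂ + d₃) := by
      rw [← pow_add]; congr 1; omega
    have h2 : (0 : ℝ) ≤ (ℓ : ℝ) ^ (d₁ - k) := by positivity
    have h3 := mul_le_mul_of_nonneg_left bOm h2
    rw [← hOm] at hcount
    rw [h1]
    nlinarith [hcount, hTG, e1, e2, h3]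
  -- good triples
  have hgood : ∀ z ∈ G, (PZ ℓ z).Monic ∧ (PZ ℓ z).natDegree = g ∧
      (∀ i, i ≤ g → g - k ≤ i → (PZ ℓ z).coeff i = Q.coeff i) := by
    intro z hz
    obtain ⟨hzT, hz1⟩ := mem_filter.1 hz
    obtain ⟨-, hz2, hz3, hz4⟩ := mem_filter.1 hzT
    have hz2' := (mem_filter.1 hz2).2.1
    have hz3' := (mem_filter.1 hz3).2
    have m1 := monic_mp (ℓ := ℓ) z.1
    have m2 := monic_mp (ℓ := ℓ) z.2.1
    have m3 := monic_mp (ℓ := ℓ) z.2.2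
    have mP : (PZ ℓ z).Monic := (m1.mul m2).mul m3
    have hdP : (PZ ℓ z).natDegree = g := by
      rw [PZ, (m1.mul m2).natDegree_mul m3, m1.natDegree_mul m2, hz1, hz2', hz3', ← hd₂, ← hd₃,
        hsum]
    refine ⟨mP, hdP, coeff_eq_of_ps_eq (E := E) mP hQm hdP hQd hjE fun j hj1 hj2 => ?_⟩
    obtain ⟨i, rfl⟩ : ∃ i : Fin k, j = (i : ℕ) + 1 := ⟨⟨j - 1, by omega⟩, by simp; omega⟩
    have hmul : (PZ ℓ z).aroots E = (minpoly (ZMod ℓ) z.1).aroots E +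
        (minpoly (ZMod ℓ) z.2.1).aroots E + (minpoly (ZMod ℓ) z.2.2).aroots E := by
      rw [PZ, aroots_mul (mul_ne_zero (mul_ne_zero m1.ne_zero m2.ne_zero) m3.ne_zero),
        aroots_mul (mul_ne_zero m1.ne_zero m2.ne_zero)]
    rw [hmul, ps_add, ps_add, ← trace_pow_eq_ps hz1, ← trace_pow_eq_ps hz2', ← trace_pow_eq_ps hz3',
      ← map_add, ← map_add, hz4 i, hc]
  let Φ : L₁ × L₂ × L₃ → (Fin (g - k) → ZMod ℓ) := fun z i => (PZ ℓ z).coeff i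
  have hmk : ∀ z ∈ G, mk (glue (Φ z) t) = PZ ℓ z := by
    intro z hz
    obtain ⟨mP, hdP, hco⟩ := hgood z hz
    rw [← mk_surj mP hdP]
    congr 1
    funext i
    rw [glue]
    split_ifs with hi
    · rfl
    · rw [hco i i.2.le (by omega), hQ, mk_coeff, glue, dif_neg hi]
  have hfib : ∀ c' ∈ G.image Φ, (G.filter fun z => Φ z = c').card ≤ g ^ 3 := by
    intro c' hc'
    set P := mk (glue c' t) with hP
    have mP : P.Monic := mk_monic _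
    have hdP : P.natDegree = g := mk_natDegree _
    calc (G.filter fun z => Φ z = c').card
        ≤ ((P.aroots L₁).toFinset ×ˢ ((P.aroots L₂).toFinset ×ˢ (P.aroots L₃).toFinset)).card := by
          refine card_le_card fun z hz => ?_
          obtain ⟨hzG, hzc⟩ := mem_filter.1 hz
          have hPz : P = PZ ℓ z := by rw [hP, ← hzc, hmk z hzG]
          refine mem_product.2 ⟨?_, mem_product.2 ⟨?_, ?_⟩⟩
          · rw [Multiset.mem_toFinset, mem_aroots]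
            refine ⟨mP.ne_zero, ?_⟩
            rw [hPz, PZ, map_mul, map_mul, minpoly.aeval]; ring
          · rw [Multiset.mem_toFinset, mem_aroots]
            refine ⟨mP.ne_zero, ?_⟩
            rw [hPz, PZ, map_mul, map_mul, minpoly.aeval]; ring
          · rw [Multiset.mem_toFinset, mem_aroots]
            refine ⟨mP.ne_zero, ?_⟩
            rw [hPz, PZ, map_mul, map_mul, minpoly.aeval]; ring
      _ ≤ g * (g * g) := by
          rw [card_product, card_product]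
          have r1 := card_roots_le (L := L₁) P
          have r2 := card_roots_le (L := L₂) P
          have r3 := card_roots_le (L := L₃) P
          rw [hdP] at r1 r2 r3
          exact Nat.mul_le_mul r1 (Nat.mul_le_mul r2 r3)
      _ = g ^ 3 := by ring
  have hcardG : G.card ≤ g ^ 3 * (G.image Φ).card := card_le_mul_card_image _ _ hfib
  have himg : (G.image Φ).card ≤ ({c : Fin (g - k) → ZMod ℓ | Pattern q ℓ d₁ d₂ d₃
      (mk (glue c t))}.ncard) := by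
    rw [← Set.ncard_coe_finset]
    refine Set.ncard_le_ncard ?_ (Set.toFinite _)
    intro c' hc'
    obtain ⟨z, hz, rfl⟩ := mem_image.1 (mem_coe.1 hc')
    obtain ⟨hzT, hz1⟩ := mem_filter.1 hz
    obtain ⟨-, hz2, hz3, hz4⟩ := mem_filter.1 hzT
    have hz2' := (mem_filter.1 hz2).2
    have hz3' := (mem_filter.1 hz3).2
    show Pattern q ℓ d₁ d₂ d₃ (mk (glue (Φ z) t))
    rw [hmk z hz]
    exact ⟨_, _, _, rfl, monic_mp _, monic_mp _, monic_mp _, irr_mp _, irr_mp _, irr_mp _, hz1,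
      hz2'.1, hz3', not_sq q hz2'.2⟩
  have hfin : (G.card : ℝ) ≤ (g : ℝ) ^ 3 * ({c : Fin (g - k) → ZMod ℓ | Pattern q ℓ d₁ d₂ d₃
      (mk (glue c t))}.ncard : ℝ) := by
    have h1 : (G.card : ℝ) ≤ (g : ℝ) ^ 3 * ((G.image Φ).card : ℝ) := by exact_mod_cast hcardG
    have h2 : ((G.image Φ).card : ℝ) ≤ ({c : Fin (g - k) → ZMod ℓ | Pattern q ℓ d₁ d₂ d₃
      (mk (glue c t))}.ncard : ℝ) := by exact_mod_cast himg
    calc (G.card : ℝ) ≤ (g : ℝ) ^ 3 * ((G.image Φ).card : ℝ) := h1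
      _ ≤ _ := by gcongr
  have hg0 : (0 : ℝ) < (g : ℝ) ^ 3 := by
    have : (0 : ℝ) < g := by exact_mod_cast (by omega : 0 < g)
    positivity
  rw [div_le_iff₀ (by positivity)]
  have hp : (0 : ℝ) ≤ (ℓ : ℝ) ^ (g - k) := by positivity
  nlinarith [hGbig, hfin]

end main

end PA

theorem stmt_PATT (hC : Stmt_COUNT3) : Stmt_PATT := by
  intro ℓ hℓ q g k d₁ d₂ d₃ hA hlg hq t
  have hA' := hA
  obtain ⟨hsum, hd2, hd3, hne, hd2k, hd3k, h2k, h4k, -, -⟩ := hA'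
  let _ : Fintype (GaloisField ℓ d₁) := Fintype.ofFinite _
  let _ : Fintype (GaloisField ℓ d₂) := Fintype.ofFinite _
  let _ : Fintype (GaloisField ℓ d₃) := Fintype.ofFinite _
  have e1 : Module.finrank (ZMod ℓ) (GaloisField ℓ d₁) = d₁ := GaloisField.finrank ℓ (by omega)
  have e2 : Module.finrank (ZMod ℓ) (GaloisField ℓ d₂) = d₂ := GaloisField.finrank ℓ (by omega)
  have e3 : Module.finrank (ZMod ℓ) (GaloisField ℓ d₃) = d₃ := GaloisField.finrank ℓ (by omega)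
  have h := PA.main_patt hC (GaloisField ℓ d₁) (GaloisField ℓ d₂) (GaloisField ℓ d₃) q g k
    (by rw [e1, e2, e3]; exact hA) hlg hq t
  rw [e1, e2, e3] at h
  exact h

end Pool.Agent.Work.FF
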