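import Pool.Agent.Work.MP_223b32_FF.Interface

/-!
Block PRIMES.
-/

namespace Pool.Agent.Work.FF

open Finset

theorem stmt_PRIMES : Stmt_PRIMES := by
  have h1 : ∀ᶠ x : ℝ in Filter.atTop, Real.log (x + 1) ≤ x / 10 := by
    have h2 := Real.isLittleO_log_id_atTop.bound (show (0 : ℝ) < 1 / 20 by norm_num)
    have h3 := (Filter.tendsto_atTop_add_const_right Filter.atTop (1 : ℝ) Filter.tendsto_id).eventually h2
    filter_upwards [h3, Filter.eventually_ge_atTop 1] with x hx hx1
    simp only [id] at hx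
    rw [Real.norm_eq_abs, Real.norm_eq_abs, abs_of_pos (by linarith : (0 : ℝ) < x + 1)] at hx
    have := le_abs_self (Real.log (x + 1))
    linarith
  have h2 : ∀ᶠ x : ℝ in Filter.atTop, (√x + 1) * (4 * Real.log x) ≤ x / 10 := by
    have h3 := (isLittleO_log_rpow_atTop (r := 1 / 2) (by norm_num)).bound
      (show (0 : ℝ) < 1 / 80 by norm_num)
    filter_upwards [h3, Filter.eventually_ge_atTop 1] with x hx hx1
    rw [← Real.sqrt_eq_rpow, Real.norm_eq_abs, Real.norm_eq_abs, abs_of_nonneg (Real.sqrt_nonneg x)]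
      at hx
    have h4 := (le_abs_self (Real.log x)).trans hx
    have h5 : 1 ≤ √x := Real.one_le_sqrt.2 hx1
    have h6 : √x * √x = x := Real.mul_self_sqrt (by linarith)
    nlinarith
  have h3 := (tendsto_natCast_atTop_atTop (R := ℝ)).eventually (h1.and (h2.and
    (Filter.eventually_ge_atTop 3)))
  obtain ⟨Z₀, hZ₀⟩ := Filter.eventually_atTop.1 h3
  refine ⟨Z₀, fun Z hZ A p hA => ?_⟩
  obtain ⟨e1, e2, e3⟩ := hZ₀ Z hZ
  have hlog : 0 < Real.log Z := Real.log_pos (by linarith)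
  have hpsi := (Chebyshev.psi_ge Z).trans (Chebyshev.psi_le_primeCounting_mul_log Z)
  have hlog2 : (0.69 : ℝ) < Real.log 2 := by
    have := Real.log_two_gt_d9
    linarith
  have hA' : (A : ℝ) ≤ √(Z : ℝ) := by
    refine Real.le_sqrt_of_sq_le ?_
    exact_mod_cast hA
  have hpc : (Nat.primeCounting Z : ℝ) ≤
      (((range (Z + 1)).filter fun ℓ => ℓ.Prime ∧ A ≤ ℓ ∧ ℓ ≠ p).card : ℝ) + (A + 1) := by
    have h4 : Nat.primeCounting Z = ((range (Z + 1)).filter Nat.Prime).card := by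
      rw [Nat.primeCounting, Nat.primeCounting', Nat.count_eq_card_filter_range]
    have h5 : ((range (Z + 1)).filter Nat.Prime) ⊆
        ((range (Z + 1)).filter fun ℓ => ℓ.Prime ∧ A ≤ ℓ ∧ ℓ ≠ p) ∪ (range A ∪ {p}) := by
      intro ℓ hℓ
      obtain ⟨h6, h7⟩ := mem_filter.1 hℓ
      simp only [mem_union, mem_filter, mem_singleton, mem_range]
      rw [mem_range] at h6
      by_cases h8 : ℓ = p
      · exact Or.inr (Or.inr h8)
      · rcases Nat.lt_or_ge ℓ A with h9 | h9
        · exact Or.inr (Or.inl h9)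
        · exact Or.inl ⟨h6, h7, h9, h8⟩
    have h6 := (card_le_card h5).trans (card_union_le _ _)
    have h7 : (range A ∪ {p} : Finset ℕ).card ≤ A + 1 := by
      refine (card_union_le _ _).trans ?_
      rw [card_range, card_singleton]
    rw [← h4] at h6
    exact_mod_cast h6.trans (Nat.add_le_add_left h7 _)
  rw [div_le_iff₀ (by positivity)]
  set π := (Nat.primeCounting Z : ℝ)
  set c := (((range (Z + 1)).filter fun ℓ => ℓ.Prime ∧ A ≤ ℓ ∧ ℓ ≠ p).card : ℝ)
  have h8 : π * (4 * Real.log Z) ≤ (c + (A + 1)) * (4 * Real.log Z) := by gcongr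
  have h9 : (Z : ℝ) * 0.69 - Z / 10 ≤ π * Real.log Z := by
    have : (Z : ℝ) * 0.69 ≤ Z * Real.log 2 := by gcongr
    linarith
  have h10 : ((A : ℝ) + 1) * (4 * Real.log Z) ≤ Z / 10 := by
    refine le_trans ?_ e2
    gcongr
  nlinarith

end Pool.Agent.Work.FF
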