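import Pool.Agent.Work.MP_223b32_FF.Interface

/-!
Block RED: few reducible real Weil polynomials.
-/

namespace Pool.Agent.Work.FF.RED_

open Polynomial Finset Pool.Agent.Work.MP_223b32_ag_56

theorem card_W (hU : Stmt_UPPER) (hC : Stmt_CUBE) (q a : ℕ) (hq : 2 ≤ q) (ha : 1 ≤ a) :
    (((realWeil_finite (g := a) q).toFinset.card : ℕ) : ℝ) ≤
      200 ^ a * √(q : ℝ) ^ (a * (a + 1) / 2) / √(a.factorial : ℝ) := by
  refine hU q a hq ha _ fun P hP => ?_
  rw [Set.Finite.mem_toFinset] at hP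
  refine ⟨hP.1, hP.2.1, ?_⟩
  refine hC q a 0 0 P P hq ha (Nat.zero_le _) hP hP.1 hP.2.1 (fun _ _ => rfl) (fun i => by simp) ?_
  simp

theorem prod_ge (a b : ℕ) (ha : 1 ≤ a) (hb : 1 ≤ b) : a + b ≤ a * b + 1 := by
  obtain ⟨a', rfl⟩ := Nat.exists_eq_add_of_le ha
  obtain ⟨b', rfl⟩ := Nat.exists_eq_add_of_le hb
  nlinarith [Nat.zero_le (a' * b')]

theorem expo_ineq (g a : ℕ) (ha1 : 1 ≤ a) (ha2 : a < g) :
    a * (a + 1) / 2 + (g - a) * (g - a + 1) / 2 + (g - 1) ≤ g * (g + 1) / 2 := by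
  obtain ⟨b, rfl⟩ : ∃ b, g = a + b := ⟨g - a, by omega⟩
  have hb : 1 ≤ b := by omega
  rw [Nat.add_sub_cancel_left]
  have f1 : 2 * (a * (a + 1) / 2) = a * (a + 1) :=
    Nat.mul_div_cancel' (Nat.even_mul_succ_self a).two_dvd
  have f2 : 2 * (b * (b + 1) / 2) = b * (b + 1) :=
    Nat.mul_div_cancel' (Nat.even_mul_succ_self b).two_dvd
  have f3 : 2 * ((a + b) * (a + b + 1) / 2) = (a + b) * (a + b + 1) :=
    Nat.mul_div_cancel' (Nat.even_mul_succ_self (a + b)).two_dvd
  have f4 := prod_ge a b ha1 hb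
  have f5 : (a + b) * (a + b + 1) = a * (a + 1) + b * (b + 1) + 2 * (a * b) := by ring
  omega

theorem fac_ineq (g a : ℕ) (ha : a ≤ g) :
    √(g.factorial : ℝ) ≤ √2 ^ g * (√(a.factorial : ℝ) * √((g - a).factorial : ℝ)) := by
  rw [Real.sqrt_le_iff]
  refine ⟨by positivity, ?_⟩
  have h1 : (√2 ^ g * (√(a.factorial : ℝ) * √((g - a).factorial : ℝ))) ^ 2 =
      2 ^ g * ((a.factorial : ℝ) * ((g - a).factorial : ℝ)) := by
    rw [mul_pow, mul_pow, Real.sq_sqrt (by positivity), Real.sq_sqrt (by positivity), ← pow_mul,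
      mul_comm g 2, pow_mul, Real.sq_sqrt (by norm_num)]
  rw [h1]
  have h2 := Nat.choose_mul_factorial_mul_factorial ha
  have h3 : g.choose a ≤ 2 ^ g := by
    rw [← Nat.sum_range_choose g]
    exact single_le_sum (f := fun i => g.choose i) (fun _ _ => Nat.zero_le _)
      (mem_range.2 (by omega))
  have h4 : g.factorial ≤ 2 ^ g * (a.factorial * (g - a).factorial) := by
    rw [← h2, mul_assoc]
    exact Nat.mul_le_mul_right _ h3
  exact_mod_cast h4

end RED_

open Polynomial Finset Pool.Agent.Work.MP_223b32_ag_56 RED_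

theorem stmt_RED (hU : Stmt_UPPER) (hC : Stmt_CUBE) : Stmt_RED := by
  classical
  intro q g hq hg
  have hq0 : (0 : ℝ) < q := by exact_mod_cast (by omega : 0 < q)
  set r : ℝ := √(q : ℝ) with hr
  have hr0 : 0 < r := Real.sqrt_pos.2 hq0
  have hr1 : 1 ≤ r := by
    rw [hr]
    apply Real.one_le_sqrt.2
    exact_mod_cast (by omega : 1 ≤ q)
  let W : ∀ a : ℕ, Finset ℤ[X] := fun a => (realWeil_finite (g := a) q).toFinset
  have hsub : ({h ∈ realWeil q g | ¬ Irreducible (h.map (Int.castRingHom ℚ))} : Set ℤ[X]) ⊆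
      (((Ico 1 g).biUnion fun a => (W a ×ˢ W (g - a)).image fun p => p.1 * p.2 :
        Finset ℤ[X]) : Set ℤ[X]) := by
    rintro h ⟨⟨hm, hd, hroots⟩, hirr⟩
    have h1 : ¬ Irreducible h := by
      intro h0
      exact hirr ((hm.irreducible_iff_irreducible_map_fraction_map (K := ℚ)).1 h0)
    have hne1 : h ≠ 1 := by
      rintro rfl
      rw [natDegree_one] at hd
      omega
    rw [hm.irreducible_iff_natDegree, not_and] at h1
    have h1' := h1 hne1
    push Not at h1'
    obtain ⟨u, v, hu, hv, huv, hu0, hv0⟩ := h1'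
    have hdeg : u.natDegree + v.natDegree = g := by
      rw [← hd, ← huv, hu.natDegree_mul hv]
    rw [mem_coe, mem_biUnion]
    refine ⟨u.natDegree, mem_Ico.2 ⟨by omega, by omega⟩, mem_image.2 ⟨(u, v), ?_, huv⟩⟩
    rw [mem_product]
    simp only [W, Set.Finite.mem_toFinset]
    refine ⟨⟨hu, rfl, fun z hz => hroots z ?_⟩, ⟨hv, by omega, fun z hz => hroots z ?_⟩⟩
    · rw [← huv, map_mul, hz, zero_mul]
    · rw [← huv, map_mul, hz, mul_zero]
  have h1 : (({h ∈ realWeil q g | ¬ Irreducible (h.map (Int.castRingHom ℚ))} : Set ℤ[X]).ncard : ℝ) ≤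
      ∑ a ∈ Ico 1 g, ((W a).card : ℝ) * (W (g - a)).card := by
    have h2 := Set.ncard_le_ncard hsub (finite_toSet _)
    rw [Set.ncard_coe_finset] at h2
    have h3 : ((Ico 1 g).biUnion fun a => (W a ×ˢ W (g - a)).image fun p => p.1 * p.2).card ≤
        ∑ a ∈ Ico 1 g, (W a).card * (W (g - a)).card := by
      refine card_biUnion_le.trans (sum_le_sum fun a _ => ?_)
      refine card_image_le.trans ?_
      rw [card_product]
    exact_mod_cast h2.trans h3
  set Bd : ℝ := 300 ^ g * r ^ (g * (g + 1) / 2) / (r ^ (g - 1) * √(g.factorial : ℝ)) with hBd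
  have hBd0 : 0 ≤ Bd := by positivity
  have h2 : ∀ a ∈ Ico 1 g, ((W a).card : ℝ) * (W (g - a)).card ≤ Bd := by
    intro a ha
    obtain ⟨ha1, ha2⟩ := mem_Ico.1 ha
    have e1 := card_W hU hC q a hq ha1
    have e2 := card_W hU hC q (g - a) hq (by omega)
    have hexp := expo_ineq g a ha1 ha2
    have hfac := fac_ineq g a ha2.le
    have hs1 : 0 < √(a.factorial : ℝ) := Real.sqrt_pos.2 (by positivity)
    have hs2 : 0 < √((g - a).factorial : ℝ) := Real.sqrt_pos.2 (by positivity)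
    have hs3 : 0 < √(g.factorial : ℝ) := Real.sqrt_pos.2 (by positivity)
    have h200 : (200 : ℝ) ^ a * 200 ^ (g - a) = 200 ^ g := by
      rw [← pow_add, Nat.add_sub_cancel' ha2.le]
    have h300 : (200 : ℝ) ^ g * √2 ^ g ≤ 300 ^ g := by
      rw [← mul_pow]
      have : √(2 : ℝ) ≤ 3 / 2 := by
        rw [Real.sqrt_le_left (by norm_num)]
        norm_num
      gcongr
      linarith
    calc ((W a).card : ℝ) * (W (g - a)).card
        ≤ (200 ^ a * r ^ (a * (a + 1) / 2) / √(a.factorial : ℝ)) *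
          (200 ^ (g - a) * r ^ ((g - a) * (g - a + 1) / 2) / √((g - a).factorial : ℝ)) := by
          gcongr
      _ = 200 ^ g * r ^ (a * (a + 1) / 2 + (g - a) * (g - a + 1) / 2) /
          (√(a.factorial : ℝ) * √((g - a).factorial : ℝ)) := by
          rw [← h200, pow_add]
          field_simp
      _ ≤ Bd := by
          rw [hBd, div_le_div_iff₀ (by positivity) (by positivity)]
          calc 200 ^ g * r ^ (a * (a + 1) / 2 + (g - a) * (g - a + 1) / 2) *
                (r ^ (g - 1) * √(g.factorial : ℝ))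
              = 200 ^ g * r ^ (a * (a + 1) / 2 + (g - a) * (g - a + 1) / 2 + (g - 1)) *
                √(g.factorial : ℝ) := by rw [pow_add r _ (g - 1)]; ring
            _ ≤ 200 ^ g * r ^ (g * (g + 1) / 2) *
                (√2 ^ g * (√(a.factorial : ℝ) * √((g - a).factorial : ℝ))) := by
                gcongr
            _ = (200 ^ g * √2 ^ g) * r ^ (g * (g + 1) / 2) *
                (√(a.factorial : ℝ) * √((g - a).factorial : ℝ)) := by ring
            _ ≤ 300 ^ g * r ^ (g * (g + 1) / 2) *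
                (√(a.factorial : ℝ) * √((g - a).factorial : ℝ)) := by gcongr
  calc (({h ∈ realWeil q g | ¬ Irreducible (h.map (Int.castRingHom ℚ))} : Set ℤ[X]).ncard : ℝ)
      ≤ ∑ a ∈ Ico 1 g, ((W a).card : ℝ) * (W (g - a)).card := h1
    _ ≤ ∑ a ∈ Ico 1 g, Bd := sum_le_sum h2
    _ = ((Ico 1 g).card : ℝ) * Bd := by rw [sum_const, nsmul_eq_mul]
    _ ≤ g * Bd := by
        gcongr
        rw [Nat.card_Ico]
        omega
    _ = g * 300 ^ g * r ^ (g * (g + 1) / 2) / (r ^ (g - 1) * √(g.factorial : ℝ)) := by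
        rw [hBd]; ring

end Pool.Agent.Work.FF
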