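import Pool.Agent.Work.MP_223b32_FF.Interface

/-!
Block SEP of the project fixed finite field, dimension to infinity (MP_223b32_ag):
the sign characters separate the roots (blocks of imprimitivity).
-/

namespace Pool.Agent.Work.FF

open Polynomial Finset Pool.Agent.Work.MP_223b32_ag_56

namespace SEPAux

/-- The combinatorial heart: an invariant equivalence relation on a transitive set which is the
union of three cycles of one element is trivial. -/
theorem blocks {G Y : Type*} [Group G] [MulAction G Y] [DecidableEq Y] (R C₁ C₂ C₃ : Finset Y)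
    (Rel : Y → Y → Prop) (hrefl : ∀ x, Rel x x) (hsymm : ∀ x y, Rel x y → Rel y x)
    (htrans : ∀ x y z, Rel x y → Rel y z → Rel x z)
    (hinv : ∀ (g : G) (x y : Y), Rel x y → Rel (g • x) (g • y))
    (hstab : ∀ (g : G), ∀ x ∈ R, g • x ∈ R)
    (htra : ∀ x ∈ R, ∀ y ∈ R, ∃ g : G, g • x = y)
    (hR : ∀ x, x ∈ R ↔ x ∈ C₁ ∨ x ∈ C₂ ∨ x ∈ C₃)
    (h12 : Disjoint C₁ C₂) (h13 : Disjoint C₁ C₃) (h23 : Disjoint C₂ C₃)
    (σ : G)
    (c1 : ∀ x ∈ C₁, ∀ y ∈ C₁, ∃ n : ℕ, (σ ^ n) • x = y)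
    (c3 : ∀ x ∈ C₃, ∀ y ∈ C₃, ∃ n : ℕ, (σ ^ n) • x = y)
    (s1 : ∀ x ∈ C₁, σ • x ∈ C₁) (s3 : ∀ x ∈ C₃, σ • x ∈ C₃)
    (sat2 : ∀ x ∈ C₂, ∀ y ∈ R, Rel x y → y ∈ C₂)
    (hcop : Nat.Coprime C₁.card C₃.card) (h2pos : 0 < C₂.card) (h2lt : C₂.card < C₁.card + C₃.card)
    (h1pos : 0 < C₁.card) (h3pos : 0 < C₃.card) :
    ∀ x ∈ R, ∀ y ∈ R, Rel x y → x = y := by
  classical
  set f : Y → Finset Y := fun x => R.filter (fun y => Rel x y) with hf
  have hC1R : C₁ ⊆ R := fun x hx => (hR x).2 (Or.inl hx)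
  have hC2R : C₂ ⊆ R := fun x hx => (hR x).2 (Or.inr (Or.inl hx))
  have hC3R : C₃ ⊆ R := fun x hx => (hR x).2 (Or.inr (Or.inr hx))
  have mem_f : ∀ x y, y ∈ f x ↔ y ∈ R ∧ Rel x y := fun x y => by simp [hf]
  -- f x = f y iff related
  have f_eq : ∀ x ∈ R, ∀ y ∈ R, (f x = f y ↔ Rel x y) := by
    intro x hx y hy
    constructor
    · intro h
      have : y ∈ f x := by rw [h, mem_f]; exact ⟨hy, hrefl y⟩
      exact ((mem_f x y).1 this).2
    · intro h
      ext z
      rw [mem_f, mem_f]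
      constructor
      · rintro ⟨h1, h2⟩; exact ⟨h1, htrans _ _ _ (hsymm _ _ h) h2⟩
      · rintro ⟨h1, h2⟩; exact ⟨h1, htrans _ _ _ h h2⟩
  -- stability under inverse
  have hinv' : ∀ (g : G) (x y : Y), Rel (g • x) (g • y) → Rel x y := by
    intro g x y h
    have := hinv g⁻¹ _ _ h
    simpa using this
  have f_smul : ∀ (g : G) (x : Y), f (g • x) = (f x).image (fun y => g • y) := by
    intro g x
    ext z
    rw [mem_f, mem_image]
    constructor
    · rintro ⟨h1, h2⟩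
      refine ⟨g⁻¹ • z, (mem_f _ _).2 ⟨hstab _ _ h1, ?_⟩, by simp⟩
      apply hinv' g
      simpa using h2
    · rintro ⟨w, hw, rfl⟩
      rw [mem_f] at hw
      exact ⟨hstab _ _ hw.1, hinv _ _ _ hw.2⟩
  have card_smul : ∀ (g : G) (s : Finset Y), (s.image (fun y => g • y)).card = s.card := by
    intro g s
    exact card_image_of_injective _ (MulAction.injective g)
  -- all classes have the same size
  have card_f : ∀ x ∈ R, ∀ y ∈ R, (f x).card = (f y).card := by
    intro x hx y hy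
    obtain ⟨g, rfl⟩ := htra x hx y hy
    rw [f_smul, card_smul]
  -- size of saturated sets
  have sat : ∀ C ⊆ R, (∀ x ∈ C, ∀ y ∈ R, Rel x y → y ∈ C) → ∀ x₀ ∈ R,
      C.card = (C.image f).card * (f x₀).card := by
    intro C hC hs x₀ hx₀
    rw [card_eq_sum_card_image f C, ← smul_eq_mul, ← sum_const]
    apply sum_congr rfl
    intro B hB
    obtain ⟨x, hx, rfl⟩ := mem_image.1 hB
    rw [← card_f x (hC hx) x₀ hx₀]
    congr 1
    ext y
    rw [mem_filter, mem_f]
    constructor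
    · rintro ⟨h1, h2⟩
      exact ⟨hC h1, (f_eq x (hC hx) y (hC h1)).1 h2.symm⟩
    · rintro ⟨h1, h2⟩
      exact ⟨hs x hx y h1 h2, ((f_eq x (hC hx) y h1).2 h2).symm⟩
  -- σ-powers
  have sp1 : ∀ n : ℕ, ∀ x ∈ C₁, (σ ^ n) • x ∈ C₁ := by
    intro n
    induction n with
    | zero => intro x hx; simpa using hx
    | succ n ih => intro x hx; rw [pow_succ', mul_smul]; exact s1 _ (ih x hx)
  have sp3 : ∀ n : ℕ, ∀ x ∈ C₃, (σ ^ n) • x ∈ C₃ := by
    intro n
    induction n with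
    | zero => intro x hx; simpa using hx
    | succ n ih => intro x hx; rw [pow_succ', mul_smul]; exact s3 _ (ih x hx)
  -- preimages stay in the cycle
  have inv1 : ∀ n : ℕ, ∀ x, (σ ^ n) • x ∈ C₁ → x ∈ C₁ := by
    intro n x hx
    have himg : C₁.image (fun y => (σ ^ n) • y) = C₁ := by
      apply eq_of_subset_of_card_le
      · intro z hz
        obtain ⟨w, hw, rfl⟩ := mem_image.1 hz
        exact sp1 n w hw
      · rw [card_smul]
    rw [← himg] at hx
    obtain ⟨w, hw, h⟩ := mem_image.1 hx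
    rwa [← MulAction.injective (σ ^ n) h]
  have inv3 : ∀ n : ℕ, ∀ x, (σ ^ n) • x ∈ C₃ → x ∈ C₃ := by
    intro n x hx
    have himg : C₃.image (fun y => (σ ^ n) • y) = C₃ := by
      apply eq_of_subset_of_card_le
      · intro z hz
        obtain ⟨w, hw, rfl⟩ := mem_image.1 hz
        exact sp3 n w hw
      · rw [card_smul]
    rw [← himg] at hx
    obtain ⟨w, hw, h⟩ := mem_image.1 hx
    rwa [← MulAction.injective (σ ^ n) h]
  obtain ⟨x1, hx1⟩ := card_pos.1 h1pos
  obtain ⟨x3, hx3⟩ := card_pos.1 h3pos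
  -- general counting in one cycle
  have cyc1 : ∃ m : ℕ, C₁.card = (C₁.image f).card * m := by
    refine ⟨(C₁.filter (fun y => f y = f x1)).card, ?_⟩
    rw [card_eq_sum_card_image f C₁, ← smul_eq_mul, ← sum_const]
    apply sum_congr rfl
    intro B hB
    obtain ⟨x, hx, rfl⟩ := mem_image.1 hB
    obtain ⟨n, rfl⟩ := c1 x1 hx1 x hx
    rw [← card_smul (σ ^ n) (C₁.filter (fun y => f y = f x1))]
    congr 1
    ext y
    rw [mem_filter, mem_image]
    constructor
    · rintro ⟨h1, h2⟩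
      refine ⟨(σ ^ n)⁻¹ • y, ?_, by simp⟩
      rw [mem_filter]
      have hy : (σ ^ n)⁻¹ • y ∈ C₁ := inv1 n _ (by simpa using h1)
      refine ⟨hy, ?_⟩
      rw [f_eq _ (hC1R hy) _ (hC1R hx1)]
      apply hinv' (σ ^ n)
      have := (f_eq _ (hC1R h1) _ (hC1R hx)).1 h2
      simpa using this
    · rintro ⟨w, hw, rfl⟩
      rw [mem_filter] at hw
      refine ⟨sp1 n _ hw.1, ?_⟩
      rw [f_smul, f_smul, hw.2]
  have cyc3 : ∃ m : ℕ, C₃.card = (C₃.image f).card * m := by
    refine ⟨(C₃.filter (fun y => f y = f x3)).card, ?_⟩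
    rw [card_eq_sum_card_image f C₃, ← smul_eq_mul, ← sum_const]
    apply sum_congr rfl
    intro B hB
    obtain ⟨x, hx, rfl⟩ := mem_image.1 hB
    obtain ⟨n, rfl⟩ := c3 x3 hx3 x hx
    rw [← card_smul (σ ^ n) (C₃.filter (fun y => f y = f x3))]
    congr 1
    ext y
    rw [mem_filter, mem_image]
    constructor
    · rintro ⟨h1, h2⟩
      refine ⟨(σ ^ n)⁻¹ • y, ?_, by simp⟩
      rw [mem_filter]
      have hy : (σ ^ n)⁻¹ • y ∈ C₃ := inv3 n _ (by simpa using h1)
      refine ⟨hy, ?_⟩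
      rw [f_eq _ (hC3R hy) _ (hC3R hx3)]
      apply hinv' (σ ^ n)
      have := (f_eq _ (hC3R h1) _ (hC3R hx)).1 h2
      simpa using this
    · rintro ⟨w, hw, rfl⟩
      rw [mem_filter] at hw
      refine ⟨sp3 n _ hw.1, ?_⟩
      rw [f_smul, f_smul, hw.2]
  -- the common size of the classes
  have hb2 : (f x1).card ∣ C₂.card := by
    rw [sat C₂ hC2R sat2 x1 (hC1R hx1)]
    exact Dvd.intro_left _ rfl
  have key : (f x1).card = 1 := by
    by_cases hmeet : ∃ u ∈ C₁, ∃ v ∈ C₃, Rel u v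
    · exfalso
      obtain ⟨u, hu, v, hv, huv⟩ := hmeet
      have himg : C₁.image f = C₃.image f := by
        ext B
        rw [mem_image, mem_image]
        constructor
        · rintro ⟨x, hx, rfl⟩
          obtain ⟨n, rfl⟩ := c1 u hu x hx
          refine ⟨(σ ^ n) • v, sp3 n v hv, ?_⟩
          rw [f_eq _ (hC3R (sp3 n v hv)) _ (hC1R hx)]
          exact hsymm _ _ (hinv _ _ _ huv)
        · rintro ⟨x, hx, rfl⟩
          obtain ⟨n, rfl⟩ := c3 v hv x hx
          refine ⟨(σ ^ n) • u, sp1 n u hu, ?_⟩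
          rw [f_eq _ (hC1R (sp1 n u hu)) _ (hC3R hx)]
          exact hinv _ _ _ huv
      obtain ⟨m1, hm1⟩ := cyc1
      obtain ⟨m3, hm3⟩ := cyc3
      rw [← himg] at hm3
      have hone : (C₁.image f).card = 1 := by
        have hd : (C₁.image f).card ∣ Nat.gcd C₁.card C₃.card :=
          Nat.dvd_gcd (Dvd.intro _ hm1.symm) (Dvd.intro _ hm3.symm)
        rw [hcop] at hd
        exact Nat.dvd_one.1 hd
      obtain ⟨B, hB⟩ := card_eq_one.1 hone
      have hBx : f x1 = B := by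
        have : f x1 ∈ C₁.image f := mem_image_of_mem _ hx1
        rw [hB] at this
        exact mem_singleton.1 this
      have hsub : C₁ ∪ C₃ ⊆ f x1 := by
        intro z hz
        have hzR : z ∈ R := by
          rcases mem_union.1 hz with h | h
          · exact hC1R h
          · exact hC3R h
        have hzB : f z = B := by
          rcases mem_union.1 hz with h | h
          · have : f z ∈ C₁.image f := mem_image_of_mem _ h
            rw [hB] at this
            exact mem_singleton.1 this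
          · have : f z ∈ C₃.image f := mem_image_of_mem _ h
            rw [← himg, hB] at this
            exact mem_singleton.1 this
        rw [mem_f]
        exact ⟨hzR, (f_eq _ (hC1R hx1) _ hzR).1 (hBx.trans hzB.symm)⟩
      have h1 := card_le_card hsub
      rw [card_union_of_disjoint h13] at h1
      have h2 := Nat.le_of_dvd h2pos hb2
      omega
    · push Not at hmeet
      have sat1 : ∀ x ∈ C₁, ∀ y ∈ R, Rel x y → y ∈ C₁ := by
        intro x hx y hy hxy
        rcases (hR y).1 hy with h | h | h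
        · exact h
        · exact absurd (sat2 y h x (hC1R hx) (hsymm _ _ hxy)) (Finset.disjoint_left.1 h12 hx)
        · exact absurd hxy (hmeet x hx y h)
      have sat3 : ∀ x ∈ C₃, ∀ y ∈ R, Rel x y → y ∈ C₃ := by
        intro x hx y hy hxy
        rcases (hR y).1 hy with h | h | h
        · exact absurd (hsymm _ _ hxy) (hmeet y h x hx)
        · exact absurd hx (Finset.disjoint_left.1 h23 (sat2 y h x (hC3R hx) (hsymm _ _ hxy)))
        · exact h
      have hb1 : (f x1).card ∣ C₁.card := by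
        rw [sat C₁ hC1R sat1 x1 (hC1R hx1)]
        exact Dvd.intro_left _ rfl
      have hb3 : (f x1).card ∣ C₃.card := by
        rw [sat C₃ hC3R sat3 x1 (hC1R hx1)]
        exact Dvd.intro_left _ rfl
      have hd := Nat.dvd_gcd hb1 hb3
      rw [hcop] at hd
      exact Nat.dvd_one.1 hd
  intro x hx y hy hxy
  have h1 : (f x).card = 1 := by rw [card_f x hx x1 (hC1R hx1), key]
  obtain ⟨B, hB⟩ := card_eq_one.1 h1
  have hxB : x ∈ f x := (mem_f _ _).2 ⟨hx, hrefl x⟩
  have hyB : y ∈ f x := (mem_f _ _).2 ⟨hy, hxy⟩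
  rw [hB] at hxB hyB
  rw [mem_singleton.1 hxB, mem_singleton.1 hyB]

section Field

variable {L : Type} [Field L] [NumberField L]

/-- `τ` fixes the solutions of `y + q / y = r`. -/
def Fx (q : ℕ) (τ : Gal(L/ℚ)) (r : L) : Prop := ∀ y : L, y ≠ 0 → y + q / y = r → τ y = y

theorem flip_or {q : ℕ} (τ : Gal(L/ℚ)) (y : L) (hy : y ≠ 0)
    (h : τ (y + q / y) = y + q / y) : τ y = y ∨ τ y = q / y := by
  have hty : τ y ≠ 0 := by simpa using hy
  have h1 : τ y + q / τ y = y + q / y := by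
    have : τ (y + q / y) = τ y + q / τ y := by
      rw [map_add, map_div₀, map_natCast]
    rw [← this, h]
  have h2 : (τ y - y) * (τ y - q / y) = 0 := by
    field_simp at h1 ⊢
    linear_combination h1
  rcases mul_eq_zero.1 h2 with h3 | h3
  · exact Or.inl (sub_eq_zero.1 h3)
  · exact Or.inr (sub_eq_zero.1 h3)

omit [NumberField L] in
theorem two_sol {q : ℕ} (y z : L) (hy : y ≠ 0) (hz : z ≠ 0)
    (h : z + q / z = y + q / y) : z = y ∨ z = q / y := by
  have h2 : (z - y) * (z - q / y) = 0 := by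
    field_simp at h ⊢
    linear_combination h
  rcases mul_eq_zero.1 h2 with h3 | h3
  · exact Or.inl (sub_eq_zero.1 h3)
  · exact Or.inr (sub_eq_zero.1 h3)

/-- If `τ` fixes the root but does not fix the solutions, it flips every solution. -/
theorem flips {q : ℕ} (hq : (q : L) ≠ 0) (τ : Gal(L/ℚ)) (x : L) (hx : x ≠ 0)
    (h : τ (x + q / x) = x + q / x) (hn : ¬ Fx q τ (x + q / x)) :
    τ x = q / x ∧ x ≠ q / x := by
  unfold Fx at hn
  push Not at hn
  obtain ⟨y, hy, hyx, hτ⟩ := hn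
  have hx2 : τ y = q / y := by
    rcases flip_or τ y hy (by rw [hyx, h]) with h1 | h1
    · exact absurd h1 hτ
    · exact h1
  have hne : y ≠ q / y := fun he => hτ (by rw [hx2]; exact he.symm)
  rcases two_sol y x hy hx hyx.symm with h1 | h1
  · subst h1
    exact ⟨hx2, hne⟩
  · have hyy : q / x = y := by
      rw [h1]; field_simp
    constructor
    · rw [hyy, h1, map_div₀, map_natCast, hx2]
      field_simp
    · rw [hyy, h1]
      exact hne.symm

end Field

end SEPAux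

open SEPAux in
/-- SEP -/
theorem stmt_SEP (frob : Stmt_FROB) : Stmt_SEP := by
  classical
  intro L _ _ _ q ℓ g k d₁ d₂ d₃ _ h hℓ hq hadm hmon hdeg hirr hspl hsol hpat x y hx hy hxr hyr hxy
  obtain ⟨σ, C₁, C₂, C₃, N, hR, h12, h13, h23, k1, k2, k3, c1, c2, c3, s1, s2, s3, f1, f3, f2⟩ :=
    frob L q ℓ g k d₁ d₂ d₃ h hℓ hq hadm hmon hdeg hspl hpat
  have hqL : (q : L) ≠ 0 := by
    have : q ≠ 0 := by
      rintro rfl
      simp at hq
    exact_mod_cast this
  obtain ⟨hsum, h2ge, h3ge, hne23, h2k, h3k, hk2, hk1, hcop, -⟩ := hadm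
  set R : Finset L := C₁ ∪ C₂ ∪ C₃ with hRdef
  have hRmem : ∀ z : L, z ∈ R ↔ aeval z h = 0 := by
    intro z
    rw [hR z, hRdef, mem_union, mem_union, or_assoc]
  have hRmem' : ∀ z, z ∈ R ↔ z ∈ C₁ ∨ z ∈ C₂ ∨ z ∈ C₃ := fun z => by rw [hRmem, hR]
  have hstab : ∀ (τ : Gal(L/ℚ)), ∀ z ∈ R, τ • z ∈ R := by
    intro τ z hz
    rw [hRmem] at hz ⊢
    have : aeval (τ • z) h = τ (aeval z h) := by
      have := Polynomial.aeval_algHom_apply (τ.toAlgHom.restrictScalars ℤ) z h
      simpa using this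
    rw [this, hz, map_zero]
  have htra : ∀ z ∈ R, ∀ w ∈ R, ∃ τ : Gal(L/ℚ), τ • z = w := by
    intro z hz w hw
    rw [hRmem] at hz hw
    have hmin : ∀ z : L, aeval z h = 0 → minpoly ℚ z = h.map (Int.castRingHom ℚ) := by
      intro z hz
      symm
      apply minpoly.eq_of_irreducible_of_monic hirr
      · have : aeval z (h.map (Int.castRingHom ℚ)) = aeval z h := by
          rw [show (Int.castRingHom ℚ) = algebraMap ℤ ℚ from rfl, aeval_map_algebraMap]
        rw [this, hz]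
      · exact hmon.map _
    have hconj : IsConjRoot ℚ z w := by
      show minpoly ℚ z = minpoly ℚ w
      rw [hmin z hz, hmin w hw]
    obtain ⟨τ, hτ⟩ := isConjRoot_iff_exists_algEquiv.1 hconj
    refine ⟨τ⁻¹, ?_⟩
    rw [← hτ]
    show τ⁻¹ (τ w) = w
    exact τ.symm_apply_apply w
  -- the relation
  let K0 : Gal(L/ℚ) → Prop := fun τ => ∀ z ∈ R, τ z = z
  let Rel : L → L → Prop := fun r s => ∀ τ : Gal(L/ℚ), K0 τ → (Fx q τ r ↔ Fx q τ s)
  have hconjK : ∀ (τ ρ : Gal(L/ℚ)), K0 τ → K0 (ρ⁻¹ * τ * ρ) := by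
    intro τ ρ hτ z hz
    have h1 := hτ (ρ z) (hstab ρ z hz)
    show ρ⁻¹ (τ (ρ z)) = z
    rw [h1]
    exact ρ.symm_apply_apply z
  have hFx : ∀ (τ ρ : Gal(L/ℚ)) (r : L), Fx q (ρ⁻¹ * τ * ρ) r ↔ Fx q τ (ρ r) := by
    intro τ ρ r
    constructor
    · intro h1 u hu hur
      have h2 := h1 (ρ⁻¹ u) (by simpa using hu) (by
        apply ρ.injective
        rw [← hur, map_add, map_div₀, map_natCast]
        have : ρ (ρ⁻¹ u) = u := ρ.apply_symm_apply u
        rw [this])
      have h3 : ρ (ρ⁻¹ u) = u := ρ.apply_symm_apply u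
      have h4 : ρ⁻¹ (τ (ρ (ρ⁻¹ u))) = ρ⁻¹ u := h2
      rw [h3] at h4
      exact (AlgEquiv.injective ρ⁻¹) h4
    · intro h1 u hu hur
      have h2 := h1 (ρ u) (by simpa using hu) (by
        rw [← hur, map_add, map_div₀, map_natCast])
      show ρ⁻¹ (τ (ρ u)) = u
      rw [h2]
      exact ρ.symm_apply_apply u
  have hinv : ∀ (ρ : Gal(L/ℚ)) (r s : L), Rel r s → Rel (ρ • r) (ρ • s) := by
    intro ρ r s hrs τ hτ
    have := hrs (ρ⁻¹ * τ * ρ) (hconjK τ ρ hτ)
    rw [hFx, hFx] at this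
    exact this
  have hσN : K0 (σ ^ N) := by
    intro z hz
    obtain ⟨y, hy, rfl⟩ := hsol z ((hRmem z).1 hz)
    rcases (hRmem' _).1 hz with h1 | h1 | h1
    · rw [map_add, map_div₀, map_natCast, f1 y hy h1]
    · rw [map_add, map_div₀, map_natCast, (f2 y hy h1).1]
      field_simp
      ring
    · rw [map_add, map_div₀, map_natCast, f3 y hy h1]
  have sat2 : ∀ z ∈ C₂, ∀ w ∈ R, Rel z w → w ∈ C₂ := by
    intro z hz w hw hzw
    by_contra hw2
    have h1 := hzw _ hσN
    have hw1 : Fx q (σ ^ N) w := by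
      intro u hu huw
      rcases (hRmem' _).1 hw with h2 | h2 | h2
      · exact f1 u hu (huw ▸ h2)
      · exact absurd h2 hw2
      · exact f3 u hu (huw ▸ h2)
    have hz1 := h1.2 hw1
    obtain ⟨u, hu, huz⟩ := hsol z ((hRmem z).1 ((hRmem' z).2 (Or.inr (Or.inl hz))))
    have h3 := hz1 u hu huz
    have h4 := f2 u hu (huz ▸ hz)
    exact h4.2 (h3.symm.trans h4.1)
  have hnot : ¬ Rel (x + q / x) (y + q / y) := by
    intro hrel
    apply hxy
    refine blocks (G := Gal(L/ℚ)) R C₁ C₂ C₃ Rel (fun _ _ _ => Iff.rfl)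
      (fun _ _ h1 τ hτ => (h1 τ hτ).symm)
      (fun _ _ _ h1 h2 τ hτ => (h1 τ hτ).trans (h2 τ hτ)) hinv hstab htra hRmem' h12 h13 h23 σ
      c1 c3 s1 s3 sat2 (by rw [k1, k3]; exact hcop) (by omega) (by omega) (by omega) (by omega)
      _ ((hRmem _).2 hxr) _ ((hRmem _).2 hyr) hrel
  simp only [Rel] at hnot
  push Not at hnot
  obtain ⟨τ, hτ, hcase⟩ := hnot
  refine ⟨τ, fun z hz => hτ z ((hRmem z).2 hz), ?_⟩
  have hxfix := hτ _ ((hRmem _).2 hxr)
  have hyfix := hτ _ ((hRmem _).2 hyr)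
  rcases hcase with ⟨h1, h2⟩ | ⟨h1, h2⟩
  · right
    exact ⟨h1 x hx rfl, flips hqL τ y hy hyfix h2⟩
  · left
    obtain ⟨h3, h4⟩ := flips hqL τ x hx hxfix h1
    exact ⟨h3, h4, h2 y hy rfl⟩

end Pool.Agent.Work.FF
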