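import Pool.Agent.Work.MP_223b32_FF.Interface

/-!
Sums of `(1 - u ^ 2) ^ s` over arithmetic progressions.
-/

namespace Pool.Agent.Work.FF

open Finset

theorem kap_zero : kap 0 = 2 := by
  simp [kap]; norm_num

theorem apsum_zero {w E β : ℝ} (hw : 0 < w) (hE : 0 < E) (T : Finset ℤ)
    (hT : ∀ t ∈ T, ((w * t + β) / E) ^ 2 < 1) : (T.card : ℝ) ≤ E / w * 2 + 1 := by
  have h1 : T ⊆ Ioo ⌊(-E - β) / w⌋ ⌈(E - β) / w⌉ := by
    intro t ht
    have h2 := hT t ht
    rw [sq_lt_one_iff_abs_lt_one, abs_lt] at h2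
    obtain ⟨h3, h4⟩ := h2
    rw [lt_div_iff₀ hE] at h3
    rw [div_lt_one hE] at h4
    rw [mem_Ioo]
    constructor
    · rw [Int.floor_lt, div_lt_iff₀ hw]
      linarith
    · rw [Int.lt_ceil, lt_div_iff₀ hw]
      linarith
  have h2 := card_le_card h1
  rw [Int.card_Ioo] at h2
  have h3 : (((⌈(E - β) / w⌉ - ⌊(-E - β) / w⌋ - 1).toNat : ℕ) : ℝ) ≤ E / w * 2 + 1 := by
    have a1 := Int.ceil_lt_add_one ((E - β) / w)
    have a2 := Int.sub_one_lt_floor ((-E - β) / w)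
    have e1 : (E - β) / w - (-E - β) / w = E / w * 2 := by field_simp; ring
    have hpos : 0 < E / w * 2 := by positivity
    rcases le_total 0 (⌈(E - β) / w⌉ - ⌊(-E - β) / w⌋ - 1) with h | h
    · have h4 : (((⌈(E - β) / w⌉ - ⌊(-E - β) / w⌋ - 1).toNat : ℕ) : ℝ) =
          (⌈(E - β) / w⌉ : ℝ) - ⌊(-E - β) / w⌋ - 1 := by
        have : (((⌈(E - β) / w⌉ - ⌊(-E - β) / w⌋ - 1).toNat : ℕ) : ℤ) =
          ⌈(E - β) / w⌉ - ⌊(-E - β) / w⌋ - 1 := Int.toNat_of_nonneg h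
        exact_mod_cast congrArg (fun z : ℤ => (z : ℝ)) this
      rw [h4]
      linarith
    · rw [Int.toNat_of_nonpos h]
      push_cast
      linarith
  exact (by exact_mod_cast h2 : (T.card : ℝ) ≤ _).trans h3

/-- the model function -/
noncomputable def mf (s : ℕ) (u : ℝ) : ℝ := (max 0 (1 - u ^ 2)) ^ s

theorem mf_cont (s : ℕ) : Continuous (mf s) := by
  unfold mf
  fun_prop

theorem mf_nonneg (s : ℕ) (u : ℝ) : 0 ≤ mf s u := pow_nonneg (le_max_left _ _) _

theorem mf_le_one (s : ℕ) (u : ℝ) : mf s u ≤ 1 := by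
  refine pow_le_one₀ (le_max_left _ _) (max_le zero_le_one ?_)
  nlinarith [sq_nonneg u]

theorem mf_of_lt (s : ℕ) {u : ℝ} (h : u ^ 2 < 1) : mf s u = (1 - u ^ 2) ^ s := by
  rw [mf, max_eq_right (by linarith)]

theorem mf_zero {s : ℕ} (hs : s ≠ 0) {u : ℝ} (h : 1 ≤ u ^ 2) : mf s u = 0 := by
  rw [mf, max_eq_left (by linarith), zero_pow hs]

theorem mf_anti (s : ℕ) {u v : ℝ} (h : u ^ 2 ≤ v ^ 2) : mf s v ≤ mf s u := by
  unfold mf
  have : max 0 (1 - v ^ 2) ≤ max 0 (1 - u ^ 2) := max_le_max le_rfl (by linarith)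
  gcongr

theorem mf_integral_le {s : ℕ} (hs : s ≠ 0) {A B : ℝ} (hAB : A ≤ B) :
    ∫ u in A..B, mf s u ≤ kap s := by
  have hint : ∀ a b : ℝ, IntervalIntegrable (mf s) MeasureTheory.volume a b := fun a b =>
    (mf_cont s).intervalIntegrable a b
  set M : ℝ := max 1 (max |A| |B|) with hM
  have hM1 : 1 ≤ M := le_max_left _ _
  have hMA : -M ≤ A := by
    have : |A| ≤ M := (le_max_left _ _).trans (le_max_right _ _)
    linarith [(abs_le.1 this).1]
  have hMB : B ≤ M := by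
    have : |B| ≤ M := (le_max_right _ _).trans (le_max_right _ _)
    linarith [(abs_le.1 this).2]
  have h1 : ∫ u in A..B, mf s u ≤ ∫ u in (-M)..M, mf s u :=
    intervalIntegral.integral_mono_interval hMA hAB hMB
      (Filter.Eventually.of_forall fun u => mf_nonneg s u) (hint _ _)
  have h2 : ∫ u in (-M)..M, mf s u = (∫ u in (-M)..(-1), mf s u) + (∫ u in (-1 : ℝ)..1, mf s u) +
      ∫ u in (1 : ℝ)..M, mf s u := by
    rw [intervalIntegral.integral_add_adjacent_intervals (hint _ _) (hint _ _),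
      intervalIntegral.integral_add_adjacent_intervals (hint _ _) (hint _ _)]
  have h3 : ∫ u in (-M)..(-1), mf s u = 0 := by
    rw [intervalIntegral.integral_congr (g := fun _ => 0)]
    · simp
    · intro u hu
      rw [Set.uIcc_of_le (by linarith)] at hu
      exact mf_zero hs (by nlinarith [hu.2])
  have h4 : ∫ u in (1 : ℝ)..M, mf s u = 0 := by
    rw [intervalIntegral.integral_congr (g := fun _ => 0)]
    · simp
    · intro u hu
      rw [Set.uIcc_of_le (by linarith)] at hu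
      exact mf_zero hs (by nlinarith [hu.1])
  have h5 : ∫ u in (-1 : ℝ)..1, mf s u = kap s := by
    rw [kap]
    refine intervalIntegral.integral_congr fun u hu => ?_
    rw [Set.uIcc_of_le (by linarith)] at hu
    show mf s u = _
    rw [mf, max_eq_right (by nlinarith [hu.1, hu.2])]
  rw [h2, h3, h4, h5] at h1
  linarith

/-- Sum over an arithmetic progression. -/
theorem apsum (s : ℕ) {w E β : ℝ} (hw : 0 < w) (hE : 0 < E) (T : Finset ℤ)
    (hT : ∀ t ∈ T, ((w * t + β) / E) ^ 2 < 1) :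
    ∑ t ∈ T, (1 - ((w * t + β) / E) ^ 2) ^ s ≤ E / w * kap s + 1 := by
  rcases Nat.eq_zero_or_pos s with rfl | hs
  · simp only [pow_zero, sum_const, nsmul_eq_mul, mul_one, kap_zero]
    exact apsum_zero hw hE T hT
  set φ : ℝ → ℝ := fun x => mf s (w / E * x + β / E) with hφ
  have hφt : ∀ x : ℝ, φ x = mf s ((w * x + β) / E) := by
    intro x
    rw [hφ]
    show mf s _ = mf s _
    congr 1
    field_simp
  have hφcont : Continuous φ := by
    rw [hφ]
    exact (mf_cont s).comp (by fun_prop)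
  have hint : ∀ a b : ℝ, IntervalIntegrable φ MeasureTheory.volume a b := fun a b =>
    hφcont.intervalIntegrable a b
  set x₀ : ℝ := -β / w with hx₀
  have hwE : 0 < w / E := div_pos hw hE
  have hcen : ∀ x : ℝ, w / E * x + β / E = w / E * (x - x₀) := by
    intro x
    rw [hx₀]
    field_simp
    ring
  have hanti : ∀ x y : ℝ, x₀ ≤ x → x ≤ y → φ y ≤ φ x := by
    intro x y h1 h2
    refine mf_anti s ?_
    rw [hcen, hcen, mul_pow, mul_pow]
    have : (x - x₀) ^ 2 ≤ (y - x₀) ^ 2 := by nlinarith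
    gcongr
  have hmono : ∀ x y : ℝ, x ≤ y → y ≤ x₀ → φ x ≤ φ y := by
    intro x y h1 h2
    refine mf_anti s ?_
    rw [hcen, hcen, mul_pow, mul_pow]
    have : (y - x₀) ^ 2 ≤ (x - x₀) ^ 2 := by nlinarith
    gcongr
  set n₀ : ℤ := ⌈x₀⌉ with hn₀
  have hn1 : x₀ ≤ n₀ := Int.le_ceil x₀
  have hn2 : (n₀ : ℝ) - 1 < x₀ := by
    have := Int.ceil_lt_add_one x₀
    linarith
  obtain ⟨N, hN⟩ : ∃ N : ℕ, ∀ t ∈ T, n₀ - 1 - N ≤ t ∧ t ≤ n₀ + N := by
    refine ⟨∑ t ∈ T, (t - n₀).natAbs, fun t ht => ?_⟩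
    have h1 : (t - n₀).natAbs ≤ ∑ t ∈ T, (t - n₀).natAbs :=
      single_le_sum (f := fun t : ℤ => (t - n₀).natAbs) (fun _ _ => Nat.zero_le _) ht
    omega
  have hTsub : T ⊆ (range (N + 1)).image (fun i : ℕ => n₀ + i) ∪
      (range (N + 1)).image (fun i : ℕ => n₀ - 1 - i) := by
    intro t ht
    obtain ⟨h1, h2⟩ := hN t ht
    rw [mem_union, mem_image, mem_image]
    rcases le_total n₀ t with h | h
    · left
      refine ⟨(t - n₀).toNat, mem_range.2 (by omega), by omega⟩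
    · by_cases h' : t = n₀
      · left
        exact ⟨0, mem_range.2 (by omega), by simp [h']⟩
      · right
        refine ⟨(n₀ - 1 - t).toNat, mem_range.2 (by omega), by omega⟩
  have hsum1 : ∑ t ∈ T, (1 - ((w * t + β) / E) ^ 2) ^ s ≤
      ∑ i ∈ range (N + 1), φ ((n₀ : ℝ) + i) + ∑ i ∈ range (N + 1), φ ((n₀ : ℝ) - 1 - i) := by
    calc ∑ t ∈ T, (1 - ((w * t + β) / E) ^ 2) ^ s = ∑ t ∈ T, φ (t : ℝ) := by
          refine sum_congr rfl fun t ht => ?_
          rw [hφt, mf_of_lt s (hT t ht)]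
      _ ≤ ∑ t ∈ (range (N + 1)).image (fun i : ℕ => n₀ + i) ∪
          (range (N + 1)).image (fun i : ℕ => n₀ - 1 - i), φ (t : ℝ) :=
          sum_le_sum_of_subset_of_nonneg hTsub fun _ _ _ => mf_nonneg s _
      _ ≤ ∑ t ∈ (range (N + 1)).image (fun i : ℕ => n₀ + i), φ (t : ℝ) +
          ∑ t ∈ (range (N + 1)).image (fun i : ℕ => n₀ - 1 - i), φ (t : ℝ) := by
          rw [← sum_union_inter]
          have : 0 ≤ ∑ t ∈ (range (N + 1)).image (fun i : ℕ => n₀ + i) ∩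
            (range (N + 1)).image (fun i : ℕ => n₀ - 1 - i), φ (t : ℝ) :=
            sum_nonneg fun _ _ => mf_nonneg s _
          linarith
      _ = _ := by
          rw [sum_image (by intro a _ b _ h; simpa using h),
            sum_image (by intro a _ b _ h; simpa using h)]
          push_cast
          rfl
  have hright : ∑ i ∈ range N, φ ((n₀ : ℝ) + ((i + 1 : ℕ) : ℝ)) ≤
      ∫ x in (n₀ : ℝ)..((n₀ : ℝ) + N), φ x :=
    AntitoneOn.sum_le_integral fun x hx y hy hxy => hanti x y (hn1.trans hx.1) hxy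
  have hleft : ∑ i ∈ range N, φ (((n₀ : ℝ) - 1 - N) + i) ≤
      ∫ x in ((n₀ : ℝ) - 1 - N)..(((n₀ : ℝ) - 1 - N) + N), φ x :=
    MonotoneOn.sum_le_integral fun x hx y hy hxy => hmono x y hxy (by
      have := hy.2
      linarith)
  have hleft' : ∑ i ∈ range N, φ ((n₀ : ℝ) - 1 - ((i + 1 : ℕ) : ℝ)) =
      ∑ i ∈ range N, φ (((n₀ : ℝ) - 1 - N) + i) := by
    rw [← sum_range_reflect]
    refine sum_congr rfl fun i hi => ?_
    have h1 := mem_range.1 hi
    congr 1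
    have h2 : ((N - 1 - i + 1 : ℕ) : ℝ) = (N : ℝ) - i := by
      rw [show N - 1 - i + 1 = N - i by omega, Nat.cast_sub h1.le]
    rw [h2]
    ring
  have hmid : φ ((n₀ : ℝ) - 1) + φ (n₀ : ℝ) ≤ 1 + ∫ x in ((n₀ : ℝ) - 1)..(n₀ : ℝ), φ x := by
    have h1 : min (φ ((n₀ : ℝ) - 1)) (φ (n₀ : ℝ)) ≤ ∫ x in ((n₀ : ℝ) - 1)..(n₀ : ℝ), φ x := by
      have h2 : ∫ _x in ((n₀ : ℝ) - 1)..(n₀ : ℝ), min (φ ((n₀ : ℝ) - 1)) (φ (n₀ : ℝ)) ≤
          ∫ x in ((n₀ : ℝ) - 1)..(n₀ : ℝ), φ x := by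
        refine intervalIntegral.integral_mono_on (by linarith) (by simp) (hint _ _) fun x hx => ?_
        rcases le_total x x₀ with h | h
        · exact (min_le_left _ _).trans (hmono _ _ hx.1 h)
        · exact (min_le_right _ _).trans (hanti _ _ h hx.2)
      simpa using h2
    have h3 : max (φ ((n₀ : ℝ) - 1)) (φ (n₀ : ℝ)) ≤ 1 := max_le (mf_le_one _ _) (mf_le_one _ _)
    have h4 := min_add_max (φ ((n₀ : ℝ) - 1)) (φ (n₀ : ℝ))
    linarith
  have htotal : (∫ x in ((n₀ : ℝ) - 1 - N)..((n₀ : ℝ) - 1), φ x) +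
      (∫ x in ((n₀ : ℝ) - 1)..(n₀ : ℝ), φ x) + (∫ x in (n₀ : ℝ)..((n₀ : ℝ) + N), φ x) ≤
      E / w * kap s := by
    rw [intervalIntegral.integral_add_adjacent_intervals (hint _ _) (hint _ _),
      intervalIntegral.integral_add_adjacent_intervals (hint _ _) (hint _ _)]
    rw [hφ, intervalIntegral.integral_comp_mul_add (mf s) hwE.ne' (β / E), smul_eq_mul, inv_div]
    refine mul_le_mul_of_nonneg_left (mf_integral_le hs.ne' ?_) (by positivity)
    have hN0 : (0 : ℝ) ≤ N := Nat.cast_nonneg N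
    nlinarith
  rw [sum_range_succ' (fun i : ℕ => φ ((n₀ : ℝ) + i)),
    sum_range_succ' (fun i : ℕ => φ ((n₀ : ℝ) - 1 - i))] at hsum1
  rw [hleft', Nat.cast_zero, add_zero, sub_zero] at hsum1
  have e1 : ((n₀ : ℝ) - 1 - N) + N = (n₀ : ℝ) - 1 := by ring
  rw [e1] at hleft
  linarith

end Pool.Agent.Work.FF
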