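import Pool.Agent.Work.MP_223b32_FF.TOEPAux
import Pool.Agent.Work.MP_223b32_FF.TOEPSum

/-!
Block TOEP: counting integer vectors with positive definite Toeplitz form.
-/

namespace Pool.Agent.Work.FF

open Finset

theorem kap_nonneg (m : ℕ) : 0 ≤ kap m := by
  rw [kap]
  refine intervalIntegral.integral_nonneg (by norm_num) fun u hu => ?_
  have h1 : 0 ≤ 1 - u ^ 2 := by nlinarith [hu.1, hu.2]
  positivity

/-- The coordinates `≥ i`. -/
def Uset (g i : ℕ) : Finset (Fin g) := univ.filter fun j => i ≤ (j : ℕ)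

theorem Uset_insert {g i : ℕ} (hi : i < g) :
    Uset g i = insert (⟨i, hi⟩ : Fin g) (Uset g (i + 1)) := by
  ext j
  simp only [Uset, mem_filter, mem_univ, true_and, mem_insert, Fin.ext_iff]
  omega

theorem Uset_notMem {g i : ℕ} (hi : i < g) : (⟨i, hi⟩ : Fin g) ∉ Uset g (i + 1) := by
  simp [Uset]

/-- The bound. -/
noncomputable def bd {g : ℕ} (w : Fin g → ℝ) (i : ℕ) (e : ℝ) : ℝ :=
  ∑ S ∈ (Uset g i).powerset, (∏ j ∈ S, (w j)⁻¹) * (∏ m ∈ range S.card, kap m) * e ^ S.card

theorem bd_step {g i : ℕ} (w : Fin g → ℝ) (hi : i < g) (e : ℝ) :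
    bd w i e = ∑ S ∈ (Uset g (i + 1)).powerset, (∏ j ∈ S, (w j)⁻¹) *
      (∏ m ∈ range S.card, kap m) * e ^ S.card * (e / w ⟨i, hi⟩ * kap S.card + 1) := by
  rw [bd, Uset_insert hi, sum_powerset_insert (Uset_notMem hi), ← sum_add_distrib]
  refine sum_congr rfl fun S hS => ?_
  have hn : (⟨i, hi⟩ : Fin g) ∉ S := fun h => Uset_notMem hi (mem_powerset.1 hS h)
  rw [prod_insert hn, card_insert_of_notMem hn, prod_range_succ, pow_succ]
  field_simp
  ring

theorem tree {g : ℕ} {c : (Fin g → ℤ) → ℕ → ℝ} {w : Fin g → ℝ} {c₀ : ℝ}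
    (hw : ∀ i, 0 < w i) (hc0 : ∀ a, c a 0 = c₀)
    (hc : ∀ (a a' : Fin g → ℤ) (i : Fin g), (∀ j < i, a j = a' j) →
      c a ((i : ℕ) + 1) - c a' ((i : ℕ) + 1) = w i * ((a' i : ℝ) - a i)) :
    ∀ r i : ℕ, i + r = g → ∀ A : Finset (Fin g → ℤ), (∀ a ∈ A, ToepPos (c a) g) →
      (∀ a ∈ A, ∀ b ∈ A, ∀ j : Fin g, (j : ℕ) < i → a j = b j) →
      ∀ e : ℝ, (∀ a ∈ A, (lev (c a) i).2 = e) → 0 ≤ e → (A.card : ℝ) ≤ bd w i e := by
  classical
  intro r
  induction r with
  | zero =>
    intro i hi A hA hag e he he0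
    have h1 : A.card ≤ 1 := card_le_one.2 fun a ha b hb => funext fun j =>
      hag a ha b hb j (by have := j.2; omega)
    have h2 : bd w i e = 1 := by
      have : Uset g i = ∅ := by
        rw [Uset, filter_eq_empty_iff]
        intro j _
        have := j.2
        omega
      rw [bd, this, powerset_empty, sum_singleton]
      simp
    rw [h2]
    exact_mod_cast h1
  | succ r ih =>
    intro i hi A hA hag e he he0
    have hig : i < g := by omega
    set i' : Fin g := ⟨i, hig⟩ with hi'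
    rcases A.eq_empty_or_nonempty with rfl | ⟨b, hb⟩
    · rw [card_empty, Nat.cast_zero, bd]
      refine sum_nonneg fun S _ => ?_
      refine mul_nonneg (mul_nonneg (prod_nonneg fun j _ => inv_nonneg.2 (hw j).le)
        (prod_nonneg fun m _ => kap_nonneg m)) (pow_nonneg he0 _)
    -- the moments up to `i` agree
    have hcagree : ∀ a ∈ A, ∀ j ≤ i, c a j = c b j := by
      intro a ha j hj
      cases j with
      | zero => rw [hc0, hc0]
      | succ j =>
        have h1 := hc a b ⟨j, by omega⟩ (fun l hl => hag a ha b hb l (by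
          have : (l : ℕ) < j := hl
          omega))
        have h2 : a ⟨j, by omega⟩ = b ⟨j, by omega⟩ := hag a ha b hb ⟨j, by omega⟩ (by
          show j < i
          omega)
        rw [h2, sub_self, mul_zero] at h1
        exact sub_eq_zero.1 h1
    have hepos : 0 < e := by
      rw [← he b hb]
      exact (lev_main (hA b hb) i hig.le).1
    set σ : ℝ := ∑ l ∈ range i, c b (i - l) * (lev (c b) i).1 (l + 1) with hσ
    set β : ℝ := -(c b (i + 1) + w i' * b i' + σ) with hβ
    have hgam : ∀ a ∈ A, gam (c a) i = (w i' * (a i' : ℝ) + β) / e := by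
      intro a ha
      have hl : lev (c a) i = lev (c b) i := lev_congr i fun j hj => hcagree a ha j hj
      have h1 := hc a b i' (fun l hl => hag a ha b hb l hl)
      have h2 : ∑ l ∈ range i, c a (i - l) * (lev (c a) i).1 (l + 1) = σ := by
        rw [hσ, hl]
        refine sum_congr rfl fun l _ => ?_
        rw [hcagree a ha (i - l) (by omega)]
      rw [gam_affine, h2, hl, he b hb, hβ]
      congr 1
      have h3 : c a (i + 1) = c b (i + 1) + w i' * ((b i' : ℝ) - a i') := by linarith
      rw [h3]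
      ring
    set T : Finset ℤ := A.image fun a => a i' with hT
    have hTsq : ∀ t ∈ T, ((w i' * (t : ℝ) + β) / e) ^ 2 < 1 := by
      intro t ht
      obtain ⟨a, ha, rfl⟩ := mem_image.1 ht
      rw [← hgam a ha]
      exact gam_sq_lt (hA a ha) hig
    have hcard : A.card = ∑ t ∈ T, (A.filter fun a => a i' = t).card :=
      card_eq_sum_card_image _ _
    have hpiece : ∀ t ∈ T, ((A.filter fun a => a i' = t).card : ℝ) ≤
        bd w (i + 1) (e * (1 - ((w i' * (t : ℝ) + β) / e) ^ 2)) := by
      intro t ht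
      have h1 := hTsq t ht
      refine ih (i + 1) (by omega) _ (fun a ha => hA a (mem_filter.1 ha).1) ?_ _ ?_ ?_
      · intro a ha a' ha' j hj
        obtain ⟨ha1, ha2⟩ := mem_filter.1 ha
        obtain ⟨ha1', ha2'⟩ := mem_filter.1 ha'
        rcases Nat.lt_succ_iff_lt_or_eq.1 hj with h | h
        · exact hag a ha1 a' ha1' j h
        · have : j = i' := Fin.ext h
          rw [this, ha2, ha2']
      · intro a ha
        obtain ⟨ha1, ha2⟩ := mem_filter.1 ha
        rw [lev_succ_snd, he a ha1, hgam a ha1, ha2]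
      · exact mul_nonneg he0 (by linarith)
    rw [hcard]
    push_cast
    refine (sum_le_sum hpiece).trans ?_
    rw [bd_step w hig e]
    simp only [bd]
    rw [sum_comm]
    refine sum_le_sum fun S _ => ?_
    have h1 : ∀ t ∈ T, (∏ j ∈ S, (w j)⁻¹) * (∏ m ∈ range S.card, kap m) *
        (e * (1 - ((w i' * (t : ℝ) + β) / e) ^ 2)) ^ S.card =
        (∏ j ∈ S, (w j)⁻¹) * (∏ m ∈ range S.card, kap m) * e ^ S.card *
          (1 - ((w i' * (t : ℝ) + β) / e) ^ 2) ^ S.card := by
      intro t _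
      rw [mul_pow]
      ring
    rw [sum_congr rfl h1, ← mul_sum]
    refine mul_le_mul_of_nonneg_left (apsum S.card (hw i') hepos T hTsq) ?_
    exact mul_nonneg (mul_nonneg (prod_nonneg fun j _ => inv_nonneg.2 (hw j).le)
        (prod_nonneg fun m _ => kap_nonneg m)) (pow_nonneg he0 _)

theorem stmt_TOEP : Stmt_TOEP := by
  classical
  intro g c w c₀ hc₀ hw hc0 hc A hA
  have h1 := tree hw hc0 hc g 0 (by omega) A hA (fun _ _ _ _ j hj => absurd hj (by omega)) c₀
    (fun a _ => by rw [lev]; exact hc0 a) hc₀.le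
  refine h1.trans (le_of_eq ?_)
  have h2 : Uset g 0 = univ := by
    rw [Uset, filter_true_of_mem]
    intro j _
    exact Nat.zero_le _
  rw [bd, h2, powerset_univ]
  refine sum_congr rfl fun S _ => ?_
  rw [mul_right_comm]
  congr 1
  rw [← prod_const, ← prod_mul_distrib]
  refine prod_congr rfl fun j _ => ?_
  rw [div_eq_mul_inv, mul_comm]

end Pool.Agent.Work.FF
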