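import Pool.Agent.Work.MP_223b32_FF.Interface

/-! Block TRI. -/

namespace Pool.Agent.Work.FF

open Polynomial Finset

theorem tri_const (q g : ℕ) (P : ℤ[X]) (hP : P.Monic) (hd : P.natDegree = g) :
    PowerSeries.constantCoeff (wser q g P) = 1 := by
  rw [wser, map_sum, Finset.sum_eq_single 0]
  · have h1 : P.coeff g = 1 := by
      have := hP.coeff_natDegree
      rwa [hd] at this
    simp [h1]
  · intro j _ hj
    simp [hj]
  · intro h
    exact absurd (mem_range.2 (Nat.succ_pos g)) h

/-- abstract form of the computation -/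
theorem tri_abstract (h h' D : PowerSeries ℝ) (j : ℕ) (hj : 1 ≤ j)
    (hh : PowerSeries.constantCoeff h = 1) (hh' : PowerSeries.constantCoeff h' = 1)
    (hD : h = h' + PowerSeries.X ^ j * D) :
    PowerSeries.coeff j (-(PowerSeries.X * PowerSeries.derivative ℝ h) * h⁻¹) -
      PowerSeries.coeff j (-(PowerSeries.X * PowerSeries.derivative ℝ h') * h'⁻¹) =
      - (j : ℝ) * PowerSeries.constantCoeff D := by
  have i1 : h * h⁻¹ = 1 := PowerSeries.mul_inv_cancel h (by rw [hh]; exact one_ne_zero)
  have i2 : h' * h'⁻¹ = 1 := PowerSeries.mul_inv_cancel h' (by rw [hh']; exact one_ne_zero)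
  obtain ⟨k, rfl⟩ : ∃ k, j = k + 1 := ⟨j - 1, by omega⟩
  have hder : PowerSeries.derivative ℝ h = PowerSeries.derivative ℝ h' +
      (((k : ℕ) + 1 : ℕ) : PowerSeries ℝ) * PowerSeries.X ^ k * D +
        PowerSeries.X ^ (k + 1) * PowerSeries.derivative ℝ D := by
    rw [hD, map_add, Derivation.leibniz, Derivation.leibniz_pow]
    simp only [smul_eq_mul, PowerSeries.derivative_X, Nat.add_sub_cancel, nsmul_eq_mul]
    ring
  have key : -(PowerSeries.X * PowerSeries.derivative ℝ h) * h⁻¹ -
      (-(PowerSeries.X * PowerSeries.derivative ℝ h') * h'⁻¹) =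
      PowerSeries.X ^ (k + 1) * (-(((((k : ℕ) + 1 : ℕ) : PowerSeries ℝ) * D +
        PowerSeries.X * PowerSeries.derivative ℝ D) * h' -
        PowerSeries.X * D * PowerSeries.derivative ℝ h') * (h⁻¹ * h'⁻¹)) := by
    calc -(PowerSeries.X * PowerSeries.derivative ℝ h) * h⁻¹ -
      (-(PowerSeries.X * PowerSeries.derivative ℝ h') * h'⁻¹)
        = -(PowerSeries.X * PowerSeries.derivative ℝ h) * h⁻¹ * (h' * h'⁻¹) -
          (-(PowerSeries.X * PowerSeries.derivative ℝ h') * h'⁻¹) * (h * h⁻¹) := by
            rw [i1, i2, mul_one, mul_one]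
      _ = -(PowerSeries.X * (PowerSeries.derivative ℝ h * h' -
            PowerSeries.derivative ℝ h' * h)) * (h⁻¹ * h'⁻¹) := by ring
      _ = _ := by
        rw [hder]
        have : (PowerSeries.derivative ℝ h' + (((k : ℕ) + 1 : ℕ) : PowerSeries ℝ) *
            PowerSeries.X ^ k * D + PowerSeries.X ^ (k + 1) * PowerSeries.derivative ℝ D) * h' -
            PowerSeries.derivative ℝ h' * h =
            (PowerSeries.derivative ℝ h' + (((k : ℕ) + 1 : ℕ) : PowerSeries ℝ) *
            PowerSeries.X ^ k * D + PowerSeries.X ^ (k + 1) * PowerSeries.derivative ℝ D) * h' -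
            PowerSeries.derivative ℝ h' * (h' + PowerSeries.X ^ (k + 1) * D) := by rw [← hD]
        rw [this]
        ring
  rw [← map_sub, key]
  rw [PowerSeries.coeff_X_pow_mul', if_pos le_rfl, Nat.sub_self,
    PowerSeries.coeff_zero_eq_constantCoeff_apply]
  have c1 : PowerSeries.constantCoeff h⁻¹ = 1 := by
    have := congrArg PowerSeries.constantCoeff i1
    rw [map_mul, hh, one_mul, map_one] at this
    exact this
  have c2 : PowerSeries.constantCoeff h'⁻¹ = 1 := by
    have := congrArg PowerSeries.constantCoeff i2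
    rw [map_mul, hh', one_mul, map_one] at this
    exact this
  simp only [map_mul, map_neg, map_sub, map_add, c1, c2, hh', PowerSeries.constantCoeff_X,
    zero_mul, mul_one, sub_zero, add_zero, map_natCast, neg_mul]

theorem stmt_TRI : Stmt_TRI := by
  intro q g P P' hq hP hPd hP' hP'd j hj hjg hc
  have hsq : 0 < √(q : ℝ) := Real.sqrt_pos.2 (by exact_mod_cast hq)
  have hj0 : j ≠ 0 := by omega
  rw [mom, mom, if_neg hj0, if_neg hj0]
  -- the difference
  set D : PowerSeries ℝ := ∑ l ∈ range (g + 1 - j),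
    PowerSeries.C (((P.coeff (g - (j + l)) : ℤ) : ℝ) - ((P'.coeff (g - (j + l)) : ℤ) : ℝ)) *
      PowerSeries.X ^ l * (1 + PowerSeries.C (q : ℝ) * PowerSeries.X ^ 2) ^ (g - (j + l)) with hD
  have hdiff : wser q g P = wser q g P' + PowerSeries.X ^ j * D := by
    have e1 : wser q g P - wser q g P' = ∑ l ∈ range (g + 1),
        PowerSeries.C (((P.coeff (g - l) : ℤ) : ℝ) - ((P'.coeff (g - l) : ℤ) : ℝ)) *
          PowerSeries.X ^ l * (1 + PowerSeries.C (q : ℝ) * PowerSeries.X ^ 2) ^ (g - l) := by
      rw [wser, wser, ← Finset.sum_sub_distrib]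
      refine Finset.sum_congr rfl fun l _ => ?_
      rw [map_sub]
      ring
    have e2 : g + 1 = j + (g + 1 - j) := by omega
    rw [e2, Finset.sum_range_add] at e1
    rw [Finset.sum_eq_zero (s := range j), zero_add] at e1
    · rw [← sub_eq_iff_eq_add', e1, hD, Finset.mul_sum]
      refine Finset.sum_congr rfl fun l _ => ?_
      rw [pow_add]
      ring
    · intro l hl
      have hl' := mem_range.1 hl
      rw [hc (g - l) (by omega)]
      simp
  have h := tri_abstract (wser q g P) (wser q g P') D j hj (tri_const q g P hP hPd)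
    (tri_const q g P' hP' hP'd) hdiff
  have hD0 : PowerSeries.constantCoeff D =
      ((P.coeff (g - j) : ℤ) : ℝ) - ((P'.coeff (g - j) : ℤ) : ℝ) := by
    rw [hD, map_sum, Finset.sum_eq_single 0]
    · simp
    · intro l _ hl
      simp [hl]
    · intro h
      exact absurd (mem_range.2 (by omega)) h
  rw [hD0] at h
  rw [sser, sser, ← sub_div, h]
  ring

end Pool.Agent.Work.FF
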