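import Pool.Agent.Work.MP_223b32_FF.Interface

/-! Block UEST. -/

namespace Pool.Agent.Work.FF

open Finset

theorem u_kap_nonneg (m : ℕ) : 0 ≤ kap m := by
  rw [kap]
  apply intervalIntegral.integral_nonneg (by norm_num)
  intro u hu
  apply pow_nonneg
  nlinarith [hu.1, hu.2]

theorem u_kap_zero : kap 0 = 2 := by
  simp [kap]; norm_num

theorem u_kap_succ (m : ℕ) : (2 * (m : ℝ) + 3) * kap (m + 1) = (2 * (m : ℝ) + 2) * kap m := by
  have hd : ∀ u ∈ Set.uIcc (-1 : ℝ) 1, HasDerivAt (fun u : ℝ => u * (1 - u ^ 2) ^ (m + 1))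
      ((2 * (m : ℝ) + 3) * (1 - u ^ 2) ^ (m + 1) - (2 * (m : ℝ) + 2) * (1 - u ^ 2) ^ m) u := by
    intro u _
    have h1 : HasDerivAt (fun u : ℝ => 1 - u ^ 2) (-(2 * u)) u := by
      simpa using (hasDerivAt_pow 2 u).const_sub 1
    have h2 := (hasDerivAt_id' u).fun_mul (h1.fun_pow (m + 1))
    refine h2.congr_deriv ?_
    rw [Nat.add_sub_cancel]
    push_cast
    ring
  have hi : IntervalIntegrable (fun u : ℝ => (2 * (m : ℝ) + 3) * (1 - u ^ 2) ^ (m + 1) -
      (2 * (m : ℝ) + 2) * (1 - u ^ 2) ^ m) MeasureTheory.volume (-1) 1 := by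
    apply Continuous.intervalIntegrable
    fun_prop
  have h := intervalIntegral.integral_eq_sub_of_hasDerivAt hd hi
  have i1 : IntervalIntegrable (fun u : ℝ => (2 * (m : ℝ) + 3) * (1 - u ^ 2) ^ (m + 1))
      MeasureTheory.volume (-1) 1 := by
    apply Continuous.intervalIntegrable
    fun_prop
  have i2 : IntervalIntegrable (fun u : ℝ => (2 * (m : ℝ) + 2) * (1 - u ^ 2) ^ m)
      MeasureTheory.volume (-1) 1 := by
    apply Continuous.intervalIntegrable
    fun_prop
  rw [intervalIntegral.integral_sub i1 i2, intervalIntegral.integral_const_mul,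
    intervalIntegral.integral_const_mul] at h
  rw [kap, kap]
  have h0 : (1 : ℝ) * (1 - 1 ^ 2) ^ (m + 1) - -1 * (1 - (-1) ^ 2) ^ (m + 1) = 0 := by
    norm_num
  linarith

theorem u_kap_le (m : ℕ) : kap m * √((m : ℝ) + 1) ≤ 2 := by
  induction m with
  | zero => simp [u_kap_zero]
  | succ m ih =>
    have h := u_kap_succ m
    have hk := u_kap_nonneg m
    have hm : (0 : ℝ) ≤ m := Nat.cast_nonneg m
    have h1 : kap (m + 1) = (2 * (m : ℝ) + 2) / (2 * (m : ℝ) + 3) * kap m := by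
      field_simp
      linarith
    have h2 : (2 * (m : ℝ) + 2) / (2 * (m : ℝ) + 3) * √((m : ℝ) + 1 + 1) ≤ √((m : ℝ) + 1) := by
      have h3 : (0 : ℝ) ≤ (2 * (m : ℝ) + 2) / (2 * (m : ℝ) + 3) := by positivity
      rw [← Real.sqrt_sq h3, ← Real.sqrt_mul (sq_nonneg _)]
      apply Real.sqrt_le_sqrt
      rw [div_pow, div_mul_eq_mul_div, div_le_iff₀ (by positivity)]
      nlinarith
    push_cast
    rw [h1]
    calc (2 * (m : ℝ) + 2) / (2 * (m : ℝ) + 3) * kap m * √((m : ℝ) + 1 + 1)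
        = kap m * ((2 * (m : ℝ) + 2) / (2 * (m : ℝ) + 3) * √((m : ℝ) + 1 + 1)) := by ring
      _ ≤ kap m * √((m : ℝ) + 1) := mul_le_mul_of_nonneg_left h2 hk
      _ ≤ 2 := ih

theorem u_prod_kap (s : ℕ) : (∏ m ∈ range s, kap m) * √(s.factorial : ℝ) ≤ 2 ^ s := by
  induction s with
  | zero => simp
  | succ s ih =>
    rw [prod_range_succ, Nat.factorial_succ, pow_succ]
    push_cast
    rw [Real.sqrt_mul (by positivity)]
    calc (∏ m ∈ range s, kap m) * kap s * (√((s : ℝ) + 1) * √(s.factorial : ℝ))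
        = ((∏ m ∈ range s, kap m) * √(s.factorial : ℝ)) * (kap s * √((s : ℝ) + 1)) := by ring
      _ ≤ 2 ^ s * 2 := by
        apply mul_le_mul ih (u_kap_le s)
        · exact mul_nonneg (u_kap_nonneg s) (Real.sqrt_nonneg _)
        · positivity

/-- the complement version -/
theorem u_prod_kap' {g s t : ℕ} (h : s + t = g) :
    (∏ m ∈ range s, kap m) * √(g.factorial : ℝ) ≤ 2 ^ g * (√(g : ℝ) / 2) ^ t := by
  have h1 : (g.factorial : ℝ) ≤ s.factorial * (g : ℝ) ^ t := by
    have h2 : g.factorial ≤ s.factorial * g ^ t := by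
      subst h
      induction t with
      | zero => simp
      | succ t ih =>
        rw [← Nat.add_assoc, Nat.factorial_succ, pow_succ]
        calc (s + t + 1) * (s + t).factorial ≤ (s + t + 1) * (s.factorial * (s + t) ^ t) :=
              Nat.mul_le_mul_left _ ih
          _ ≤ (s + t + 1) * (s.factorial * (s + t + 1) ^ t) := by
              apply Nat.mul_le_mul_left
              apply Nat.mul_le_mul_left
              exact Nat.pow_le_pow_left (Nat.le_succ _) _
          _ = s.factorial * ((s + t + 1) ^ t * (s + t + 1)) := by ring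
    exact_mod_cast h2
  have h3 : √(g.factorial : ℝ) ≤ √(s.factorial : ℝ) * √(g : ℝ) ^ t := by
    calc √(g.factorial : ℝ) ≤ √(s.factorial * (g : ℝ) ^ t) := Real.sqrt_le_sqrt h1
      _ = √(s.factorial : ℝ) * √(g : ℝ) ^ t := by
        rw [Real.sqrt_mul (by positivity)]
        congr 1
        rw [← Real.sqrt_sq (pow_nonneg (Real.sqrt_nonneg (g : ℝ)) t), ← pow_mul, Nat.mul_comm,
          pow_mul, Real.sq_sqrt (Nat.cast_nonneg g)]
  calc (∏ m ∈ range s, kap m) * √(g.factorial : ℝ)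
      ≤ (∏ m ∈ range s, kap m) * (√(s.factorial : ℝ) * √(g : ℝ) ^ t) :=
        mul_le_mul_of_nonneg_left h3 (prod_nonneg fun m _ => u_kap_nonneg m)
    _ = ((∏ m ∈ range s, kap m) * √(s.factorial : ℝ)) * √(g : ℝ) ^ t := by ring
    _ ≤ 2 ^ s * √(g : ℝ) ^ t := mul_le_mul_of_nonneg_right (u_prod_kap s) (by positivity)
    _ = 2 ^ g * (√(g : ℝ) / 2) ^ t := by
      rw [← h, pow_add, div_pow]
      field_simp

theorem stmt_UEST : Stmt_UEST := by
  intro q g hq hg
  set A : Fin g → ℝ := fun i => (2 * (g : ℝ) + 1) / ((((i : ℕ) : ℝ) + 1) / √(q : ℝ) ^ ((i : ℕ) + 1))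
    with hA
  have hq0 : (0 : ℝ) < q := by positivity
  have hsq : 0 < √(q : ℝ) := Real.sqrt_pos.2 hq0
  have hApos : ∀ i, 0 < A i := fun i => by simp only [hA]; positivity
  have hF : (0 : ℝ) < √(g.factorial : ℝ) := Real.sqrt_pos.2 (by positivity)
  -- Step 1
  have step1 : (∑ S : Finset (Fin g), (∏ i ∈ S, A i) * ∏ m ∈ range S.card, kap m) *
      √(g.factorial : ℝ) ≤ 2 ^ g * ∏ i : Fin g, (A i + √(g : ℝ) / 2) := by
    rw [Finset.prod_add, Finset.sum_mul, Finset.mul_sum, Finset.powerset_univ]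
    apply Finset.sum_le_sum
    intro S _
    have hc : S.card + (univ \ S).card = g := by
      rw [Finset.card_sdiff_of_subset (subset_univ S), Finset.card_univ, Fintype.card_fin]
      have : S.card ≤ g := by simpa using Finset.card_le_univ S
      omega
    rw [Finset.prod_const]
    calc (∏ i ∈ S, A i) * (∏ m ∈ range S.card, kap m) * √(g.factorial : ℝ)
        = (∏ i ∈ S, A i) * ((∏ m ∈ range S.card, kap m) * √(g.factorial : ℝ)) := by ring
      _ ≤ (∏ i ∈ S, A i) * (2 ^ g * (√(g : ℝ) / 2) ^ (univ \ S).card) := by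
        apply mul_le_mul_of_nonneg_left (u_prod_kap' hc)
        exact prod_nonneg fun i _ => (hApos i).le
      _ = _ := by ring
  -- Step 2: each factor
  have hg1 : (1 : ℝ) ≤ g := by exact_mod_cast hg
  have step2 : ∀ i : Fin g, A i + √(g : ℝ) / 2 ≤
      (3 * (g : ℝ)) * √(q : ℝ) ^ ((i : ℕ) + 1) / (((i : ℕ) : ℝ) + 1) * 2 := by
    intro i
    have hi : (0 : ℝ) ≤ ((i : ℕ) : ℝ) := Nat.cast_nonneg _
    have hs2 : (1 : ℝ) + (((i : ℕ) : ℝ) + 1) * (2 / 5) ≤ √(q : ℝ) ^ ((i : ℕ) + 1) := by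
      have h75 : (7 : ℝ) / 5 ≤ √(q : ℝ) := by
        apply Real.le_sqrt_of_sq_le
        have : (2 : ℝ) ≤ q := by exact_mod_cast hq
        norm_num
        linarith
      have h := one_add_mul_le_pow (a := (2 / 5 : ℝ)) (by norm_num) ((i : ℕ) + 1)
      push_cast at h
      calc (1 : ℝ) + (((i : ℕ) : ℝ) + 1) * (2 / 5) ≤ (1 + 2 / 5) ^ ((i : ℕ) + 1) := h
        _ = (7 / 5) ^ ((i : ℕ) + 1) := by norm_num
        _ ≤ √(q : ℝ) ^ ((i : ℕ) + 1) := pow_le_pow_left₀ (by norm_num) h75 _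
    have hsg : √(g : ℝ) ≤ g := by
      rw [Real.sqrt_le_left (by positivity)]
      nlinarith
    have hAi : A i = (2 * (g : ℝ) + 1) * √(q : ℝ) ^ ((i : ℕ) + 1) / (((i : ℕ) : ℝ) + 1) := by
      simp only [hA]
      field_simp
    rw [hAi]
    have hi1 : (0 : ℝ) < ((i : ℕ) : ℝ) + 1 := by positivity
    have e1 : (2 * (g : ℝ) + 1) * √(q : ℝ) ^ ((i : ℕ) + 1) / (((i : ℕ) : ℝ) + 1) ≤
        3 * (g : ℝ) * √(q : ℝ) ^ ((i : ℕ) + 1) / (((i : ℕ) : ℝ) + 1) := by
      apply div_le_div_of_nonneg_right _ hi1.le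
      apply mul_le_mul_of_nonneg_right _ (by positivity)
      linarith
    have e2 : √(g : ℝ) / 2 ≤ 3 * (g : ℝ) * √(q : ℝ) ^ ((i : ℕ) + 1) / (((i : ℕ) : ℝ) + 1) := by
      rw [le_div_iff₀ hi1]
      have : √(g : ℝ) / 2 * (((i : ℕ) : ℝ) + 1) ≤ (g : ℝ) / 2 * (((i : ℕ) : ℝ) + 1) := by
        apply mul_le_mul_of_nonneg_right _ hi1.le
        linarith
      refine this.trans ?_
      have h5 : (g : ℝ) / 2 * (((i : ℕ) : ℝ) + 1) ≤ 3 * (g : ℝ) * ((((i : ℕ) : ℝ) + 1) * (2 / 5)) := by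
        nlinarith
      refine h5.trans ?_
      apply mul_le_mul_of_nonneg_left _ (by positivity)
      linarith
    linarith
  have step3 : ∏ i : Fin g, (A i + √(g : ℝ) / 2) ≤
      (6 * (g : ℝ)) ^ g * √(q : ℝ) ^ (g * (g + 1) / 2) / g.factorial := by
    calc ∏ i : Fin g, (A i + √(g : ℝ) / 2)
        ≤ ∏ i : Fin g, ((3 * (g : ℝ)) * √(q : ℝ) ^ ((i : ℕ) + 1) / (((i : ℕ) : ℝ) + 1) * 2) := by
          apply prod_le_prod
          · intro i _
            have := hApos i
            positivity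
          · intro i _
            exact step2 i
      _ = ∏ i ∈ range g, ((3 * (g : ℝ)) * √(q : ℝ) ^ (i + 1) / ((i : ℝ) + 1) * 2) :=
          Fin.prod_univ_eq_prod_range
            (fun i : ℕ => (3 * (g : ℝ)) * √(q : ℝ) ^ (i + 1) / ((i : ℝ) + 1) * 2) g
      _ = _ := by
          have e1 : ∀ n : ℕ, ∏ i ∈ range n, ((3 * (g : ℝ)) * √(q : ℝ) ^ (i + 1) / ((i : ℝ) + 1) * 2)
              = (6 * (g : ℝ)) ^ n * √(q : ℝ) ^ (∑ i ∈ range n, (i + 1)) / n.factorial := by
            intro n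
            induction n with
            | zero => simp
            | succ n ih =>
              rw [prod_range_succ, ih, sum_range_succ, Nat.factorial_succ, pow_succ, pow_add]
              push_cast
              field_simp
              ring
          rw [e1]
          congr 3
          have : ∑ i ∈ range g, (i + 1) = ∑ i ∈ range (g + 1), i := by
            rw [Finset.sum_range_succ' (fun i => i) g]
            simp
          rw [this, Finset.sum_range_id, Nat.add_sub_cancel, Nat.mul_comm]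
  have step4 : (6 * (g : ℝ)) ^ g / g.factorial ≤ 50 ^ g := by
    have h1 := Real.pow_div_factorial_le_exp (g : ℝ) (by positivity) g
    have h2 : Real.exp (g : ℝ) ≤ 3 ^ g := by
      have : Real.exp (g : ℝ) = Real.exp 1 ^ g := by
        rw [← Real.exp_nat_mul]; simp
      rw [this]
      exact pow_le_pow_left₀ (Real.exp_pos _).le (Real.exp_one_lt_d9.le.trans (by norm_num)) _
    calc (6 * (g : ℝ)) ^ g / g.factorial = 6 ^ g * ((g : ℝ) ^ g / g.factorial) := by
          rw [mul_pow]; ring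
      _ ≤ 6 ^ g * 3 ^ g := by
          apply mul_le_mul_of_nonneg_left (h1.trans h2) (by positivity)
      _ = 18 ^ g := by rw [← mul_pow]; norm_num
      _ ≤ 50 ^ g := pow_le_pow_left₀ (by norm_num) (by norm_num) _
  rw [le_div_iff₀ hF]
  refine step1.trans ?_
  calc 2 ^ g * ∏ i : Fin g, (A i + √(g : ℝ) / 2)
      ≤ 2 ^ g * ((6 * (g : ℝ)) ^ g * √(q : ℝ) ^ (g * (g + 1) / 2) / g.factorial) :=
        mul_le_mul_of_nonneg_left step3 (by positivity)
    _ = 2 ^ g * ((6 * (g : ℝ)) ^ g / g.factorial) * √(q : ℝ) ^ (g * (g + 1) / 2) := by ring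
    _ ≤ 2 ^ g * 50 ^ g * √(q : ℝ) ^ (g * (g + 1) / 2) := by
        apply mul_le_mul_of_nonneg_right _ (by positivity)
        exact mul_le_mul_of_nonneg_left step4 (by positivity)
    _ = 100 ^ g * √(q : ℝ) ^ (g * (g + 1) / 2) := by rw [← mul_pow]; norm_num
    _ ≤ 200 ^ g * √(q : ℝ) ^ (g * (g + 1) / 2) := by
        apply mul_le_mul_of_nonneg_right _ (by positivity)
        exact pow_le_pow_left₀ (by norm_num) (by norm_num) _

end Pool.Agent.Work.FF
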