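import Pool.Agent.Work.MP_223b32_FF.Interface

/-! Block UPPER. -/

namespace Pool.Agent.Work.FF

open Polynomial Finset Pool.Agent.Work.MP_223b32_ag_56

/-- polynomial from the reversed vector -/
noncomputable def upPoly {g : ℕ} (a : Fin g → ℤ) : ℤ[X] := mk (fun i => a (Fin.rev i))

theorem upPoly_monic {g : ℕ} (a : Fin g → ℤ) : (upPoly a).Monic := mk_monic _

theorem upPoly_natDegree {g : ℕ} (a : Fin g → ℤ) : (upPoly a).natDegree = g := mk_natDegree _

theorem upPoly_coeff {g : ℕ} (a : Fin g → ℤ) (i : Fin g) :
    (upPoly a).coeff (g - ((i : ℕ) + 1)) = a i := by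
  have h := mk_coeff (fun i => a (Fin.rev i)) (Fin.rev i)
  rw [Fin.rev_rev, Fin.val_rev] at h
  exact h

theorem stmt_UPPER (hT : Stmt_TOEP) (hU : Stmt_UEST) (hR : Stmt_TRI) : Stmt_UPPER := by
  classical
  intro q g hq hg A hA
  have hq0 : (0 : ℝ) < q := by positivity
  have hsq : 0 < √(q : ℝ) := Real.sqrt_pos.2 hq0
  let φ : ℤ[X] → (Fin g → ℤ) := fun P i => P.coeff (g - ((i : ℕ) + 1))
  have hφ : ∀ P : ℤ[X], P.Monic → P.natDegree = g → upPoly (φ P) = P := by
    intro P hP hd
    have h := mk_surj hP hd
    rw [upPoly]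
    conv_rhs => rw [← h]
    congr 1
    funext i
    simp only [φ]
    congr 1
    rw [Fin.val_rev]
    omega
  have hinj : Set.InjOn φ (A : Set ℤ[X]) := by
    intro P hP P' hP' h
    rw [← hφ P (hA P hP).1 (hA P hP).2.1, h, hφ P' (hA P' hP').1 (hA P' hP').2.1]
  have hcard : (A.image φ).card = A.card := Finset.card_image_of_injOn hinj
  have h := hT g (fun a => mom q g (upPoly a)) (fun i => (((i : ℕ) : ℝ) + 1) / √(q : ℝ) ^ ((i : ℕ) + 1))
    (2 * (g : ℝ) + 1) (by positivity) (fun i => by positivity) (fun a => by simp [mom])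
    (fun a a' i haa => by
      have h1 := hR q g (upPoly a) (upPoly a') (by omega) (upPoly_monic a) (upPoly_natDegree a)
        (upPoly_monic a') (upPoly_natDegree a') ((i : ℕ) + 1) (by omega) (by omega) (by
          intro l hl
          rcases lt_or_ge l g with h2 | h2
          · have h3 := upPoly_coeff a ⟨g - (l + 1), by omega⟩
            have h4 := upPoly_coeff a' ⟨g - (l + 1), by omega⟩
            have h5 : g - (g - (l + 1) + 1) = l := by omega
            simp only [h5] at h3 h4
            rw [h3, h4]
            apply haa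
            rw [Fin.lt_def]
            simp only
            omega
          · rcases h2.eq_or_lt with h6 | h6
            · have h7 := (upPoly_monic a).coeff_natDegree
              have h8 := (upPoly_monic a').coeff_natDegree
              rw [upPoly_natDegree] at h7 h8
              rw [← h6, h7, h8]
            · rw [coeff_eq_zero_of_natDegree_lt (by rw [upPoly_natDegree]; exact h6),
                coeff_eq_zero_of_natDegree_lt (by rw [upPoly_natDegree]; exact h6)])
      rw [h1, upPoly_coeff, upPoly_coeff]
      push_cast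
      ring)
    (A.image φ) (by
      intro a ha
      obtain ⟨P, hP, rfl⟩ := Finset.mem_image.1 ha
      rw [hφ P (hA P hP).1 (hA P hP).2.1]
      exact (hA P hP).2.2)
  rw [hcard] at h
  exact h.trans (hU q g hq hg)

end Pool.Agent.Work.FF
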