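import Pool.Agent.Work.MP_223b32_FF.FINAL
import Pool.Agent.Work.MP_223b32_FF.TOEP
import Pool.Agent.Work.MP_223b32_FF.UEST
import Pool.Agent.Work.MP_223b32_FF.TRI
import Pool.Agent.Work.MP_223b32_FF.UPPER
import Pool.Agent.Work.MP_223b32_FF.CUBE
import Pool.Agent.Work.MP_223b32_FF.COVER
import Pool.Agent.Work.MP_223b32_FF.RED
import Pool.Agent.Work.MP_223b32_FF.CSIEVE
import Pool.Agent.Work.MP_223b32_FF.PRIMES
import Pool.Agent.Work.MP_223b32_FF.MORD
import Pool.Agent.Work.MP_223b32_FF.DIAG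
import Pool.Agent.Work.MP_223b32_FF.COUNT3
import Pool.Agent.Work.MP_223b32_FF.PATT
import Pool.Agent.Work.MP_223b32_FF.LOWER
import Pool.Agent.Work.MP_223b32_FF.FROB
import Pool.Agent.Work.MP_223b32_FF.SEP
import Pool.Agent.Work.MP_223b32_FF.GAL
import Pool.Agent.Work.MP_223b32_FF.ARITH

/-!
All blocks together.
-/

namespace Pool.Agent.Work.FF

open Pool.Agent.Work.MP_223b32_ag_56 Polynomial

end Pool.Agent.Work.FF
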