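import Pool.Agent.Work.MP_223b32_ag_56.Main

/-!
Definitions for the theorem fixed finite field, dimension to infinity (MP_223b32_ag).
-/

namespace Pool.Agent.Work.FF

open Polynomial Finset Pool.Agent.Work.MP_223b32_ag_56

/-- `∫_{-1}^1 (1 - u ^ 2) ^ m du`. -/
noncomputable def kap (m : ℕ) : ℝ := ∫ u in (-1 : ℝ)..1, (1 - u ^ 2) ^ m

/-- The Toeplitz form with symbol `c 0, c 1, …, c n` is positive definite. (`(i - l) + (l - i)`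
is `|i - l|` in `ℕ`.) -/
def ToepPos (c : ℕ → ℝ) (n : ℕ) : Prop :=
  ∀ v : ℕ → ℝ, (∃ i ≤ n, v i ≠ 0) →
    0 < ∑ i ∈ range (n + 1), ∑ l ∈ range (n + 1), v i * v l * c ((i - l) + (l - i))

/-- The power series `∑ a_j T ^ j (1 + q T ^ 2) ^ (g - j)`, `a_j` the coefficient of `X ^ (g - j)`
in `P`; for `P = ∏ (X - x_i)` it is `∏ (1 - x_i T + q T ^ 2)`. -/
noncomputable def wser (q g : ℕ) (P : ℤ[X]) : PowerSeries ℝ :=
  ∑ j ∈ range (g + 1), PowerSeries.C ((P.coeff (g - j) : ℤ) : ℝ) * PowerSeries.X ^ j *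
    (1 + PowerSeries.C (q : ℝ) * PowerSeries.X ^ 2) ^ (g - j)

/-- The generating function of the power sums: `- T h' / h`. -/
noncomputable def sser (q g : ℕ) (P : ℤ[X]) : PowerSeries ℝ :=
  -(PowerSeries.X * PowerSeries.derivative ℝ (wser q g P)) * (wser q g P)⁻¹

/-- The normalised moments: for `P = ∏ (X - 2 √q cos θ_i)` the `j`-th one is `∑ 2 cos (j θ_i)`,
except that the mass (`j = 0`) is `2 g + 1` instead of `2 g`. -/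
noncomputable def mom (q g : ℕ) (P : ℤ[X]) (j : ℕ) : ℝ :=
  if j = 0 then 2 * (g : ℝ) + 1 else PowerSeries.coeff j (sser q g P) / √(q : ℝ) ^ j

/-- A factorisation pattern modulo `ℓ`. -/
def Pattern (q ℓ d₁ d₂ d₃ : ℕ) (f : (ZMod ℓ)[X]) : Prop :=
  ∃ f₁ f₂ f₃ : (ZMod ℓ)[X], f = f₁ * f₂ * f₃ ∧ f₁.Monic ∧ f₂.Monic ∧ f₃.Monic ∧
    Irreducible f₁ ∧ Irreducible f₂ ∧ Irreducible f₃ ∧
    f₁.natDegree = d₁ ∧ f₂.natDegree = d₂ ∧ f₃.natDegree = d₃ ∧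
    ¬ IsSquare ((AdjoinRoot.root f₂) ^ 2 - 4 * (q : AdjoinRoot f₂))

/-- The admissible degrees. -/
def Adm (g k d₁ d₂ d₃ : ℕ) : Prop :=
  d₁ + d₂ + d₃ = g ∧ 3 ≤ d₂ ∧ 3 ≤ d₃ ∧ d₂ ≠ d₃ ∧ d₂ ≤ k ∧ d₃ ≤ k ∧ 2 * k ≤ d₂ + d₃ + 2 ∧
    4 * k ≤ d₁ ∧ Nat.Coprime d₁ d₃ ∧ ∃ e : ℕ, 2 ^ e ∣ d₂ ∧ ¬ 2 ^ e ∣ d₁ ∧ ¬ 2 ^ e ∣ d₃

/-- The vector with the entries of `c` below `g - k` and those of `t` from `g - k` on. -/
def glue {R : Type*} {g k : ℕ} (c : Fin (g - k) → R) (t : Fin g → R) : Fin g → R :=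
  fun i => if h : (i : ℕ) < g - k then c ⟨i, h⟩ else t i

end Pool.Agent.Work.FF
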