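import Pool.Agent.Work.MP_223b32_FF.Interface

/-!
Power series computations for the block CUBE.
-/

namespace Pool.Agent.Work.FF

open Finset PowerSeries

/-! ### Weighted truncated norm -/

/-- The weighted truncated norm. -/
noncomputable def nrm (g : ℕ) (ρ : ℝ) (f : ℝ⟦X⟧) : ℝ := ∑ n ∈ range (g + 1), |coeff n f| * ρ ^ n

theorem nrm_nonneg {g : ℕ} {ρ : ℝ} (hρ : 0 ≤ ρ) (f : ℝ⟦X⟧) : 0 ≤ nrm g ρ f :=
  sum_nonneg fun n _ => by positivity

theorem nrm_add_le {g : ℕ} {ρ : ℝ} (hρ : 0 ≤ ρ) (f h : ℝ⟦X⟧) :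
    nrm g ρ (f + h) ≤ nrm g ρ f + nrm g ρ h := by
  rw [nrm, nrm, nrm, ← sum_add_distrib]
  refine sum_le_sum fun n _ => ?_
  rw [← add_mul, map_add]
  exact mul_le_mul_of_nonneg_right (abs_add_le _ _) (by positivity)

theorem nrm_sum_le {g : ℕ} {ρ : ℝ} (hρ : 0 ≤ ρ) {ι : Type*} (s : Finset ι) (f : ι → ℝ⟦X⟧) :
    nrm g ρ (∑ i ∈ s, f i) ≤ ∑ i ∈ s, nrm g ρ (f i) := by
  classical
  induction s using Finset.induction_on with
  | empty => simp [nrm]
  | insert a s ha ih =>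
    rw [sum_insert ha, sum_insert ha]
    exact (nrm_add_le hρ _ _).trans (add_le_add le_rfl ih)

theorem nrm_mul_le {g : ℕ} {ρ : ℝ} (hρ : 0 ≤ ρ) (f h : ℝ⟦X⟧) :
    nrm g ρ (f * h) ≤ nrm g ρ f * nrm g ρ h := by
  classical
  set F : ℕ × ℕ → ℝ := fun p => (|coeff p.1 f| * ρ ^ p.1) * (|coeff p.2 h| * ρ ^ p.2) with hF
  have hF0 : ∀ p, 0 ≤ F p := fun p => by
    rw [hF]
    positivity
  have h1 : nrm g ρ (f * h) ≤ ∑ n ∈ range (g + 1), ∑ p ∈ antidiagonal n, F p := by
    rw [nrm]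
    refine sum_le_sum fun n _ => ?_
    rw [coeff_mul]
    refine (mul_le_mul_of_nonneg_right (abs_sum_le_sum_abs _ _) (by positivity)).trans ?_
    rw [sum_mul]
    refine sum_le_sum fun p hp => le_of_eq ?_
    rw [← HasAntidiagonal.mem_antidiagonal.1 hp, pow_add, abs_mul, hF]
    ring
  refine h1.trans ?_
  set S : Finset (ℕ × ℕ) := range (g + 1) ×ˢ range (g + 1) with hS
  have h2 : ∀ n ∈ range (g + 1), ∑ p ∈ antidiagonal n, F p =
      ∑ p ∈ S, if p.1 + p.2 = n then F p else 0 := by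
    intro n hn
    rw [← sum_filter]
    refine sum_congr ?_ fun _ _ => rfl
    ext p
    rw [HasAntidiagonal.mem_antidiagonal, mem_filter, hS, mem_product, mem_range, mem_range]
    have := mem_range.1 hn
    constructor
    · intro h
      exact ⟨⟨by omega, by omega⟩, h⟩
    · intro h
      exact h.2
  rw [sum_congr rfl h2, sum_comm, nrm, nrm, sum_mul_sum]
  have h3 : ∑ i ∈ range (g + 1), ∑ j ∈ range (g + 1),
      |coeff i f| * ρ ^ i * (|coeff j h| * ρ ^ j) = ∑ p ∈ S, F p := by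
    rw [hS, sum_product]
  rw [h3]
  refine sum_le_sum fun p _ => ?_
  rw [sum_ite_eq]
  split_ifs
  · exact le_rfl
  · exact hF0 p

theorem nrm_C (g : ℕ) (ρ a : ℝ) : nrm g ρ (C a) = |a| := by
  rw [nrm, sum_range_succ', coeff_zero_eq_constantCoeff_apply, constantCoeff_C, pow_zero, mul_one]
  have : ∑ n ∈ range g, |coeff (n + 1) (C a : ℝ⟦X⟧)| * ρ ^ (n + 1) = 0 := by
    refine sum_eq_zero fun n _ => ?_
    rw [coeff_C, if_neg (by omega), abs_zero, zero_mul]
  rw [this, zero_add]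

theorem nrm_one (g : ℕ) (ρ : ℝ) : nrm g ρ 1 = 1 := by
  have := nrm_C g ρ 1
  simpa using this

theorem nrm_X_pow_le {g : ℕ} {ρ : ℝ} (hρ : 0 ≤ ρ) (j : ℕ) : nrm g ρ (X ^ j : ℝ⟦X⟧) ≤ ρ ^ j := by
  rw [nrm]
  calc ∑ n ∈ range (g + 1), |coeff n (X ^ j : ℝ⟦X⟧)| * ρ ^ n =
        ∑ n ∈ range (g + 1), if n = j then ρ ^ j else 0 := by
          refine sum_congr rfl fun n _ => ?_
          rw [coeff_X_pow]
          split_ifs with h
          · rw [h]; simp
          · simp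
    _ ≤ ρ ^ j := by
        rw [sum_ite_eq']
        split_ifs
        · exact le_rfl
        · positivity

theorem nrm_pow_le {g : ℕ} {ρ : ℝ} (hρ : 0 ≤ ρ) (f : ℝ⟦X⟧) (n : ℕ) :
    nrm g ρ (f ^ n) ≤ nrm g ρ f ^ n := by
  induction n with
  | zero => rw [pow_zero, pow_zero, nrm_one]
  | succ n ih =>
    rw [pow_succ, pow_succ]
    exact (nrm_mul_le hρ _ _).trans (mul_le_mul_of_nonneg_right ih (nrm_nonneg hρ _))

theorem coeff_le_nrm {g : ℕ} {ρ : ℝ} (hρ : 0 < ρ) (f : ℝ⟦X⟧) {n : ℕ} (hn : n ≤ g) :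
    |coeff n f| * ρ ^ n ≤ nrm g ρ f :=
  single_le_sum (f := fun n => |coeff n f| * ρ ^ n) (fun _ _ => by positivity)
    (mem_range.2 (by omega))

/-! ### Quadratic factors -/

/-- `1 - x T + q T²`. -/
noncomputable def quad (q x : ℝ) : ℝ⟦X⟧ := 1 - C x * X + C q * X ^ 2

theorem constantCoeff_quad (q x : ℝ) : constantCoeff (quad q x) = 1 := by
  simp [quad]

theorem quad_mul_inv (q x : ℝ) : quad q x * (quad q x)⁻¹ = 1 :=
  PowerSeries.mul_inv_cancel _ (by rw [constantCoeff_quad]; exact one_ne_zero)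

/-- Norm of the inverse of a quadratic factor. -/
theorem nrm_quad_inv {g : ℕ} {q r x : ℝ} (hr : 0 < r) (hq : r ^ 2 = q) (hx : x ^ 2 ≤ 4 * q) :
    nrm g (1 / (4 * r)) (quad q x)⁻¹ ≤ 16 / 7 := by
  set ρ : ℝ := 1 / (4 * r) with hρdef
  have hρ : 0 < ρ := by positivity
  have hρr : ρ * r = 1 / 4 := by
    rw [hρdef]; field_simp
  set u : ℝ⟦X⟧ := C x * X + -(C q * X ^ 2) with hu
  have hx' : |x| ≤ 2 * r := by
    rw [← hq] at hx
    exact abs_le_of_sq_le_sq (by nlinarith) (by positivity)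
  have h1 : (quad q x)⁻¹ = 1 + u * (quad q x)⁻¹ := by
    have h2 := quad_mul_inv q x
    rw [hu]
    nth_rewrite 1 [quad] at h2
    linear_combination h2
  have h2 : nrm g ρ u ≤ 9 / 16 := by
    refine (nrm_add_le hρ.le _ _).trans ?_
    have a1 : nrm g ρ (C x * X : ℝ⟦X⟧) ≤ 1 / 2 := by
      refine (nrm_mul_le hρ.le _ _).trans ?_
      have := nrm_X_pow_le (g := g) hρ.le 1
      rw [pow_one, pow_one] at this
      rw [nrm_C]
      calc |x| * nrm g ρ (X : ℝ⟦X⟧) ≤ (2 * r) * ρ :=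
            mul_le_mul hx' this (nrm_nonneg hρ.le _) (by positivity)
        _ = 1 / 2 := by linarith
    have a2 : nrm g ρ (-(C q * X ^ 2) : ℝ⟦X⟧) ≤ 1 / 16 := by
      have e1 : (-(C q * X ^ 2) : ℝ⟦X⟧) = C (-q) * X ^ 2 := by
        rw [map_neg, neg_mul]
      rw [e1]
      refine (nrm_mul_le hρ.le _ _).trans ?_
      rw [nrm_C, abs_neg]
      calc |q| * nrm g ρ (X ^ 2 : ℝ⟦X⟧) ≤ r ^ 2 * ρ ^ 2 := by
            rw [← hq, abs_of_nonneg (sq_nonneg r)]
            exact mul_le_mul_of_nonneg_left (nrm_X_pow_le hρ.le 2) (sq_nonneg r)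
        _ = (ρ * r) ^ 2 := by ring
        _ = 1 / 16 := by rw [hρr]; norm_num
    linarith
  have h3 : nrm g ρ (quad q x)⁻¹ ≤ 1 + 9 / 16 * nrm g ρ (quad q x)⁻¹ := by
    nth_rewrite 1 [h1]
    refine (nrm_add_le hρ.le _ _).trans ?_
    rw [nrm_one]
    refine add_le_add le_rfl ((nrm_mul_le hρ.le _ _).trans ?_)
    exact mul_le_mul_of_nonneg_right h2 (nrm_nonneg hρ.le _)
  linarith

/-! ### The generating function of the power sums of one root -/

/-- `∑ 2 r ^ n cos (n θ) T ^ n` without constant term. -/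
noncomputable def cser (r θ : ℝ) : ℝ⟦X⟧ :=
  PowerSeries.mk fun n => if n = 0 then 0 else 2 * r ^ n * Real.cos (n * θ)

theorem cser_eq (r θ : ℝ) : cser r θ * quad (r ^ 2) (2 * r * Real.cos θ) =
    -(X * PowerSeries.derivative ℝ (quad (r ^ 2) (2 * r * Real.cos θ))) := by
  have hd : -(X * PowerSeries.derivative ℝ (quad (r ^ 2) (2 * r * Real.cos θ))) =
      C (2 * r * Real.cos θ) * X - C (2 * r ^ 2) * X ^ 2 := by
    have : PowerSeries.derivative ℝ (quad (r ^ 2) (2 * r * Real.cos θ)) =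
        -C (2 * r * Real.cos θ) + C (2 * r ^ 2) * X := by
      rw [quad, map_add, map_sub]
      rw [Derivation.leibniz, Derivation.leibniz]
      simp only [derivative_C, derivative_one, derivative_X, smul_eq_mul]
      rw [Derivation.leibniz_pow, derivative_X]
      simp only [map_mul, map_ofNat, map_pow]
      simp
      ring
    rw [this]
    simp only [map_mul, map_ofNat, map_pow]
    ring
  rw [hd]
  ext n
  rw [quad]
  have e1 : cser r θ * (1 - C (2 * r * Real.cos θ) * X + C (r ^ 2) * X ^ 2) =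
      cser r θ - C (2 * r * Real.cos θ) * (cser r θ * X) + C (r ^ 2) * (cser r θ * X ^ 2) := by
    ring
  rw [e1, map_add, map_sub, coeff_C_mul, coeff_C_mul, map_sub, coeff_C_mul, coeff_C_mul]
  rcases n with _ | _ | n
  · simp [cser]
  · rw [zero_add, coeff_mul_X_pow', coeff_X, coeff_X_pow]
    have h1 := coeff_succ_mul_X 0 (cser r θ)
    rw [zero_add] at h1
    rw [h1]
    simp [cser]
  · have h1 := coeff_succ_mul_X (n + 1) (cser r θ)
    rw [h1, show n + 1 + 1 = n + 2 by rfl, coeff_mul_X_pow', if_pos (by omega), coeff_X, coeff_X_pow,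
      Nat.add_sub_cancel]
    rw [if_neg (by omega)]
    rcases n with _ | n
    · simp only [cser, coeff_mk]
      simp
      have := Real.cos_two_mul θ
      rw [this]
      ring
    · rw [if_neg (by omega)]
      simp only [cser, coeff_mk]
      rw [if_neg (by omega), if_neg (by omega), if_neg (by omega)]
      have h2 : Real.cos (((n + 1 + 2 : ℕ) : ℝ) * θ) =
          2 * Real.cos θ * Real.cos (((n + 1 + 1 : ℕ) : ℝ) * θ) -
            Real.cos (((n + 1 : ℕ) : ℝ) * θ) := by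
        have a1 : ((n + 1 + 2 : ℕ) : ℝ) * θ = ((n + 1 + 1 : ℕ) : ℝ) * θ + θ := by push_cast; ring
        have a2 : ((n + 1 : ℕ) : ℝ) * θ = ((n + 1 + 1 : ℕ) : ℝ) * θ - θ := by push_cast; ring
        rw [a1, a2, Real.cos_add, Real.cos_sub]
        ring
      rw [h2]
      ring

/-! ### Logarithmic derivatives -/

/-- `-T h' / h`. -/
noncomputable def lder (h : ℝ⟦X⟧) : ℝ⟦X⟧ := -(X * PowerSeries.derivative ℝ h) * h⁻¹

theorem lder_mul {f h : ℝ⟦X⟧} (hf : constantCoeff f ≠ 0) (hh : constantCoeff h ≠ 0) :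
    lder (f * h) = lder f + lder h := by
  rw [lder, lder, lder, PowerSeries.mul_inv_rev, Derivation.leibniz]
  have h1 := PowerSeries.mul_inv_cancel _ hf
  have h2 := PowerSeries.mul_inv_cancel _ hh
  simp only [smul_eq_mul]
  linear_combination (-(X * PowerSeries.derivative ℝ h) * h⁻¹) * h1 +
    (-(X * PowerSeries.derivative ℝ f) * f⁻¹) * h2

theorem lder_one : lder 1 = 0 := by
  rw [lder, derivative_one, mul_zero, neg_zero, zero_mul]

theorem lder_quad {r θ : ℝ} : lder (quad (r ^ 2) (2 * r * Real.cos θ)) = cser r θ := by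
  rw [lder, ← cser_eq, mul_assoc, quad_mul_inv, mul_one]

end Pool.Agent.Work.FF
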