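import Pool.Agent.Work.MP_223b32_FF.MORD

/-!
DIAG: mean square of short character sums over a finite field (helper76).
-/

namespace Pool.Agent.Work.FF

namespace DIAGAux

open Polynomial Finset MORDAux

section

variable {ℓ : ℕ} [Fact ℓ.Prime] {L : Type*} [Field L] [Fintype L] [Algebra (ZMod ℓ) L]

theorem trace_pow (x : L) (j : ℕ) :
    algebraMap (ZMod ℓ) L (Algebra.trace (ZMod ℓ) L (x ^ j)) =
      ∑ σ : Gal(L/ZMod ℓ), (σ x) ^ j := by
  rw [trace_eq_sum_automorphisms]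
  simp only [map_pow]

/-- Elements with the same traces of powers are conjugate. -/
theorem conj_of_trace (hd : Module.finrank (ZMod ℓ) L < ℓ) (x y : L)
    (h : ∀ j : ℕ, 1 ≤ j → j ≤ Module.finrank (ZMod ℓ) L →
      Algebra.trace (ZMod ℓ) L (x ^ j) = Algebra.trace (ZMod ℓ) L (y ^ j)) :
    ∃ σ : Gal(L/ZMod ℓ), σ y = x := by
  have : CharP L ℓ := charP_of_injective_algebraMap (algebraMap (ZMod ℓ) L).injective ℓ
  have : FiniteDimensional (ZMod ℓ) L := Module.Finite.of_finite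
  have hc : Fintype.card Gal(L/ZMod ℓ) = Module.finrank (ZMod ℓ) L := by
    rw [← Nat.card_eq_fintype_card]
    exact IsGalois.card_aut_eq_finrank _ _
  set e := Module.finrank (ZMod ℓ) L with he
  let φ : Gal(L/ZMod ℓ) ≃ Fin e := Fintype.equivFinOfCardEq hc
  have key := map_eq (F := L) hd (fun i => (φ.symm i) x) (fun i => (φ.symm i) y) (by
    intro j
    have h1 := congrArg (algebraMap (ZMod ℓ) L) (h ((j : ℕ) + 1) (by omega) (by omega))
    rw [trace_pow, trace_pow] at h1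
    rw [Equiv.sum_comp φ.symm (fun σ : Gal(L/ZMod ℓ) => (σ x) ^ ((j : ℕ) + 1)),
      Equiv.sum_comp φ.symm (fun σ : Gal(L/ZMod ℓ) => (σ y) ^ ((j : ℕ) + 1))]
    exact h1)
  have hx : x ∈ (univ : Finset (Fin e)).val.map (fun i => (φ.symm i) x) := by
    rw [Multiset.mem_map]
    exact ⟨φ 1, by simp, by simp⟩
  rw [key, Multiset.mem_map] at hx
  obtain ⟨i, _, hi⟩ := hx
  exact ⟨φ.symm i, hi⟩

theorem card_conj [DecidableEq L] (k : ℕ) (hk : Module.finrank (ZMod ℓ) L ≤ k) (hkl : k < ℓ)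
    (Ω : Finset L) (y : L) :
    (Ω.filter fun x => ∀ j : Fin k, Algebra.trace (ZMod ℓ) L (x ^ ((j : ℕ) + 1)) =
      Algebra.trace (ZMod ℓ) L (y ^ ((j : ℕ) + 1))).card ≤ Module.finrank (ZMod ℓ) L := by
  classical
  have : FiniteDimensional (ZMod ℓ) L := Module.Finite.of_finite
  have h1 : (Ω.filter fun x => ∀ j : Fin k, Algebra.trace (ZMod ℓ) L (x ^ ((j : ℕ) + 1)) =
      Algebra.trace (ZMod ℓ) L (y ^ ((j : ℕ) + 1))) ⊆
      (univ : Finset Gal(L/ZMod ℓ)).image fun σ => σ y := by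
    intro x hx
    rw [Finset.mem_filter] at hx
    obtain ⟨σ, hσ⟩ := conj_of_trace (ℓ := ℓ) (by omega) x y (by
      intro j hj1 hj2
      have := hx.2 ⟨j - 1, by omega⟩
      have h3 : j - 1 + 1 = j := by omega
      simpa only [h3] using this)
    exact Finset.mem_image.2 ⟨σ, Finset.mem_univ _, hσ⟩
  refine (Finset.card_le_card h1).trans (Finset.card_image_le.trans ?_)
  rw [Finset.card_univ, ← Nat.card_eq_fintype_card]
  exact (IsGalois.card_aut_eq_finrank _ _).le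

omit [Fintype L] in
theorem trace_sum (k : ℕ) (v : Fin k → ZMod ℓ) (x : L) :
    Algebra.trace (ZMod ℓ) L (∑ j : Fin k, algebraMap (ZMod ℓ) L (v j) * x ^ ((j : ℕ) + 1)) =
      ∑ j : Fin k, v j * Algebra.trace (ZMod ℓ) L (x ^ ((j : ℕ) + 1)) := by
  rw [map_sum]
  refine Finset.sum_congr rfl ?_
  intro j _
  rw [← Algebra.smul_def, map_smul, smul_eq_mul]

end

end DIAGAux

open DIAGAux MORDAux Finset in
theorem stmt_DIAG : Stmt_DIAG := by
  intro ℓ _ L _ _ _ k hk hkl Ω ψ hψ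
  classical
  have h1 : ∀ v : Fin k → ZMod ℓ,
      ((‖∑ x ∈ Ω, ψ (Algebra.trace (ZMod ℓ) L
        (∑ j : Fin k, algebraMap (ZMod ℓ) L (v j) * x ^ ((j : ℕ) + 1)))‖ ^ 2 : ℝ) : ℂ) =
      ∑ y ∈ Ω, ∑ x ∈ Ω, ψ (∑ j : Fin k, v j * (Algebra.trace (ZMod ℓ) L (x ^ ((j : ℕ) + 1)) -
        Algebra.trace (ZMod ℓ) L (y ^ ((j : ℕ) + 1)))) := by
    intro v
    rw [← Complex.normSq_eq_norm_sq, ← Complex.mul_conj, map_sum, Finset.sum_mul_sum,
      Finset.sum_comm]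
    refine Finset.sum_congr rfl fun y _ => Finset.sum_congr rfl fun x _ => ?_
    rw [← AddChar.map_neg_eq_conj, ← AddChar.map_add_eq_mul, trace_sum, trace_sum]
    congr 1
    rw [← sub_eq_add_neg, ← Finset.sum_sub_distrib]
    refine Finset.sum_congr rfl fun j _ => ?_
    ring
  have h3 : ∀ x y : L, ∑ v : Fin k → ZMod ℓ,
      ψ (∑ j : Fin k, v j * (Algebra.trace (ZMod ℓ) L (x ^ ((j : ℕ) + 1)) -
        Algebra.trace (ZMod ℓ) L (y ^ ((j : ℕ) + 1)))) =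
      if (∀ j : Fin k, Algebra.trace (ZMod ℓ) L (x ^ ((j : ℕ) + 1)) =
        Algebra.trace (ZMod ℓ) L (y ^ ((j : ℕ) + 1))) then (ℓ : ℂ) ^ k else 0 := by
    intro x y
    rw [orth ψ hψ (fun j : Fin k => Algebra.trace (ZMod ℓ) L (x ^ ((j : ℕ) + 1)) -
        Algebra.trace (ZMod ℓ) L (y ^ ((j : ℕ) + 1))), ZMod.card]
    refine if_congr ?_ rfl rfl
    constructor
    · intro h j
      exact sub_eq_zero.1 (congrFun h j)
    · intro h
      funext j
      exact sub_eq_zero.2 (h j)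
  have h4 : ((∑ v : Fin k → ZMod ℓ, ‖∑ x ∈ Ω, ψ (Algebra.trace (ZMod ℓ) L
        (∑ j : Fin k, algebraMap (ZMod ℓ) L (v j) * x ^ ((j : ℕ) + 1)))‖ ^ 2 : ℝ) : ℂ) =
      (((ℓ : ℝ) ^ k * ∑ y ∈ Ω, ((Ω.filter fun x => ∀ j : Fin k,
        Algebra.trace (ZMod ℓ) L (x ^ ((j : ℕ) + 1)) =
        Algebra.trace (ZMod ℓ) L (y ^ ((j : ℕ) + 1))).card : ℝ) : ℝ) : ℂ) := by
    rw [Complex.ofReal_sum]
    simp_rw [h1]
    rw [Finset.sum_comm]
    have h5 : ∀ y ∈ Ω, ∑ v : Fin k → ZMod ℓ, ∑ x ∈ Ω,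
        ψ (∑ j : Fin k, v j * (Algebra.trace (ZMod ℓ) L (x ^ ((j : ℕ) + 1)) -
        Algebra.trace (ZMod ℓ) L (y ^ ((j : ℕ) + 1)))) = (ℓ : ℂ) ^ k *
        ((Ω.filter fun x => ∀ j : Fin k, Algebra.trace (ZMod ℓ) L (x ^ ((j : ℕ) + 1)) =
          Algebra.trace (ZMod ℓ) L (y ^ ((j : ℕ) + 1))).card : ℂ) := by
      intro y _
      rw [Finset.sum_comm]
      simp_rw [h3]
      rw [← Finset.sum_filter, Finset.sum_const, nsmul_eq_mul, mul_comm]
    rw [Finset.sum_congr rfl h5, ← Finset.mul_sum]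
    push_cast
    rfl
  rw [Complex.ofReal_injective h4]
  refine mul_le_mul_of_nonneg_left ?_ (by positivity)
  calc ∑ y ∈ Ω, ((Ω.filter fun x => ∀ j : Fin k,
        Algebra.trace (ZMod ℓ) L (x ^ ((j : ℕ) + 1)) =
        Algebra.trace (ZMod ℓ) L (y ^ ((j : ℕ) + 1))).card : ℝ)
      ≤ ∑ _y ∈ Ω, (Module.finrank (ZMod ℓ) L : ℝ) :=
        Finset.sum_le_sum fun y _ => by exact_mod_cast card_conj k hk hkl Ω y
    _ = _ := by
        rw [Finset.sum_const, nsmul_eq_mul, mul_comm]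

end Pool.Agent.Work.FF
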