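import Pool.Agent.Work.MP_223b32_FF.FINALc

/-!
Block FINAL: assembly.
-/

namespace Pool.Agent.Work.FF

open Polynomial Finset Pool.Agent.Work.MP_223b32_ag_56

/-- Fixed dimension. -/
theorem small (g : ℕ) (hg : 1 ≤ g) : ∃ Q₀ : ℕ, ∀ p a : ℕ, p.Prime → 0 < a → Q₀ ≤ p ^ a →
    (0 : ℝ) < (ordinary p (p ^ a) g).ncard ∧
    ((exceptional (p ^ a) g).ncard : ℝ) ≤
      ((p ^ a : ℕ) : ℝ) ^ (-(1 / 12 : ℝ)) * ((ordinary p (p ^ a) g).ncard : ℝ) := by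
  obtain ⟨c, hc, C, hC, Q₁, hmain⟩ := main hg
  have h1 := (isLittleO_log_rpow_atTop (r := 1 / 12) (by norm_num)).bound
    (show (0 : ℝ) < c / C by positivity)
  have h2 := (tendsto_natCast_atTop_atTop (R := ℝ)).eventually
    (h1.and (Filter.eventually_ge_atTop 2))
  obtain ⟨Q₂, hQ₂⟩ := Filter.eventually_atTop.1 h2
  refine ⟨max Q₁ Q₂, fun p a hp ha hQ => ?_⟩
  obtain ⟨-, hlow, hup⟩ := hmain p a hp ha ((le_max_left _ _).trans hQ)
  obtain ⟨e1, e2⟩ := hQ₂ (p ^ a) ((le_max_right _ _).trans hQ)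
  obtain ⟨q, hq⟩ : ∃ q : ℝ, q = ((p ^ a : ℕ) : ℝ) := ⟨_, rfl⟩
  rw [← hq] at hlow hup e1 e2 ⊢
  have hq1 : 1 ≤ q := by linarith
  have hqpos : 0 < q := by linarith
  have hord : (0 : ℝ) < (ordinary p (p ^ a) g).ncard :=
    lt_of_lt_of_le (mul_pos hc (Real.rpow_pos_of_pos hqpos _)) hlow
  refine ⟨hord, ?_⟩
  have hlog : 0 ≤ Real.log q := Real.log_nonneg hq1
  rw [Real.norm_eq_abs, Real.norm_eq_abs, abs_of_nonneg hlog,
    abs_of_pos (Real.rpow_pos_of_pos hqpos _)] at e1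
  refine hup.trans ?_
  have h3 : q ^ ((g : ℝ) * (g + 1) / 4 - 1 / 6) =
      q ^ ((g : ℝ) * (g + 1) / 4) * q ^ (-(1 / 6 : ℝ)) := by
    rw [← Real.rpow_add hqpos]
    congr 1
  have h4 : q ^ (-(1 / 6 : ℝ)) * q ^ (1 / 12 : ℝ) = q ^ (-(1 / 12 : ℝ)) := by
    rw [← Real.rpow_add hqpos]
    norm_num
  have hA : 0 < q ^ ((g : ℝ) * (g + 1) / 4) := Real.rpow_pos_of_pos hqpos _
  have hB : 0 < q ^ (-(1 / 6 : ℝ)) := Real.rpow_pos_of_pos hqpos _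
  have hD : 0 < q ^ (-(1 / 12 : ℝ)) := Real.rpow_pos_of_pos hqpos _
  calc C * q ^ ((g : ℝ) * (g + 1) / 4 - 1 / 6) * Real.log q ≤
        C * (q ^ ((g : ℝ) * (g + 1) / 4) * q ^ (-(1 / 6 : ℝ))) * (c / C * q ^ (1 / 12 : ℝ)) := by
        rw [h3]
        gcongr
    _ = (q ^ (-(1 / 6 : ℝ)) * q ^ (1 / 12 : ℝ)) * (c * q ^ ((g : ℝ) * (g + 1) / 4)) := by
        field_simp
    _ = q ^ (-(1 / 12 : ℝ)) * (c * q ^ ((g : ℝ) * (g + 1) / 4)) := by rw [h4]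
    _ ≤ _ := by
        refine mul_le_mul_of_nonneg_left hlow hD.le

theorem stmt_FINAL (hC : Stmt_COVER) (hR : Stmt_RED) (hS : Stmt_CSIEVE) (hPr : Stmt_PRIMES)
    (hPa : Stmt_PATT) (hL : Stmt_LOWER) (hG : Stmt_GAL) (hA : Stmt_ARITH) : Stmt_FINAL := by
  obtain ⟨M, hM⟩ : ∃ M : ℕ, M = 8000 := ⟨_, rfl⟩
  obtain ⟨G, Λ, hΛ, hlarge⟩ := large hC hR hS hPr hPa hL hG hA M hM
  choose! Qs hQs using small
  have hM0 : (0 : ℝ) < 2 * M := by
    have : 0 < M := by omega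
    positivity
  refine ⟨min (1 / 160000) (1 / (12 * ((G : ℝ) + 1))), by positivity,
    max (∑ g ∈ range (G + 1), Qs g) ⌈Λ ^ (2 * M)⌉₊, fun p a hp ha hQ g hg => ?_⟩
  have hQ1 : ∑ g ∈ range (G + 1), Qs g ≤ p ^ a := (le_max_left _ _).trans hQ
  have hQ2 : ⌈Λ ^ (2 * M)⌉₊ ≤ p ^ a := (le_max_right _ _).trans hQ
  obtain ⟨c, hc⟩ : ∃ c : ℝ, c = min (1 / 160000) (1 / (12 * ((G : ℝ) + 1))) := ⟨_, rfl⟩
  rw [← hc]
  have hc1 : c ≤ 1 / 160000 := by rw [hc]; exact min_le_left _ _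
  have hc2 : c ≤ 1 / (12 * ((G : ℝ) + 1)) := by rw [hc]; exact min_le_right _ _
  obtain ⟨q, hq⟩ : ∃ q : ℝ, q = ((p ^ a : ℕ) : ℝ) := ⟨_, rfl⟩
  have hqq : (p : ℝ) ^ a = q := by rw [hq]; push_cast; rfl
  rw [hqq]
  have hq1 : (1 : ℝ) ≤ q := by
    rw [hq]
    exact_mod_cast Nat.one_le_pow _ _ hp.pos
  have hqpos : 0 < q := by linarith
  have hg0 : (0 : ℝ) ≤ g := Nat.cast_nonneg g
  rcases Nat.lt_or_ge g G with hgG | hgG
  · have h1 : Qs g ≤ p ^ a := (single_le_sum (f := Qs) (fun _ _ => Nat.zero_le _)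
      (mem_range.2 (by omega))).trans hQ1
    obtain ⟨h2, h3⟩ := hQs g hg p a hp ha h1
    refine ⟨h2, h3.trans ?_⟩
    rw [← hq]
    refine mul_le_mul_of_nonneg_right ?_ h2.le
    refine Real.rpow_le_rpow_of_exponent_le hq1 (neg_le_neg ?_)
    have h4 : (g : ℝ) ≤ G + 1 := by
      have : (g : ℝ) ≤ G := by exact_mod_cast hgG.le
      linarith
    calc c * g ≤ 1 / (12 * ((G : ℝ) + 1)) * (G + 1) := by gcongr
      _ = 1 / 12 := by field_simp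
  · -- large dimension
    obtain ⟨z, hz⟩ : ∃ z : ℝ, z = q ^ (1 / (2 * (M : ℝ))) := ⟨_, rfl⟩
    have hzpos : 0 < z := by rw [hz]; exact Real.rpow_pos_of_pos hqpos _
    have hzq : z ^ (2 * M) = q := by
      rw [hz, ← Real.rpow_natCast, ← Real.rpow_mul hqpos.le]
      push_cast
      rw [one_div, inv_mul_cancel₀ hM0.ne', Real.rpow_one]
    have hΛq : Λ ^ (2 * M) ≤ q := by
      have h1 := Nat.le_ceil (Λ ^ (2 * M))
      have h2 : ((⌈Λ ^ (2 * M)⌉₊ : ℕ) : ℝ) ≤ q := by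
        rw [hq]
        exact_mod_cast hQ2
      linarith
    have hΛz : Λ ≤ z := by
      rw [← hzq] at hΛq
      exact le_of_pow_le_pow_left₀ (by omega) hzpos.le hΛq
    have hz1 : 1 ≤ z := by linarith
    obtain ⟨k, hgk, h1, h2⟩ := hlarge g hgG z hΛz p a hp ha (by rw [← hq, hzq])
    refine ⟨h2, h1.trans ?_⟩
    refine mul_le_mul_of_nonneg_right ?_ h2.le
    have hk : 1 ≤ k := by omega
    have h3 : q ^ (-(c * g)) = z ^ (-((2 * M : ℝ) * (c * g))) := by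
      rw [← hzq, ← Real.rpow_natCast z, ← Real.rpow_mul hzpos.le]
      push_cast
      congr 1
      ring
    have h4 : (2 * M : ℝ) * (c * g) ≤ ((100 * k : ℕ) : ℝ) := by
      have e1 : (M : ℝ) = 8000 := by rw [hM]; norm_num
      have e2 : (g : ℝ) ≤ 1000 * k := by exact_mod_cast hgk
      rw [e1]
      push_cast
      calc (2 * 8000 : ℝ) * (c * g) ≤ (2 * 8000) * (1 / 160000 * (1000 * k)) := by gcongr
        _ = 100 * k := by ring
    have h5 : z ^ (-(((100 * k : ℕ) : ℝ))) ≤ q ^ (-(c * g)) := by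
      rw [h3]
      exact Real.rpow_le_rpow_of_exponent_le hz1 (neg_le_neg h4)
    refine le_trans ?_ h5
    rw [Real.rpow_neg hzpos.le, Real.rpow_natCast, ← one_div,
      div_le_div_iff₀ (by positivity) (by positivity), one_mul]
    have h6 : 2 ≤ z ^ (200 * k) := by
      calc (2 : ℝ) ≤ z := by linarith
        _ ≤ z ^ (200 * k) := le_self_pow₀ hz1 (by omega)
    calc 2 * z ^ (100 * k) ≤ z ^ (200 * k) * z ^ (100 * k) := by gcongr
      _ = z ^ (300 * k) := by rw [← pow_add]; congr 1; ring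

end Pool.Agent.Work.FF
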