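import Pool.Agent.Work.MP_223b32_FF.Base

/-!
Interface of the project fixed finite field, dimension to infinity (MP_223b32_ag).
See PROOF.md for the paper proof of each block.
-/

namespace Pool.Agent.Work.FF

open Polynomial Finset Pool.Agent.Work.MP_223b32_ag_56

/-- TOEP. Number of integer vectors with positive definite Toeplitz form, when the moments are
triangular in the vector. -/
def Stmt_TOEP : Prop :=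
  ∀ (g : ℕ) (c : (Fin g → ℤ) → ℕ → ℝ) (w : Fin g → ℝ) (c₀ : ℝ), 0 < c₀ → (∀ i, 0 < w i) →
    (∀ a, c a 0 = c₀) →
    (∀ (a a' : Fin g → ℤ) (i : Fin g), (∀ j < i, a j = a' j) →
      c a ((i : ℕ) + 1) - c a' ((i : ℕ) + 1) = w i * ((a' i : ℝ) - a i)) →
    ∀ A : Finset (Fin g → ℤ), (∀ a ∈ A, ToepPos (c a) g) →
      (A.card : ℝ) ≤ ∑ S : Finset (Fin g), (∏ i ∈ S, c₀ / w i) * ∏ m ∈ range S.card, kap m

/-- UEST. Size of the bound. -/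
def Stmt_UEST : Prop :=
  ∀ (q g : ℕ), 2 ≤ q → 1 ≤ g →
    ∑ S : Finset (Fin g), (∏ i ∈ S, (2 * (g : ℝ) + 1) / ((((i : ℕ) : ℝ) + 1) / √(q : ℝ) ^ ((i : ℕ) + 1))) *
      ∏ m ∈ range S.card, kap m ≤
      200 ^ g * √(q : ℝ) ^ (g * (g + 1) / 2) / √(g.factorial : ℝ)

/-- TRI. The moments are triangular in the coefficients. -/
def Stmt_TRI : Prop :=
  ∀ (q g : ℕ) (P P' : ℤ[X]), 1 ≤ q → P.Monic → P.natDegree = g → P'.Monic → P'.natDegree = g →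
    ∀ j, 1 ≤ j → j ≤ g → (∀ i, g - j < i → P.coeff i = P'.coeff i) →
      mom q g P j - mom q g P' j =
        ((j : ℝ) / √(q : ℝ) ^ j) * ((P'.coeff (g - j) : ℝ) - P.coeff (g - j))

/-- UPPER. (From TOEP, UEST, TRI.) -/
def Stmt_UPPER : Prop :=
  ∀ (q g : ℕ), 2 ≤ q → 1 ≤ g → ∀ A : Finset ℤ[X],
    (∀ P ∈ A, P.Monic ∧ P.natDegree = g ∧ ToepPos (mom q g P) g) →
      (A.card : ℝ) ≤ 200 ^ g * √(q : ℝ) ^ (g * (g + 1) / 2) / √(g.factorial : ℝ)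

/-- CUBE. Integral polynomials close to a real Weil polynomial have positive definite moments.
(`k = R = 0` is the case `P' = P`.) -/
def Stmt_CUBE : Prop :=
  ∀ (q g k R : ℕ) (P P' : ℤ[X]), 2 ≤ q → 1 ≤ g → k ≤ g → P ∈ realWeil q g →
    P'.Monic → P'.natDegree = g → (∀ i, g - k ≤ i → P'.coeff i = P.coeff i) →
    (∀ i, |P'.coeff i - P.coeff i| ≤ R) → (R : ℝ) * 300 ^ g ≤ √(q : ℝ) ^ k →
    ToepPos (mom q g P') g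

/-- COVER. (From UPPER, CUBE.) A set which is sparse in all cubes of side `R` in the last `g - k`
coefficients contains few real Weil polynomials. -/
def Stmt_COVER : Prop :=
  ∀ (q g k R : ℕ) (η : ℝ) (B : Set ℤ[X]), 2 ≤ q → 1 ≤ g → k ≤ g → 1 ≤ R →
    (R : ℝ) * 300 ^ g ≤ √(q : ℝ) ^ k → 0 ≤ η →
    (∀ (t : Fin g → ℤ) (u : Fin (g - k) → ℤ),
      ({c : Fin (g - k) → ℤ | (∀ i, u i ≤ c i ∧ c i < u i + R) ∧ mk (glue c t) ∈ B}.ncard : ℝ) ≤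
        η * (R : ℝ) ^ (g - k)) →
    ((realWeil q g ∩ B).ncard : ℝ) ≤
      η * (200 ^ g * √(q : ℝ) ^ (g * (g + 1) / 2) / √(g.factorial : ℝ))

/-- RED. (From UPPER, CUBE.) Few reducible real Weil polynomials. -/
def Stmt_RED : Prop :=
  ∀ (q g : ℕ), 2 ≤ q → 1 ≤ g →
    (({h ∈ realWeil q g | ¬ Irreducible (h.map (Int.castRingHom ℚ))} : Set ℤ[X]).ncard : ℝ) ≤
      g * 300 ^ g * √(q : ℝ) ^ (g * (g + 1) / 2) / (√(q : ℝ) ^ (g - 1) * √(g.factorial : ℝ))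

/-- CSIEVE. Turán's sieve in a cube. -/
def Stmt_CSIEVE : Prop :=
  ∀ (m R : ℕ) (u : Fin m → ℤ) (P : Finset ℕ) (C : ∀ ℓ : ℕ, Finset (Fin m → ZMod ℓ))
    (δ₀ ρ Z : ℝ), (∀ ℓ ∈ P, ℓ.Prime) → 0 < δ₀ →
    (∀ ℓ ∈ P, δ₀ * (ℓ : ℝ) ^ m ≤ (C ℓ).card) → 0 ≤ ρ → ρ ≤ 1 → (∀ ℓ ∈ P, (ℓ : ℝ) ≤ Z) →
    Z ^ 2 ≤ ρ * R →
    (P.card : ℝ) * ((((Fintype.piFinset fun i => Ico (u i) (u i + R)).filter
      fun b => ∀ ℓ ∈ P, red ℓ b ∉ C ℓ).card : ℕ) : ℝ) ≤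
      (R : ℝ) ^ m * (1 / δ₀ ^ 2 + 3 * (2 ^ m * ρ) * P.card)

/-- PRIMES. -/
def Stmt_PRIMES : Prop :=
  ∃ Z₀ : ℕ, ∀ Z : ℕ, Z₀ ≤ Z → ∀ A p : ℕ, A ^ 2 ≤ Z →
    (Z : ℝ) / (4 * Real.log Z) ≤
      (((range (Z + 1)).filter fun ℓ => ℓ.Prime ∧ A ≤ ℓ ∧ ℓ ≠ p).card : ℝ)

/-- MORD. Mordell's bound for a long character sum. -/
def Stmt_MORD : Prop :=
  ∀ (F : Type) [Field F] [Fintype F] (ℓ : ℕ) [Fact ℓ.Prime] [CharP F ℓ] (ψ : AddChar F ℂ),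
    ψ ≠ 1 → ∀ f : F[X], 1 ≤ f.natDegree → f.natDegree < ℓ →
      ‖∑ x : F, ψ (f.eval x)‖ ^ (2 * f.natDegree) * (Fintype.card F : ℝ) ^ 2 ≤
        (2 * (f.natDegree : ℝ) * Fintype.card F) ^ (2 * f.natDegree)

/-- DIAG. Mean square of short character sums. -/
def Stmt_DIAG : Prop :=
  ∀ (ℓ : ℕ) [Fact ℓ.Prime] (L : Type) [Field L] [Fintype L] [Algebra (ZMod ℓ) L] (k : ℕ),
    Module.finrank (ZMod ℓ) L ≤ k → k < ℓ → ∀ (Ω : Finset L) (ψ : AddChar (ZMod ℓ) ℂ), ψ ≠ 1 →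
      ∑ v : Fin k → ZMod ℓ,
        ‖∑ x ∈ Ω, ψ (Algebra.trace (ZMod ℓ) L (∑ j : Fin k, algebraMap (ZMod ℓ) L (v j) * x ^ ((j : ℕ) + 1)))‖ ^ 2 ≤
        (ℓ : ℝ) ^ k * (Module.finrank (ZMod ℓ) L * Ω.card)

/-- COUNT3. (From MORD, DIAG.) Number of triples with prescribed power sums. -/
def Stmt_COUNT3 : Prop :=
  ∀ (ℓ : ℕ) [Fact ℓ.Prime] (L₁ L₂ L₃ : Type) [Field L₁] [Fintype L₁] [Algebra (ZMod ℓ) L₁]
    [Field L₂] [Fintype L₂] [Algebra (ZMod ℓ) L₂] [Field L₃] [Fintype L₃] [Algebra (ZMod ℓ) L₃]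
    (k : ℕ), 1 ≤ k → k < ℓ → 4 * k ≤ Module.finrank (ZMod ℓ) L₁ →
    Module.finrank (ZMod ℓ) L₂ ≤ k → Module.finrank (ZMod ℓ) L₃ ≤ k →
    ∀ (Ω₂ : Finset L₂) (Ω₃ : Finset L₃) (c : Fin k → ZMod ℓ),
      (ℓ : ℝ) ^ (Module.finrank (ZMod ℓ) L₁ - k) * (Ω₂.card * Ω₃.card) -
        2 * k * (ℓ : ℝ) ^ (Module.finrank (ZMod ℓ) L₁ - 4) *
          √(Module.finrank (ZMod ℓ) L₂ * Module.finrank (ZMod ℓ) L₃ * (Ω₂.card * Ω₃.card)) ≤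
      ({z : L₁ × L₂ × L₃ | z.2.1 ∈ Ω₂ ∧ z.2.2 ∈ Ω₃ ∧ ∀ j : Fin k,
        Algebra.trace (ZMod ℓ) L₁ (z.1 ^ ((j : ℕ) + 1)) +
        Algebra.trace (ZMod ℓ) L₂ (z.2.1 ^ ((j : ℕ) + 1)) +
        Algebra.trace (ZMod ℓ) L₃ (z.2.2 ^ ((j : ℕ) + 1)) = c j}.ncard : ℝ)

/-- PATT. (From COUNT3.) Density of the pattern in short intervals. -/
def Stmt_PATT : Prop :=
  ∀ (ℓ : ℕ) [Fact ℓ.Prime] (q g k d₁ d₂ d₃ : ℕ), Adm g k d₁ d₂ d₃ → 100 * g < ℓ →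
    (q : ZMod ℓ) ≠ 0 → ∀ t : Fin g → ZMod ℓ,
      (ℓ : ℝ) ^ (g - k) / (16 * (g : ℝ) ^ 3) ≤
        ({c : Fin (g - k) → ZMod ℓ | Pattern q ℓ d₁ d₂ d₃ (mk (glue c t))}.ncard : ℝ)

/-- LOWER. Many ordinary real Weil polynomials. -/
def Stmt_LOWER : Prop :=
  ∀ p a g : ℕ, p.Prime → 0 < a → 1 ≤ g →
    √((p : ℝ) ^ a) ^ (g * (g + 1) / 2) / (p * 2000 ^ g * √(g.factorial : ℝ)) ≤
      ((ordinary p (p ^ a) g).ncard : ℝ)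

/-- FROB. A Frobenius element for the pattern: `L` is a Galois number field containing the roots. -/
def Stmt_FROB : Prop :=
  ∀ (L : Type) [Field L] [NumberField L] [IsGalois ℚ L] (q ℓ g k d₁ d₂ d₃ : ℕ) [Fact ℓ.Prime]
    (h : ℤ[X]), ℓ ≠ 2 → (q : ZMod ℓ) ≠ 0 → Adm g k d₁ d₂ d₃ → h.Monic → h.natDegree = g →
    (h.map (Int.castRingHom L)).Splits →
    Pattern q ℓ d₁ d₂ d₃ (h.map (Int.castRingHom (ZMod ℓ))) →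
    ∃ (σ : Gal(L/ℚ)) (C₁ C₂ C₃ : Finset L) (N : ℕ),
      -- the roots of `h` are the disjoint union of `C₁`, `C₂`, `C₃`,
      (∀ x : L, aeval x h = 0 ↔ x ∈ C₁ ∨ x ∈ C₂ ∨ x ∈ C₃) ∧
      Disjoint C₁ C₂ ∧ Disjoint C₁ C₃ ∧ Disjoint C₂ C₃ ∧
      C₁.card = d₁ ∧ C₂.card = d₂ ∧ C₃.card = d₃ ∧
      -- each of them is one cycle of `σ`,
      (∀ x ∈ C₁, ∀ y ∈ C₁, ∃ n : ℕ, (σ ^ n) x = y) ∧
      (∀ x ∈ C₂, ∀ y ∈ C₂, ∃ n : ℕ, (σ ^ n) x = y) ∧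
      (∀ x ∈ C₃, ∀ y ∈ C₃, ∃ n : ℕ, (σ ^ n) x = y) ∧
      (∀ x ∈ C₁, σ x ∈ C₁) ∧ (∀ x ∈ C₂, σ x ∈ C₂) ∧ (∀ x ∈ C₃, σ x ∈ C₃) ∧
      -- and `σ ^ N` fixes the roots above `C₁` and `C₃` and flips those above `C₂`
      (∀ y : L, y ≠ 0 → y + q / y ∈ C₁ → (σ ^ N) y = y) ∧
      (∀ y : L, y ≠ 0 → y + q / y ∈ C₃ → (σ ^ N) y = y) ∧
      (∀ y : L, y ≠ 0 → y + q / y ∈ C₂ → (σ ^ N) y = q / y ∧ y ≠ q / y)

/-- SEP. (From FROB.) The sign characters separate the roots of `h`. -/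
def Stmt_SEP : Prop :=
  ∀ (L : Type) [Field L] [NumberField L] [IsGalois ℚ L] (q ℓ g k d₁ d₂ d₃ : ℕ) [Fact ℓ.Prime]
    (h : ℤ[X]), ℓ ≠ 2 → (q : ZMod ℓ) ≠ 0 → Adm g k d₁ d₂ d₃ → h.Monic → h.natDegree = g →
    Irreducible (h.map (Int.castRingHom ℚ)) →
    (h.map (Int.castRingHom L)).Splits →
    (∀ x : L, aeval x h = 0 → ∃ y : L, y ≠ 0 ∧ y + q / y = x) →
    Pattern q ℓ d₁ d₂ d₃ (h.map (Int.castRingHom (ZMod ℓ))) →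
    -- for different roots `x + q / x`, `y + q / y` of `h` there is `τ` which fixes all roots of
    -- `h`, with `τ x = q / x ≠ x` and `τ y = y` or the other way round
    ∀ x y : L, x ≠ 0 → y ≠ 0 → aeval (x + q / x) h = 0 → aeval (y + q / y) h = 0 →
      x + q / x ≠ y + q / y → ∃ τ : Gal(L/ℚ), (∀ z : L, aeval z h = 0 → τ z = z) ∧
        ((τ x = q / x ∧ x ≠ q / x ∧ τ y = y) ∨ (τ x = x ∧ τ y = q / y ∧ y ≠ q / y))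

/-- GAL. (From SEP.) -/
def Stmt_GAL : Prop :=
  ∀ (q ℓ g k d₁ d₂ d₃ : ℕ) [Fact ℓ.Prime] (h : ℤ[X]), 1 < q → ℓ ≠ 2 → (q : ZMod ℓ) ≠ 0 →
    Adm g k d₁ d₂ d₃ → h.Monic → h.natDegree = g → Irreducible (h.map (Int.castRingHom ℚ)) →
    Pattern q ℓ d₁ d₂ d₃ (h.map (Int.castRingHom (ZMod ℓ))) → TateProperty q h

/-- ARITH. Admissible degrees exist. -/
def Stmt_ARITH : Prop :=
  ∃ G : ℕ, ∀ g, G ≤ g → ∃ k d₁ d₂ d₃ : ℕ, Adm g k d₁ d₂ d₃ ∧ g ≤ 1000 * k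

/-- FINAL. -/
def Stmt_FINAL : Prop :=
  ∃ c > (0 : ℝ), ∃ Q₀ : ℕ, ∀ p a : ℕ, p.Prime → 0 < a → Q₀ ≤ p ^ a → ∀ g : ℕ, 1 ≤ g →
    (0 : ℝ) < (ordinary p (p ^ a) g).ncard ∧
    ((exceptional (p ^ a) g).ncard : ℝ) ≤
      ((p : ℝ) ^ a) ^ (-(c * g)) * ((ordinary p (p ^ a) g).ncard : ℝ)

end Pool.Agent.Work.FF
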