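import Pool.Agent.Work.MP_223b32_FF.Interface

/-!
Block PATT, first part: power sums of roots, Newton's identities, traces of generators.
-/

namespace Pool.Agent.Work.FF

open Polynomial Finset Pool.Agent.Work.MP_223b32_ag_56

namespace PA

section newton

variable {E : Type*} [Field E]

/-- Power sum of a multiset. -/
noncomputable def ps (s : Multiset E) (j : ℕ) : E := (s.map (fun x => x ^ j)).sum

theorem ps_add (s t : Multiset E) (j : ℕ) : ps (s + t) j = ps s j + ps t j := by
  simp [ps]

theorem exists_fun (s : Multiset E) :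
    ∃ f : Fin (Multiset.card s) → E, (univ : Finset (Fin (Multiset.card s))).val.map f = s := by
  obtain ⟨l, rfl⟩ : ∃ l : List E, (l : Multiset E) = s := Quot.exists_rep s
  rw [Multiset.coe_card]
  refine ⟨l.get, ?_⟩
  rw [Fin.univ_val_map]
  simp

theorem newton (s : Multiset E) (k : ℕ) :
    (k : E) * s.esymm k = (-1) ^ (k + 1) *
      ∑ a ∈ antidiagonal k with a.1 < k, (-1) ^ a.1 * s.esymm a.1 * ps s a.2 := by
  obtain ⟨f, hf⟩ := exists_fun s
  have h := congrArg (MvPolynomial.aeval f) (MvPolynomial.mul_esymm_eq_sum (Fin (Multiset.card s)) E k)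
  simp only [map_mul, map_natCast, map_pow, map_neg, map_one, map_sum,
    MvPolynomial.aeval_esymm_eq_multiset_esymm, hf] at h
  rw [h]
  congr 1
  refine Finset.sum_congr rfl fun a _ => ?_
  congr 1
  rw [MvPolynomial.psum, map_sum]
  simp only [map_pow, MvPolynomial.aeval_X]
  rw [ps]
  conv_rhs => rw [← hf]
  rw [Multiset.map_map]
  rfl

theorem newton' (s : Multiset E) (k : ℕ) (hk : 0 < k) :
    ps s k = (-1) ^ (k + 1) * k * s.esymm k -
      ∑ a ∈ antidiagonal k with a.1 ∈ Set.Ioo 0 k, (-1) ^ a.1 * s.esymm a.1 * ps s a.2 := by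
  obtain ⟨f, hf⟩ := exists_fun s
  have hps : ∀ j, MvPolynomial.aeval f (MvPolynomial.psum (Fin (Multiset.card s)) E j) = ps s j := by
    intro j
    rw [MvPolynomial.psum, map_sum]
    simp only [map_pow, MvPolynomial.aeval_X]
    rw [ps]
    conv_rhs => rw [← hf]
    rw [Multiset.map_map]
    rfl
  have h := congrArg (MvPolynomial.aeval f)
    (MvPolynomial.psum_eq_mul_esymm_sub_sum (Fin (Multiset.card s)) E k hk)
  simp only [map_mul, map_natCast, map_pow, map_neg, map_one, map_sum, map_sub,
    MvPolynomial.aeval_esymm_eq_multiset_esymm, hf, hps] at h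
  exact h

theorem esymm_eq_of_ps_eq {s t : Multiset E} {k : ℕ} (hk : ∀ j, 1 ≤ j → j ≤ k → (j : E) ≠ 0)
    (h : ∀ j, 1 ≤ j → j ≤ k → ps s j = ps t j) :
    ∀ j, j ≤ k → s.esymm j = t.esymm j := by
  intro j
  induction j using Nat.strong_induction_on with
  | _ j ih =>
    intro hj
    rcases Nat.eq_zero_or_pos j with rfl | hpos
    · simp [Multiset.esymm]
    · refine mul_left_cancel₀ (hk j hpos hj) ?_
      rw [newton, newton]
      congr 1
      refine Finset.sum_congr rfl fun a ha => ?_
      obtain ⟨ha1, ha2⟩ := mem_filter.1 ha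
      rw [HasAntidiagonal.mem_antidiagonal] at ha1
      rw [ih a.1 ha2 (by omega), h a.2 (by omega) (by omega)]

theorem ps_mem_of_esymm_mem (S : Subring E) {s : Multiset E} (h : ∀ j, s.esymm j ∈ S) :
    ∀ j, 1 ≤ j → ps s j ∈ S := by
  intro j
  induction j using Nat.strong_induction_on with
  | _ j ih =>
    intro hj
    rw [newton' s j hj]
    have hm1 : (-1 : E) ∈ S := S.neg_mem S.one_mem
    refine S.sub_mem (S.mul_mem (S.mul_mem (S.pow_mem hm1 _) (natCast_mem S j)) (h j)) ?_
    refine S.sum_mem fun a ha => ?_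
    obtain ⟨ha1, ha2⟩ := mem_filter.1 ha
    rw [HasAntidiagonal.mem_antidiagonal] at ha1
    obtain ⟨ha3, ha4⟩ := ha2
    exact S.mul_mem (S.mul_mem (S.pow_mem hm1 _) (h _)) (ih a.2 (by omega) (by omega))

end newton

section poly

variable {K : Type*} [Field K] {E : Type*} [Field E] [IsAlgClosed E] [Algebra K E]

theorem aroots_esymm {P : K[X]} (hP : P.Monic) {j : ℕ} (hj : j ≤ P.natDegree) :
    (P.aroots E).esymm j = (-1) ^ j * algebraMap K E (P.coeff (P.natDegree - j)) := by
  have h1 : (P.map (algebraMap K E)).Splits := IsAlgClosed.splits _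
  have hnd : (P.map (algebraMap K E)).natDegree = P.natDegree := natDegree_map _
  have h2 := Polynomial.coeff_eq_esymm_roots_of_splits h1
    (k := P.natDegree - j) (by rw [hnd]; omega)
  rw [hnd, (hP.map _).leadingCoeff, one_mul, Nat.sub_sub_self hj, coeff_map] at h2
  rw [aroots, h2, ← mul_assoc, ← pow_add, Even.neg_one_pow ⟨j, rfl⟩, one_mul]

theorem aroots_card {P : K[X]} : Multiset.card (P.aroots E) = P.natDegree := by
  have h1 : (P.map (algebraMap K E)).Splits := IsAlgClosed.splits _
  rw [aroots, (splits_iff_card_roots.1 h1), natDegree_map]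

/-- The power sums of the roots of a polynomial over `K` are in `K`. -/
theorem exists_ps {P : K[X]} (hP : P.Monic) (j : ℕ) (hj : 1 ≤ j) :
    ∃ c : K, algebraMap K E c = ps (P.aroots E) j := by
  have h := ps_mem_of_esymm_mem (algebraMap K E).range (s := P.aroots E) (fun i => ?_) j hj
  · obtain ⟨c, hc⟩ := h
    exact ⟨c, hc⟩
  · rcases le_or_gt i P.natDegree with hi | hi
    · rw [aroots_esymm hP hi]
      refine Subring.mul_mem _ (Subring.pow_mem _ (Subring.neg_mem _ (Subring.one_mem _)) _) ?_
      exact ⟨_, rfl⟩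
    · have : (P.aroots E).esymm i = 0 := by
        rw [Multiset.esymm, Multiset.powersetCard_eq_empty]
        · simp
        · rw [aroots_card]; exact hi
      rw [this]
      exact Subring.zero_mem _

/-- Equal power sums imply equal top coefficients. -/
theorem coeff_eq_of_ps_eq {P Q : K[X]} (hP : P.Monic) (hQ : Q.Monic)
    {g k : ℕ} (hPg : P.natDegree = g) (hQg : Q.natDegree = g)
    (hk : ∀ j, 1 ≤ j → j ≤ k → (j : E) ≠ 0)
    (h : ∀ j, 1 ≤ j → j ≤ k → ps (P.aroots E) j = ps (Q.aroots E) j) :
    ∀ i, i ≤ g → g - k ≤ i → P.coeff i = Q.coeff i := by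
  intro i hi hik
  have h1 := esymm_eq_of_ps_eq hk h (g - i) (by omega)
  rw [aroots_esymm hP (by omega), aroots_esymm hQ (by omega), hPg, hQg,
    Nat.sub_sub_self hi] at h1
  have h2 : ((-1 : E) ^ (g - i)) ≠ 0 := pow_ne_zero _ (neg_ne_zero.2 one_ne_zero)
  exact (algebraMap K E).injective (mul_left_cancel₀ h2 h1)

variable {L : Type*} [Field L] [Algebra K L] [FiniteDimensional K L] [Algebra.IsSeparable K L]

/-- The trace of a power of a generator is the power sum of the roots of its minimal polynomial. -/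
theorem trace_pow_eq_ps {x : L} (hx : (minpoly K x).natDegree = Module.finrank K L) (j : ℕ) :
    algebraMap K E (Algebra.trace K L (x ^ j)) = ps ((minpoly K x).aroots E) j := by
  classical
  rw [trace_eq_sum_embeddings E]
  have htop := (Field.primitive_element_iff_minpoly_natDegree_eq K x).2 hx
  have hinj : Function.Injective (fun σ : L →ₐ[K] E => σ x) :=
    (Field.primitive_element_iff_algHom_eq_of_eval' K E (fun y => IsAlgClosed.splits _) x).1 htop
  have hint : IsIntegral K x := IsIntegral.of_finite K x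
  have hne : minpoly K x ≠ 0 := minpoly.ne_zero hint
  have hnd : ((minpoly K x).aroots E).Nodup := by
    have h0 : (minpoly K x).Separable := Algebra.IsSeparable.isSeparable K x
    have h1 : ((minpoly K x).map (algebraMap K E)).Separable := h0.map
    exact nodup_roots h1
  have heq : (univ.image (fun σ : L →ₐ[K] E => σ x)) = ((minpoly K x).aroots E).toFinset := by
    refine eq_of_subset_of_card_le ?_ ?_
    · intro y hy
      obtain ⟨σ, -, rfl⟩ := mem_image.1 hy
      rw [Multiset.mem_toFinset, mem_aroots]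
      refine ⟨hne, ?_⟩
      rw [aeval_algHom_apply, minpoly.aeval, map_zero]
    · rw [card_image_of_injective _ hinj, card_univ, AlgHom.card, ← hx]
      exact (Multiset.toFinset_card_le _).trans (aroots_card (E := E)).le
  have h2 : ∑ σ : L →ₐ[K] E, σ (x ^ j) = ∑ y ∈ univ.image (fun σ : L →ₐ[K] E => σ x), y ^ j := by
    rw [sum_image (fun a _ b _ h => hinj h)]
    exact Finset.sum_congr rfl fun σ _ => map_pow _ _ _
  rw [h2, heq, ps, Finset.sum_multiset_map_count]
  refine Finset.sum_congr rfl fun y hy => ?_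
  rw [Multiset.mem_toFinset] at hy
  rw [Multiset.count_eq_one_of_mem hnd hy, one_smul]

end poly

end PA

end Pool.Agent.Work.FF
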