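import Pool.Agent.Work.MP_223b32_FF.PATTa

/-!
Block PATT, second part: generators and non-squares in a finite field.
-/

namespace Pool.Agent.Work.FF

open Polynomial Finset Pool.Agent.Work.MP_223b32_ag_56

namespace PA

section gen

variable {ℓ : ℕ} [hℓ : Fact ℓ.Prime] {L : Type*} [Field L] [Fintype L] [Algebra (ZMod ℓ) L]

open Classical in
/-- The elements of `L` of degree less than `[L : F_ℓ]`. -/
noncomputable def nonGen (ℓ : ℕ) [Fact ℓ.Prime] (L : Type*) [Field L] [Fintype L]
    [Algebra (ZMod ℓ) L] : Finset L :=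
  univ.filter fun x => (minpoly (ZMod ℓ) x).natDegree ≠ Module.finrank (ZMod ℓ) L

theorem geom_le (m : ℕ) : ∑ e ∈ range (m + 1), ℓ ^ e ≤ 2 * ℓ ^ m := by
  have h2 := hℓ.out.two_le
  induction m with
  | zero => simp
  | succ m ih =>
    rw [sum_range_succ]
    have : 2 * ℓ ^ m ≤ ℓ ^ (m + 1) := by
      rw [pow_succ, mul_comm 2]
      exact Nat.mul_le_mul_left _ h2
    omega

theorem card_nonGen_le :
    (nonGen ℓ L).card ≤ 2 * ℓ ^ (Module.finrank (ZMod ℓ) L / 2) := by
  classical
  set d := Module.finrank (ZMod ℓ) L with hd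
  have hdpos : 0 < d := Module.finrank_pos
  have h1 : nonGen ℓ L ⊆ (range (d / 2 + 1)).biUnion
      (fun e => if e = 0 then ∅ else univ.filter fun x : L => x ^ (ℓ ^ e) = x) := by
    intro x hx
    have hx1 := (mem_filter.1 hx).2
    have hint : IsIntegral (ZMod ℓ) x := IsIntegral.of_finite _ x
    set e := (minpoly (ZMod ℓ) x).natDegree with he
    have hepos : 0 < e := minpoly.natDegree_pos hint
    have hed : e ∣ d := by
      have h2 := IntermediateField.adjoin.finrank hint
      rw [he, ← h2, hd, ← Module.finrank_mul_finrank (ZMod ℓ)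
        (IntermediateField.adjoin (ZMod ℓ) {x}) L]
      exact dvd_mul_right _ _
    have hle : e ≤ d / 2 := by
      obtain ⟨m, hm⟩ := hed
      have hm1 : m ≠ 1 := by
        rintro rfl
        exact hx1 (by rw [← hd]; omega)
      have hm0 : m ≠ 0 := by
        rintro rfl
        omega
      rw [Nat.le_div_iff_mul_le (by norm_num), hm]
      exact Nat.mul_le_mul_left _ (by omega)
    refine mem_biUnion.2 ⟨e, mem_range.2 (by omega), ?_⟩
    rw [if_neg hepos.ne']
    refine mem_filter.2 ⟨mem_univ _, ?_⟩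
    have h3 : Nat.card (IntermediateField.adjoin (ZMod ℓ) {x}) = ℓ ^ e := by
      have h4 := IntermediateField.adjoin.finrank hint
      have h5 := Module.natCard_eq_pow_finrank (K := ZMod ℓ)
        (V := IntermediateField.adjoin (ZMod ℓ) {x})
      rw [h4, Nat.card_zmod] at h5
      exact h5
    have : Fintype (IntermediateField.adjoin (ZMod ℓ) {x}) := Fintype.ofFinite _
    rw [Nat.card_eq_fintype_card] at h3
    have h6 := FiniteField.pow_card (IntermediateField.AdjoinSimple.gen (ZMod ℓ) x)
    rw [h3] at h6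
    have h7 := congrArg (algebraMap (IntermediateField.adjoin (ZMod ℓ) {x}) L) h6
    rw [map_pow, IntermediateField.AdjoinSimple.algebraMap_gen] at h7
    exact h7
  calc (nonGen ℓ L).card ≤ _ := card_le_card h1
    _ ≤ ∑ e ∈ range (d / 2 + 1),
        (if e = 0 then ∅ else univ.filter fun x : L => x ^ (ℓ ^ e) = x).card := card_biUnion_le
    _ ≤ ∑ e ∈ range (d / 2 + 1), ℓ ^ e := by
        refine sum_le_sum fun e _ => ?_
        split_ifs with he
        · simp
        · have hlt : 1 < ℓ ^ e := Nat.one_lt_pow he hℓ.out.one_lt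
          have hne : (X ^ (ℓ ^ e) - X : L[X]) ≠ 0 := FiniteField.X_pow_card_sub_X_ne_zero L hlt
          have hdeg : (X ^ (ℓ ^ e) - X : L[X]).natDegree = ℓ ^ e :=
            FiniteField.X_pow_card_sub_X_natDegree_eq L hlt
          calc (univ.filter fun x : L => x ^ (ℓ ^ e) = x).card
              ≤ (X ^ (ℓ ^ e) - X : L[X]).roots.toFinset.card := by
                refine card_le_card fun x hx => ?_
                rw [Multiset.mem_toFinset, mem_roots hne]
                have := (mem_filter.1 hx).2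
                simp [this]
            _ ≤ Multiset.card (X ^ (ℓ ^ e) - X : L[X]).roots := Multiset.toFinset_card_le _
            _ ≤ ℓ ^ e := by
                have := card_roots' (X ^ (ℓ ^ e) - X : L[X])
                rw [hdeg] at this
                exact this
    _ ≤ 2 * ℓ ^ (d / 2) := geom_le _

end gen

section sq

variable {K : Type*} [Field K] [Fintype K]

open Classical in
/-- The solutions of `t ^ 2 - u ^ 2 = a`. -/
noncomputable def prs (a : K) : Finset (K × K) := univ.filter fun p => p.1 ^ 2 - p.2 ^ 2 = a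

theorem card_prs (h2 : (2 : K) ≠ 0) {a : K} (ha : a ≠ 0) :
    (prs a).card = Fintype.card K - 1 := by
  classical
  have h1 : (prs a).card = (univ.filter fun v : K => v ≠ 0).card := by
    refine card_bij' (fun p _ => p.1 + p.2) (fun v _ => ((v + a / v) / 2, (v - a / v) / 2))
      ?_ ?_ ?_ ?_
    · intro p hp
      have hp' := (mem_filter.1 hp).2
      refine mem_filter.2 ⟨mem_univ _, fun h0 => ha ?_⟩
      rw [← hp']
      have h0' : p.1 + p.2 = 0 := h0
      linear_combination (p.1 - p.2) * h0'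
    · intro v hv
      have hv' := (mem_filter.1 hv).2
      refine mem_filter.2 ⟨mem_univ _, ?_⟩
      show ((v + a / v) / 2) ^ 2 - ((v - a / v) / 2) ^ 2 = a
      field_simp
      ring
    · intro p hp
      have hp' := (mem_filter.1 hp).2
      have h0 : p.1 + p.2 ≠ 0 := by
        intro h0
        apply ha
        rw [← hp']
        linear_combination (p.1 - p.2) * h0
      have h3 : a / (p.1 + p.2) = p.1 - p.2 := by
        rw [div_eq_iff h0, ← hp']; ring
      ext
      · show (p.1 + p.2 + a / (p.1 + p.2)) / 2 = p.1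
        rw [h3, div_eq_iff h2]; ring
      · show (p.1 + p.2 - a / (p.1 + p.2)) / 2 = p.2
        rw [h3, div_eq_iff h2]; ring
    · intro v hv
      show (v + a / v) / 2 + (v - a / v) / 2 = v
      rw [← add_div, div_eq_iff h2]; ring
  rw [h1, filter_ne' univ (0 : K), card_erase_of_mem (mem_univ _), card_univ]

open Classical in
/-- Squares `t ^ 2 - a`. -/
noncomputable def sqs (a : K) : Finset K := univ.filter fun t => IsSquare (t ^ 2 - a)

open Classical in
/-- Non-squares `t ^ 2 - a`. -/
noncomputable def nsqs (a : K) : Finset K := univ.filter fun t => ¬ IsSquare (t ^ 2 - a)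

open Classical in
theorem card_zero_le' (a : K) : (univ.filter fun t : K => t ^ 2 = a).card ≤ 2 := by
  by_cases h : ∃ t : K, t ^ 2 = a
  · obtain ⟨t, ht⟩ := h
    calc (univ.filter fun t : K => t ^ 2 = a).card ≤ ({t, -t} : Finset K).card := by
          refine card_le_card fun u hu => ?_
          have hu' := (mem_filter.1 hu).2
          rw [← ht] at hu'
          rcases sq_eq_sq_iff_eq_or_eq_neg.1 hu' with h | h <;> simp [h]
      _ ≤ 2 := card_le_two
  · push Not at h
    rw [filter_eq_empty_iff.2 (fun t _ => h t)]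
    simp

theorem sqs_bound (h2 : (2 : K) ≠ 0) {a : K} (ha : a ≠ 0) :
    2 * (sqs a).card ≤ Fintype.card K + 3 := by
  classical
  have hfib : (prs a).card = ∑ t ∈ sqs a, ((prs a).filter fun p => p.1 = t).card := by
    refine card_eq_sum_card_fiberwise fun p hp => ?_
    have hp' := (mem_filter.1 (mem_coe.1 hp)).2
    refine mem_coe.2 (mem_filter.2 ⟨mem_univ _, p.2, ?_⟩)
    rw [← hp']; ring
  rw [card_prs h2 ha] at hfib
  have hmem : ∀ p : K × K, p ∈ prs a ↔ p.1 ^ 2 - p.2 ^ 2 = a := by
    intro p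
    simp [prs]
  have h4 : 2 * ((sqs a).filter fun t => t ^ 2 - a ≠ 0).card ≤ Fintype.card K - 1 := by
    rw [hfib, mul_comm, ← smul_eq_mul, ← sum_const]
    refine (sum_le_sum (fun t ht => ?_)).trans
      (sum_le_sum_of_subset (f := fun t => ((prs a).filter fun p => p.1 = t).card)
        (filter_subset _ _))
    obtain ⟨ht1, ht2⟩ := mem_filter.1 ht
    obtain ⟨u, hu⟩ := (mem_filter.1 ht1).2
    have hu0 : u ≠ 0 := by
      rintro rfl
      exact ht2 (by rw [hu]; ring)
    have hne : (t, u) ≠ (t, -u) := by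
      intro h
      have h3 : u = -u := congrArg Prod.snd h
      have h4 : 2 * u = 0 := by linear_combination h3
      exact (mul_ne_zero h2 hu0) h4
    calc 2 = ({(t, u), (t, -u)} : Finset (K × K)).card := (card_pair hne).symm
      _ ≤ _ := by
          refine card_le_card fun p hp => ?_
          rw [mem_insert, mem_singleton] at hp
          rcases hp with rfl | rfl
          · exact mem_filter.2 ⟨(hmem _).2 (by linear_combination hu), rfl⟩
          · exact mem_filter.2 ⟨(hmem _).2 (by linear_combination hu), rfl⟩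
  have h8 := card_filter_add_card_filter_not (s := sqs a) (p := fun t => t ^ 2 - a ≠ 0)
  have h9 : ((sqs a).filter fun t => ¬ (t ^ 2 - a ≠ 0)).card ≤ 2 := by
    refine (card_le_card fun t ht => ?_).trans (card_zero_le' a)
    have := (mem_filter.1 ht).2
    push Not at this
    exact mem_filter.2 ⟨mem_univ _, sub_eq_zero.1 this⟩
  have hpos : 0 < Fintype.card K := Fintype.card_pos
  omega

theorem nsqs_bound (h2 : (2 : K) ≠ 0) {a : K} (ha : a ≠ 0) :
    Fintype.card K ≤ 2 * (nsqs a).card + 3 := by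
  classical
  have h4 := sqs_bound h2 ha
  have h5 : (sqs a).card + (nsqs a).card = Fintype.card K := by
    have := card_filter_add_card_filter_not (s := (univ : Finset K))
      (p := fun t => IsSquare (t ^ 2 - a))
    rw [card_univ] at this
    exact this
  omega

end sq

section omega

variable {ℓ : ℕ} [hℓ : Fact ℓ.Prime] {L : Type*} [Field L] [Fintype L] [Algebra (ZMod ℓ) L]

open Classical in
/-- Generators. -/
noncomputable def Om3 (ℓ : ℕ) [Fact ℓ.Prime] (L : Type*) [Field L] [Fintype L]
    [Algebra (ZMod ℓ) L] : Finset L :=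
  univ.filter fun x => (minpoly (ZMod ℓ) x).natDegree = Module.finrank (ZMod ℓ) L

open Classical in
/-- Generators `x` such that `x ^ 2 - a` is not a square. -/
noncomputable def Om2 (ℓ : ℕ) [Fact ℓ.Prime] {L : Type*} [Field L] [Fintype L]
    [Algebra (ZMod ℓ) L] (a : L) : Finset L :=
  univ.filter fun x => (minpoly (ZMod ℓ) x).natDegree = Module.finrank (ZMod ℓ) L ∧
    ¬ IsSquare (x ^ 2 - a)

theorem card_L : Fintype.card L = ℓ ^ Module.finrank (ZMod ℓ) L := by
  have h := Module.natCard_eq_pow_finrank (K := ZMod ℓ) (V := L)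
  rw [Nat.card_zmod, Nat.card_eq_fintype_card] at h
  exact h

theorem pow_half_le {d : ℕ} (hd : 3 ≤ d) (hl : 16 ≤ ℓ) : 16 * (16 * ℓ ^ (d / 2)) ≤ ℓ ^ d := by
  have h1 : ℓ ^ d = ℓ ^ (d - d / 2 - 2) * (ℓ * (ℓ * ℓ ^ (d / 2))) := by
    rw [← pow_succ', ← pow_succ', ← pow_add]
    congr 1
    omega
  have h2 : 1 ≤ ℓ ^ (d - d / 2 - 2) := Nat.one_le_pow _ _ hℓ.out.pos
  calc 16 * (16 * ℓ ^ (d / 2)) ≤ ℓ * (ℓ * ℓ ^ (d / 2)) :=
        Nat.mul_le_mul hl (Nat.mul_le_mul_right _ hl)
    _ = 1 * (ℓ * (ℓ * ℓ ^ (d / 2))) := (one_mul _).symm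
    _ ≤ ℓ ^ d := by rw [h1]; exact Nat.mul_le_mul_right _ h2

theorem Om3_bound (hd : 3 ≤ Module.finrank (ZMod ℓ) L) (hl : 16 ≤ ℓ) :
    ℓ ^ Module.finrank (ZMod ℓ) L ≤ 2 * (Om3 ℓ L).card := by
  classical
  have h1 : (Om3 ℓ L).card + (nonGen ℓ L).card = ℓ ^ Module.finrank (ZMod ℓ) L := by
    have := card_filter_add_card_filter_not (s := (univ : Finset L))
      (p := fun x => (minpoly (ZMod ℓ) x).natDegree = Module.finrank (ZMod ℓ) L)
    rw [card_univ, card_L (ℓ := ℓ)] at this
    exact this
  have h2 := card_nonGen_le (ℓ := ℓ) (L := L)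
  have h3 := pow_half_le (ℓ := ℓ) hd hl
  omega

theorem Om2_bound (hd : 3 ≤ Module.finrank (ZMod ℓ) L) (hl : 16 ≤ ℓ) (h2 : (2 : L) ≠ 0) {a : L}
    (ha : a ≠ 0) : ℓ ^ Module.finrank (ZMod ℓ) L ≤ 4 * (Om2 ℓ a).card := by
  classical
  have h1 : (nsqs a).card ≤ (Om2 ℓ a).card + (nonGen ℓ L).card := by
    refine (card_le_card fun x hx => ?_).trans (card_union_le _ _)
    have hx1 := (mem_filter.1 hx).2
    by_cases h : (minpoly (ZMod ℓ) x).natDegree = Module.finrank (ZMod ℓ) L
    · exact mem_union_left _ (mem_filter.2 ⟨mem_univ _, h, hx1⟩)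
    · exact mem_union_right _ (mem_filter.2 ⟨mem_univ _, h⟩)
  have h3 := card_nonGen_le (ℓ := ℓ) (L := L)
  have h4 := pow_half_le (ℓ := ℓ) hd hl
  have h5 := nsqs_bound h2 ha
  rw [card_L (ℓ := ℓ)] at h5
  have h6 : 1 ≤ ℓ ^ (Module.finrank (ZMod ℓ) L / 2) := Nat.one_le_pow _ _ hℓ.out.pos
  omega

end omega

end PA

end Pool.Agent.Work.FF
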