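import Pool.Agent.Work.MP_223b32_FF.Interface

/-!
Levinson recursion.
-/

namespace Pool.Agent.Work.FF

open Finset

/-- The Levinson vector and error. -/
noncomputable def lev (c : ℕ → ℝ) : ℕ → (ℕ → ℝ) × ℝ
  | 0 => (fun i => if i = 0 then 1 else 0, c 0)
  | j + 1 =>
    (fun i => (lev c j).1 i +
      (-(∑ l ∈ range (j + 1), c (j + 1 - l) * (lev c j).1 l) / (lev c j).2) *
        (if i ≤ j + 1 then (lev c j).1 (j + 1 - i) else 0),
      (lev c j).2 *
        (1 - (-(∑ l ∈ range (j + 1), c (j + 1 - l) * (lev c j).1 l) / (lev c j).2) ^ 2))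

/-- reflection coefficient -/
noncomputable def gam (c : ℕ → ℝ) (j : ℕ) : ℝ :=
  -(∑ l ∈ range (j + 1), c (j + 1 - l) * (lev c j).1 l) / (lev c j).2

theorem lev_succ_fst (c : ℕ → ℝ) (j i : ℕ) : (lev c (j + 1)).1 i =
    (lev c j).1 i + gam c j * (if i ≤ j + 1 then (lev c j).1 (j + 1 - i) else 0) := rfl

theorem lev_succ_snd (c : ℕ → ℝ) (j : ℕ) :
    (lev c (j + 1)).2 = (lev c j).2 * (1 - gam c j ^ 2) := rfl

theorem lev_zero_of_lt (c : ℕ → ℝ) : ∀ j i, j < i → (lev c j).1 i = 0
  | 0, i, h => by
    simp only [lev]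
    rw [if_neg (by omega)]
  | j + 1, i, h => by
    rw [lev_succ_fst, lev_zero_of_lt c j i (by omega), if_neg (by omega), mul_zero, add_zero]

theorem lev_fst_zero (c : ℕ → ℝ) : ∀ j, (lev c j).1 0 = 1
  | 0 => by simp [lev]
  | j + 1 => by
    rw [lev_succ_fst, lev_fst_zero c j, if_pos (Nat.zero_le _), Nat.sub_zero,
      lev_zero_of_lt c j (j + 1) (by omega), mul_zero, add_zero]

theorem gam_eq {c c' : ℕ → ℝ} {j : ℕ} (h : ∀ i ≤ j + 1, c i = c' i)
    (hl : lev c j = lev c' j) : gam c j = gam c' j := by
  rw [gam, gam, hl]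
  congr 2
  refine sum_congr rfl fun l hl => ?_
  rw [h _ (by omega)]

theorem lev_congr {c c' : ℕ → ℝ} : ∀ j, (∀ i ≤ j, c i = c' i) → lev c j = lev c' j
  | 0, h => by
    simp only [lev]
    rw [h 0 le_rfl]
  | j + 1, h => by
    have h1 := lev_congr (c := c) (c' := c') j (fun i hi => h i (by omega))
    have h2 := gam_eq h h1
    refine Prod.ext (funext fun i => ?_) ?_
    · rw [lev_succ_fst, lev_succ_fst, h1, h2]
    · rw [lev_succ_snd, lev_succ_snd, h1, h2]

/-- The equations of the Levinson vector, and positivity. -/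
theorem lev_main {c : ℕ → ℝ} {n : ℕ} (hc : ToepPos c n) : ∀ j ≤ n, 0 < (lev c j).2 ∧
    ∀ i ≤ j, ∑ l ∈ range (j + 1), c ((i - l) + (l - i)) * (lev c j).1 l =
      if i = 0 then (lev c j).2 else 0 := by
  -- positivity from the equations
  have key : ∀ j ≤ n, (∀ i ≤ j, ∑ l ∈ range (j + 1), c ((i - l) + (l - i)) * (lev c j).1 l =
      if i = 0 then (lev c j).2 else 0) → 0 < (lev c j).2 := by
    intro j hj h
    have h1 := hc (lev c j).1 ⟨0, Nat.zero_le _, by rw [lev_fst_zero]; exact one_ne_zero⟩
    have h2 : ∑ i ∈ range (n + 1), ∑ l ∈ range (n + 1),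
        (lev c j).1 i * (lev c j).1 l * c ((i - l) + (l - i)) = (lev c j).2 := by
      have h3 : ∀ i ∈ range (n + 1), ∑ l ∈ range (n + 1),
          (lev c j).1 i * (lev c j).1 l * c ((i - l) + (l - i)) =
          (lev c j).1 i * ∑ l ∈ range (j + 1), c ((i - l) + (l - i)) * (lev c j).1 l := by
        intro i _
        rw [mul_sum]
        rw [← sum_subset (range_subset_range.2 (by omega : j + 1 ≤ n + 1))]
        · exact sum_congr rfl fun l _ => by ring
        · intro l _ hl
          rw [mem_range, not_lt] at hl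
          rw [lev_zero_of_lt c j l (by omega)]
          ring
      rw [sum_congr rfl h3, ← sum_subset (range_subset_range.2 (by omega : j + 1 ≤ n + 1))]
      · rw [sum_eq_single 0]
        · rw [h 0 (Nat.zero_le _), if_pos rfl, lev_fst_zero, one_mul]
        · intro i hi hne
          rw [h i (by have := mem_range.1 hi; omega), if_neg hne, mul_zero]
        · intro h0
          exact absurd (mem_range.2 (Nat.succ_pos j)) h0
      · intro i _ hi
        rw [mem_range, not_lt] at hi
        rw [lev_zero_of_lt c j i (by omega), zero_mul]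
    rw [h2] at h1
    exact h1
  intro j
  induction j with
  | zero =>
    intro hj
    have h0 : ∀ i ≤ 0, ∑ l ∈ range (0 + 1), c ((i - l) + (l - i)) * (lev c 0).1 l =
      if i = 0 then (lev c 0).2 else 0 := by
      intro i hi
      obtain rfl : i = 0 := by omega
      simp [lev]
    exact ⟨key 0 hj h0, h0⟩
  | succ j ih =>
    intro hj
    obtain ⟨hE, hEq⟩ := ih (by omega)
    set v := (lev c j).1 with hv
    set E := (lev c j).2 with hEdef
    have hv1 : v (j + 1) = 0 := lev_zero_of_lt c j (j + 1) (by omega)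
    have hν : ∑ l ∈ range (j + 1), c (j + 1 - l) * v l = -(gam c j * E) := by
      rw [gam, ← hv, ← hEdef]
      field_simp
      try ring
    have first : ∀ i ≤ j + 1, ∑ l ∈ range (j + 2), c ((i - l) + (l - i)) * v l =
        (if i = 0 then E else 0) + (if i = j + 1 then -(gam c j * E) else 0) := by
      intro i hi
      rw [sum_range_succ, hv1, mul_zero, add_zero]
      by_cases h1 : i = j + 1
      · subst h1
        rw [if_neg (by omega), if_pos rfl, zero_add, ← hν]
        refine sum_congr rfl fun l hl => ?_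
        have := mem_range.1 hl
        rw [show j + 1 - l + (l - (j + 1)) = j + 1 - l by omega]
      · rw [if_neg h1, add_zero]
        exact hEq i (by omega)
    have second : ∀ i ≤ j + 1, ∑ l ∈ range (j + 2), c ((i - l) + (l - i)) * v (j + 1 - l) =
        (if i = j + 1 then E else 0) + (if i = 0 then -(gam c j * E) else 0) := by
      intro i hi
      have h1 := first (j + 1 - i) (by omega)
      rw [← sum_range_reflect] at h1
      have h2 : ∀ l ∈ range (j + 2), c ((i - l) + (l - i)) * v (j + 1 - l) =
          c ((j + 1 - i - (j + 2 - 1 - l)) + (j + 2 - 1 - l - (j + 1 - i))) * v (j + 2 - 1 - l) := by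
        intro l hl
        have := mem_range.1 hl
        rw [show (i - l) + (l - i) = (j + 1 - i - (j + 2 - 1 - l)) + (j + 2 - 1 - l - (j + 1 - i))
          by omega]
        congr 2
      rw [sum_congr rfl h2, h1]
      congr 1
      · by_cases h3 : i = j + 1
        · rw [if_pos (by omega), if_pos h3]
        · rw [if_neg (by omega), if_neg h3]
      · by_cases h3 : i = 0
        · rw [if_pos (by omega), if_pos h3]
        · rw [if_neg (by omega), if_neg h3]
    have heq : ∀ i ≤ j + 1, ∑ l ∈ range (j + 1 + 1), c ((i - l) + (l - i)) * (lev c (j + 1)).1 l =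
        if i = 0 then (lev c (j + 1)).2 else 0 := by
      intro i hi
      have h1 : ∀ l ∈ range (j + 1 + 1), c ((i - l) + (l - i)) * (lev c (j + 1)).1 l =
          c ((i - l) + (l - i)) * v l + gam c j * (c ((i - l) + (l - i)) * v (j + 1 - l)) := by
        intro l hl
        have := mem_range.1 hl
        rw [lev_succ_fst, if_pos (by omega)]
        ring
      rw [sum_congr rfl h1, sum_add_distrib, ← mul_sum, first i hi, second i hi, lev_succ_snd,
        ← hEdef]
      by_cases h2 : i = 0
      · subst h2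
        rw [if_pos rfl, if_neg (by omega), if_neg (by omega), if_pos rfl, if_pos rfl]
        ring
      · rw [if_neg h2, if_neg h2, if_neg h2]
        by_cases h3 : i = j + 1
        · rw [if_pos h3, if_pos h3]
          ring
        · rw [if_neg h3, if_neg h3]
          ring
    exact ⟨key (j + 1) hj heq, heq⟩

theorem gam_sq_lt {c : ℕ → ℝ} {n : ℕ} (hc : ToepPos c n) {j : ℕ} (hj : j < n) :
    gam c j ^ 2 < 1 := by
  have h1 := (lev_main hc j hj.le).1
  have h2 := (lev_main hc (j + 1) hj).1
  rw [lev_succ_snd] at h2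
  have := (mul_pos_iff_of_pos_left h1).1 h2
  linarith

/-- `gam` is affine in the last moment. -/
theorem gam_affine {c : ℕ → ℝ} {j : ℕ} : gam c j =
    -(c (j + 1) + ∑ l ∈ range j, c (j - l) * (lev c j).1 (l + 1)) / (lev c j).2 := by
  rw [gam, sum_range_succ', lev_fst_zero]
  congr 2
  rw [mul_one, Nat.sub_zero, add_comm]
  congr 1
  refine sum_congr rfl fun l _ => ?_
  rw [show j + 1 - (l + 1) = j - l by omega]

end Pool.Agent.Work.FF
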